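import Pool.Agent.Lib.QPA.ADef

set_option autoImplicit false

namespace QPR

open MeasureTheory

/-- Properties of `chi`: smooth, even, nonnegative, integral one, support in the unit ball. -/
theorem chi_props (n : ℕ) : Smo (chi n) ∧ HasCompactSupport (chi n) ∧ (∀ x, chi n (-x) = chi n x) ∧
    (∀ x, 0 ≤ chi n x) ∧ (∫ x, chi n x) = 1 ∧ (∀ x, 1 < ‖x‖ → chi n x = 0) := by
  refine ⟨?_, ?_, ?_, ?_, ?_, ?_⟩
  · exact ContDiffBump.contDiff_normed _
  · exact ContDiffBump.hasCompactSupport_normed _
  · intro x
    exact ContDiffBump.normed_neg _ x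
  · intro x
    exact ContDiffBump.nonneg_normed _ x
  · exact ContDiffBump.integral_normed _
  · intro x hx
    by_contra h
    have h1 : x ∈ Function.support (chi n) := h
    rw [chi, ContDiffBump.support_normed_eq, mem_ball_zero_iff] at h1
    exact absurd h1 (not_lt.2 hx.le)

end QPR
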