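import Pool.Agent.Lib.QPA.ALin

set_option autoImplicit false

namespace QPR

private theorem AComp_scale {n : ℕ} {E : Type*} [NormedAddCommGroup E] [NormedSpace ℝ E]
    (L : ℝ) (hL : 0 < L) (f : (Fin n → ℝ) → E) (hf : Smo f) (i : ℕ) (z : Fin n → ℝ) :
    ‖iteratedFDeriv ℝ i (fun z => L • f (L⁻¹ • z)) z‖
      ≤ L * (‖iteratedFDeriv ℝ i f (L⁻¹ • z)‖ * (L⁻¹) ^ i) := by
  set g : (Fin n → ℝ) →L[ℝ] (Fin n → ℝ) := L⁻¹ • ContinuousLinearMap.id ℝ (Fin n → ℝ) with hg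
  have hfi : ContDiff ℝ i f := hf.of_le (by exact_mod_cast le_top)
  have hcomp : ContDiff ℝ i (f ∘ g) := hfi.comp g.contDiff
  have h1 : (fun z => L • f (L⁻¹ • z)) = L • (f ∘ g) := by
    funext z
    simp [hg]
  rw [h1, iteratedFDeriv_const_smul_apply hcomp.contDiffAt, norm_smul, Real.norm_eq_abs,
    abs_of_pos hL]
  refine mul_le_mul_of_nonneg_left ?_ hL.le
  rw [g.iteratedFDeriv_comp_right hfi z le_rfl]
  refine (ContinuousMultilinearMap.norm_compContinuousLinearMap_le _ _).trans ?_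
  have h2 : ‖g‖ ≤ L⁻¹ := by
    rw [hg, norm_smul, Real.norm_eq_abs, abs_of_pos (inv_pos.mpr hL)]
    have := ContinuousLinearMap.norm_id_le (𝕜 := ℝ) (E := Fin n → ℝ)
    exact mul_le_of_le_one_right (inv_pos.mpr hL).le this
  rw [Finset.prod_const, Finset.card_univ, Fintype.card_fin]
  have h3 : g z = L⁻¹ • z := by simp [hg]
  rw [h3]
  exact mul_le_mul_of_nonneg_left (pow_le_pow_left₀ (norm_nonneg _) h2 i) (norm_nonneg _)

private theorem AComp_smo {n : ℕ} {E : Type*} [NormedAddCommGroup E] [NormedSpace ℝ E]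
    (L : ℝ) (f : (Fin n → ℝ) → E) (hf : Smo f) :
    Smo (fun z : Fin n → ℝ => L • f (L⁻¹ • z)) :=
  (hf.comp (contDiff_const_smul L⁻¹)).const_smul L

private theorem AComp_one {n : ℕ} {E : Type*} [NormedAddCommGroup E] [NormedSpace ℝ E]
    (r : ℕ) (A c : ℝ) (hA : 1 ≤ A) (hc : 0 ≤ c) (Y : (Fin n → ℝ) → E)
    (Φ : (Fin n → ℝ) → (Fin n → ℝ)) (hΦ : Mb r 1 A Φ) (hY : Mb r 1 c Y) (i : ℕ) (hi1 : 1 ≤ i)
    (hir : i ≤ r) (x : Fin n → ℝ) :
    ‖iteratedFDeriv ℝ i (fun x => Y (Φ x)) x‖ ≤ (Nat.factorial r : ℝ) * A ^ r * c := by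
  set g : (Fin n → ℝ) → E := fun z => Y z - Y (Φ x) with hg
  have hgs : ContDiff ℝ i g := (hY.1.of_le (by exact_mod_cast le_top)).sub contDiff_const
  have hΦs : ContDiff ℝ i Φ := hΦ.1.of_le (by exact_mod_cast le_top)
  have hYs : ContDiff ℝ i Y := hY.1.of_le (by exact_mod_cast le_top)
  have key : ∀ (G : (Fin n → ℝ) → E) (hG : ContDiff ℝ i G) (e : E) (j : ℕ), 1 ≤ j → j ≤ i →
      ∀ z, iteratedFDeriv ℝ j (fun z => G z - e) z = iteratedFDeriv ℝ j G z := by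
    intro G hG e j hj1 hji z
    have hGj : ContDiff ℝ j G := hG.of_le (by exact_mod_cast hji)
    have h1 : (fun z => G z - e) = G - (fun _ => e) := rfl
    rw [h1, iteratedFDeriv_sub_apply hGj.contDiffAt contDiff_const.contDiffAt]
    rw [iteratedFDeriv_const_of_ne (by omega) e]
    simp
  have hmain := norm_iteratedFDeriv_comp_le (𝕜 := ℝ) (g := g) (f := Φ) (n := i) (N := i)
    hgs hΦs le_rfl x (C := c) (D := A)
    (by
      intro j hj
      rcases Nat.eq_zero_or_pos j with h0 | h0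
      · subst h0
        rw [norm_iteratedFDeriv_zero, hg]
        simpa using hc
      · rw [hg, key Y hYs (Y (Φ x)) j h0 hj]
        have := hY.2 j h0 (hj.trans hir) (Φ x)
        simpa using this)
    (by
      intro j hj1 hj
      have := hΦ.2 j hj1 (hj.trans hir) x
      rw [one_pow, mul_one] at this
      exact this.trans (le_self_pow₀ hA (by omega)))
  have e1 : (g ∘ Φ) = fun z => (fun x => Y (Φ x)) z - Y (Φ x) := rfl
  rw [e1, key (fun x => Y (Φ x)) (hYs.comp hΦs) (Y (Φ x)) i hi1 le_rfl] at hmain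
  refine hmain.trans ?_
  have h2 : (Nat.factorial i : ℝ) ≤ Nat.factorial r := by exact_mod_cast Nat.factorial_le hir
  have h3 : A ^ i ≤ A ^ r := pow_le_pow_right₀ hA hir
  have h4 : (0 : ℝ) ≤ A ^ i := by positivity
  calc (Nat.factorial i : ℝ) * c * A ^ i = (Nat.factorial i : ℝ) * A ^ i * c := by ring
    _ ≤ (Nat.factorial r : ℝ) * A ^ r * c := by
        refine mul_le_mul_of_nonneg_right ?_ hc
        exact mul_le_mul h2 h3 h4 (by positivity)

/-- Composition. First `K = 1`: apply `norm_iteratedFDeriv_comp_le` at the point `x` to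
`g = Y - Y (Φ x)` (constant subtracted, so that `‖g (Φ x)‖ = 0 ≤ c`), with `C = c`, `D = A ≥ 1`:
`‖D^i (Y ∘ Φ) x‖ ≤ i! * c * A^i`. General `K > 0` by scaling: the functions
`z ↦ K • Φ (K⁻¹ • z)` and `z ↦ K • Y (K⁻¹ • z)` satisfy `Mb r 1` with the same constants (the
derivative of order `i` is multiplied by `K ^ (1 - i)`;
`ContinuousLinearMap.iteratedFDeriv_comp_right`). -/
theorem mb_comp (n r : ℕ) (E : Type*) [NormedAddCommGroup E] [NormedSpace ℝ E] (A : ℝ)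
    (hA : 1 ≤ A) :
    ∃ C : ℝ, 1 ≤ C ∧ ∀ (K c : ℝ), 0 < K → 0 ≤ c → ∀ (Y : (Fin n → ℝ) → E)
      (Φ : (Fin n → ℝ) → (Fin n → ℝ)), Mb r K A Φ → Mb r K c Y →
      Mb r K (C * c) (fun x => Y (Φ x)) := by
  refine ⟨(Nat.factorial r : ℝ) * A ^ r, ?_, ?_⟩
  · have h1 : (1 : ℝ) ≤ Nat.factorial r := by exact_mod_cast Nat.factorial_pos r
    have h2 : (1 : ℝ) ≤ A ^ r := one_le_pow₀ hA
    nlinarith
  · intro K c hK hc Y Φ hΦ hY
    have hKi : 0 < K⁻¹ := inv_pos.mpr hK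
    refine ⟨hY.1.comp hΦ.1, ?_⟩
    intro i hi1 hir x
    set Φ1 : (Fin n → ℝ) → (Fin n → ℝ) := fun z => K • Φ (K⁻¹ • z) with hΦ1
    set Y1 : (Fin n → ℝ) → E := fun z => K • Y (K⁻¹ • z) with hY1
    have hres : ∀ (B : ℝ) (j : ℕ), 1 ≤ j → K * (B * K ^ (j - 1) * (K⁻¹) ^ j) = B := by
      intro B j hj
      obtain ⟨l, rfl⟩ : ∃ l, j = l + 1 := ⟨j - 1, by omega⟩
      rw [Nat.add_sub_cancel, inv_pow, pow_succ]
      field_simp
    have hMΦ : Mb r 1 A Φ1 := by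
      refine ⟨AComp_smo K Φ hΦ.1, fun j hj1 hjr z => ?_⟩
      rw [one_pow, mul_one]
      refine (AComp_scale K hK Φ hΦ.1 j z).trans ?_
      rw [← hres A j hj1]
      exact mul_le_mul_of_nonneg_left
        (mul_le_mul_of_nonneg_right (hΦ.2 j hj1 hjr _) (by positivity)) hK.le
    have hMY : Mb r 1 c Y1 := by
      refine ⟨AComp_smo K Y hY.1, fun j hj1 hjr z => ?_⟩
      rw [one_pow, mul_one]
      refine (AComp_scale K hK Y hY.1 j z).trans ?_
      rw [← hres c j hj1]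
      exact mul_le_mul_of_nonneg_left
        (mul_le_mul_of_nonneg_right (hY.2 j hj1 hjr _) (by positivity)) hK.le
    have h1 := AComp_one r A c hA hc Y1 Φ1 hMΦ hMY i hi1 hir (K • x)
    have hsm : Smo (fun z => Y1 (Φ1 z)) := hMY.1.comp hMΦ.1
    have h2 := AComp_scale K⁻¹ hKi (fun z => Y1 (Φ1 z)) hsm i x
    have e1 : (fun z => K⁻¹ • Y1 (Φ1 ((K⁻¹)⁻¹ • z))) = fun x => Y (Φ x) := by
      funext z
      simp only [hY1, hΦ1, inv_inv]
      rw [smul_smul, inv_mul_cancel₀ hK.ne', one_smul, smul_smul, inv_mul_cancel₀ hK.ne', one_smul,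
        smul_smul, inv_mul_cancel₀ hK.ne', one_smul]
    rw [e1, inv_inv] at h2
    refine h2.trans ?_
    have h3 : K⁻¹ * (‖iteratedFDeriv ℝ i (fun z => Y1 (Φ1 z)) (K • x)‖ * K ^ i)
        ≤ K⁻¹ * ((Nat.factorial r : ℝ) * A ^ r * c * K ^ i) :=
      mul_le_mul_of_nonneg_left (mul_le_mul_of_nonneg_right h1 (by positivity)) hKi.le
    refine h3.trans (le_of_eq ?_)
    obtain ⟨l, rfl⟩ : ∃ l, i = l + 1 := ⟨i - 1, by omega⟩
    rw [Nat.add_sub_cancel, pow_succ]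
    field_simp

end QPR
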