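import Pool.Agent.Lib.QPA.ADef

set_option autoImplicit false

namespace QPR

open MeasureTheory
open scoped Convolution

private theorem AConv_aux {n : ℕ} {E : Type} [NormedAddCommGroup E] [NormedSpace ℝ E]
    (g : (Fin n → ℝ) → E) (hg : Continuous g) (i : ℕ) :
    ∀ (E₁ E₂ : Type) [NormedAddCommGroup E₁] [NormedSpace ℝ E₁] [NormedAddCommGroup E₂]
      [NormedSpace ℝ E₂] (L : E₁ →L[ℝ] E →L[ℝ] E₂) (_ : ‖L‖ ≤ 1) (k : (Fin n → ℝ) → E₁)
      (_ : Smo k) (_ : HasCompactSupport k) (x : Fin n → ℝ),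
      ‖iteratedFDeriv ℝ i (k ⋆[L, volume] g) x‖
        ≤ ∫ z, ‖iteratedFDeriv ℝ i k (x - z)‖ * ‖g z‖ := by
  induction i with
  | zero =>
    intro E₁ E₂ _ _ _ _ L hL k hk hks x
    rw [norm_iteratedFDeriv_zero, convolution_eq_swap]
    simp only [norm_iteratedFDeriv_zero]
    have hc : Continuous fun z : Fin n → ℝ => ‖k (x - z)‖ * ‖g z‖ :=
      ((hk.continuous.comp (continuous_const.sub continuous_id)).norm).mul hg.norm
    have hs : HasCompactSupport fun z : Fin n → ℝ => ‖k (x - z)‖ * ‖g z‖ := by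
      have h1 : HasCompactSupport fun z : Fin n → ℝ => k (x - z) :=
        hks.comp_homeomorph (Homeomorph.subLeft x)
      exact h1.norm.mul_right
    refine (norm_integral_le_integral_norm _).trans (integral_mono_of_nonneg
      (Filter.Eventually.of_forall fun z => norm_nonneg _)
      (hc.integrable_of_hasCompactSupport hs) (Filter.Eventually.of_forall fun z => ?_))
    calc ‖L (k (x - z)) (g z)‖ ≤ ‖L‖ * ‖k (x - z)‖ * ‖g z‖ := L.le_opNorm₂ _ _
      _ ≤ 1 * ‖k (x - z)‖ * ‖g z‖ := by gcongr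
      _ = ‖k (x - z)‖ * ‖g z‖ := by rw [one_mul]
  | succ i ih =>
    intro E₁ E₂ _ _ _ _ L hL k hk hks x
    rw [← norm_iteratedFDeriv_fderiv]
    have h1 : fderiv ℝ (k ⋆[L, volume] g) =
        (fderiv ℝ k ⋆[L.precompL (Fin n → ℝ), volume] g) :=
      funext fun y => (hks.hasFDerivAt_convolution_left L
        (hk.of_le (by exact_mod_cast le_top)) hg.locallyIntegrable y).fderiv
    rw [h1]
    have h2 := ih _ _ (L.precompL (Fin n → ℝ))
      ((ContinuousLinearMap.norm_precompL_le _ L).trans hL) (fderiv ℝ k)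
      (hk.fderiv_right (by exact_mod_cast le_top)) (hks.fderiv ℝ) x
    simpa only [norm_iteratedFDeriv_fderiv] using h2

/-- Derivatives of a convolution with a smooth compactly supported kernel. Induction on `i` with a
general bilinear map (`HasCompactSupport.hasFDerivAt_convolution_left`,
`HasCompactSupport.contDiff_convolution_left`): for `k : ℝ^n → E₁`, `L : E₁ →L E →L E₂`, `‖L‖ ≤ 1`,
`fderiv (k ⋆[L] g) = (fderiv k) ⋆[L.precompL] g`, and `‖iteratedFDeriv (i+1) G x‖` is the norm of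
`iteratedFDeriv i (fderiv G) x`. -/
theorem conv_bound {n : ℕ} {E : Type} [NormedAddCommGroup E] [NormedSpace ℝ E]
    [CompleteSpace E] (k : (Fin n → ℝ) → ℝ) (hk : Smo k) (hks : HasCompactSupport k)
    (g : (Fin n → ℝ) → E) (hg : Continuous g) :
    Smo (fun x => ∫ z, k (x - z) • g z) ∧
    ∀ (i : ℕ) (x : Fin n → ℝ), ‖iteratedFDeriv ℝ i (fun x => ∫ z, k (x - z) • g z) x‖
      ≤ ∫ z, ‖iteratedFDeriv ℝ i k (x - z)‖ * ‖g z‖ := by
  have h1 : (fun x => ∫ z, k (x - z) • g z) =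
      (k ⋆[ContinuousLinearMap.lsmul ℝ ℝ, volume] g) := by
    funext x
    rw [convolution_eq_swap]
    rfl
  rw [h1]
  refine ⟨hks.contDiff_convolution_left _ hk hg.locallyIntegrable, fun i x => ?_⟩
  exact AConv_aux g hg i ℝ E (ContinuousLinearMap.lsmul ℝ ℝ)
    ContinuousLinearMap.opNorm_lsmul_le k hk hks x

end QPR
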