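import Pool.Agent.Lib.QPR.Basic

set_option autoImplicit false

/-!
# Bi-Lipschitz linearisable torus diffeomorphisms: definitions

Torus maps are represented by lifts `Φ : ℝ^n → ℝ^n` with `Φ (x + k) = Φ x + k` for integer `k`.
-/

namespace QPR

open MeasureTheory

/-- lifts of torus maps homotopic to the identity. -/
def PerD {n : ℕ} (Φ : (Fin n → ℝ) → (Fin n → ℝ)) : Prop :=
  ∀ (x : Fin n → ℝ) (k : Fin n → ℤ), Φ (x + fun i => (k i : ℝ)) = Φ x + fun i => (k i : ℝ)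

/-- `Φ` is smooth and its derivatives of order `1 ≤ i ≤ r` are bounded by `A * K ^ (i - 1)`
(no bound on `Φ` itself). -/
def Mb {n : ℕ} {E : Type*} [NormedAddCommGroup E] [NormedSpace ℝ E]
    (r : ℕ) (K A : ℝ) (Φ : (Fin n → ℝ) → E) : Prop :=
  Smo Φ ∧ ∀ i, 1 ≤ i → i ≤ r → ∀ x, ‖iteratedFDeriv ℝ i Φ x‖ ≤ A * K ^ (i - 1)

/-- the displacement `Φ^n x - x - n α` of the iterates. -/
def Disp {n : ℕ} (α : Fin n → ℝ) (Φ : (Fin n → ℝ) → (Fin n → ℝ)) (k : ℕ) (x : Fin n → ℝ) :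
    Fin n → ℝ :=
  Φ^[k] x - x - (k : ℝ) • α

/-- the data: a smooth diffeomorphism `F` (inverse `F'`) and a homeomorphism `H` (inverse `H'`) with
`H (F x) = H x + α`. -/
structure DatA {n : ℕ} (α : Fin n → ℝ) (F F' H H' : (Fin n → ℝ) → (Fin n → ℝ)) : Prop where
  smF : Smo F
  smF' : Smo F'
  perF : PerD F
  perF' : PerD F'
  leftF : ∀ x, F' (F x) = x
  rightF : ∀ x, F (F' x) = x
  contH : Continuous H
  contH' : Continuous H'
  perH : PerD H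
  perH' : PerD H'
  leftH : ∀ x, H' (H x) = x
  rightH : ∀ x, H (H' x) = x
  conj : ∀ x, H (F x) = H x + α

/-- `H` is bi-Lipschitz with constant `L`. -/
def BiL {n : ℕ} (L : ℝ) (H : (Fin n → ℝ) → (Fin n → ℝ)) : Prop :=
  ∀ x y, ‖H x - H y‖ ≤ L * ‖x - y‖ ∧ ‖x - y‖ ≤ L * ‖H x - H y‖

/-- `H` is uniformly close to affine maps at small scales. -/
def Flat {n : ℕ} (H : (Fin n → ℝ) → (Fin n → ℝ)) : Prop :=
  ∀ η : ℝ, 0 < η → ∃ s₀ : ℝ, 0 < s₀ ∧ ∀ s : ℝ, 0 < s → s ≤ s₀ → ∀ x : Fin n → ℝ,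
    ∃ (b : Fin n → ℝ) (T : (Fin n → ℝ) →L[ℝ] (Fin n → ℝ)),
      ∀ y, ‖y - x‖ ≤ s → ‖H y - b - T (y - x)‖ ≤ η * s

/-- the standard even bump function with integral one, supported in the unit ball. -/
noncomputable def chi (n : ℕ) : (Fin n → ℝ) → ℝ :=
  (⟨1 / 2, 1, by norm_num, by norm_num⟩ : ContDiffBump (0 : Fin n → ℝ)).normed volume

/-- mollification at scale `1 / κ`. -/
noncomputable def mol {n : ℕ} (κ : ℝ) (H : (Fin n → ℝ) → (Fin n → ℝ)) (x : Fin n → ℝ) :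
    Fin n → ℝ :=
  ∫ z, chi n z • H (x - (1 / κ) • z)

end QPR
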