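import Pool.Agent.Lib.QPA.AComp

set_option autoImplicit false

namespace QPR

open scoped Nat

private theorem AInv_le_top (i : ℕ) : (i : WithTop ℕ∞) ≤ ((⊤ : ℕ∞) : WithTop ℕ∞) := by
  exact_mod_cast le_top

private theorem AInv_scale {n : ℕ} {E : Type*} [NormedAddCommGroup E] [NormedSpace ℝ E]
    (f : (Fin n → ℝ) → E) (hf : Smo f) (a : ℝ) (ha : 0 ≤ a) (i : ℕ) (x : Fin n → ℝ) :
    ‖iteratedFDeriv ℝ i (fun x => f (a • x)) x‖ ≤ ‖iteratedFDeriv ℝ i f (a • x)‖ * a ^ i := by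
  let g : (Fin n → ℝ) →L[ℝ] (Fin n → ℝ) := a • ContinuousLinearMap.id ℝ (Fin n → ℝ)
  have hg : ‖g‖ ≤ a := by
    refine ContinuousLinearMap.opNorm_le_bound g ha fun z => ?_
    have h1 : g z = a • z := by simp [g]
    rw [h1, norm_smul, Real.norm_of_nonneg ha]
  have h1 := g.iteratedFDeriv_comp_right hf x (AInv_le_top i)
  have h2 : (fun x => f (a • x)) = f ∘ g := by
    funext y
    simp [g]
  have h3 : g x = a • x := by simp [g]
  rw [h2, h1, h3]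
  refine (ContinuousMultilinearMap.norm_compContinuousLinearMap_le _ _).trans ?_
  refine mul_le_mul_of_nonneg_left ?_ (norm_nonneg _)
  rw [Finset.prod_const, Finset.card_univ, Fintype.card_fin]
  exact pow_le_pow_left₀ (norm_nonneg _) hg i

private theorem AInv_smul {n : ℕ} {E : Type*} [NormedAddCommGroup E] [NormedSpace ℝ E]
    (f : (Fin n → ℝ) → E) (hf : Smo f) (b : ℝ) (hb : 0 ≤ b) (i : ℕ) (x : Fin n → ℝ) :
    ‖iteratedFDeriv ℝ i (fun x => b • f x) x‖ = b * ‖iteratedFDeriv ℝ i f x‖ := by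
  have h1 : iteratedFDeriv ℝ i (fun x => b • f x) x = b • iteratedFDeriv ℝ i f x :=
    iteratedFDeriv_const_smul_apply' ((hf.of_le (AInv_le_top i)).contDiffAt)
  rw [h1, norm_smul, Real.norm_of_nonneg hb]

private theorem AInv_mulleft {n : ℕ} {𝔸 : Type*} [NormedRing 𝔸] [NormedAlgebra ℝ 𝔸]
    (F : (Fin n → ℝ) → 𝔸) (hF : Smo F) (a : 𝔸) (i : ℕ) (x : Fin n → ℝ) :
    ‖iteratedFDeriv ℝ i (fun y => a * F y) x‖ ≤ ‖a‖ * ‖iteratedFDeriv ℝ i F x‖ := by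
  let L : 𝔸 →L[ℝ] 𝔸 := ContinuousLinearMap.mul ℝ 𝔸 a
  have h1 : iteratedFDeriv ℝ i (L ∘ F) x = L.compContinuousMultilinearMap (iteratedFDeriv ℝ i F x) :=
    L.iteratedFDeriv_comp_left hF.contDiffAt (AInv_le_top i)
  have h2 : (fun y => a * F y) = L ∘ F := rfl
  rw [h2, h1]
  refine (L.norm_compContinuousMultilinearMap_le _).trans ?_
  exact mul_le_mul_of_nonneg_right (ContinuousLinearMap.opNorm_mul_apply_le ℝ 𝔸 a) (norm_nonneg _)

private theorem AInv_smo_fderiv {n : ℕ} {Ψ : (Fin n → ℝ) → (Fin n → ℝ)} (h : Smo Ψ) :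
    Smo (fderiv ℝ Ψ) :=
  h.fderiv_right (m := ((⊤ : ℕ∞) : WithTop ℕ∞)) (by simp)

private theorem AInv_chain {n : ℕ} {Φ Ψ : (Fin n → ℝ) → (Fin n → ℝ)} (hΦ : Smo Φ) (hΨ : Smo Ψ)
    (h : ∀ y, Φ (Ψ y) = y) (y : Fin n → ℝ) : fderiv ℝ Φ (Ψ y) * fderiv ℝ Ψ y = 1 := by
  have h1 : HasFDerivAt Φ (fderiv ℝ Φ (Ψ y)) (Ψ y) :=
    ((hΦ.differentiable (by simp)) (Ψ y)).hasFDerivAt
  have h2 : HasFDerivAt Ψ (fderiv ℝ Ψ y) y := ((hΨ.differentiable (by simp)) y).hasFDerivAt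
  have h3 := h1.comp y h2
  have h4 : Φ ∘ Ψ = id := by funext z; exact h z
  rw [h4] at h3
  exact h3.unique (hasFDerivAt_id y)

private theorem AInv_core (n r : ℕ) (A : ℝ) (hA : 1 ≤ A) : ∀ k : ℕ, k + 1 ≤ r →
    ∃ B : ℝ, 1 ≤ B ∧ ∀ Φ Ψ : (Fin n → ℝ) → (Fin n → ℝ), Mb r 1 A Φ → Smo Ψ →
      (∀ x, Ψ (Φ x) = x) → (∀ y, Φ (Ψ y) = y) → (∀ y, ‖fderiv ℝ Ψ y‖ ≤ A) →
      ∀ l ≤ k, ∀ y, ‖iteratedFDeriv ℝ l (fderiv ℝ Ψ) y‖ ≤ B := by
  intro k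
  induction k with
  | zero =>
    intro _
    refine ⟨A, hA, fun Φ Ψ _ _ _ _ hN l hl y => ?_⟩
    obtain rfl : l = 0 := by omega
    rw [norm_iteratedFDeriv_zero]
    exact hN y
  | succ k ih =>
    intro hk
    obtain ⟨B, hB, hBk⟩ := ih (by omega)
    set Q : ℝ := ((k + 1)! : ℝ) * A * B ^ (k + 1) with hQ
    have hQ0 : 0 ≤ Q := by positivity
    refine ⟨B + 2 ^ (k + 1) * (A * Q * B), by
      have : 0 ≤ 2 ^ (k + 1) * (A * Q * B) := by positivity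
      linarith, ?_⟩
    intro Φ Ψ hΦ hΨ hl hr hN l hlk y0
    have hBl := hBk Φ Ψ hΦ hΨ hl hr hN
    have hpos : 0 ≤ 2 ^ (k + 1) * (A * Q * B) := by positivity
    rcases Nat.lt_or_ge l (k + 1) with hlt | hge
    · have := hBl l (by omega) y0
      linarith
    obtain rfl : l = k + 1 := by omega
    have hG : Smo (fderiv ℝ Ψ) := AInv_smo_fderiv hΨ
    have hPhi : Smo (fderiv ℝ Φ) := AInv_smo_fderiv hΦ.1
    have hP : Smo (fun y => fderiv ℝ Φ (Ψ y)) := hPhi.comp hΨ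
    -- derivatives of `P`
    have hPj : ∀ j, j ≤ k + 1 → ∀ y, ‖iteratedFDeriv ℝ j (fun y => fderiv ℝ Φ (Ψ y)) y‖ ≤ Q := by
      intro j hj y
      have h1 : ‖iteratedFDeriv ℝ j (fderiv ℝ Φ ∘ Ψ) y‖ ≤ (j ! : ℝ) * A * B ^ j := by
        refine norm_iteratedFDeriv_comp_le hPhi hΨ (AInv_le_top j) y ?_ ?_
        · intro i hi
          rw [norm_iteratedFDeriv_fderiv]
          have := hΦ.2 (i + 1) (by omega) (by omega) (Ψ y)
          simpa using this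
        · intro i h1i hij
          obtain ⟨i', rfl⟩ : ∃ i', i = i' + 1 := ⟨i - 1, by omega⟩
          rw [← norm_iteratedFDeriv_fderiv]
          refine (hBl i' (by omega) y).trans ?_
          calc B = B ^ 1 := (pow_one B).symm
            _ ≤ B ^ (i' + 1) := pow_le_pow_right₀ hB (by omega)
      refine h1.trans ?_
      have h2 : (j ! : ℝ) ≤ ((k + 1)! : ℝ) := by exact_mod_cast Nat.factorial_le hj
      have h3 : B ^ j ≤ B ^ (k + 1) := pow_le_pow_right₀ hB hj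
      rw [hQ]
      gcongr
    set a0 : (Fin n → ℝ) →L[ℝ] (Fin n → ℝ) := fderiv ℝ Ψ y0 with ha0
    have hGP : a0 * fderiv ℝ Φ (Ψ y0) = 1 := by
      have h1 := AInv_chain hΨ hΦ.1 hl (Ψ y0)
      rw [hr y0] at h1
      exact h1
    -- the key identity
    have hid : fderiv ℝ Ψ = fun y => ((1 : (Fin n → ℝ) →L[ℝ] (Fin n → ℝ)) + (-a0) *
        fderiv ℝ Φ (Ψ y)) * fderiv ℝ Ψ y + a0 := by
      funext y
      have h1 := AInv_chain hΦ.1 hΨ hr y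
      rw [add_mul, one_mul, mul_assoc, h1, mul_one]
      abel
    have hf : Smo (fun y => (1 : (Fin n → ℝ) →L[ℝ] (Fin n → ℝ)) + (-a0) * fderiv ℝ Φ (Ψ y)) :=
      contDiff_const.add (contDiff_const.mul hP)
    have hf0 : ‖iteratedFDeriv ℝ 0 (fun y => (1 : (Fin n → ℝ) →L[ℝ] (Fin n → ℝ)) + (-a0) *
        fderiv ℝ Φ (Ψ y)) y0‖ = 0 := by
      have h1 : (-a0) * fderiv ℝ Φ (Ψ y0) = -(a0 * fderiv ℝ Φ (Ψ y0)) := neg_mul a0 _
      rw [norm_iteratedFDeriv_zero, h1, hGP, add_neg_cancel, norm_zero]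
    have hfi : ∀ i, 1 ≤ i → i ≤ k + 1 → ‖iteratedFDeriv ℝ i (fun y =>
        (1 : (Fin n → ℝ) →L[ℝ] (Fin n → ℝ)) + (-a0) * fderiv ℝ Φ (Ψ y)) y0‖ ≤ A * Q := by
      intro i h1i hik
      have hm : Smo (fun y => (-a0) * fderiv ℝ Φ (Ψ y)) := contDiff_const.mul hP
      have h1 : iteratedFDeriv ℝ i (fun y => (1 : (Fin n → ℝ) →L[ℝ] (Fin n → ℝ)) +
          (-a0) * fderiv ℝ Φ (Ψ y)) y0
          = iteratedFDeriv ℝ i (fun y => (-a0) * fderiv ℝ Φ (Ψ y)) y0 := by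
        rw [fun_iteratedFDeriv_add_apply (contDiff_const.contDiffAt)
          ((hm.of_le (AInv_le_top i)).contDiffAt), iteratedFDeriv_const_of_ne (by omega)]
        simp
      rw [h1]
      refine (AInv_mulleft _ hP (-a0) i y0).trans ?_
      rw [norm_neg]
      exact mul_le_mul (hN y0) (hPj i hik y0) (norm_nonneg _) (by linarith)
    have hprod : Smo (fun y => ((1 : (Fin n → ℝ) →L[ℝ] (Fin n → ℝ)) + (-a0) *
        fderiv ℝ Φ (Ψ y)) * fderiv ℝ Ψ y) := hf.mul hG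
    have hD : iteratedFDeriv ℝ (k + 1) (fderiv ℝ Ψ) y0 = iteratedFDeriv ℝ (k + 1)
        (fun y => ((1 : (Fin n → ℝ) →L[ℝ] (Fin n → ℝ)) + (-a0) *
        fderiv ℝ Φ (Ψ y)) * fderiv ℝ Ψ y) y0 := by
      conv_lhs => rw [hid]
      rw [fun_iteratedFDeriv_add_apply ((hprod.of_le (AInv_le_top (k + 1))).contDiffAt)
        (contDiff_const.contDiffAt), iteratedFDeriv_const_of_ne (by omega)]
      simp
    rw [hD]
    refine (norm_iteratedFDeriv_mul_le hf hG y0 (AInv_le_top (k + 1))).trans ?_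
    have hterm : ∀ i ∈ Finset.range (k + 1 + 1), ((k + 1).choose i : ℝ) *
        ‖iteratedFDeriv ℝ i (fun y => (1 : (Fin n → ℝ) →L[ℝ] (Fin n → ℝ)) +
          (-a0) * fderiv ℝ Φ (Ψ y)) y0‖ * ‖iteratedFDeriv ℝ (k + 1 - i) (fderiv ℝ Ψ) y0‖
        ≤ ((k + 1).choose i : ℝ) * (A * Q * B) := by
      intro i hi
      rw [Finset.mem_range] at hi
      rw [mul_assoc]
      refine mul_le_mul_of_nonneg_left ?_ (Nat.cast_nonneg _)
      rcases Nat.eq_zero_or_pos i with h0 | h0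
      · subst h0
        rw [hf0, zero_mul]
        positivity
      · exact mul_le_mul (hfi i h0 (by omega)) (hBl _ (by omega) y0) (norm_nonneg _)
          (by positivity)
    refine (Finset.sum_le_sum hterm).trans ?_
    rw [← Finset.sum_mul]
    have hc : ∑ i ∈ Finset.range (k + 1 + 1), ((k + 1).choose i : ℝ) = 2 ^ (k + 1) := by
      exact_mod_cast Nat.sum_range_choose (k + 1)
    rw [hc]
    linarith

/-- Inverse of a diffeomorphism. By scaling (see `mb_comp`) assume `K = 1`. Induction on the order: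
`fderiv Ψ y = Ring.inverse (fderiv Φ (Ψ y))` (in the algebra `E →L[ℝ] E`). The derivatives of order
`≤ i` of `y ↦ fderiv Φ (Ψ y)` are controlled by those of order `≤ i + 1` of `Φ` and of order `≤ i` of
`Ψ` (`norm_iteratedFDeriv_comp_le`); `Ring.inverse` has bounded derivatives on the compact set of
operators `T` with `‖T‖ ≤ A`, `‖T⁻¹‖ ≤ A`, again `norm_iteratedFDerivWithin_comp_le`
(`contDiffAt_ringInverse`). -/
theorem mb_inv (n r : ℕ) (A : ℝ) (hA : 1 ≤ A) :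
    ∃ C : ℝ, 1 ≤ C ∧ ∀ (K : ℝ), 0 < K → ∀ Φ Ψ : (Fin n → ℝ) → (Fin n → ℝ),
      Mb r K A Φ → Smo Ψ → (∀ x, Ψ (Φ x) = x) → (∀ y, Φ (Ψ y) = y) →
      (∀ y, ‖fderiv ℝ Ψ y‖ ≤ A) → Mb r K C Ψ := by
  rcases Nat.eq_zero_or_pos r with h0 | h0
  · subst h0
    exact ⟨1, le_refl 1, fun K _ Φ Ψ _ hΨ _ _ _ => ⟨hΨ, fun i h1 h2 => by omega⟩⟩
  obtain ⟨B, hB, hcore⟩ := AInv_core n r A hA (r - 1) (by omega)
  refine ⟨B, hB, ?_⟩
  intro K hK Φ Ψ hΦ hΨ hl hr hN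
  have hKi : 0 < K⁻¹ := inv_pos.mpr hK
  have hK0 : K ≠ 0 := hK.ne'
  -- the scaled maps
  set Φ1 : (Fin n → ℝ) → (Fin n → ℝ) := fun x => K • Φ (K⁻¹ • x) with hΦ1
  set Ψ1 : (Fin n → ℝ) → (Fin n → ℝ) := fun x => K • Ψ (K⁻¹ • x) with hΨ1
  have hlin : ∀ c : ℝ, Smo (fun x : Fin n → ℝ => c • x) := fun c =>
    contDiff_const_smul c
  have hsc : ∀ F : (Fin n → ℝ) → (Fin n → ℝ), Smo F → Smo (fun x => F (K⁻¹ • x)) := fun F hF =>
    ContDiff.comp (g := F) hF (hlin K⁻¹)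
  have hΦ1s : Smo Φ1 := ContDiff.comp (g := fun x : Fin n → ℝ => K • x) (hlin K) (hsc Φ hΦ.1)
  have hΨ1s : Smo Ψ1 := ContDiff.comp (g := fun x : Fin n → ℝ => K • x) (hlin K) (hsc Ψ hΨ)
  have hΦ1b : Mb r 1 A Φ1 := by
    refine ⟨hΦ1s, fun i h1 h2 x => ?_⟩
    rw [hΦ1, AInv_smul _ (hsc Φ hΦ.1) K hK.le i x, one_pow, mul_one]
    have h3 := AInv_scale Φ hΦ.1 K⁻¹ hKi.le i x
    have h4 := hΦ.2 i h1 h2 (K⁻¹ • x)
    obtain ⟨j, rfl⟩ : ∃ j, i = j + 1 := ⟨i - 1, by omega⟩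
    have h5 : ‖iteratedFDeriv ℝ (j + 1) Φ (K⁻¹ • x)‖ * K⁻¹ ^ (j + 1)
        ≤ A * K ^ (j + 1 - 1) * K⁻¹ ^ (j + 1) :=
      mul_le_mul_of_nonneg_right h4 (by positivity)
    have h6 : K * (A * K ^ (j + 1 - 1) * K⁻¹ ^ (j + 1)) = A := by
      rw [Nat.add_sub_cancel, inv_pow, pow_succ]
      field_simp
    calc K * ‖iteratedFDeriv ℝ (j + 1) (fun x => Φ (K⁻¹ • x)) x‖
        ≤ K * (A * K ^ (j + 1 - 1) * K⁻¹ ^ (j + 1)) :=
          mul_le_mul_of_nonneg_left (h3.trans h5) hK.le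
      _ = A := h6
  have hl1 : ∀ x, Ψ1 (Φ1 x) = x := by
    intro x
    simp only [hΨ1, hΦ1, smul_smul, inv_mul_cancel₀ hK0, one_smul, hl, mul_inv_cancel₀ hK0]
  have hr1 : ∀ x, Φ1 (Ψ1 x) = x := by
    intro x
    simp only [hΨ1, hΦ1, smul_smul, inv_mul_cancel₀ hK0, one_smul, hr, mul_inv_cancel₀ hK0]
  have hN1 : ∀ y, ‖fderiv ℝ Ψ1 y‖ ≤ A := by
    intro y
    rw [← norm_iteratedFDeriv_zero (𝕜 := ℝ) (f := fderiv ℝ Ψ1), norm_iteratedFDeriv_fderiv, hΨ1,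
      AInv_smul _ (hsc Ψ hΨ) K hK.le _ y]
    have h3 := AInv_scale Ψ hΨ K⁻¹ hKi.le (0 + 1) y
    have h4 : ‖iteratedFDeriv ℝ (0 + 1) Ψ (K⁻¹ • y)‖ ≤ A := by
      rw [← norm_iteratedFDeriv_fderiv, norm_iteratedFDeriv_zero]
      exact hN (K⁻¹ • y)
    calc K * ‖iteratedFDeriv ℝ (0 + 1) (fun x => Ψ (K⁻¹ • x)) y‖
        ≤ K * (A * K⁻¹ ^ (0 + 1)) :=
          mul_le_mul_of_nonneg_left (h3.trans (mul_le_mul_of_nonneg_right h4 (by positivity)))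
            hK.le
      _ = A := by rw [zero_add, pow_one]; field_simp
  have hmain := hcore Φ1 Ψ1 hΦ1b hΨ1s hl1 hr1 hN1
  refine ⟨hΨ, fun i h1 h2 y => ?_⟩
  obtain ⟨j, rfl⟩ : ∃ j, i = j + 1 := ⟨i - 1, by omega⟩
  -- back
  have hback : Ψ = fun y => K⁻¹ • Ψ1 (K • y) := by
    funext z
    simp only [hΨ1, smul_smul, inv_mul_cancel₀ hK0, one_smul]
  have hsc1 : Smo (fun y => Ψ1 (K • y)) := ContDiff.comp (g := Ψ1) hΨ1s (hlin K)
  rw [hback, AInv_smul _ hsc1 K⁻¹ hKi.le (j + 1) y]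
  have h3 := AInv_scale Ψ1 hΨ1s K hK.le (j + 1) y
  have h4 := hmain j (by omega) (K • y)
  rw [norm_iteratedFDeriv_fderiv] at h4
  calc K⁻¹ * ‖iteratedFDeriv ℝ (j + 1) (fun y => Ψ1 (K • y)) y‖
      ≤ K⁻¹ * (B * K ^ (j + 1)) :=
        mul_le_mul_of_nonneg_left (h3.trans (mul_le_mul_of_nonneg_right h4 (by positivity)))
          hKi.le
    _ = B * K ^ (j + 1 - 1) := by
        rw [Nat.add_sub_cancel, pow_succ]
        field_simp

end QPR
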