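import Pool.Agent.Lib.QPA.AMol
import Pool.Agent.Lib.QPA.AInv

set_option autoImplicit false

namespace QPR

/-- a smooth antilipschitz map is a diffeomorphism. -/
private theorem ADiff_glob {n : ℕ} (h : (Fin n → ℝ) → (Fin n → ℝ)) (hs : Smo h) (M : ℝ)
    (hM : 0 < M) (ha : ∀ x y, ‖x - y‖ ≤ M * ‖h x - h y‖) :
    ∃ h' : (Fin n → ℝ) → (Fin n → ℝ), Smo h' ∧ (∀ x, h' (h x) = x) ∧ (∀ y, h (h' y) = y) ∧
      ∀ y, ‖fderiv ℝ h' y‖ ≤ M := by
  have hsd : ∀ x, HasStrictFDerivAt h (fderiv ℝ h x) x := fun x =>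
    hs.contDiffAt.hasStrictFDerivAt (by simp)
  have hd : ∀ x v, ‖v‖ ≤ M * ‖fderiv ℝ h x v‖ := by
    intro x v
    have h1 : HasDerivAt (fun t : ℝ => h (x + t • v)) (fderiv ℝ h x v) 0 :=
      (hsd x).hasFDerivAt.hasLineDerivAt v
    have h2 := h1.tendsto_slope_zero
    have h3 := (h2.norm).const_mul M
    refine ge_of_tendsto h3 ?_
    filter_upwards [self_mem_nhdsWithin] with t ht
    have ht0 : t ≠ 0 := ht
    have h4 := ha (x + (0 + t) • v) (x + (0 : ℝ) • v)
    have h5 : x + (0 + t) • v - (x + (0 : ℝ) • v) = t • v := by simp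
    rw [h5, norm_smul] at h4
    rw [norm_smul, norm_inv]
    have h6 : 0 < ‖t‖ := norm_pos_iff.2 ht0
    have h7 : M * (‖t‖⁻¹ * ‖h (x + (0 + t) • v) - h (x + (0 : ℝ) • v)‖) =
        ‖t‖⁻¹ * (M * ‖h (x + (0 + t) • v) - h (x + (0 : ℝ) • v)‖) := by ring
    rw [h7]
    calc ‖v‖ = ‖t‖⁻¹ * (‖t‖ * ‖v‖) := by
          field_simp
      _ ≤ _ := mul_le_mul_of_nonneg_left h4 (by positivity)
  have hinj : ∀ x, Function.Injective (fderiv ℝ h x) := by
    intro x
    refine (injective_iff_map_eq_zero (fderiv ℝ h x)).2 ?_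
    intro v hv
    have := hd x v
    rw [hv, norm_zero, mul_zero] at this
    exact norm_le_zero_iff.1 this
  let e : (Fin n → ℝ) → ((Fin n → ℝ) ≃L[ℝ] (Fin n → ℝ)) := fun x =>
    (LinearEquiv.ofInjectiveEndo (fderiv ℝ h x : (Fin n → ℝ) →ₗ[ℝ] (Fin n → ℝ))
      (hinj x)).toContinuousLinearEquiv
  have he : ∀ x, (e x : (Fin n → ℝ) →L[ℝ] (Fin n → ℝ)) = fderiv ℝ h x := by
    intro x
    ext v
    rfl
  have hopen : IsOpenMap h := by
    refine isOpenMap_of_hasStrictFDerivAt_equiv (f' := e) ?_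
    intro x
    rw [he x]
    exact hsd x
  have hanti : AntilipschitzWith (⟨M, hM.le⟩ : NNReal) h := by
    refine AntilipschitzWith.of_le_mul_dist ?_
    intro x y
    rw [dist_eq_norm, dist_eq_norm]
    exact ha x y
  have hprop : IsProperMap h := by
    rw [isProperMap_iff_tendsto_cocompact]
    refine ⟨hs.continuous, ?_⟩
    have := hanti.tendsto_cobounded
    rwa [Metric.cobounded_eq_cocompact] at this
  have hsurj : Function.Surjective h := by
    rw [← Set.range_eq_univ]
    refine IsClopen.eq_univ ⟨hprop.isClosedMap.isClosed_range, hopen.isOpen_range⟩ ?_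
    exact Set.range_nonempty h
  have hbij : Function.Bijective h := ⟨hanti.injective, hsurj⟩
  let E : (Fin n → ℝ) ≃ (Fin n → ℝ) := Equiv.ofBijective h hbij
  let Hm : (Fin n → ℝ) ≃ₜ (Fin n → ℝ) := E.toHomeomorphOfContinuousOpen hs.continuous hopen
  have h1 : ∀ x, Hm.symm (h x) = x := fun x => Hm.symm_apply_apply x
  have h2 : ∀ y, h (Hm.symm y) = y := fun y => Hm.apply_symm_apply y
  refine ⟨Hm.symm, ?_, h1, h2, ?_⟩
  · refine Hm.contDiff_symm (f₀' := e) ?_ hs
    intro x
    rw [he x]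
    exact (hsd x).hasFDerivAt
  · intro y
    refine norm_fderiv_le_of_lip' ℝ hM.le ?_
    refine Filter.Eventually.of_forall ?_
    intro z
    have := ha (Hm.symm z) (Hm.symm y)
    rwa [h2, h2] at this

/-- For a flat bi-Lipschitz `H` the mollifications at small scales are diffeomorphisms. Let `C` be the
constant of `mol_props` (order `1`) and `η₁` small compared with `1/(C L)`, `η₁ ≤ η/4`; let
`2/κ ≤ s₀ (η₁)`. With the affine map `(b, T)` at `x` and scale `2/κ`: `‖mol κ H x - H x‖ ≤ 4 η₁/κ ≤ η/κ`;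
`‖T v‖ ≥ (1/L - 4 η₁) ‖v‖` (compare `H` at `x ± (1/κ) v`); for `‖y - x‖ ≤ 1/κ`,
`‖fderiv (mol κ H) y - T‖ ≤ 4 C η₁` (re-centre the affine map at `y`), so `mol κ H - T` is
`4 C η₁`-Lipschitz there and `‖mol κ H x - mol κ H y‖ ≥ ‖x - y‖/(2 L)`; for `‖x - y‖ ≥ 1/κ` the same
follows from `‖mol κ H - H‖ ≤ η₁'/κ`. So `mol κ H` is injective, proper, a local diffeomorphism
(`n`-dimensional, injective derivative), hence onto (image open and closed), with smooth inverse
whose derivative has norm `≤ 2 L`; bounds for the inverse by `mb_inv`. -/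
theorem mol_diffeo {n : ℕ} (r : ℕ) (H : (Fin n → ℝ) → (Fin n → ℝ)) (hp : PerD H) (L : ℝ)
    (hL : 1 ≤ L) (hb : BiL L H) (hf : Flat H) :
    ∃ C : ℝ, 1 ≤ C ∧ ∀ η : ℝ, 0 < η → ∃ κ₀ : ℝ, 1 ≤ κ₀ ∧ ∀ κ : ℝ, κ₀ ≤ κ →
      Mb r κ C (mol κ H) ∧ PerD (mol κ H) ∧ (∀ x, ‖mol κ H x - H x‖ ≤ η / κ) ∧
      ∃ h' : (Fin n → ℝ) → (Fin n → ℝ), Mb r κ C h' ∧ PerD h' ∧
        (∀ x, h' (mol κ H x) = x) ∧ (∀ y, mol κ H (h' y) = y) := by
  classical
  obtain ⟨C₀, hC₀, hmol⟩ := mol_props n r
  have hL0 : 0 < L := by linarith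
  have hC0 : 0 < C₀ := by linarith
  have hCL : 1 ≤ C₀ * L := by nlinarith
  obtain ⟨C₁, hC₁, hinv⟩ := mb_inv n r (max (C₀ * L) (2 * L)) (le_trans hCL (le_max_left _ _))
  refine ⟨max (C₀ * L) C₁, le_trans hCL (le_max_left _ _), ?_⟩
  intro η hη
  obtain ⟨η₁, hη₁⟩ : ∃ t : ℝ, t = min (η / 4) (1 / (16 * (C₀ * L))) := ⟨_, rfl⟩
  have hη0 : 0 < η₁ := by
    rw [hη₁]
    exact lt_min (by positivity) (by positivity)
  have hηa : 4 * η₁ ≤ η := by
    have : η₁ ≤ η / 4 := by rw [hη₁]; exact min_le_left _ _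
    linarith
  have hηb : 16 * (C₀ * L) * η₁ ≤ 1 := by
    have h1 : η₁ ≤ 1 / (16 * (C₀ * L)) := by rw [hη₁]; exact min_le_right _ _
    have h2 : 0 < 16 * (C₀ * L) := by positivity
    have h3 := mul_le_mul_of_nonneg_left h1 h2.le
    rwa [mul_one_div_cancel h2.ne'] at h3
  have hηc : 16 * L * η₁ ≤ 1 := by
    have h1 : L * η₁ ≤ C₀ * (L * η₁) := le_mul_of_one_le_left (by positivity) hC₀
    nlinarith
  obtain ⟨s₀, hs₀, hflat⟩ := hf η₁ hη0
  refine ⟨max 1 (2 / s₀), le_max_left _ _, ?_⟩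
  intro κ hκ
  have hκ1 : 1 ≤ κ := le_trans (le_max_left _ _) hκ
  have hκ0 : 0 < κ := by linarith
  have hκs : 2 / κ ≤ s₀ := by
    have h1 : 2 / s₀ ≤ κ := le_trans (le_max_right _ _) hκ
    rw [div_le_iff₀ hs₀] at h1
    rw [div_le_iff₀ hκ0]
    linarith
  obtain ⟨hmb, hper, haff⟩ := hmol H L κ hL hκ0 (fun x y => (hb x y).1)
  have hperm : PerD (mol κ H) := hper hp
  obtain ⟨h, hh⟩ : ∃ h, h = mol κ H := ⟨_, rfl⟩
  rw [← hh] at hmb hperm haff ⊢
  have hsm : Smo h := hmb.1
  -- the affine approximation at every point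
  have hsp : 0 < 2 / κ := by positivity
  have hA : ∀ x : Fin n → ℝ, ∃ (b : Fin n → ℝ) (T : (Fin n → ℝ) →L[ℝ] (Fin n → ℝ)),
      ∀ y, ‖y - x‖ ≤ 2 / κ → ‖H y - b - T (y - x)‖ ≤ η₁ * (2 / κ) :=
    hflat (2 / κ) hsp hκs
  have h1κ : 1 / κ ≤ 2 / κ := by
    rw [div_le_div_iff_of_pos_right hκ0]
    norm_num
  -- closeness
  have hclose : ∀ x, ‖h x - H x‖ ≤ 4 * η₁ / κ := by
    intro x
    obtain ⟨b, T, hT⟩ := hA x
    have h1 := (haff x b T (η₁ * (2 / κ)) (fun y hy => hT y (le_trans hy h1κ))).1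
    have h2 := hT x (by simp; positivity)
    rw [sub_self, map_zero, sub_zero] at h2
    have h3 : h x - H x = (h x - b) - (H x - b) := by abel
    rw [h3]
    refine le_trans (norm_sub_le _ _) ?_
    have h4 : 4 * η₁ / κ = η₁ * (2 / κ) + η₁ * (2 / κ) := by ring
    rw [h4]
    linarith
  have hanti : ∀ x y, ‖x - y‖ ≤ (2 * L) * ‖h x - h y‖ := by
    intro x y
    by_cases hxy : ‖x - y‖ ≤ 1 / κ
    · obtain ⟨b, T, hT⟩ := hA y
      -- lower bound for `T`
      have hTl : ‖x - y‖ ≤ L * ‖T (x - y)‖ + 2 * L * η₁ * ‖x - y‖ := by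
        rcases eq_or_ne (x - y) 0 with h0 | h0
        · rw [h0]
          simp
        · have hw : 0 < ‖x - y‖ := norm_pos_iff.2 h0
          obtain ⟨c, hc⟩ : ∃ c : ℝ, c = 2 / κ / ‖x - y‖ := ⟨_, rfl⟩
          have hc0 : 0 < c := by rw [hc]; positivity
          have hcw : c * ‖x - y‖ = 2 / κ := by
            rw [hc, div_mul_cancel₀ _ hw.ne']
          have e1 : y + c • (x - y) - y = c • (x - y) := by abel
          have e2 : ‖c • (x - y)‖ = 2 / κ := by
            rw [norm_smul, Real.norm_of_nonneg hc0.le, hcw]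
          have h1 := hT (y + c • (x - y)) (by rw [e1, e2])
          have h2 := hT y (by simp; positivity)
          rw [sub_self, map_zero, sub_zero] at h2
          rw [e1] at h1
          have h3 := (hb (y + c • (x - y)) y).2
          rw [e1, e2] at h3
          have h4 : H (y + c • (x - y)) - H y = (H (y + c • (x - y)) - b - T (c • (x - y))) -
              (H y - b) + T (c • (x - y)) := by abel
          have h5 : ‖H (y + c • (x - y)) - H y‖ ≤ 4 * η₁ / κ + c * ‖T (x - y)‖ := by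
            rw [h4]
            refine le_trans (norm_add_le _ _) ?_
            have h6 : ‖T (c • (x - y))‖ = c * ‖T (x - y)‖ := by
              rw [map_smul, norm_smul, Real.norm_of_nonneg hc0.le]
            rw [h6]
            have h7 := norm_sub_le (H (y + c • (x - y)) - b - T (c • (x - y))) (H y - b)
            have h8 : 4 * η₁ / κ = η₁ * (2 / κ) + η₁ * (2 / κ) := by ring
            rw [h8]
            linarith
          have h6 : 2 / κ ≤ L * (4 * η₁ / κ + c * ‖T (x - y)‖) :=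
            le_trans h3 (mul_le_mul_of_nonneg_left h5 hL0.le)
          rw [← hcw] at h6
          have h7 : 4 * η₁ / κ = 2 * η₁ * (c * ‖x - y‖) := by rw [hcw]; ring
          rw [h7] at h6
          have h8 : c * ‖x - y‖ ≤ c * (L * ‖T (x - y)‖ + 2 * L * η₁ * ‖x - y‖) := by
            refine le_trans h6 (le_of_eq ?_)
            ring
          exact le_of_mul_le_mul_left h8 hc0
      -- the derivative is close to `T` on the ball
      have hder : ∀ z, ‖z - y‖ ≤ 1 / κ → ‖fderiv ℝ h z - T‖ ≤ 2 * C₀ * η₁ := by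
        intro z hz
        have h1 := (haff z (b + T (z - y)) T (η₁ * (2 / κ)) (by
          intro u hu
          have h2 : ‖u - y‖ ≤ 2 / κ := by
            have h3 : u - y = (u - z) + (z - y) := by abel
            rw [h3]
            refine le_trans (norm_add_le _ _) ?_
            have h4 : 2 / κ = 1 / κ + 1 / κ := by ring
            rw [h4]
            linarith
          have h3 := hT u h2
          have h4 : H u - (b + T (z - y)) - T (u - z) = H u - b - T (u - y) := by
            have h5 : u - y = (z - y) + (u - z) := by abel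
            rw [h5, map_add]
            abel
          rw [h4]
          exact h3)).2
        refine le_trans h1 (le_of_eq ?_)
        field_simp
      have hball : ∀ z, z ∈ Metric.closedBall y (1 / κ) → ‖z - y‖ ≤ 1 / κ := by
        intro z hz
        rwa [Metric.mem_closedBall, dist_eq_norm] at hz
      have hmv : ‖h x - h y - T (x - y)‖ ≤ 2 * C₀ * η₁ * ‖x - y‖ := by
        refine Convex.norm_image_sub_le_of_norm_fderiv_le' (s := Metric.closedBall y (1 / κ))
          (𝕜 := ℝ) ?_ ?_ (convex_closedBall _ _) ?_ ?_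
        · intro z _
          exact (hsm.differentiable (by simp)) z
        · intro z hz
          exact hder z (hball z hz)
        · exact Metric.mem_closedBall_self (by positivity)
        · rw [Metric.mem_closedBall, dist_eq_norm]
          exact hxy
      have h1 : ‖T (x - y)‖ ≤ ‖h x - h y‖ + 2 * C₀ * η₁ * ‖x - y‖ := by
        have h2 : (h x - h y) - (h x - h y - T (x - y)) = T (x - y) := by abel
        have h3 := norm_sub_le (h x - h y) (h x - h y - T (x - y))
        rw [h2] at h3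
        linarith
      have h2 := mul_le_mul_of_nonneg_left h1 hL0.le
      have h3 : 0 ≤ ‖x - y‖ := norm_nonneg _
      have h4 : 16 * (C₀ * L) * η₁ * ‖x - y‖ ≤ ‖x - y‖ := by
        have := mul_le_mul_of_nonneg_right hηb h3
        linarith
      have h5 : 16 * L * η₁ * ‖x - y‖ ≤ ‖x - y‖ := by
        have := mul_le_mul_of_nonneg_right hηc h3
        linarith
      have h6 : L * (2 * C₀ * η₁ * ‖x - y‖) = 2 * (C₀ * L * η₁ * ‖x - y‖) := by ring
      have h7 : 0 ≤ L * ‖h x - h y‖ := by positivity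
      nlinarith
    · have hxy' : 1 / κ < ‖x - y‖ := not_le.1 hxy
      have h1 := (hb x y).2
      have h2 : ‖H x - H y‖ ≤ ‖h x - h y‖ + 8 * η₁ / κ := by
        have h3 : H x - H y = (h x - h y) - (h x - H x) + (h y - H y) := by abel
        rw [h3]
        refine le_trans (norm_add_le _ _) ?_
        have h4 := norm_sub_le (h x - h y) (h x - H x)
        have h5 := hclose x
        have h6 := hclose y
        have h7 : 8 * η₁ / κ = 4 * η₁ / κ + 4 * η₁ / κ := by ring
        rw [h7]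
        linarith
      have h3 := mul_le_mul_of_nonneg_left h2 hL0.le
      have h4 : 8 * η₁ / κ ≤ 8 * η₁ * ‖x - y‖ := by
        have : 8 * η₁ / κ = 8 * η₁ * (1 / κ) := by ring
        rw [this]
        exact mul_le_mul_of_nonneg_left hxy'.le (by positivity)
      have h5 := mul_le_mul_of_nonneg_left h4 hL0.le
      have h6 : 16 * L * η₁ * ‖x - y‖ ≤ ‖x - y‖ := by
        have := mul_le_mul_of_nonneg_right hηc (norm_nonneg (x - y))
        linarith
      nlinarith
  obtain ⟨h', hs', hl, hr, hn⟩ := ADiff_glob h hsm (2 * L) (by positivity) hanti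
  have hmbA : Mb r κ (max (C₀ * L) (2 * L)) h := hmb.mono_A hκ0.le (le_max_left _ _)
  have hmb' : Mb r κ C₁ h' :=
    hinv κ hκ0 h h' hmbA hs' hl hr (fun y => le_trans (hn y) (le_max_right _ _))
  refine ⟨hmb.mono_A hκ0.le (le_max_left _ _), hperm, ?_, h', hmb'.mono_A hκ0.le (le_max_right _ _),
    ?_, hl, hr⟩
  · intro x
    refine le_trans (hclose x) ?_
    exact div_le_div_of_nonneg_right hηa hκ0.le
  · intro y k
    have h1 : h (h' y + fun i => (k i : ℝ)) = y + fun i => (k i : ℝ) := by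
      rw [hperm, hr]
    rw [← h1, hl]

end QPR
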