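import Pool.Agent.Lib.QPR.TDef

set_option autoImplicit false

namespace QPR

private theorem ADio_one_le {n : ℕ} (ξ : Fin n → ℤ) (hξ : ξ ≠ 0) :
    (1 : ℝ) ≤ ∑ i, |(ξ i : ℝ)| := by
  obtain ⟨i, hi⟩ := Function.ne_iff.1 hξ
  have h2 : (1 : ℝ) ≤ |(ξ i : ℝ)| := by
    have : (1 : ℤ) ≤ |ξ i| := Int.one_le_abs hi
    exact_mod_cast this
  exact h2.trans (Finset.single_le_sum (f := fun i => |(ξ i : ℝ)|)
    (fun i _ => abs_nonneg _) (Finset.mem_univ i))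

private theorem ADio_sum_le {n : ℕ} (ξ : Fin n → ℤ) :
    (∑ i, |(ξ i : ℝ)|) ≤ n * ‖ξ‖ := by
  calc (∑ i, |(ξ i : ℝ)|) ≤ ∑ _i : Fin n, ‖ξ‖ := by
        apply Finset.sum_le_sum
        intro i _
        have h1 : ‖ξ i‖ ≤ ‖ξ‖ := norm_le_pi_norm ξ i
        rw [Int.norm_eq_abs] at h1
        exact_mod_cast h1
    _ = n * ‖ξ‖ := by simp

private theorem ADio_ex_lower (t : ℝ) : 4 * |t - round t| ≤ ‖ex t - 1‖ := by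
  have h1 : ex t = Complex.exp (Complex.I * ((2 * Real.pi * (t - round t) : ℝ) : ℂ)) := by
    unfold ex
    rw [← Complex.exp_periodic.int_mul (round t) (Complex.I * ((2 * Real.pi * (t - round t) : ℝ) : ℂ))]
    congr 1
    push_cast
    ring
  rw [h1, Complex.norm_exp_I_mul_ofReal_sub_one]
  have h2 : |t - round t| ≤ 1 / 2 := abs_sub_round t
  have hpi := Real.pi_pos
  have h3 : |Real.pi * (t - round t)| ≤ Real.pi / 2 := by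
    rw [abs_mul, abs_of_pos hpi]
    nlinarith
  have h4 := Real.mul_abs_le_abs_sin h3
  have h5 : 2 * Real.pi * (t - round t) / 2 = Real.pi * (t - round t) := by ring
  rw [h5, norm_mul, Real.norm_eq_abs, Real.norm_eq_abs, abs_of_pos (by norm_num : (0:ℝ) < 2)]
  rw [abs_mul, abs_of_pos hpi] at h4
  have h6 : 2 / Real.pi * (Real.pi * |t - round t|) = 2 * |t - round t| := by
    field_simp
  rw [h6] at h4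
  linarith

/-- Diophantine vectors and the divisors `ex (dotZ ξ α) - 1`:
`‖ex t - 1‖ = 2 |sin (π t)| ≥ 4 dist (t, ℤ)` (for `n` the nearest integer, `|t - n| ≤ 1/2`,
`Real.mul_le_sin`), and `∑ i, |ξ i| ≤ n ‖ξ‖ ≤ n (1 + ‖ξ‖)`; take `τ` the ceiling of the real
exponent. (`DioV.ne`-style lemmas may exist in `QPR`.) -/
theorem dio_one {n : ℕ} {α : Fin n → ℝ} (hα : DioV α) :
    ∃ c : ℝ, 0 < c ∧ ∃ τ : ℕ, ∀ ξ : Fin n → ℤ, ξ ≠ 0 →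
      c ≤ ‖ex (dotZ ξ α) - 1‖ * (1 + ‖ξ‖) ^ τ := by
  obtain ⟨γ, hγ, τ, hτ, h⟩ := hα
  refine ⟨4 * γ / (n + 1) ^ ⌈τ⌉₊, by positivity, ⌈τ⌉₊, ?_⟩
  intro ξ hξ
  have hs := ADio_one_le ξ hξ
  have h3 : (∑ i, |(ξ i : ℝ)|) ^ τ ≤ ((n + 1) * (1 + ‖ξ‖)) ^ ⌈τ⌉₊ := by
    have h4 : (∑ i, |(ξ i : ℝ)|) ≤ (n + 1) * (1 + ‖ξ‖) := by
      have := ADio_sum_le ξ
      have hd : (0 : ℝ) ≤ n := Nat.cast_nonneg _
      have hn : (0 : ℝ) ≤ ‖ξ‖ := norm_nonneg _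
      nlinarith
    calc (∑ i, |(ξ i : ℝ)|) ^ τ ≤ (∑ i, |(ξ i : ℝ)|) ^ ((⌈τ⌉₊ : ℕ) : ℝ) :=
          Real.rpow_le_rpow_of_exponent_le hs (Nat.le_ceil τ)
      _ = (∑ i, |(ξ i : ℝ)|) ^ ⌈τ⌉₊ := Real.rpow_natCast _ _
      _ ≤ _ := pow_le_pow_left₀ (by linarith) h4 _
  have h5 := h ξ hξ (round (dotZ ξ α))
  have h6 : |∑ i, (ξ i : ℝ) * α i - ((round (dotZ ξ α) : ℤ) : ℝ)| = |dotZ ξ α - round (dotZ ξ α)| := rfl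
  rw [h6] at h5
  have h7 := ADio_ex_lower (dotZ ξ α)
  have hsp : (0 : ℝ) < (∑ i, |(ξ i : ℝ)|) ^ τ := Real.rpow_pos_of_pos (by linarith) _
  have h8 : 4 * (γ / (∑ i, |(ξ i : ℝ)|) ^ τ) ≤ ‖ex (dotZ ξ α) - 1‖ := by linarith
  have hn : (0 : ℝ) ≤ ‖ξ‖ := norm_nonneg _
  have hp : (0 : ℝ) < (1 + ‖ξ‖) ^ ⌈τ⌉₊ := by positivity
  have hq : (0 : ℝ) < ((n : ℝ) + 1) ^ ⌈τ⌉₊ := by positivity
  rw [div_le_iff₀ hq]
  have h9 : 4 * γ ≤ ‖ex (dotZ ξ α) - 1‖ * (∑ i, |(ξ i : ℝ)|) ^ τ := by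
    have : 4 * (γ / (∑ i, |(ξ i : ℝ)|) ^ τ) * (∑ i, |(ξ i : ℝ)|) ^ τ = 4 * γ := by
      field_simp
    rw [← this]
    exact mul_le_mul_of_nonneg_right h8 hsp.le
  calc 4 * γ ≤ ‖ex (dotZ ξ α) - 1‖ * (∑ i, |(ξ i : ℝ)|) ^ τ := h9
    _ ≤ ‖ex (dotZ ξ α) - 1‖ * ((n + 1) * (1 + ‖ξ‖)) ^ ⌈τ⌉₊ :=
        mul_le_mul_of_nonneg_left h3 (norm_nonneg _)
    _ = ‖ex (dotZ ξ α) - 1‖ * (1 + ‖ξ‖) ^ ⌈τ⌉₊ * ((n : ℝ) + 1) ^ ⌈τ⌉₊ := by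
        rw [mul_pow]; ring

end QPR
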