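import Pool.Agent.Lib.QPA.LDef

set_option autoImplicit false

namespace QPR

variable {n : ℕ} {α : Fin n → ℝ} {F F' H H' : (Fin n → ℝ) → (Fin n → ℝ)}

theorem tr_zero (hd : DatA α F F' H H') (x : Fin n → ℝ) : Tr H H' 0 x = x := by
  unfold Tr
  rw [add_zero, hd.leftH]

theorem tr_tr (hd : DatA α F F' H H') (θ θ' x : Fin n → ℝ) :
    Tr H H' θ (Tr H H' θ' x) = Tr H H' (θ + θ') x := by
  unfold Tr
  rw [hd.rightH, add_assoc, add_comm θ' θ]

/-- `Tr (H y - H x) x = y`. -/
theorem tr_sub (hd : DatA α F F' H H') (x y : Fin n → ℝ) : Tr H H' (H y - H x) x = y := by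
  unfold Tr
  rw [add_sub_cancel, hd.leftH]

theorem tr_per (hd : DatA α F F' H H') (θ x : Fin n → ℝ) (k : Fin n → ℤ) :
    Tr H H' θ (x + fun i => (k i : ℝ)) = Tr H H' θ x + fun i => (k i : ℝ) := by
  unfold Tr
  rw [hd.perH, add_right_comm, hd.perH']

theorem tr_add_int (hd : DatA α F F' H H') (θ x : Fin n → ℝ) (k : Fin n → ℤ) :
    Tr H H' (θ + fun i => (k i : ℝ)) x = Tr H H' θ x + fun i => (k i : ℝ) := by
  unfold Tr
  rw [← add_assoc, hd.perH']

theorem tr_cont (hd : DatA α F F' H H') :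
    Continuous (fun p : (Fin n → ℝ) × (Fin n → ℝ) => Tr H H' p.1 p.2) := by
  unfold Tr
  have h1 := hd.contH
  have h2 := hd.contH'
  exact h2.comp ((h1.comp continuous_snd).add continuous_fst)

private theorem LTr_bdd (G : (Fin n → ℝ) → (Fin n → ℝ)) (hc : Continuous G) (hp : PerD G) :
    ∃ B : ℝ, ∀ x, ‖G x - x‖ ≤ B := by
  have h1 : IsCompact (Set.Icc (0 : Fin n → ℝ) 1) := isCompact_Icc
  obtain ⟨B, hB⟩ := h1.exists_bound_of_continuousOn
    ((hc.sub continuous_id).continuousOn (s := Set.Icc (0 : Fin n → ℝ) 1))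
  refine ⟨B, ?_⟩
  intro x
  obtain ⟨y, hy⟩ : ∃ y : Fin n → ℝ, y = fun i => Int.fract (x i) := ⟨_, rfl⟩
  obtain ⟨k, hk⟩ : ∃ k : Fin n → ℤ, k = fun i => ⌊x i⌋ := ⟨_, rfl⟩
  have h2 : x = y + fun i => (k i : ℝ) := by
    rw [hy, hk]
    funext i
    exact (Int.fract_add_floor (x i)).symm
  have h3 : y ∈ Set.Icc (0 : Fin n → ℝ) 1 := by
    rw [hy]
    refine ⟨fun i => Int.fract_nonneg _, fun i => (Int.fract_lt_one _).le⟩
  have h4 := hB y h3
  have h5 : G x - x = G y - y := by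
    rw [h2, hp]
    abel
  rw [h5]
  exact h4

/-- `H' - id` is bounded. -/
theorem dat_bdd (hd : DatA α F F' H H') : ∃ B : ℝ, 0 ≤ B ∧ (∀ x, ‖H' x - x‖ ≤ B) ∧
    (∀ x, ‖H x - x‖ ≤ B) := by
  obtain ⟨B₁, h1⟩ := LTr_bdd H' hd.contH' hd.perH'
  obtain ⟨B₂, h2⟩ := LTr_bdd H hd.contH hd.perH
  refine ⟨max B₁ B₂, ?_, fun x => le_trans (h1 x) (le_max_left _ _),
    fun x => le_trans (h2 x) (le_max_right _ _)⟩
  exact le_trans (norm_nonneg _) (le_trans (h1 0) (le_max_left _ _))

theorem itz_nat (hd : DatA α F F' H H') (k : ℕ) (x : Fin n → ℝ) : Itz α H H' (k : ℤ) x = F^[k] x := by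
  have h1 : ∀ k : ℕ, H (F^[k] x) = H x + (k : ℝ) • α := by
    intro k
    induction k with
    | zero => simp
    | succ k ih =>
      rw [Function.iterate_succ_apply', hd.conj, ih, add_assoc]
      congr 1
      push_cast
      rw [add_smul, one_smul]
  unfold Itz Tr
  have h2 := h1 k
  rw [Int.cast_natCast, ← h2, hd.leftH]

theorem itz_zero (hd : DatA α F F' H H') (x : Fin n → ℝ) : Itz α H H' 0 x = x := by
  unfold Itz
  rw [Int.cast_zero, zero_smul]
  exact tr_zero hd x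

theorem itz_one (hd : DatA α F F' H H') (x : Fin n → ℝ) : Itz α H H' 1 x = F x := by
  have h := itz_nat hd 1 x
  rw [Nat.cast_one] at h
  rw [h, Function.iterate_one]

theorem itz_neg_one (hd : DatA α F F' H H') (x : Fin n → ℝ) : Itz α H H' (-1) x = F' x := by
  unfold Itz Tr
  have h1 := hd.conj (F' x)
  rw [hd.rightF] at h1
  rw [h1]
  have h2 : H (F' x) + α + ((-1 : ℤ) : ℝ) • α = H (F' x) := by
    rw [Int.cast_neg, Int.cast_one, neg_smul, one_smul]
    abel
  rw [h2, hd.leftH]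

theorem itz_add (hd : DatA α F F' H H') (k l : ℤ) (x : Fin n → ℝ) :
    Itz α H H' (k + l) x = Itz α H H' k (Itz α H H' l x) := by
  unfold Itz
  rw [tr_tr hd, Int.cast_add, add_smul]

/-- `F^k` is smooth for every `k ∈ ℤ`. -/
theorem itz_smo (hd : DatA α F F' H H') (k : ℤ) : Smo (Itz α H H' k) := by
  have h1 : ∀ k : ℕ, Smo (Itz α H H' (k : ℤ)) := by
    intro k
    induction k with
    | zero =>
      have e : Itz α H H' ((0 : ℕ) : ℤ) = fun x => x := by
        funext x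
        rw [Nat.cast_zero]
        exact itz_zero hd x
      rw [e]
      exact contDiff_id
    | succ k ih =>
      have e : Itz α H H' ((k + 1 : ℕ) : ℤ) = F ∘ Itz α H H' (k : ℤ) := by
        funext x
        rw [Nat.cast_add, Nat.cast_one, add_comm (k : ℤ) 1, itz_add hd, itz_one hd]
        rfl
      rw [e]
      exact hd.smF.comp ih
  have h2 : ∀ k : ℕ, Smo (Itz α H H' (-(k : ℤ))) := by
    intro k
    induction k with
    | zero =>
      have e : Itz α H H' (-((0 : ℕ) : ℤ)) = fun x => x := by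
        funext x
        rw [Nat.cast_zero, neg_zero]
        exact itz_zero hd x
      rw [e]
      exact contDiff_id
    | succ k ih =>
      have e : Itz α H H' (-((k + 1 : ℕ) : ℤ)) = F' ∘ Itz α H H' (-(k : ℤ)) := by
        funext x
        rw [Nat.cast_add, Nat.cast_one, neg_add, add_comm (-(k : ℤ)) (-1), itz_add hd,
          itz_neg_one hd]
        rfl
      rw [e]
      exact hd.smF'.comp ih
  rcases Int.eq_nat_or_neg k with ⟨m, hm | hm⟩
  · rw [hm]
    exact h1 m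
  · rw [hm]
    exact h2 m

/-- chain rule. -/
theorem itz_fderiv (hd : DatA α F F' H H') (k l : ℤ) (x : Fin n → ℝ) :
    fderiv ℝ (Itz α H H' (k + l)) x
      = (fderiv ℝ (Itz α H H' k) (Itz α H H' l x)).comp (fderiv ℝ (Itz α H H' l) x) := by
  have e : Itz α H H' (k + l) = Itz α H H' k ∘ Itz α H H' l := by
    funext y
    exact itz_add hd k l y
  rw [e]
  refine fderiv_comp x ?_ ?_
  · exact ((itz_smo hd k).differentiable (by simp)) _
  · exact ((itz_smo hd l).differentiable (by simp)) _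

theorem itz_fderiv_per (hd : DatA α F F' H H') (k : ℤ) (x : Fin n → ℝ) (l : Fin n → ℤ) :
    fderiv ℝ (Itz α H H' k) (x + fun i => (l i : ℝ)) = fderiv ℝ (Itz α H H' k) x := by
  obtain ⟨c, hc⟩ : ∃ c : Fin n → ℝ, c = fun i => (l i : ℝ) := ⟨_, rfl⟩
  have h1 : (fun y => Itz α H H' k (y + c)) = fun y => Itz α H H' k y + c := by
    funext y
    rw [hc]
    exact tr_per hd _ y l
  have h2 : fderiv ℝ (fun y => Itz α H H' k (y + c)) x = fderiv ℝ (Itz α H H' k) (x + c) :=
    fderiv_comp_add_right c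
  rw [← hc, ← h2, h1]
  exact fderiv_add_const c

end QPR
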