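import Pool.Agent.Lib.QPA.LNrm
import Pool.Agent.Lib.QPA.LTr

set_option autoImplicit false

namespace QPR

variable {n : ℕ} {α : Fin n → ℝ} {F F' H H' : (Fin n → ℝ) → (Fin n → ℝ)}

private theorem LBiL_uc (G : (Fin n → ℝ) → (Fin n → ℝ)) (hc : Continuous G) (hp : PerD G)
    {s : ℝ} (hs : 0 < s) : ∃ ρ : ℝ, 0 < ρ ∧ ∀ z w : Fin n → ℝ, ‖z - w‖ ≤ ρ → ‖G z - G w‖ ≤ s := by
  have hK : IsCompact (Set.Icc (fun _ : Fin n => (-1 : ℝ)) (fun _ => 2)) := isCompact_Icc
  obtain ⟨δ, hδ, h⟩ := Metric.uniformContinuousOn_iff.mp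
    (hK.uniformContinuousOn_of_continuous hc.continuousOn) s hs
  refine ⟨min (δ / 2) 1, by positivity, fun z w hzw => ?_⟩
  set k : Fin n → ℤ := fun i => ⌊z i⌋ with hk
  have hG : ∀ y : Fin n → ℝ, G y = G (y - fun i => (k i : ℝ)) + fun i => (k i : ℝ) := by
    intro y
    have := hp (y - fun i => (k i : ℝ)) k
    rwa [sub_add_cancel] at this
  have hxa : ∀ a, |z a - w a| ≤ 1 := fun a =>
    ((norm_le_pi_norm (z - w) a).trans hzw).trans (min_le_right _ _)
  have hz' : z - (fun i => (k i : ℝ)) ∈ Set.Icc (fun _ : Fin n => (-1 : ℝ)) (fun _ => 2) := by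
    constructor <;> intro a
    · have := Int.floor_le (z a)
      simp only [Pi.sub_apply, hk]
      linarith
    · have := Int.lt_floor_add_one (z a)
      simp only [Pi.sub_apply, hk]
      linarith
  have hw' : w - (fun i => (k i : ℝ)) ∈ Set.Icc (fun _ : Fin n => (-1 : ℝ)) (fun _ => 2) := by
    constructor <;> intro a
    · have := Int.floor_le (z a)
      have h2 := abs_le.mp (hxa a)
      simp only [Pi.sub_apply, hk]
      linarith
    · have := Int.lt_floor_add_one (z a)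
      have h2 := abs_le.mp (hxa a)
      simp only [Pi.sub_apply, hk]
      linarith
  have hdist : dist (z - (fun i => (k i : ℝ))) (w - (fun i => (k i : ℝ))) < δ := by
    rw [dist_sub_right, dist_eq_norm]
    have := hzw.trans (min_le_left _ _)
    linarith
  have h1 := h _ hz' _ hw' hdist
  rw [hG z, hG w, add_sub_add_right_eq_sub, ← dist_eq_norm]
  exact h1.le

private theorem LBiL_sub (G : (Fin n → ℝ) → (Fin n → ℝ)) {L ρ : ℝ} (hρ : 0 < ρ)
    (h : ∀ z w : Fin n → ℝ, ‖z - w‖ ≤ ρ → ‖G z - G w‖ ≤ L * ‖z - w‖) (z w : Fin n → ℝ) :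
    ‖G z - G w‖ ≤ L * ‖z - w‖ := by
  obtain ⟨N, hN⟩ := exists_nat_gt (‖z - w‖ / ρ)
  have hN0 : (0 : ℝ) < N := lt_of_le_of_lt (by positivity) hN
  have hstep : ‖z - w‖ / N ≤ ρ := by
    rw [div_le_iff₀ hN0]
    rw [div_lt_iff₀ hρ] at hN
    linarith
  set p : ℕ → (Fin n → ℝ) := fun i => w + ((i : ℝ) / N) • (z - w) with hp
  have hd : ∀ i, p (i + 1) - p i = (1 / (N : ℝ)) • (z - w) := by
    intro i
    simp only [hp]
    rw [add_sub_add_left_eq_sub, ← sub_smul]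
    congr 1
    push_cast
    ring
  have hn : ∀ i, ‖p (i + 1) - p i‖ = ‖z - w‖ / N := by
    intro i
    rw [hd, norm_smul, Real.norm_eq_abs, abs_of_pos (by positivity)]
    ring
  have hind : ∀ i : ℕ, ‖G (p i) - G w‖ ≤ i * (L * (‖z - w‖ / N)) := by
    intro i
    induction i with
    | zero =>
      have : p 0 = w := by simp [hp]
      rw [this, sub_self, norm_zero, Nat.cast_zero, zero_mul]
    | succ i ih =>
      have h1 := h (p (i + 1)) (p i) (by rw [hn]; exact hstep)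
      rw [hn] at h1
      have h2 : G (p (i + 1)) - G w = (G (p (i + 1)) - G (p i)) + (G (p i) - G w) := by abel
      rw [h2]
      refine (norm_add_le _ _).trans ?_
      push_cast
      linarith
  have hN1 := hind N
  have hpN : p N = z := by
    simp only [hp]
    rw [div_self hN0.ne', one_smul, add_sub_cancel]
  rw [hpN] at hN1
  refine hN1.trans (le_of_eq ?_)
  field_simp

/-- Bi-Lipschitz. The hypothesis with `ε = 1 / (2 A)` gives `‖y - x‖ ≤ L ‖H y - H x‖` for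
`‖y - x‖ ≤ s₀`. `H'` is uniformly continuous (continuous, periodic displacement), so for some `ρ > 0`:
`‖z - w‖ ≤ ρ → ‖H' z - H' w‖ ≤ s₀`, hence `≤ L ‖z - w‖`; subdividing the segment from `z` to `w`,
`H'` is `L`-Lipschitz. -/
theorem biL_of_near (hd : DatA α F F' H H') {A A' : ℝ} (hA : 1 ≤ A) (hA' : 1 ≤ A')
    {m : (Fin n → ℝ) → Matrix (Fin n) (Fin n) ℝ} (hm : Met F A m)
    (Q₀ : Matrix (Fin n) (Fin n) ℝ) (hQ : Ell A' Q₀)
    (h : ∀ ε : ℝ, 0 < ε → ∃ s₀ : ℝ, 0 < s₀ ∧ ∀ x y : Fin n → ℝ, ‖y - x‖ ≤ s₀ →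
        |nrm Q₀ (H y - H x) - nrm (m x) (y - x)| ≤ ε * ‖y - x‖)
    (C : ℝ) (hC : ∀ x y, ‖H x - H y‖ ≤ C * ‖x - y‖) : ∃ L : ℝ, 1 ≤ L ∧ BiL L H := by
  obtain ⟨s, hs, hs1⟩ := h (1 / (2 * A)) (by positivity)
  have hA0 : 0 < A := by linarith
  have hA0' : 0 < A' := by linarith
  have hloc : ∀ x y : Fin n → ℝ, ‖y - x‖ ≤ s → ‖y - x‖ ≤ 2 * A * A' * ‖H y - H x‖ := by
    intro x y hxy
    have h1 := (abs_le.mp (hs1 x y hxy)).1
    have h2 := (nrm_le hA (hm.ell x) (y - x)).2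
    have h3 := (nrm_le hA' hQ (H y - H x)).1
    have h4 : ‖y - x‖ ≤ A * nrm Q₀ (H y - H x) + 1 / 2 * ‖y - x‖ := by
      have h5 : nrm (m x) (y - x) ≤ nrm Q₀ (H y - H x) + 1 / (2 * A) * ‖y - x‖ := by linarith
      have h6 := mul_le_mul_of_nonneg_left h5 hA0.le
      have h7 : A * (nrm Q₀ (H y - H x) + 1 / (2 * A) * ‖y - x‖) =
          A * nrm Q₀ (H y - H x) + 1 / 2 * ‖y - x‖ := by
        field_simp
      linarith
    have h8 := mul_le_mul_of_nonneg_left h3 hA0.le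
    nlinarith
  obtain ⟨ρ, hρ, hρ1⟩ := LBiL_uc H' hd.contH' hd.perH' hs
  have hH' : ∀ z w : Fin n → ℝ, ‖H' z - H' w‖ ≤ 2 * A * A' * ‖z - w‖ := by
    refine LBiL_sub H' hρ fun z w hzw => ?_
    have h1 := hloc (H' w) (H' z) (hρ1 z w hzw)
    rwa [hd.rightH, hd.rightH] at h1
  have hC' : C ≤ |C| := le_abs_self C
  refine ⟨1 + |C| + 2 * A * A', ?_, fun x y => ⟨?_, ?_⟩⟩
  · have : 0 < 2 * A * A' := by positivity
    have := abs_nonneg C
    linarith
  · refine (hC x y).trans (mul_le_mul_of_nonneg_right ?_ (norm_nonneg _))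
    have : 0 < 2 * A * A' := by positivity
    linarith
  · have h1 := hH' (H x) (H y)
    rw [hd.leftH, hd.leftH] at h1
    refine h1.trans (mul_le_mul_of_nonneg_right ?_ (norm_nonneg _))
    have := abs_nonneg C
    linarith

end QPR
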