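import Pool.Agent.Lib.QPA.LNrm

set_option autoImplicit false

namespace QPR

variable {n : ℕ}

private theorem lflat_bf (Q : Matrix (Fin n) (Fin n) ℝ) (v w : Fin n → ℝ) :
    BF Q v w = Matrix.toBilin' Q v w := by
  unfold BF
  rw [Matrix.toBilin'_apply']

private theorem lflat_qf (Q : Matrix (Fin n) (Fin n) ℝ) (v : Fin n → ℝ) :
    QF Q v = BF Q v v := rfl

private theorem lflat_bf_symm {Q : Matrix (Fin n) (Fin n) ℝ} (h : Q.IsSymm)
    (v w : Fin n → ℝ) : BF Q v w = BF Q w v := by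
  have h1 := bf_polar h v w
  have h2 := bf_polar h w v
  have h3 : QF Q (v - w) = QF Q (w - v) := by
    rw [lflat_qf, lflat_qf, lflat_bf, lflat_bf, ← neg_sub w v]
    simp only [map_neg, LinearMap.neg_apply, neg_neg]
  linarith

/-- expansion of the square -/
private theorem lflat_expand {Q : Matrix (Fin n) (Fin n) ℝ} (h : Q.IsSymm)
    (a : Fin n → ℝ) (c : Fin n → ℝ) (u : Fin n → (Fin n → ℝ)) :
    QF Q (a - ∑ i, c i • u i)
      = QF Q a - 2 * ∑ i, c i * BF Q a (u i) + ∑ i, ∑ j, c i * c j * BF Q (u i) (u j) := by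
  have e0 : ∀ a : Fin n → ℝ, BF Q a (∑ i, c i • u i) = ∑ i, c i * BF Q a (u i) := by
    intro a
    rw [lflat_bf, map_sum]
    refine Finset.sum_congr rfl fun i _ => ?_
    rw [map_smul, lflat_bf, smul_eq_mul]
  have e1 := e0 a
  have e2 : BF Q (∑ i, c i • u i) a = ∑ i, c i * BF Q a (u i) := by
    rw [lflat_bf_symm h, e1]
  have e3 : BF Q (∑ i, c i • u i) (∑ i, c i • u i)
      = ∑ i, ∑ j, c i * c j * BF Q (u i) (u j) := by
    rw [e0]
    refine Finset.sum_congr rfl fun i _ => ?_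
    rw [lflat_bf_symm h, e0, Finset.mul_sum]
    refine Finset.sum_congr rfl fun j _ => ?_
    rw [mul_assoc]
  have e4 : QF Q (a - ∑ i, c i • u i) = BF Q a a - BF Q a (∑ i, c i • u i)
      - (BF Q (∑ i, c i • u i) a - BF Q (∑ i, c i • u i) (∑ i, c i • u i)) := by
    rw [lflat_qf]
    simp only [lflat_bf, map_sub, LinearMap.sub_apply]
    ring
  rw [e4, e1, e2, e3, lflat_qf]
  ring

/-- algebra: two bilinear data which agree up to `κ` on all relevant pairs -/
private theorem lflat_cmp {Q M : Matrix (Fin n) (Fin n) ℝ} (hQ : Q.IsSymm) (hM : M.IsSymm)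
    (a b : Fin n → ℝ) (c : Fin n → ℝ) (u w : Fin n → (Fin n → ℝ)) (κ : ℝ)
    (hc : ∀ i, |c i| ≤ 1)
    (h0 : |QF Q a - QF M b| ≤ κ) (h1 : ∀ i, |BF Q a (u i) - BF M b (w i)| ≤ κ)
    (h2 : ∀ i j, |BF Q (u i) (u j) - BF M (w i) (w j)| ≤ κ) :
    |QF Q (a - ∑ i, c i • u i) - QF M (b - ∑ i, c i • w i)| ≤ κ * ((n : ℝ) + 1) ^ 2 := by
  have hκ : 0 ≤ κ := le_trans (abs_nonneg _) h0
  rw [lflat_expand hQ, lflat_expand hM]
  have s1 : |∑ i, c i * BF Q a (u i) - ∑ i, c i * BF M b (w i)| ≤ (n : ℝ) * κ := by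
    rw [← Finset.sum_sub_distrib]
    calc |∑ i, (c i * BF Q a (u i) - c i * BF M b (w i))|
        ≤ ∑ i, |c i * BF Q a (u i) - c i * BF M b (w i)| := Finset.abs_sum_le_sum_abs _ _
      _ ≤ ∑ _i : Fin n, κ := by
          refine Finset.sum_le_sum fun i _ => ?_
          rw [← mul_sub, abs_mul]
          calc |c i| * |BF Q a (u i) - BF M b (w i)| ≤ 1 * κ :=
                mul_le_mul (hc i) (h1 i) (abs_nonneg _) zero_le_one
            _ = κ := one_mul _
      _ = (n : ℝ) * κ := by simp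
  have s2 : |∑ i, ∑ j, c i * c j * BF Q (u i) (u j) - ∑ i, ∑ j, c i * c j * BF M (w i) (w j)|
      ≤ (n : ℝ) * ((n : ℝ) * κ) := by
    rw [← Finset.sum_sub_distrib]
    calc |∑ i, (∑ j, c i * c j * BF Q (u i) (u j) - ∑ j, c i * c j * BF M (w i) (w j))|
        ≤ ∑ i, |∑ j, c i * c j * BF Q (u i) (u j) - ∑ j, c i * c j * BF M (w i) (w j)| :=
          Finset.abs_sum_le_sum_abs _ _
      _ ≤ ∑ _i : Fin n, (n : ℝ) * κ := by
          refine Finset.sum_le_sum fun i _ => ?_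
          rw [← Finset.sum_sub_distrib]
          calc |∑ j, (c i * c j * BF Q (u i) (u j) - c i * c j * BF M (w i) (w j))|
              ≤ ∑ j, |c i * c j * BF Q (u i) (u j) - c i * c j * BF M (w i) (w j)| :=
                Finset.abs_sum_le_sum_abs _ _
            _ ≤ ∑ _j : Fin n, κ := by
                refine Finset.sum_le_sum fun j _ => ?_
                rw [← mul_sub, abs_mul, abs_mul]
                have : |c i| * |c j| ≤ 1 := by
                  calc |c i| * |c j| ≤ 1 * 1 :=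
                        mul_le_mul (hc i) (hc j) (abs_nonneg _) zero_le_one
                    _ = 1 := one_mul _
                calc |c i| * |c j| * |BF Q (u i) (u j) - BF M (w i) (w j)| ≤ 1 * κ :=
                      mul_le_mul this (h2 i j) (abs_nonneg _) zero_le_one
                  _ = κ := one_mul _
            _ = (n : ℝ) * κ := by simp
      _ = (n : ℝ) * ((n : ℝ) * κ) := by simp
  rw [abs_le] at h0 s1 s2 ⊢
  constructor
  · nlinarith [h0.1, h0.2, s1.1, s1.2, s2.1, s2.2]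
  · nlinarith [h0.1, h0.2, s1.1, s1.2, s2.1, s2.2]

/-- Near isometries are flat. Fix `x`, `s`, and `g y = H (x + y) - H x` for `‖y‖ ≤ s`. For `‖y‖, ‖y'‖ ≤ s`
`QF Q₀ (g y - g y') = QF (m x) (y - y') + O(ε s²)` (hypothesis at the base point `x + y'`, `met_unif`).
Polarisation (`bf_polar`): `BF Q₀ (g y) (g y') = BF (m x) y y' + O(ε s²)`. Let `T` be the linear map with
`T e_i = g (s e_i) / s`. Expanding the square, for `y = ∑ y_i e_i`:
`QF Q₀ (g y - T y) = QF Q₀ (g y) - 2 ∑ (y_i/s) BF Q₀ (g y) (g (s e_i)) + ∑∑ (y_i y_j / s²) BF Q₀ (g (s e_i)) (g (s e_j))`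
`= QF (m x) y - 2 QF (m x) y + QF (m x) y + O(ε s²)`, so `‖g y - T y‖ ≤ C √ε s`. -/
theorem flat_of_near {F H : (Fin n → ℝ) → (Fin n → ℝ)} {A A' : ℝ} (hA : 1 ≤ A) (hA' : 1 ≤ A')
    {m : (Fin n → ℝ) → Matrix (Fin n) (Fin n) ℝ} (hm : Met F A m)
    (Q₀ : Matrix (Fin n) (Fin n) ℝ) (hQ : Ell A' Q₀)
    (h : ∀ ε : ℝ, 0 < ε → ∃ s₀ : ℝ, 0 < s₀ ∧ ∀ x y : Fin n → ℝ, ‖y - x‖ ≤ s₀ →
        |nrm Q₀ (H y - H x) - nrm (m x) (y - x)| ≤ ε * ‖y - x‖) : Flat H := by
  intro η hη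
  have hA0 : 0 < A := by linarith
  have hA0' : 0 < A' := by linarith
  have hn0 : (0 : ℝ) ≤ n := Nat.cast_nonneg n
  obtain ⟨ε, hε0, hε1, hε⟩ : ∃ ε : ℝ, 0 < ε ∧ ε ≤ 1 ∧
      A' * ((64 * A * ε) * ((n : ℝ) + 1) ^ 2) ≤ η ^ 2 := by
    refine ⟨min 1 (η ^ 2 / (64 * A * A' * ((n : ℝ) + 1) ^ 2)), lt_min one_pos (by positivity),
      min_le_left _ _, ?_⟩
    have h1 : min 1 (η ^ 2 / (64 * A * A' * ((n : ℝ) + 1) ^ 2))
        ≤ η ^ 2 / (64 * A * A' * ((n : ℝ) + 1) ^ 2) := min_le_right _ _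
    calc A' * ((64 * A * min 1 (η ^ 2 / (64 * A * A' * ((n : ℝ) + 1) ^ 2))) * ((n : ℝ) + 1) ^ 2)
        ≤ A' * ((64 * A * (η ^ 2 / (64 * A * A' * ((n : ℝ) + 1) ^ 2))) * ((n : ℝ) + 1) ^ 2) := by
          gcongr
      _ = η ^ 2 := by field_simp
  obtain ⟨s₁, hs₁, H1⟩ := h ε hε0
  obtain ⟨δ, hδ, H2⟩ := met_unif hm ε hε0
  refine ⟨min (s₁ / 2) δ, lt_min (by positivity) hδ, ?_⟩
  intro s hs hs' x
  have hsa : 2 * s ≤ s₁ := by
    have := le_trans hs' (min_le_left _ _)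
    linarith
  have hsb : s ≤ δ := le_trans hs' (min_le_right _ _)
  -- key comparison
  have key : ∀ y y' : Fin n → ℝ, ‖y‖ ≤ s → ‖y'‖ ≤ s →
      |QF Q₀ ((H (x + y) - H x) - (H (x + y') - H x)) - QF (m x) (y - y')|
        ≤ (32 * A * ε) * s ^ 2 := by
    intro y y' hy hy'
    have e1 : (H (x + y) - H x) - (H (x + y') - H x) = H (x + y) - H (x + y') := by abel
    have e2 : (x + y) - (x + y') = y - y' := by abel
    have hd : ‖y - y'‖ ≤ 2 * s := by
      calc ‖y - y'‖ ≤ ‖y‖ + ‖y'‖ := norm_sub_le _ _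
        _ ≤ 2 * s := by linarith
    have a1 := H1 (x + y') (x + y) (by rw [e2]; linarith)
    rw [e2] at a1
    have a2 := H2 (x + y') x (by
      have : x + y' - x = y' := by abel
      rw [this]; linarith) (y - y')
    rw [e1]
    obtain ⟨p1, p2, p3⟩ := nrm_sq hA' hQ (H (x + y) - H (x + y'))
    obtain ⟨q1, q2, q3⟩ := nrm_sq hA (hm.ell x) (y - y')
    obtain ⟨r1, r2⟩ := nrm_le hA (hm.ell x) (y - y')
    rw [← p1, ← q1]
    have hN : 0 ≤ ‖y - y'‖ := norm_nonneg _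
    have b1 : |nrm Q₀ (H (x + y) - H (x + y')) - nrm (m x) (y - y')| ≤ 4 * ε * s := by
      calc |nrm Q₀ (H (x + y) - H (x + y')) - nrm (m x) (y - y')|
          ≤ |nrm Q₀ (H (x + y) - H (x + y')) - nrm (m (x + y')) (y - y')|
            + |nrm (m (x + y')) (y - y') - nrm (m x) (y - y')| := abs_sub_le _ _ _
        _ ≤ ε * ‖y - y'‖ + ε * ‖y - y'‖ := add_le_add a1 a2
        _ ≤ ε * (2 * s) + ε * (2 * s) := by gcongr
        _ = 4 * ε * s := by ring
    have b2 : nrm (m x) (y - y') ≤ 2 * A * s := by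
      calc nrm (m x) (y - y') ≤ A * ‖y - y'‖ := r1
        _ ≤ A * (2 * s) := by gcongr
        _ = 2 * A * s := by ring
    have b3 : nrm Q₀ (H (x + y) - H (x + y')) ≤ 2 * A * s + 4 * ε * s := by
      have := (abs_le.1 b1).2
      linarith
    have b4 : |nrm Q₀ (H (x + y) - H (x + y')) + nrm (m x) (y - y')| ≤ 8 * A * s := by
      rw [abs_of_nonneg (by positivity)]
      have : ε * s ≤ A * s := by gcongr; linarith
      nlinarith
    calc |nrm Q₀ (H (x + y) - H (x + y')) ^ 2 - nrm (m x) (y - y') ^ 2|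
        = |nrm Q₀ (H (x + y) - H (x + y')) - nrm (m x) (y - y')|
          * |nrm Q₀ (H (x + y) - H (x + y')) + nrm (m x) (y - y')| := by
          rw [← abs_mul]; congr 1; ring
      _ ≤ (4 * ε * s) * (8 * A * s) := mul_le_mul b1 b4 (abs_nonneg _) (by positivity)
      _ = (32 * A * ε) * s ^ 2 := by ring
  have key0 : ∀ y : Fin n → ℝ, ‖y‖ ≤ s →
      |QF Q₀ (H (x + y) - H x) - QF (m x) y| ≤ (32 * A * ε) * s ^ 2 := by
    intro y hy
    have := key y 0 hy (by simpa using hs.le)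
    simpa using this
  have keyB : ∀ y y' : Fin n → ℝ, ‖y‖ ≤ s → ‖y'‖ ≤ s →
      |BF Q₀ (H (x + y) - H x) (H (x + y') - H x) - BF (m x) y y'| ≤ (64 * A * ε) * s ^ 2 := by
    intro y y' hy hy'
    have k1 := key y y' hy hy'
    have k2 := key0 y hy
    have k3 := key0 y' hy'
    have p1 := bf_polar hQ.1 (H (x + y) - H x) (H (x + y') - H x)
    have p2 := bf_polar (hm.ell x).1 y y'
    have hk : 0 ≤ (32 * A * ε) * s ^ 2 := by positivity
    rw [abs_le] at k1 k2 k3 ⊢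
    constructor <;> nlinarith [k1.1, k1.2, k2.1, k2.2, k3.1, k3.2]
  -- the linear map
  let u : Fin n → (Fin n → ℝ) := fun i => H (x + Pi.single i s) - H x
  have hsing : ∀ i : Fin n, ‖(Pi.single i s : Fin n → ℝ)‖ ≤ s := by
    intro i
    rw [pi_norm_le_iff_of_nonneg hs.le]
    intro j
    by_cases hij : j = i
    · subst hij
      rw [Pi.single_eq_same, Real.norm_eq_abs, abs_of_pos hs]
    · rw [Pi.single_eq_of_ne hij, norm_zero]
      exact hs.le
  let T : (Fin n → ℝ) →L[ℝ] (Fin n → ℝ) :=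
    ∑ i, (ContinuousLinearMap.proj (R := ℝ) (φ := fun _ : Fin n => ℝ) i).smulRight
      ((1 / s) • u i)
  refine ⟨H x, T, ?_⟩
  intro y hy
  set z : Fin n → ℝ := y - x with hz
  have hyz : y = x + z := by rw [hz]; abel
  have hT : T z = ∑ i, (z i / s) • u i := by
    simp only [T, _root_.sum_apply, ContinuousLinearMap.smulRight_apply,
      ContinuousLinearMap.proj_apply]
    refine Finset.sum_congr rfl fun i _ => ?_
    rw [smul_smul]
    congr 1
    ring
  have hzz : z - ∑ i, (z i / s) • (Pi.single i s : Fin n → ℝ) = 0 := by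
    have : ∑ i, (z i / s) • (Pi.single i s : Fin n → ℝ) = z := by
      funext j
      rw [Finset.sum_apply, Finset.sum_eq_single j]
      · rw [Pi.smul_apply, Pi.single_eq_same, smul_eq_mul]
        field_simp
      · intro i _ hij
        rw [Pi.smul_apply, Pi.single_eq_of_ne (Ne.symm hij), smul_zero]
      · intro hj
        exact absurd (Finset.mem_univ j) hj
    rw [this, sub_self]
  have hc : ∀ i, |z i / s| ≤ 1 := by
    intro i
    rw [abs_div, abs_of_pos hs, div_le_one hs]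
    exact le_trans (norm_le_pi_norm z i) hy
  have cmp := lflat_cmp hQ.1 (hm.ell x).1 (H (x + z) - H x) z (fun i => z i / s) u
    (fun i => (Pi.single i s : Fin n → ℝ)) ((64 * A * ε) * s ^ 2) hc
    (by
      refine le_trans (key0 z hy) ?_
      have : 0 ≤ A * ε * s ^ 2 := by positivity
      nlinarith)
    (fun i => keyB z _ hy (hsing i))
    (fun i j => keyB _ _ (hsing i) (hsing j))
  rw [hzz] at cmp
  have hQ0 : QF (m x) (0 : Fin n → ℝ) = 0 := by
    rw [lflat_qf, lflat_bf]; simp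
  rw [hQ0, sub_zero] at cmp
  have hfin := (hQ.2 (H (x + z) - H x - ∑ i, (z i / s) • u i)).1
  have h5 : ‖H (x + z) - H x - ∑ i, (z i / s) • u i‖ ^ 2 ≤ (η * s) ^ 2 := by
    calc ‖H (x + z) - H x - ∑ i, (z i / s) • u i‖ ^ 2
        ≤ A' * QF Q₀ (H (x + z) - H x - ∑ i, (z i / s) • u i) := hfin
      _ ≤ A' * ((64 * A * ε) * s ^ 2 * ((n : ℝ) + 1) ^ 2) := by
          gcongr
          exact le_trans (le_abs_self _) cmp
      _ = (A' * ((64 * A * ε) * ((n : ℝ) + 1) ^ 2)) * s ^ 2 := by ring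
      _ ≤ η ^ 2 * s ^ 2 := by gcongr
      _ = (η * s) ^ 2 := by ring
  have h6 : ‖H (x + z) - H x - ∑ i, (z i / s) • u i‖ ≤ η * s :=
    (abs_le_of_sq_le_sq' h5 (by positivity)).2
  rw [hyz]
  have e7 : x + z - x = z := by abel
  rw [hT]
  exact h6

end QPR
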