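import Pool.Agent.Lib.QPA.LTr

set_option autoImplicit false

namespace QPR

variable {n : ℕ} {α : Fin n → ℝ} {F F' H H' : (Fin n → ℝ) → (Fin n → ℝ)}

/-- If all `Tr θ` are `C`-Lipschitz then `H` is `C`-Lipschitz. Put `θ = H y - H x`, so `Tr θ x = y`.
`‖Tr (k θ) x - x‖ ≤ ∑_{j<k} ‖Tr (j θ) (Tr θ x) - Tr (j θ) x‖ ≤ k C ‖y - x‖`, and
`‖Tr (k θ) x - x‖ ≥ k ‖θ‖ - 2 B` (`dat_bdd`: `H' z = z + O(B)`, `H x = x + O(B)`); let `k → ∞`. -/
theorem H_lip (hd : DatA α F F' H H') (C : ℝ)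
    (hC : ∀ θ x y : Fin n → ℝ, ‖Tr H H' θ x - Tr H H' θ y‖ ≤ C * ‖x - y‖) (x y : Fin n → ℝ) :
    ‖H x - H y‖ ≤ C * ‖x - y‖ := by
  obtain ⟨B, hB0, hB1, hB2⟩ := dat_bdd hd
  set θ : Fin n → ℝ := H y - H x with hθ
  have h1 : ∀ k : ℕ, ‖Tr H H' ((k : ℝ) • θ) x - x‖ ≤ k * (C * ‖x - y‖) := by
    intro k
    induction k with
    | zero =>
      simp [tr_zero hd]
    | succ k ih =>
      have h2 : Tr H H' (((k + 1 : ℕ) : ℝ) • θ) x = Tr H H' ((k : ℝ) • θ) y := by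
        have h3 := tr_tr hd ((k : ℝ) • θ) θ x
        rw [hθ, tr_sub hd x y, ← hθ] at h3
        rw [h3]
        congr 1
        push_cast
        rw [add_smul, one_smul]
      rw [h2]
      have h4 := hC ((k : ℝ) • θ) y x
      have h5 : Tr H H' ((k : ℝ) • θ) y - x = (Tr H H' ((k : ℝ) • θ) y - Tr H H' ((k : ℝ) • θ) x) +
          (Tr H H' ((k : ℝ) • θ) x - x) := by abel
      rw [h5]
      refine (norm_add_le _ _).trans ?_
      rw [norm_sub_rev y x] at h4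
      push_cast
      linarith
  have h6 : ∀ k : ℕ, (k : ℝ) * ‖θ‖ ≤ k * (C * ‖x - y‖) + 2 * B := by
    intro k
    have h7 := h1 k
    have h8 := hB1 (H x + (k : ℝ) • θ)
    have h9 := hB2 x
    have h10 : (k : ℝ) • θ = (Tr H H' ((k : ℝ) • θ) x - x) -
        (H' (H x + (k : ℝ) • θ) - (H x + (k : ℝ) • θ)) - (H x - x) := by
      unfold Tr
      abel
    have h11 : ‖(k : ℝ) • θ‖ = k * ‖θ‖ := by
      rw [norm_smul, Real.norm_natCast]
    rw [← h11, h10]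
    have h12 := norm_sub_le ((Tr H H' ((k : ℝ) • θ) x - x) -
        (H' (H x + (k : ℝ) • θ) - (H x + (k : ℝ) • θ))) (H x - x)
    have h13 := norm_sub_le (Tr H H' ((k : ℝ) • θ) x - x)
        (H' (H x + (k : ℝ) • θ) - (H x + (k : ℝ) • θ))
    linarith
  have h14 : ‖θ‖ ≤ C * ‖x - y‖ := by
    by_contra hcon
    push Not at hcon
    obtain ⟨k, hk⟩ := exists_nat_gt (2 * B / (‖θ‖ - C * ‖x - y‖))
    have hpos : 0 < ‖θ‖ - C * ‖x - y‖ := by linarith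
    rw [div_lt_iff₀ hpos] at hk
    have := h6 k
    nlinarith
  rw [norm_sub_rev]
  exact h14

end QPR
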