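import Pool.Agent.Lib.QPA.LDef

set_option autoImplicit false

namespace QPR

open Matrix

private theorem LAmgm_sqrt {n : ℕ} (Q : Matrix (Fin n) (Fin n) ℝ) (h : Q.PosDef) :
    ∃ R : Matrix (Fin n) (Fin n) ℝ, R.IsHermitian ∧ R * R = Q ∧ R.det ≠ 0 := by
  classical
  have hQ := h.isHermitian
  set U : Matrix (Fin n) (Fin n) ℝ := (hQ.eigenvectorUnitary : Matrix (Fin n) (Fin n) ℝ) with hU
  have hU1 : star U * U = 1 := Unitary.coe_star_mul_self _
  have hspec : Q = U * diagonal hQ.eigenvalues * star U := by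
    have := hQ.spectral_theorem
    rw [Unitary.conjStarAlgAut_apply] at this
    simpa using this
  set D : Matrix (Fin n) (Fin n) ℝ := diagonal fun i => √(hQ.eigenvalues i) with hD
  have hDD : D * D = diagonal hQ.eigenvalues := by
    rw [hD, diagonal_mul_diagonal]
    congr 1
    funext i
    exact Real.mul_self_sqrt (h.eigenvalues_pos i).le
  refine ⟨U * D * star U, ?_, ?_, ?_⟩
  · show (U * D * star U)ᴴ = U * D * star U
    rw [conjTranspose_mul, conjTranspose_mul, ← star_eq_conjTranspose, ← star_eq_conjTranspose,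
      ← star_eq_conjTranspose, star_star, mul_assoc]
    congr 2
    rw [hD, star_eq_conjTranspose, diagonal_conjTranspose]
    congr 1
  · calc U * D * star U * (U * D * star U) = U * D * (star U * U) * D * star U := by
          simp only [mul_assoc]
      _ = U * (D * D) * star U := by rw [hU1]; simp only [mul_assoc, mul_one]
      _ = Q := by rw [hDD, ← hspec]
  · intro h0
    have h1 : (U * D * star U * (U * D * star U)).det = Q.det := by
      congr 1
      calc U * D * star U * (U * D * star U) = U * D * (star U * U) * D * star U := by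
            simp only [mul_assoc]
        _ = U * (D * D) * star U := by rw [hU1]; simp only [mul_assoc, mul_one]
        _ = Q := by rw [hDD, ← hspec]
    rw [det_mul, h0, mul_zero] at h1
    exact h.det_pos.ne h1

private theorem LAmgm_one {n : ℕ} (S : Matrix (Fin n) (Fin n) ℝ) (h : S.PosDef) (hne : S ≠ 1) :
    S.det < (((1 / 2 : ℝ) • (1 + S)).det) ^ 2 := by
  classical
  have hS := h.isHermitian
  set U : Matrix (Fin n) (Fin n) ℝ := (hS.eigenvectorUnitary : Matrix (Fin n) (Fin n) ℝ) with hU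
  have hU1 : star U * U = 1 := Unitary.coe_star_mul_self _
  have hU2 : U * star U = 1 := Unitary.coe_mul_star_self _
  have hspec : S = U * diagonal hS.eigenvalues * star U := by
    have := hS.spectral_theorem
    rw [Unitary.conjStarAlgAut_apply] at this
    simpa using this
  have hdU : U.det * (star U).det = 1 := by
    rw [← det_mul, hU2, det_one]
  have h1 : S.det = ∏ i, hS.eigenvalues i := by
    rw [hS.det_eq_prod_eigenvalues]
    simp
  have h2 : (1 / 2 : ℝ) • (1 + S) =
      U * diagonal (fun i => (1 + hS.eigenvalues i) / 2) * star U := by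
    have h3 : diagonal (fun i => (1 + hS.eigenvalues i) / 2) =
        (1 / 2 : ℝ) • ((1 : Matrix (Fin n) (Fin n) ℝ) + diagonal hS.eigenvalues) := by
      ext i j
      by_cases hij : i = j
      · subst hij
        simp
        ring
      · simp [hij]
    rw [h3, Matrix.mul_smul, Matrix.smul_mul, mul_add, add_mul, mul_one, hU2, ← hspec]
  have h4 : ((1 / 2 : ℝ) • (1 + S)).det = ∏ i, (1 + hS.eigenvalues i) / 2 := by
    rw [h2, det_mul, det_mul, det_diagonal]
    calc U.det * (∏ i, (1 + hS.eigenvalues i) / 2) * (star U).det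
        = (U.det * (star U).det) * ∏ i, (1 + hS.eigenvalues i) / 2 := by ring
      _ = _ := by rw [hdU, one_mul]
  rw [h1, h4, ← Finset.prod_pow]
  have hex : ∃ i, hS.eigenvalues i ≠ 1 := by
    by_contra hcon
    push Not at hcon
    apply hne
    rw [hspec]
    have : diagonal hS.eigenvalues = (1 : Matrix (Fin n) (Fin n) ℝ) := by
      rw [← diagonal_one]
      congr 1
      funext i
      exact hcon i
    rw [this, mul_one, hU2]
  obtain ⟨j, hj⟩ := hex
  refine Finset.prod_lt_prod (fun i _ => h.eigenvalues_pos i) (fun i _ => ?_)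
    ⟨j, Finset.mem_univ j, ?_⟩
  · nlinarith [sq_nonneg (hS.eigenvalues i - 1)]
  · have : 0 < (hS.eigenvalues j - 1) ^ 2 := by
      have : hS.eigenvalues j - 1 ≠ 0 := sub_ne_zero.mpr hj
      positivity
    nlinarith

/-- Strict concavity of the determinant (AM-GM): for positive definite `Q₁ ≠ Q₂`,
`det Q₁ det Q₂ < det ((Q₁ + Q₂)/2)²`. Write `Q₁ = Bᵀ B` with `B` invertible, `S = B⁻ᵀ Q₂ B⁻¹`
(positive definite, `S ≠ 1`): the inequality becomes `det S < det ((1 + S)/2)²`; with the eigenvalues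
`λ_i > 0` of `S`, not all equal to one, it is `∏ λ_i < ∏ ((1+λ_i)/2)²`, and `λ ≤ ((1+λ)/2)²` with
equality only for `λ = 1`. -/
theorem det_avg_lt {n : ℕ} (Q₁ Q₂ : Matrix (Fin n) (Fin n) ℝ) (h₁ : Q₁.PosDef) (h₂ : Q₂.PosDef)
    (hne : Q₁ ≠ Q₂) : Q₁.det * Q₂.det < (((1 / 2 : ℝ) • (Q₁ + Q₂)).det) ^ 2 := by
  classical
  obtain ⟨R, hR, hRR, hdet⟩ := LAmgm_sqrt Q₁ h₁
  have hu : IsUnit R.det := isUnit_iff_ne_zero.mpr hdet
  have hu' : IsUnit R := (isUnit_iff_isUnit_det R).mpr hu
  have hi1 : R⁻¹ * R = 1 := nonsing_inv_mul R hu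
  have hi2 : R * R⁻¹ = 1 := mul_nonsing_inv R hu
  set S : Matrix (Fin n) (Fin n) ℝ := R⁻¹ * Q₂ * R⁻¹ with hSdef
  have hinvH : (R⁻¹)ᴴ = R⁻¹ := by
    rw [conjTranspose_nonsing_inv, hR.eq]
  have hS : S.PosDef := by
    have h := h₂.conjTranspose_mul_mul_same (B := R⁻¹) (mulVec_injective_of_isUnit (by
      have : IsUnit (R⁻¹).det := by
        rw [det_nonsing_inv]
        exact hu.ringInverse
      exact (isUnit_iff_isUnit_det _).mpr this))
    rwa [hinvH] at h
  have hQ2 : Q₂ = R * S * R := by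
    calc Q₂ = (R * R⁻¹) * Q₂ * (R⁻¹ * R) := by rw [hi1, hi2, one_mul, mul_one]
      _ = R * S * R := by rw [hSdef]; simp only [mul_assoc]
  have hSne : S ≠ 1 := by
    intro h
    apply hne
    rw [hQ2, h, mul_one, hRR]
  have hkey := LAmgm_one S hS hSne
  have havg : (1 / 2 : ℝ) • (Q₁ + Q₂) = R * ((1 / 2 : ℝ) • (1 + S)) * R := by
    rw [Matrix.mul_smul, Matrix.smul_mul, mul_add, add_mul, mul_one, hRR, ← hQ2]
  have hd1 : Q₁.det = R.det * R.det := by rw [← hRR, det_mul]
  have hd2 : Q₂.det = R.det * S.det * R.det := by rw [hQ2, det_mul, det_mul]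
  rw [havg, det_mul, det_mul, hd1, hd2]
  have hpos : 0 < (R.det) ^ 4 := by positivity
  calc R.det * R.det * (R.det * S.det * R.det) = (R.det) ^ 4 * S.det := by ring
    _ < (R.det) ^ 4 * (((1 / 2 : ℝ) • (1 + S)).det) ^ 2 := by gcongr
    _ = _ := by ring

end QPR
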