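import Pool.Agent.Lib.QPA.LDef

set_option autoImplicit false

namespace QPR

open Matrix

variable {n : ℕ}

private theorem LKK_cont {X : Type*} [TopologicalSpace X]
    {Q : X → Matrix (Fin n) (Fin n) ℝ} (hQ : Continuous Q) (v : Fin n → ℝ) :
    Continuous fun x => QF (Q x) v :=
  Continuous.dotProduct continuous_const (hQ.matrix_mulVec continuous_const)

/-- closed graph: the inequalities are closed conditions. -/
theorem kk_closed {X : Type*} [TopologicalSpace X] (A : ℝ)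
    (J : X → ℤ → Matrix (Fin n) (Fin n) ℝ) (hJ : ∀ k, Continuous (fun x => J x k)) :
    IsClosed {p : X × Matrix (Fin n) (Fin n) ℝ | p.2 ∈ KKJ A (J p.1)} := by
  have h1 : {p : X × Matrix (Fin n) (Fin n) ℝ | p.2 ∈ KKJ A (J p.1)} =
      {p | p.2ᵀ = p.2} ∩ ⋂ (k : ℤ), ⋂ (v : Fin n → ℝ),
        ({p | ‖J p.1 k *ᵥ v‖ ^ 2 ≤ A * QF p.2 v} ∩ {p | QF p.2 v ≤ A * ‖J p.1 k *ᵥ v‖ ^ 2}) := by
    ext p
    simp only [KKJ, Set.mem_setOf_eq, Set.mem_inter_iff, Set.mem_iInter, Matrix.IsSymm]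
  rw [h1]
  have hQ : ∀ v : Fin n → ℝ, Continuous fun p : X × Matrix (Fin n) (Fin n) ℝ => QF p.2 v :=
    fun v => LKK_cont continuous_snd v
  have hN : ∀ (k : ℤ) (v : Fin n → ℝ),
      Continuous fun p : X × Matrix (Fin n) (Fin n) ℝ => ‖J p.1 k *ᵥ v‖ ^ 2 := fun k v =>
    ((((hJ k).comp continuous_fst).matrix_mulVec continuous_const).norm).pow 2
  refine (isClosed_eq (continuous_snd.matrix_transpose) continuous_snd).inter
    (isClosed_iInter fun k => isClosed_iInter fun v => ?_)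
  exact (isClosed_le (hN k v) (continuous_const.mul (hQ v))).inter
    (isClosed_le (hQ v) (continuous_const.mul (hN k v)))

theorem kk_ell (A : ℝ) (J : ℤ → Matrix (Fin n) (Fin n) ℝ) (hJ : J 0 = 1)
    (Q : Matrix (Fin n) (Fin n) ℝ) (hQ : Q ∈ KKJ A J) : Ell A Q := by
  refine ⟨hQ.1, fun v => ?_⟩
  have h := hQ.2 0 v
  rwa [hJ, one_mulVec] at h

private theorem LKK_single (Q : Matrix (Fin n) (Fin n) ℝ) (i : Fin n) :
    QF Q (Pi.single i 1) = Q i i := by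
  simp [QF]

private theorem LKK_add (Q : Matrix (Fin n) (Fin n) ℝ) (v w : Fin n → ℝ) (hQ : Q.IsSymm) :
    QF Q (v + w) = QF Q v + QF Q w + 2 * (v ⬝ᵥ (Q *ᵥ w)) := by
  have h1 : w ⬝ᵥ (Q *ᵥ v) = v ⬝ᵥ (Q *ᵥ w) := by
    rw [dotProduct_comm, ← vecMul_transpose, hQ.eq, ← dotProduct_mulVec]
  unfold QF
  rw [mulVec_add, add_dotProduct, dotProduct_add, dotProduct_add, h1]
  ring

/-- all these sets are contained in one compact set (if `J 0 = 1`): `Ell A Q` holds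
(take `k = 0`), and the entries of `Q` are bounded by `4 A` (polarisation). -/
theorem kk_compact (A : ℝ) (hA : 0 ≤ A) : ∃ S : Set (Matrix (Fin n) (Fin n) ℝ), IsCompact S ∧
    ∀ J : ℤ → Matrix (Fin n) (Fin n) ℝ, J 0 = 1 → KKJ A J ⊆ S := by
  refine ⟨Set.pi Set.univ fun _ => Set.pi Set.univ fun _ => Set.Icc (-(4 * A)) (4 * A),
    isCompact_univ_pi fun _ => isCompact_univ_pi fun _ => isCompact_Icc, fun J hJ Q hQ => ?_⟩
  have hE := kk_ell A J hJ Q hQ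
  have hpos : ∀ v : Fin n → ℝ, 0 ≤ QF Q v := by
    intro v
    obtain ⟨h1, h2⟩ := hE.2 v
    by_contra hcon
    push Not at hcon
    have h3 : ‖v‖ ^ 2 ≤ 0 := h1.trans (mul_nonpos_of_nonneg_of_nonpos hA hcon.le)
    have h4 : v = 0 := by
      have := pow_eq_zero_iff two_ne_zero |>.mp (le_antisymm h3 (sq_nonneg ‖v‖))
      exact norm_eq_zero.mp this
    rw [h4] at hcon
    simp [QF] at hcon
  have h1 : ∀ i, ‖(Pi.single i 1 : Fin n → ℝ)‖ = 1 := fun i => by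
    rw [Pi.norm_single, norm_one]
  have hd : ∀ i, 0 ≤ Q i i ∧ Q i i ≤ A := by
    intro i
    have h2 := (hE.2 (Pi.single i 1)).2
    have h3 := hpos (Pi.single i 1)
    rw [LKK_single] at h2 h3
    rw [h1] at h2
    exact ⟨h3, by linarith⟩
  intro i _ j _
  have h2 := (hE.2 (Pi.single i 1 + Pi.single j 1)).2
  have h3 := hpos (Pi.single i 1 + Pi.single j 1)
  have h4 : (Pi.single i 1 : Fin n → ℝ) ⬝ᵥ (Q *ᵥ Pi.single j 1) = Q i j := by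
    simp
  rw [LKK_add Q _ _ hE.1, LKK_single, LKK_single, h4] at h2 h3
  have h5 : ‖(Pi.single i 1 : Fin n → ℝ) + Pi.single j 1‖ ≤ 2 := by
    calc _ ≤ ‖(Pi.single i 1 : Fin n → ℝ)‖ + ‖(Pi.single j 1 : Fin n → ℝ)‖ := norm_add_le _ _
      _ = 2 := by rw [h1, h1]; norm_num
  have h6 : ‖(Pi.single i 1 : Fin n → ℝ) + Pi.single j 1‖ ^ 2 ≤ 4 := by
    have h7 := norm_nonneg ((Pi.single i 1 : Fin n → ℝ) + Pi.single j 1)
    nlinarith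
  have h7 := mul_le_mul_of_nonneg_left h6 hA
  have h8 := hd i
  have h9 := hd j
  rw [Set.mem_Icc]
  constructor <;> linarith

/-- `Ell` implies positive definite. -/
theorem Ell.posDef {A : ℝ} (hA : 0 < A) {Q : Matrix (Fin n) (Fin n) ℝ} (h : Ell A Q) :
    Q.PosDef := by
  refine Matrix.PosDef.of_dotProduct_mulVec_pos ?_ fun x hx => ?_
  · rw [Matrix.IsHermitian, conjTranspose_eq_transpose_of_trivial]
    exact h.1
  · have h1 := (h.2 x).1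
    have h2 : 0 < ‖x‖ ^ 2 := pow_pos (norm_pos_iff.mpr hx) 2
    have h3 : 0 < A * QF Q x := h2.trans_le h1
    rw [star_trivial]
    exact (pos_iff_pos_of_mul_pos h3).mp hA

theorem kk_convex (A : ℝ) (J : ℤ → Matrix (Fin n) (Fin n) ℝ)
    (Q₁ Q₂ : Matrix (Fin n) (Fin n) ℝ) (h₁ : Q₁ ∈ KKJ A J) (h₂ : Q₂ ∈ KKJ A J) :
    (1 / 2 : ℝ) • (Q₁ + Q₂) ∈ KKJ A J := by
  have h3 : ∀ v, QF ((1 / 2 : ℝ) • (Q₁ + Q₂)) v = (QF Q₁ v + QF Q₂ v) / 2 := by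
    intro v
    unfold QF
    rw [smul_mulVec, add_mulVec, dotProduct_smul, dotProduct_add, smul_eq_mul]
    ring
  refine ⟨(h₁.1.add h₂.1).smul _, fun k v => ?_⟩
  have h4 := h₁.2 k v
  have h5 := h₂.2 k v
  rw [h3]
  constructor
  · linarith [h4.1, h5.1]
  · linarith [h4.2, h5.2]

/-- nonempty: contains the identity matrix if `C⁻¹ ‖v‖ ≤ ‖J k v‖ ≤ C ‖v‖` and `A = (n + 1) C²`
(`‖v‖² ≤ v ⬝ᵥ v ≤ n ‖v‖²` for the sup norm). -/
theorem kk_one (C : ℝ) (hC : 1 ≤ C) (J : ℤ → Matrix (Fin n) (Fin n) ℝ)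
    (h : ∀ (k : ℤ) (v : Fin n → ℝ), ‖J k *ᵥ v‖ ≤ C * ‖v‖ ∧ ‖v‖ ≤ C * ‖J k *ᵥ v‖) :
    (1 : Matrix (Fin n) (Fin n) ℝ) ∈ KKJ ((n + 1) * C ^ 2) J := by
  refine ⟨isSymm_one, fun k v => ?_⟩
  have e1 : QF 1 v = ∑ i, v i ^ 2 := by
    unfold QF
    rw [one_mulVec]
    exact Finset.sum_congr rfl fun i _ => by ring
  have e2 : QF 1 v ≤ n * ‖v‖ ^ 2 := by
    rw [e1]
    calc ∑ i, v i ^ 2 ≤ ∑ _i : Fin n, ‖v‖ ^ 2 := Finset.sum_le_sum fun i _ => by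
          rw [← sq_abs, ← Real.norm_eq_abs]
          exact pow_le_pow_left₀ (norm_nonneg _) (norm_le_pi_norm v i) 2
      _ = n * ‖v‖ ^ 2 := by rw [Finset.sum_const, Finset.card_univ, Fintype.card_fin, nsmul_eq_mul]
  have e3 : ‖v‖ ^ 2 ≤ QF 1 v := by
    rw [e1]
    have h0 : 0 ≤ ∑ i, v i ^ 2 := Finset.sum_nonneg fun i _ => sq_nonneg _
    have h1 : ‖v‖ ≤ √(∑ i, v i ^ 2) := by
      rw [pi_norm_le_iff_of_nonneg (Real.sqrt_nonneg _)]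
      intro i
      rw [Real.norm_eq_abs, ← Real.sqrt_sq_eq_abs]
      exact Real.sqrt_le_sqrt (Finset.single_le_sum (f := fun i => v i ^ 2)
        (fun j _ => sq_nonneg _) (Finset.mem_univ i))
    calc ‖v‖ ^ 2 ≤ √(∑ i, v i ^ 2) ^ 2 := pow_le_pow_left₀ (norm_nonneg _) h1 2
      _ = _ := Real.sq_sqrt h0
  obtain ⟨h1, h2⟩ := h k v
  have h3 : ‖J k *ᵥ v‖ ^ 2 ≤ C ^ 2 * ‖v‖ ^ 2 := by
    rw [← mul_pow]
    exact pow_le_pow_left₀ (norm_nonneg _) h1 2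
  have h4 : ‖v‖ ^ 2 ≤ C ^ 2 * ‖J k *ᵥ v‖ ^ 2 := by
    rw [← mul_pow]
    exact pow_le_pow_left₀ (norm_nonneg _) h2 2
  have hn : (0 : ℝ) ≤ n := Nat.cast_nonneg n
  have hC2 : 0 ≤ C ^ 2 := sq_nonneg C
  have hv : 0 ≤ ‖v‖ ^ 2 := sq_nonneg _
  have hJv : 0 ≤ ‖J k *ᵥ v‖ ^ 2 := sq_nonneg _
  constructor
  · calc ‖J k *ᵥ v‖ ^ 2 ≤ C ^ 2 * ‖v‖ ^ 2 := h3
      _ ≤ C ^ 2 * QF 1 v := mul_le_mul_of_nonneg_left e3 hC2
      _ ≤ (n + 1) * C ^ 2 * QF 1 v := by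
        have h5 : 0 ≤ QF 1 v := hv.trans e3
        have h6 : 0 ≤ (n : ℝ) * (C ^ 2 * QF 1 v) := mul_nonneg hn (mul_nonneg hC2 h5)
        linarith
  · calc QF 1 v ≤ n * ‖v‖ ^ 2 := e2
      _ ≤ n * (C ^ 2 * ‖J k *ᵥ v‖ ^ 2) := mul_le_mul_of_nonneg_left h4 hn
      _ ≤ (n + 1) * C ^ 2 * ‖J k *ᵥ v‖ ^ 2 := by
        have h6 : 0 ≤ C ^ 2 * ‖J k *ᵥ v‖ ^ 2 := mul_nonneg hC2 hJv
        linarith

theorem qf_transport (P Q : Matrix (Fin n) (Fin n) ℝ) (v : Fin n → ℝ) :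
    QF (Pᵀ * Q * P) v = QF Q (P *ᵥ v) := by
  unfold QF
  rw [← mulVec_mulVec, ← mulVec_mulVec, dotProduct_mulVec, vecMul_transpose]

/-- equivariance: if `J' (k + e) * P = J k` for all `k` then `Q ∈ KKJ A J'` implies
`Pᵀ Q P ∈ KKJ A J`. -/
theorem kk_equi (A : ℝ) (J J' : ℤ → Matrix (Fin n) (Fin n) ℝ) (P : Matrix (Fin n) (Fin n) ℝ)
    (e : ℤ) (h : ∀ k : ℤ, J' (k + e) * P = J k) (Q : Matrix (Fin n) (Fin n) ℝ)
    (hQ : Q ∈ KKJ A J') : Pᵀ * Q * P ∈ KKJ A J := by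
  refine ⟨?_, fun k v => ?_⟩
  · rw [Matrix.IsSymm, transpose_mul, transpose_mul, transpose_transpose, hQ.1.eq, Matrix.mul_assoc]
  · rw [qf_transport, ← h k, ← mulVec_mulVec]
    exact hQ.2 (k + e) (P *ᵥ v)

end QPR
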