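import Pool.Agent.Lib.QPA.LDef

set_option autoImplicit false

namespace QPR

open Topology

/-- Maximum of a continuous function over a family of nonempty sets with closed graph, contained in a
fixed compact set: attained, and upper semicontinuous in the parameter. -/
theorem usc_max {X Y : Type*} [TopologicalSpace X] [TopologicalSpace Y] (K : X → Set Y)
    (S : Set Y) (hS : IsCompact S) (hKS : ∀ x, K x ⊆ S)
    (hcl : IsClosed {p : X × Y | p.2 ∈ K p.1}) (hne : ∀ x, (K x).Nonempty) (g : Y → ℝ)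
    (hg : Continuous g) :
    ∃ V : X → ℝ, UpperSemicontinuous V ∧ ∀ x, (∀ q ∈ K x, g q ≤ V x) ∧ ∃ q ∈ K x, g q = V x := by
  have hKc : ∀ x, IsCompact (K x) := by
    intro x
    refine hS.of_isClosed_subset ?_ (hKS x)
    have h1 : Continuous fun y : Y => (x, y) := by fun_prop
    exact hcl.preimage h1
  have hmax : ∀ x, ∃ q ∈ K x, ∀ q' ∈ K x, g q' ≤ g q := by
    intro x
    obtain ⟨q, hq, h⟩ := (hKc x).exists_isMaxOn (hne x) hg.continuousOn
    exact ⟨q, hq, fun q' hq' => h hq'⟩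
  choose m hm hm' using hmax
  refine ⟨fun x => g (m x), ?_, fun x => ⟨fun q hq => hm' x q hq, m x, hm x, rfl⟩⟩
  intro x r hr
  have hC : IsClosed {p : X × Y | p.2 ∈ K p.1 ∧ r ≤ g p.2} :=
    hcl.inter (isClosed_le continuous_const (hg.comp continuous_snd))
  have h1 : ∀ᶠ x' in 𝓝 x, ∀ y ∈ S, ¬ (y ∈ K x' ∧ r ≤ g y) := by
    refine hS.eventually_forall_of_forall_eventually fun y _ => ?_
    have h2 : (x, y) ∈ {p : X × Y | p.2 ∈ K p.1 ∧ r ≤ g p.2}ᶜ := by
      rintro ⟨h3, h4⟩
      exact absurd (h4.trans (hm' x y h3)) (not_le.mpr hr)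
    exact hC.isOpen_compl.mem_nhds h2
  filter_upwards [h1] with x' hx'
  by_contra hcon
  exact hx' (m x') (hKS x' (hm x')) ⟨hm x', not_lt.mp hcon⟩

/-- If in addition `V` is continuous and the maximiser `m x` is unique, then `m` is continuous: the
set `{p | p.2 ∈ K p.1 ∧ g p.2 = V p.1}` is closed and it is the graph of `m`, with values in a compact
set (`isClosed_graph`-type argument: a map into a compact space with closed graph is continuous). -/
theorem cont_argmax {X Y : Type*} [TopologicalSpace X] [TopologicalSpace Y] [T2Space Y]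
    (K : X → Set Y) (S : Set Y) (hS : IsCompact S) (hKS : ∀ x, K x ⊆ S)
    (hcl : IsClosed {p : X × Y | p.2 ∈ K p.1}) (g : Y → ℝ) (hg : Continuous g)
    (V : X → ℝ) (hV : Continuous V) (m : X → Y) (hm : ∀ x, m x ∈ K x ∧ g (m x) = V x)
    (hu : ∀ x, ∀ q ∈ K x, g q = V x → q = m x) : Continuous m := by
  have hC : IsClosed {p : X × Y | p.2 ∈ K p.1 ∧ g p.2 = V p.1} :=
    hcl.inter (isClosed_eq (hg.comp continuous_snd) (hV.comp continuous_fst))
  rw [continuous_iff_continuousAt]
  intro x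
  rw [ContinuousAt, (nhds_basis_opens (m x)).tendsto_right_iff]
  rintro U ⟨hxU, hU⟩
  have h1 : ∀ᶠ x' in 𝓝 x, ∀ y ∈ S \ U, ¬ (y ∈ K x' ∧ g y = V x') := by
    refine (hS.diff hU).eventually_forall_of_forall_eventually fun y hy => ?_
    have h2 : (x, y) ∈ {p : X × Y | p.2 ∈ K p.1 ∧ g p.2 = V p.1}ᶜ := by
      rintro ⟨h3, h4⟩
      exact hy.2 (hu x y h3 h4 ▸ hxU)
    exact hC.isOpen_compl.mem_nhds h2
  filter_upwards [h1] with x' hx'
  by_contra hcon
  exact hx' (m x') ⟨hKS x' (hm x').1, hcon⟩ (hm x')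

end QPR
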