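import Pool.Agent.Lib.QPA.LUsc
import Pool.Agent.Lib.QPA.LAmgm
import Pool.Agent.Lib.QPA.LSel
import Pool.Agent.Lib.QPA.LKK

set_option autoImplicit false

namespace QPR

open Matrix

variable {n : ℕ} {α : Fin n → ℝ} {F F' H H' : (Fin n → ℝ) → (Fin n → ℝ)}

/-- The matrices of the derivatives. -/
private noncomputable def LMet_J (α : Fin n → ℝ) (H H' : (Fin n → ℝ) → (Fin n → ℝ))
    (x : Fin n → ℝ) (k : ℤ) : Matrix (Fin n) (Fin n) ℝ :=
  LinearMap.toMatrix' (fderiv ℝ (Itz α H H' k) x : (Fin n → ℝ) →ₗ[ℝ] (Fin n → ℝ))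

private theorem LMet_J_mulVec (x : Fin n → ℝ) (k : ℤ) (v : Fin n → ℝ) :
    LMet_J α H H' x k *ᵥ v = fderiv ℝ (Itz α H H' k) x v := by
  unfold LMet_J
  rw [LinearMap.toMatrix'_mulVec]
  rfl

private theorem LMet_J_zero (hd : DatA α F F' H H') (x : Fin n → ℝ) : LMet_J α H H' x 0 = 1 := by
  have e : Itz α H H' 0 = id := by
    funext y
    exact itz_zero hd y
  unfold LMet_J
  rw [e, fderiv_id]
  exact LinearMap.toMatrix'_id

private theorem LMet_J_add (hd : DatA α F F' H H') (x : Fin n → ℝ) (k l : ℤ) :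
    LMet_J α H H' (Itz α H H' l x) k * LMet_J α H H' x l = LMet_J α H H' x (k + l) := by
  unfold LMet_J
  rw [itz_fderiv hd k l x]
  exact (LinearMap.toMatrix'_comp _ _).symm

private theorem LMet_J_cont (hd : DatA α F F' H H') (k : ℤ) :
    Continuous fun x => LMet_J α H H' x k := by
  refine continuous_matrix fun i j => ?_
  have h1 : Continuous (fderiv ℝ (Itz α H H' k)) := (itz_smo hd k).continuous_fderiv (by simp)
  have h2 : (fun x => LMet_J α H H' x k i j) =
      fun x => (fderiv ℝ (Itz α H H' k) x (Pi.single j 1)) i := by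
    funext x
    have h3 := congrFun (LMet_J_mulVec (α := α) (H := H) (H' := H') x k (Pi.single j 1)) i
    rw [Matrix.mulVec_single_one] at h3
    exact h3
  rw [h2]
  exact (continuous_apply i).comp (h1.clm_apply continuous_const)

private theorem LMet_J_per (hd : DatA α F F' H H') (x : Fin n → ℝ) (l : Fin n → ℤ) :
    LMet_J α H H' (x + fun i => (l i : ℝ)) = LMet_J α H H' x := by
  funext k
  unfold LMet_J
  rw [itz_fderiv_per hd k x l]

/-- Invariance of the maximum and of the minimum. -/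
private theorem LMet_equi (hd : DatA α F F' H H') (A : ℝ) (x : Fin n → ℝ) :
    (LMet_J α H H' (F x) (-1)).det * (LMet_J α H H' x 1).det = 1 ∧
    (∀ Q ∈ KKJ A (LMet_J α H H' (F x)),
      (LMet_J α H H' x 1)ᵀ * Q * LMet_J α H H' x 1 ∈ KKJ A (LMet_J α H H' x)) ∧
    ∀ Q ∈ KKJ A (LMet_J α H H' x), (LMet_J α H H' (F x) (-1))ᵀ * Q * LMet_J α H H' (F x) (-1) ∈
      KKJ A (LMet_J α H H' (F x)) := by
  have e1 : Itz α H H' 1 x = F x := itz_one hd x
  have e2 : Itz α H H' (-1) (F x) = x := by rw [itz_neg_one hd, hd.leftF]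
  refine ⟨?_, fun Q hQ => ?_, fun Q hQ => ?_⟩
  · have h := LMet_J_add hd x (-1) 1
    rw [e1, neg_add_cancel, LMet_J_zero hd] at h
    rw [← det_mul, h, det_one]
  · refine kk_equi A _ _ _ (-1) (fun k => ?_) Q hQ
    have h := LMet_J_add hd x (k + -1) 1
    rw [e1, neg_add_cancel_right] at h
    exact h
  · refine kk_equi A _ _ _ 1 (fun k => ?_) Q hQ
    have h := LMet_J_add hd (F x) (k + 1) (-1)
    rw [e2, add_neg_cancel_right] at h
    exact h

private theorem LMet_det (P Q : Matrix (Fin n) (Fin n) ℝ) :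
    (Pᵀ * Q * P).det = Q.det * P.det ^ 2 := by
  rw [det_mul, det_mul, det_transpose]
  ring

/-- The quotient of a positive usc function by a positive lsc function is usc. -/
private theorem LMet_quot {X : Type*} [TopologicalSpace X] {V W : X → ℝ}
    (hV : UpperSemicontinuous V) (hW : UpperSemicontinuous fun x => -W x) (hV0 : ∀ x, 0 < V x)
    (hW0 : ∀ x, 0 < W x) : UpperSemicontinuous fun x => V x / W x := by
  intro x y hy
  have hy' : V x / W x < y := hy
  have hy0 : 0 < y := lt_trans (div_pos (hV0 x) (hW0 x)) hy'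
  rw [div_lt_iff₀ (hW0 x)] at hy'
  obtain ⟨w, hw⟩ : ∃ w : ℝ, w = (V x / y + W x) / 2 := ⟨_, rfl⟩
  have h1 : V x / y < W x := by rwa [div_lt_iff₀ hy0, mul_comm]
  have h2 : V x < y * w := by
    have h3 : V x / y < w := by rw [hw]; linarith
    rwa [div_lt_iff₀ hy0, mul_comm] at h3
  have h3 : -W x < -w := by rw [hw]; linarith
  filter_upwards [hV x _ h2, hW x _ h3] with x' h4 h5
  rw [div_lt_iff₀ (hW0 x')]
  have h6 : w < W x' := by linarith
  exact lt_trans h4 (mul_lt_mul_of_pos_left h6 hy0)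

/-- Continuous invariant metric. `J x k` = matrix of `fderiv (F^k) x` (`LinearMap.toMatrix'`), `k ∈ ℤ`,
continuous in `x`, `J (F x) k * J x 1 = J x (k + 1)`, `C⁻¹ ‖v‖ ≤ ‖J x k v‖ ≤ C ‖v‖`
(`itz_fderiv` with `l = -k`). `K x = KKJ A (J x)`, `A = (n+1) C²`. `usc_max` with `g = det` gives `V`
(usc) and with `g = -det` gives `-W` (usc), `V ≥ W > 0`. Equivariance (`kk_equi` for `P = J x 1`,
`J' = J (F x)`, `e = -1`, and for its inverse `P = J (F x) (-1)`, `J' = J x`, `J = J (F x)`, `e = 1`): `V (F x) (det P)² = V x` and the same for `W`. So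
`V / W` (usc: `V` usc, `1 / W` usc, both positive) is invariant and periodic, hence a constant `c`
(`inv_usc_const`); `V = c W` is usc and lsc, so continuous. The maximiser `m x` is unique
(`det_avg_lt`, `kk_convex`), so it is continuous (`cont_argmax`), periodic, and `Pᵀ m (F x) P = m x`. -/
theorem exists_met (hd : DatA α F F' H H') (ha : DioV α) (C : ℝ) (hC1 : 1 ≤ C)
    (hC : ∀ (k : ℤ) (x : Fin n → ℝ), ‖fderiv ℝ (Itz α H H' k) x‖ ≤ C) :
    ∃ (A : ℝ) (m : (Fin n → ℝ) → Matrix (Fin n) (Fin n) ℝ), 1 ≤ A ∧ Met F A m := by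
  obtain ⟨A, hA⟩ : ∃ A : ℝ, A = (n + 1) * C ^ 2 := ⟨_, rfl⟩
  have hA1 : 1 ≤ A := by
    rw [hA]
    have h1 : (1 : ℝ) ≤ (n : ℝ) + 1 := by
      have : (0 : ℝ) ≤ n := Nat.cast_nonneg n
      linarith
    have h2 : 1 ≤ C ^ 2 := one_le_pow₀ hC1
    exact one_le_mul_of_one_le_of_one_le h1 h2
  have hA0 : 0 < A := lt_of_lt_of_le one_pos hA1
  obtain ⟨J, hJ⟩ : ∃ J : (Fin n → ℝ) → ℤ → Matrix (Fin n) (Fin n) ℝ, J = LMet_J α H H' :=
    ⟨_, rfl⟩
  have hJv : ∀ x k v, J x k *ᵥ v = fderiv ℝ (Itz α H H' k) x v := by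
    intro x k v
    rw [hJ]
    exact LMet_J_mulVec x k v
  have hJ0 : ∀ x, J x 0 = 1 := fun x => by rw [hJ]; exact LMet_J_zero hd x
  have hJadd : ∀ x k l, J (Itz α H H' l x) k * J x l = J x (k + l) := by
    intro x k l
    rw [hJ]
    exact LMet_J_add hd x k l
  have hJc : ∀ k, Continuous fun x => J x k := by
    intro k
    rw [hJ]
    exact LMet_J_cont hd k
  have hJper : ∀ (x : Fin n → ℝ) (l : Fin n → ℤ), J (x + fun i => (l i : ℝ)) = J x := by
    intro x l
    rw [hJ]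
    exact LMet_J_per hd x l
  have hJeq : ∀ x, (J (F x) (-1)).det * (J x 1).det = 1 ∧
      (∀ Q ∈ KKJ A (J (F x)), (J x 1)ᵀ * Q * J x 1 ∈ KKJ A (J x)) ∧
      ∀ Q ∈ KKJ A (J x), (J (F x) (-1))ᵀ * Q * J (F x) (-1) ∈ KKJ A (J (F x)) := by
    intro x
    rw [hJ]
    exact LMet_equi hd A x
  have hbd : ∀ (x : Fin n → ℝ) (k : ℤ) (v : Fin n → ℝ),
      ‖J x k *ᵥ v‖ ≤ C * ‖v‖ ∧ ‖v‖ ≤ C * ‖J x k *ᵥ v‖ := by
    have h1 : ∀ (x : Fin n → ℝ) (k : ℤ) (v : Fin n → ℝ), ‖J x k *ᵥ v‖ ≤ C * ‖v‖ := by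
      intro x k v
      rw [hJv]
      exact ContinuousLinearMap.le_of_opNorm_le _ (hC k x) v
    intro x k v
    refine ⟨h1 x k v, ?_⟩
    have h2 := hJadd x (-k) k
    rw [neg_add_cancel, hJ0] at h2
    have h3 := h1 (Itz α H H' k x) (-k) (J x k *ᵥ v)
    rwa [mulVec_mulVec, h2, one_mulVec] at h3
  have hne : ∀ x, (1 : Matrix (Fin n) (Fin n) ℝ) ∈ KKJ A (J x) := by
    intro x
    rw [hA]
    exact kk_one C hC1 (J x) (hbd x)
  obtain ⟨S, hS, hKS⟩ := kk_compact (n := n) A hA0.le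
  have hcl := kk_closed A J hJc
  have hpos : ∀ x, ∀ q ∈ KKJ A (J x), q.PosDef := fun x q hq =>
    (kk_ell A (J x) (hJ0 x) q hq).posDef hA0
  have hdet : ∀ x, ∀ q ∈ KKJ A (J x), 0 < q.det := fun x q hq => (hpos x q hq).det_pos
  obtain ⟨V, hVu, hV⟩ := usc_max (fun x => KKJ A (J x)) S hS (fun x => hKS (J x) (hJ0 x)) hcl
    (fun x => ⟨1, hne x⟩) (fun q => q.det) continuous_id.matrix_det
  obtain ⟨W', hWu, hW⟩ := usc_max (fun x => KKJ A (J x)) S hS (fun x => hKS (J x) (hJ0 x)) hcl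
    (fun x => ⟨1, hne x⟩) (fun q => -q.det) continuous_id.matrix_det.neg
  obtain ⟨W, hWdef⟩ : ∃ W : (Fin n → ℝ) → ℝ, W = fun x => -W' x := ⟨_, rfl⟩
  have hWW : ∀ x, W' x = -W x := fun x => by rw [hWdef]; exact (neg_neg _).symm
  have hW1 : ∀ x, (∀ q ∈ KKJ A (J x), W x ≤ q.det) ∧ ∃ q ∈ KKJ A (J x), q.det = W x := by
    intro x
    obtain ⟨h1, q, hq, h2⟩ := hW x
    refine ⟨fun q hq => ?_, q, hq, ?_⟩
    · have h3 : -q.det ≤ W' x := h1 q hq
      rw [hWW] at h3
      linarith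
    · have h3 : -q.det = W' x := h2
      rw [hWW] at h3
      linarith
  have hWu' : UpperSemicontinuous fun x => -W x := by
    have e : (fun x => -W x) = W' := by
      funext x
      exact (hWW x).symm
    rw [e]
    exact hWu
  have hV0 : ∀ x, 0 < V x := by
    intro x
    obtain ⟨-, q, hq, h2⟩ := hV x
    have h3 : q.det = V x := h2
    rw [← h3]
    exact hdet x q hq
  have hW0 : ∀ x, 0 < W x := by
    intro x
    obtain ⟨-, q, hq, h2⟩ := hW1 x
    rw [← h2]
    exact hdet x q hq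
  -- equivariance
  have hP0 : ∀ x, 0 < (J x 1).det ^ 2 := by
    intro x
    have h1 : (J x 1).det ≠ 0 := by
      intro h0
      have h2 := (hJeq x).1
      rw [h0, mul_zero] at h2
      exact zero_ne_one h2
    positivity
  have hPP : ∀ x, (J (F x) (-1)).det ^ 2 * (J x 1).det ^ 2 = 1 := by
    intro x
    rw [← mul_pow, (hJeq x).1, one_pow]
  have hVe : ∀ x, V (F x) * (J x 1).det ^ 2 = V x := by
    intro x
    obtain ⟨-, h1, h2⟩ := hJeq x
    apply le_antisymm
    · obtain ⟨-, q, hq, h3⟩ := hV (F x)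
      have h3' : q.det = V (F x) := h3
      have h4 : ((J x 1)ᵀ * q * J x 1).det ≤ V x := (hV x).1 _ (h1 q hq)
      rw [LMet_det, h3'] at h4
      exact h4
    · obtain ⟨-, q, hq, h3⟩ := hV x
      have h3' : q.det = V x := h3
      have h4 : ((J (F x) (-1))ᵀ * q * J (F x) (-1)).det ≤ V (F x) := (hV (F x)).1 _ (h2 q hq)
      rw [LMet_det, h3'] at h4
      have h5 := mul_le_mul_of_nonneg_right h4 (hP0 x).le
      rwa [mul_assoc, hPP, mul_one] at h5
  have hWe : ∀ x, W (F x) * (J x 1).det ^ 2 = W x := by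
    intro x
    obtain ⟨-, h1, h2⟩ := hJeq x
    apply le_antisymm
    · obtain ⟨-, q, hq, h3⟩ := hW1 x
      have h4 : W (F x) ≤ ((J (F x) (-1))ᵀ * q * J (F x) (-1)).det := (hW1 (F x)).1 _ (h2 q hq)
      rw [LMet_det, h3] at h4
      have h5 := mul_le_mul_of_nonneg_right h4 (hP0 x).le
      rwa [mul_assoc (W x), hPP, mul_one] at h5
    · obtain ⟨-, q, hq, h3⟩ := hW1 (F x)
      have h4 : W x ≤ ((J x 1)ᵀ * q * J x 1).det := (hW1 x).1 _ (h1 q hq)
      rw [LMet_det, h3] at h4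
      exact h4
  -- periodicity
  have hVper : ∀ (x : Fin n → ℝ) (l : Fin n → ℤ), V (x + fun i => (l i : ℝ)) = V x := by
    have key : ∀ x y : Fin n → ℝ, J x = J y → V x ≤ V y := by
      intro x y hxy
      obtain ⟨-, q, hq, h3⟩ := hV x
      have h3' : q.det = V x := h3
      rw [← h3']
      have hq' : q ∈ KKJ A (J y) := by rw [← hxy]; exact hq
      exact (hV y).1 q hq'
    intro x l
    exact le_antisymm (key _ _ (hJper x l)) (key _ _ (hJper x l).symm)
  have hWper : ∀ (x : Fin n → ℝ) (l : Fin n → ℤ), W (x + fun i => (l i : ℝ)) = W x := by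
    have key : ∀ x y : Fin n → ℝ, J x = J y → W y ≤ W x := by
      intro x y hxy
      obtain ⟨-, q, hq, h3⟩ := hW1 x
      rw [← h3]
      have hq' : q ∈ KKJ A (J y) := by rw [← hxy]; exact hq
      exact (hW1 y).1 q hq'
    intro x l
    exact le_antisymm (key _ _ (hJper x l).symm) (key _ _ (hJper x l))
  -- the quotient is constant
  have hq := inv_usc_const hd ha (fun x => V x / W x) (LMet_quot hVu hWu' hV0 hW0)
    (fun x => by
      rw [← hVe x, ← hWe x, mul_div_mul_right _ _ (hP0 x).ne'])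
    (fun x k => by
      rw [hVper, hWper])
  obtain ⟨c, hc⟩ : ∃ c : ℝ, c = V 0 / W 0 := ⟨_, rfl⟩
  have hc0 : 0 < c := by rw [hc]; exact div_pos (hV0 0) (hW0 0)
  have hVW : ∀ x, V x = c * W x := by
    intro x
    have h1 : V x / W x = V 0 / W 0 := hq x 0
    rw [← hc, div_eq_iff (hW0 x).ne'] at h1
    exact h1
  have hVl : LowerSemicontinuous V := by
    intro x y hy
    have hy' : y < V x := hy
    rw [hVW, mul_comm, ← div_lt_iff₀ hc0] at hy'
    have h1 : -W x < -(y / c) := by linarith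
    filter_upwards [hWu' x _ h1] with x' h2
    have h3 : y / c < W x' := by linarith
    rw [div_lt_iff₀ hc0] at h3
    change y < V x'
    rw [hVW]
    linarith
  have hVc : Continuous V := continuous_iff_lower_upperSemicontinuous.mpr ⟨hVl, hVu⟩
  -- the maximiser
  have hmax : ∀ x, ∃ q ∈ KKJ A (J x), q.det = V x := fun x => (hV x).2
  choose m hm1 hm2 using hmax
  have huniq : ∀ x, ∀ q ∈ KKJ A (J x), q.det = V x → q = m x := by
    intro x q hq h1
    by_contra hne'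
    have h2 := det_avg_lt q (m x) (hpos x q hq) (hpos x _ (hm1 x)) hne'
    have h3 := kk_convex A (J x) q (m x) hq (hm1 x)
    have h4 : ((1 / 2 : ℝ) • (q + m x)).det ≤ V x := (hV x).1 _ h3
    have h5 := hdet x _ h3
    rw [h1, hm2] at h2
    nlinarith
  refine ⟨A, m, hA1, ⟨?_, ?_, ?_, ?_⟩⟩
  · exact cont_argmax (fun x => KKJ A (J x)) S hS (fun x => hKS (J x) (hJ0 x)) hcl
      (fun q => q.det) continuous_id.matrix_det V hVc m (fun x => ⟨hm1 x, hm2 x⟩) huniq
  · exact fun x => kk_ell A (J x) (hJ0 x) _ (hm1 x)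
  · intro x l
    apply huniq
    · have h1 := hm1 (x + fun i => (l i : ℝ))
      rwa [hJper] at h1
    · rw [hm2, hVper]
  · intro x v
    have h1 : (J x 1)ᵀ * m (F x) * J x 1 = m x := by
      apply huniq
      · exact (hJeq x).2.1 _ (hm1 (F x))
      · rw [LMet_det, hm2, hVe]
    have h2 : J x 1 *ᵥ v = fderiv ℝ F x v := by
      rw [hJv]
      have e : Itz α H H' 1 = F := by
        funext y
        exact itz_one hd y
      rw [e]
    rw [← h1, qf_transport, h2]

end QPR
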