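import Pool.Agent.Lib.QPA.LNI

set_option autoImplicit false

namespace QPR

open Matrix

variable {n : ℕ} {α : Fin n → ℝ} {F F' H H' : (Fin n → ℝ) → (Fin n → ℝ)}

private theorem LQ_QF (M S : Matrix (Fin n) (Fin n) ℝ) (v : Fin n → ℝ) :
    QF (Sᵀ * M * S) v = QF M (S *ᵥ v) := by
  unfold QF
  rw [← Matrix.mulVec_mulVec, ← Matrix.mulVec_mulVec, Matrix.dotProduct_mulVec v Sᵀ,
    Matrix.vecMul_transpose]

/-- `H` is a near isometry to a constant quadratic form. `Q₀ = (T⁻¹)ᵀ m(x₀) T⁻¹`, i.e.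
`QF Q₀ v = QF (m x₀) (T⁻¹ v)`. For `x`, `y` close put `θ = H x₀ - H x` and `y₀ = Tr θ y`, so `Tr θ x = x₀`,
`H y₀ - H x₀ = H y - H x`, `‖y₀ - x₀‖ ≤ C ‖y - x‖`. `near_iso`: `nrm (m x₀) (y₀ - x₀)` is
`nrm (m x) (y - x) + O(ε ‖y - x‖)`; `HasFDerivAt`: `T⁻¹ (H y₀ - H x₀) = y₀ - x₀ + O(ε ‖y₀ - x₀‖)`. -/
theorem near_const (hd : DatA α F F' H H') {A C : ℝ} (hA : 1 ≤ A) (hC1 : 1 ≤ C)
    (hC : ∀ θ x y : Fin n → ℝ, ‖Tr H H' θ x - Tr H H' θ y‖ ≤ C * ‖x - y‖)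
    {m : (Fin n → ℝ) → Matrix (Fin n) (Fin n) ℝ} (hm : Met F A m)
    (hni : ∀ ε : ℝ, 0 < ε → ∃ s₀ : ℝ, 0 < s₀ ∧ ∀ θ x y : Fin n → ℝ, ‖y - x‖ ≤ s₀ →
      |nrm (m (Tr H H' θ x)) (Tr H H' θ y - Tr H H' θ x) - nrm (m x) (y - x)| ≤ ε * ‖y - x‖)
    (x₀ : Fin n → ℝ) (T : (Fin n → ℝ) ≃L[ℝ] (Fin n → ℝ))
    (hT : HasFDerivAt H (T : (Fin n → ℝ) →L[ℝ] (Fin n → ℝ)) x₀) :
    ∃ (A' : ℝ) (Q₀ : Matrix (Fin n) (Fin n) ℝ), 1 ≤ A' ∧ Ell A' Q₀ ∧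
      ∀ ε : ℝ, 0 < ε → ∃ s₀ : ℝ, 0 < s₀ ∧ ∀ x y : Fin n → ℝ, ‖y - x‖ ≤ s₀ →
        |nrm Q₀ (H y - H x) - nrm (m x) (y - x)| ≤ ε * ‖y - x‖ := by
  set S : Matrix (Fin n) (Fin n) ℝ :=
    LinearMap.toMatrix' (T.symm : (Fin n → ℝ) →ₗ[ℝ] (Fin n → ℝ)) with hS
  have hSv : ∀ v, S *ᵥ v = T.symm v := fun v => by
    rw [hS, LinearMap.toMatrix'_mulVec]
    rfl
  set M : Matrix (Fin n) (Fin n) ℝ := m x₀ with hM
  have hEM : Ell A M := hm.ell x₀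
  set Q₀ : Matrix (Fin n) (Fin n) ℝ := Sᵀ * M * S with hQ₀
  have hQF : ∀ v, QF Q₀ v = QF M (T.symm v) := fun v => by
    rw [hQ₀, LQ_QF, hSv]
  have hnrm : ∀ v, nrm Q₀ v = nrm M (T.symm v) := fun v => by
    unfold nrm
    rw [hQF]
  set B : ℝ := ‖(T : (Fin n → ℝ) →L[ℝ] (Fin n → ℝ))‖ with hB
  set B' : ℝ := ‖(T.symm : (Fin n → ℝ) →L[ℝ] (Fin n → ℝ))‖ with hB'
  have hB0 : 0 ≤ B := norm_nonneg _
  have hB'0 : 0 ≤ B' := norm_nonneg _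
  have hTs : ∀ v, ‖T.symm v‖ ≤ B' * ‖v‖ := fun v =>
    (T.symm : (Fin n → ℝ) →L[ℝ] (Fin n → ℝ)).le_opNorm v
  have hTv : ∀ v, ‖v‖ ≤ B * ‖T.symm v‖ := fun v => by
    have := (T : (Fin n → ℝ) →L[ℝ] (Fin n → ℝ)).le_opNorm (T.symm v)
    have e : (T : (Fin n → ℝ) →L[ℝ] (Fin n → ℝ)) (T.symm v) = v := T.apply_symm_apply v
    rwa [e] at this
  have hA0 : 0 ≤ A := by linarith
  refine ⟨A * B ^ 2 + A * B' ^ 2 + 1, Q₀, ?_, ⟨?_, ?_⟩, ?_⟩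
  · have h1 : 0 ≤ A * B ^ 2 := by positivity
    have h2 : 0 ≤ A * B' ^ 2 := by positivity
    linarith
  · show (Sᵀ * M * S)ᵀ = Sᵀ * M * S
    rw [Matrix.transpose_mul, Matrix.transpose_mul, Matrix.transpose_transpose]
    have : Mᵀ = M := hEM.1
    rw [this, Matrix.mul_assoc]
  · intro v
    have h1 := hEM.2 (T.symm v)
    have h3 := (nrm_sq hA hEM (T.symm v)).2.1
    rw [hQF]
    have h5 : 0 ≤ A * B' ^ 2 := by positivity
    have h5' : 0 ≤ A * B ^ 2 := by positivity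
    constructor
    · have h4 : ‖v‖ ^ 2 ≤ B ^ 2 * ‖T.symm v‖ ^ 2 := by
        rw [← mul_pow]
        exact pow_le_pow_left₀ (norm_nonneg _) (hTv v) 2
      have h6 : B ^ 2 * ‖T.symm v‖ ^ 2 ≤ B ^ 2 * (A * QF M (T.symm v)) :=
        mul_le_mul_of_nonneg_left h1.1 (by positivity)
      have h7 : 0 ≤ A * B' ^ 2 * QF M (T.symm v) := mul_nonneg h5 h3
      nlinarith
    · have h4 : ‖T.symm v‖ ^ 2 ≤ B' ^ 2 * ‖v‖ ^ 2 := by
        rw [← mul_pow]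
        exact pow_le_pow_left₀ (norm_nonneg _) (hTs v) 2
      have h6 : A * ‖T.symm v‖ ^ 2 ≤ A * (B' ^ 2 * ‖v‖ ^ 2) := mul_le_mul_of_nonneg_left h4 hA0
      have h7 : 0 ≤ A * B ^ 2 * ‖v‖ ^ 2 := mul_nonneg h5' (by positivity)
      nlinarith [sq_nonneg ‖v‖]
  · intro ε hε
    obtain ⟨s₁, hs₁, h1⟩ := hni (ε / 2) (by positivity)
    set K : ℝ := A * B' * C + 1 with hK
    have hK0 : 0 < K := by
      have : 0 ≤ A * B' * C := by positivity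
      linarith
    have hT' := hT.isLittleO.def (c := ε / (2 * K)) (by positivity)
    rw [Metric.eventually_nhds_iff] at hT'
    obtain ⟨s₂, hs₂, h2⟩ := hT'
    have hC0 : 0 < C := by linarith
    refine ⟨min s₁ (s₂ / (2 * C)), lt_min hs₁ (by positivity), ?_⟩
    intro x y hxy
    have hx1 : ‖y - x‖ ≤ s₁ := hxy.trans (min_le_left _ _)
    have hx2 : ‖y - x‖ ≤ s₂ / (2 * C) := hxy.trans (min_le_right _ _)
    set θ : Fin n → ℝ := H x₀ - H x with hθ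
    set y₀ : Fin n → ℝ := Tr H H' θ y with hy₀
    have hxx : Tr H H' θ x = x₀ := tr_sub hd x x₀
    have hHy : H y₀ = H y + θ := by
      rw [hy₀]
      exact hd.rightH _
    have hdiff : H y₀ - H x₀ = H y - H x := by
      rw [hHy, hθ]; abel
    have hCy : ‖y₀ - x₀‖ ≤ C * ‖y - x‖ := by
      have := hC θ y x
      rwa [hxx] at this
    have e1 := h1 θ x y hx1
    rw [hxx] at e1
    have hdist : dist y₀ x₀ < s₂ := by
      rw [dist_eq_norm]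
      have : C * ‖y - x‖ ≤ C * (s₂ / (2 * C)) := mul_le_mul_of_nonneg_left hx2 hC0.le
      have e : C * (s₂ / (2 * C)) = s₂ / 2 := by field_simp
      rw [e] at this
      linarith
    have e2 := h2 hdist
    have e3 : |nrm M (T.symm (H y₀ - H x₀)) - nrm M (y₀ - x₀)|
        ≤ A * (B' * (ε / (2 * K) * ‖y₀ - x₀‖)) := by
      refine (nrm_add hA hEM _ _).2.trans ?_
      refine (nrm_le hA hEM _).1.trans ?_
      refine mul_le_mul_of_nonneg_left ?_ hA0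
      have e4 : T.symm (H y₀ - H x₀) - (y₀ - x₀)
          = T.symm (H y₀ - H x₀ - (T : (Fin n → ℝ) →L[ℝ] (Fin n → ℝ)) (y₀ - x₀)) := by
        have e10 : T.symm (H y₀ - H x₀ - (T : (Fin n → ℝ) →L[ℝ] (Fin n → ℝ)) (y₀ - x₀))
            = T.symm (H y₀ - H x₀) - T.symm ((T : (Fin n → ℝ) →L[ℝ] (Fin n → ℝ)) (y₀ - x₀)) :=
          T.symm.map_sub _ _
        rw [e10]
        congr 1
        exact (T.symm_apply_apply (y₀ - x₀)).symm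
      rw [e4]
      exact (hTs _).trans (mul_le_mul_of_nonneg_left e2 hB'0)
    rw [hnrm, ← hdiff]
    have hyx : 0 ≤ ‖y - x‖ := norm_nonneg _
    have e5 : A * (B' * (ε / (2 * K) * ‖y₀ - x₀‖)) ≤ ε / 2 * ‖y - x‖ := by
      have e6 : A * (B' * (ε / (2 * K) * ‖y₀ - x₀‖))
          ≤ A * (B' * (ε / (2 * K) * (C * ‖y - x‖))) :=
        mul_le_mul_of_nonneg_left (mul_le_mul_of_nonneg_left
          (mul_le_mul_of_nonneg_left hCy (by positivity)) hB'0) hA0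
      refine e6.trans ?_
      have e7 : A * (B' * (ε / (2 * K) * (C * ‖y - x‖)))
          = (A * B' * C / K) * (ε / 2 * ‖y - x‖) := by
        field_simp
      rw [e7]
      have e8 : A * B' * C / K ≤ 1 := by
        rw [div_le_one hK0, hK]
        linarith
      exact mul_le_of_le_one_left (by positivity) e8
    have e9 := abs_sub_le (nrm M (T.symm (H y₀ - H x₀))) (nrm M (y₀ - x₀)) (nrm (m x) (y - x))
    linarith

end QPR
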