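import Mathlib

set_option autoImplicit false

namespace QPR

open MeasureTheory

/-- A surjective Lipschitz map `ℝ^n → ℝ^n` has a point with invertible derivative. By Rademacher
(`LipschitzWith.ae_differentiableAt`) `H` is differentiable off a null set `N`; `H '' N` is null
(Lipschitz image of a null set: `LipschitzWith.hausdorffMeasure_image_le` and
`hausdorffMeasure_pi_real`), and the image of the set where `H` is differentiable with
`det (fderiv H x) = 0` is null (`addHaar_image_eq_zero_of_det_fderiv_eq_zero`); but the image of `H` is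
everything. -/
theorem exists_regular_point {n : ℕ} (H : (Fin n → ℝ) → (Fin n → ℝ)) (C : ℝ)
    (hC : ∀ x y, ‖H x - H y‖ ≤ C * ‖x - y‖) (hs : Function.Surjective H) :
    ∃ (x₀ : Fin n → ℝ) (T : (Fin n → ℝ) ≃L[ℝ] (Fin n → ℝ)),
      HasFDerivAt H (T : (Fin n → ℝ) →L[ℝ] (Fin n → ℝ)) x₀ := by
  classical
  have hL : LipschitzWith (Real.toNNReal C) H := by
    apply LipschitzWith.of_dist_le_mul
    intro x y
    rw [dist_eq_norm, dist_eq_norm]
    refine (hC x y).trans ?_
    exact mul_le_mul_of_nonneg_right (Real.le_coe_toNNReal C) (norm_nonneg _)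
  by_contra hcon
  push Not at hcon
  have hdet : ∀ x, DifferentiableAt ℝ H x → (fderiv ℝ H x).det = 0 := by
    intro x hx
    by_contra hne
    refine hcon x ((fderiv ℝ H x).toContinuousLinearEquivOfDetNeZero hne) ?_
    simpa using hx.hasFDerivAt
  have h1 : volume ({x | DifferentiableAt ℝ H x}ᶜ) = 0 := by
    have := hL.ae_differentiableAt (μ := volume)
    exact this
  have h2 : volume (H '' ({x | DifferentiableAt ℝ H x}ᶜ)) = 0 := by
    have h := hL.hausdorffMeasure_image_le (d := ((Fintype.card (Fin n) : ℕ) : ℝ))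
      (by positivity) ({x | DifferentiableAt ℝ H x}ᶜ)
    rw [hausdorffMeasure_pi_real, h1, mul_zero] at h
    exact le_antisymm h bot_le
  have h3 : volume (H '' {x | DifferentiableAt ℝ H x}) = 0 :=
    addHaar_image_eq_zero_of_det_fderivWithin_eq_zero volume (f' := fderiv ℝ H)
      (fun x hx => (DifferentiableAt.hasFDerivAt hx).hasFDerivWithinAt) (fun x hx => hdet x hx)
  have h4 : H '' {x | DifferentiableAt ℝ H x} ∪ H '' ({x | DifferentiableAt ℝ H x}ᶜ)
      = Set.univ := by
    rw [← Set.image_union, Set.union_compl_self, Set.image_univ, hs.range_eq]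
  have h5 : volume (Set.univ : Set (Fin n → ℝ)) = 0 := by
    rw [← h4]
    exact measure_union_null h3 h2
  have h6 : 0 < volume (Set.univ : Set (Fin n → ℝ)) :=
    isOpen_univ.measure_pos volume Set.univ_nonempty
  exact h6.ne' h5

end QPR
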