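import Pool.Agent.Lib.QPA.LLip
import Pool.Agent.Lib.QPA.LHLip
import Pool.Agent.Lib.QPA.LMet
import Pool.Agent.Lib.QPA.LRad
import Pool.Agent.Lib.QPA.LQ
import Pool.Agent.Lib.QPA.LFlat
import Pool.Agent.Lib.QPA.LBiL

set_option autoImplicit false

namespace QPR

/-- PART I: if the derivatives of the iterates are bounded then the linearisation is bi-Lipschitz and
uniformly close to affine maps at small scales. -/
theorem partI {n : ℕ} {α : Fin n → ℝ} {F F' H H' : (Fin n → ℝ) → (Fin n → ℝ)}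
    (hd : DatA α F F' H H') (ha : DioV α) (C : ℝ)
    (hC : ∀ (k : ℕ) (x : Fin n → ℝ), ‖fderiv ℝ (F^[k]) x‖ ≤ C) :
    (∃ L : ℝ, 1 ≤ L ∧ BiL L H) ∧ Flat H := by
  have hC' : ∀ (k : ℕ) (x : Fin n → ℝ), ‖fderiv ℝ (F^[k]) x‖ ≤ max C 1 := fun k x =>
    (hC k x).trans (le_max_left _ _)
  have hC1 : (1 : ℝ) ≤ max C 1 := le_max_right _ _
  have hT := tr_lip hd ha (max C 1) hC'
  have hI : ∀ (k : ℤ) (x : Fin n → ℝ), ‖fderiv ℝ (Itz α H H' k) x‖ ≤ max C 1 :=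
    itz_fderiv_le (α := α) (H := H) (H' := H') (max C 1) (by linarith) hT
  obtain ⟨A, m, hA, hm⟩ := exists_met hd ha (max C 1) hC1 hI
  have hH := H_lip hd (max C 1) hT
  obtain ⟨x₀, T, hx₀⟩ := exists_regular_point H (max C 1) hH (fun y => ⟨H' y, hd.rightH y⟩)
  obtain ⟨A', Q₀, hA', hQ, hnear⟩ := near_const hd hA hC1 hT hm (near_iso hd ha hA hC1 hT hm) x₀ T hx₀
  exact ⟨biL_of_near hd hA hA' hm Q₀ hQ hnear (max C 1) hH, flat_of_near hA hA' hm Q₀ hQ hnear⟩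

end QPR
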