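import Pool.Agent.Lib.QPA.AEnd0
import Pool.Agent.Lib.QPA.LPart

set_option autoImplicit false

namespace QPR

/-- Theorem A for lifts. -/
theorem smooth_of_bounded {n : ℕ} {α : Fin n → ℝ} {F F' H H' : (Fin n → ℝ) → (Fin n → ℝ)}
    (hd : DatA α F F' H H') (hα : DioV α) (C : ℝ)
    (hC : ∀ (k : ℕ) (x : Fin n → ℝ), ‖fderiv ℝ (F^[k]) x‖ ≤ C) :
    Smo H ∧ Smo H' := by
  obtain ⟨⟨L, hL, hb⟩, hf⟩ := partI hd hα C hC
  exact smooth_of_flat hd hα hL hb hf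

end QPR
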