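import Pool.Agent.Lib.QPA.ADef

set_option autoImplicit false

namespace QPR

/-- The inverse of a smooth bi-Lipschitz homeomorphism is smooth: `‖fderiv H x v‖ ≥ ‖v‖ / L`
(differentiate `‖x + t v - x‖ ≤ L ‖H (x + t v) - H x‖`), so the derivative is injective, hence
invertible (finite dimension, `LinearEquiv.ofInjectiveEndo` or `ContinuousLinearEquiv`), and
`Homeomorph.contDiff_symm` / `OpenPartialHomeomorph.contDiffAt_symm` applies. -/
theorem inv_smo {n : ℕ} {L : ℝ} {H H' : (Fin n → ℝ) → (Fin n → ℝ)} (hs : Smo H) (hL : 1 ≤ L)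
    (hb : BiL L H) (hl : ∀ x, H' (H x) = x) (hr : ∀ y, H (H' y) = y) : Smo H' := by
  have hL0 : 0 < L := by linarith
  have hdiff : ∀ x, HasFDerivAt H (fderiv ℝ H x) x := fun x =>
    (hs.differentiable (by simp) x).hasFDerivAt
  have hcont' : Continuous H' := by
    have hlip : LipschitzWith (Real.toNNReal L) H' := by
      refine LipschitzWith.of_dist_le_mul fun y z => ?_
      rw [dist_eq_norm, dist_eq_norm, Real.coe_toNNReal _ hL0.le]
      have := (hb (H' y) (H' z)).2
      rwa [hr, hr] at this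
    exact hlip.continuous
  have hinj : ∀ x, Function.Injective (fderiv ℝ H x) := by
    intro x
    rw [injective_iff_map_eq_zero]
    intro v hv
    have h1 : HasDerivAt (fun t : ℝ => H (x + t • v)) (fderiv ℝ H x v) 0 := by
      have := (hdiff x).hasLineDerivAt v
      exact this
    rw [hv, hasDerivAt_iff_tendsto_slope_zero] at h1
    have h2 := h1.norm
    rw [norm_zero] at h2
    have h3 : ‖v‖ / L ≤ 0 := by
      refine ge_of_tendsto h2 ?_
      filter_upwards [self_mem_nhdsWithin] with t ht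
      have ht' : t ≠ 0 := ht
      have h4 := (hb (x + t • v) x).2
      rw [norm_smul, norm_inv, div_le_iff₀ hL0]
      simp only [zero_add, zero_smul, add_zero]
      have h5 : ‖x + t • v - x‖ = ‖t‖ * ‖v‖ := by
        rw [add_sub_cancel_left, norm_smul]
      rw [h5] at h4
      have h6 : 0 < ‖t‖ := norm_pos_iff.mpr ht'
      calc ‖v‖ = ‖t‖⁻¹ * (‖t‖ * ‖v‖) := by field_simp
        _ ≤ ‖t‖⁻¹ * (L * ‖H (x + t • v) - H x‖) := by gcongr
        _ = _ := by ring
    have h7 : ‖v‖ ≤ 0 := by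
      have := (div_le_iff₀ hL0).mp h3
      simpa using this
    exact norm_le_zero_iff.mp h7
  let e : (Fin n → ℝ) ≃ₜ (Fin n → ℝ) :=
    { toFun := H, invFun := H', left_inv := hl, right_inv := hr,
      continuous_toFun := hs.continuous, continuous_invFun := hcont' }
  let f₀' : (Fin n → ℝ) → ((Fin n → ℝ) ≃L[ℝ] (Fin n → ℝ)) := fun x =>
    (LinearEquiv.ofInjectiveEndo ((fderiv ℝ H x : (Fin n → ℝ) →L[ℝ] (Fin n → ℝ)) :
      (Fin n → ℝ) →ₗ[ℝ] (Fin n → ℝ)) (hinj x)).toContinuousLinearEquiv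
  have hf : ∀ x, HasFDerivAt (e : (Fin n → ℝ) → (Fin n → ℝ))
      (f₀' x : (Fin n → ℝ) →L[ℝ] (Fin n → ℝ)) x := by
    intro x
    have : (f₀' x : (Fin n → ℝ) →L[ℝ] (Fin n → ℝ)) = fderiv ℝ H x := by
      ext v i
      rfl
    rw [this]
    exact hdiff x
  exact e.contDiff_symm hf hs

end QPR
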