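import Pool.Agent.Lib.QPA.AComp

set_option autoImplicit false

namespace QPR

/-- Change of the base: for `T = id + U` with inverse `id + U'`, the displacement of `T Φ^k T⁻¹` is
`y ↦ U' y + X (y + U' y) + U (Φ^k (y + U' y))`, where `Φ^k x = x + k α + X x`. -/
theorem rebase (n r : ℕ) (hr : 1 ≤ r) (c : ℝ) (hc : 0 < c) :
    ∃ ε : ℝ, 0 < ε ∧ ∀ (K : ℝ) (v : Fin n → ℝ) (X U U' : (Fin n → ℝ) → (Fin n → ℝ)), 0 < K →
      Mb r K ε X → Mb r K ε U → Mb r K ε U' →
      Mb r K c (fun y => U' y + X (y + U' y) + U ((y + U' y) + v + X (y + U' y))) := by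
  have _ := hr
  obtain ⟨C, hC, hcomp⟩ := mb_comp n r (Fin n → ℝ) 2 (by norm_num)
  have hC3 : 0 < 1 + 2 * C := by linarith
  refine ⟨min 1 c / (1 + 2 * C), div_pos (lt_min one_pos hc) hC3, ?_⟩
  set ε : ℝ := min 1 c / (1 + 2 * C) with hε
  have hε0 : 0 < ε := div_pos (lt_min one_pos hc) hC3
  have hεe : ε * (1 + 2 * C) = min 1 c := by
    rw [hε]
    field_simp
  have hε1 : ε * (1 + 2 * C) ≤ 1 := hεe.trans_le (min_le_left _ _)
  have hεc : ε * (1 + 2 * C) ≤ c := hεe.trans_le (min_le_right _ _)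
  intro K v X U U' hK hX hU hU'
  have hCε : 0 ≤ C * ε := by positivity
  have h1 : Mb r K 2 (fun y => y + U' y) :=
    ((Mb.id (n := n) (r := r) hK.le).add hU').mono_A hK.le (by nlinarith)
  have h2 : Mb r K (C * ε) (fun y => X (y + U' y)) := hcomp K ε hK hε0.le X _ h1 hX
  have h3 : Mb r K 2 (fun y => (y + U' y) + v + X (y + U' y)) := by
    have h4 := (((Mb.id (n := n) (r := r) hK.le).add hU').add_const v).add h2
    exact h4.mono_A hK.le (by nlinarith)
  have h5 : Mb r K (C * ε) (fun y => U ((y + U' y) + v + X (y + U' y))) :=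
    hcomp K ε hK hε0.le U _ h3 hU
  exact ((hU'.add h2).add h5).mono_A hK.le (by nlinarith)

end QPR
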