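import Pool.Agent.Lib.QPA.ADef

set_option autoImplicit false

namespace QPR

variable {n : ℕ} {E : Type*} [NormedAddCommGroup E] [NormedSpace ℝ E]

theorem Mb.mono_A {r : ℕ} {K A A' : ℝ} {F : (Fin n → ℝ) → E} (h : Mb r K A F) (hK : 0 ≤ K)
    (hA : A ≤ A') : Mb r K A' F := by
  refine ⟨h.1, fun i h1 hi x => (h.2 i h1 hi x).trans ?_⟩
  exact mul_le_mul_of_nonneg_right hA (pow_nonneg hK _)

theorem Mb.mono_K {r : ℕ} {K K' A : ℝ} {F : (Fin n → ℝ) → E} (h : Mb r K A F) (hK : 0 ≤ K)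
    (hA : 0 ≤ A) (hKK : K ≤ K') : Mb r K' A F := by
  refine ⟨h.1, fun i h1 hi x => (h.2 i h1 hi x).trans ?_⟩
  exact mul_le_mul_of_nonneg_left (pow_le_pow_left₀ hK hKK _) hA

theorem Mb.mono_r {r r' : ℕ} {K A : ℝ} {F : (Fin n → ℝ) → E} (h : Mb r K A F) (hr : r' ≤ r) :
    Mb r' K A F :=
  ⟨h.1, fun i h1 hi x => h.2 i h1 (hi.trans hr) x⟩

private theorem ALin_at {F : (Fin n → ℝ) → E} (h : Smo F) (i : ℕ) (x : Fin n → ℝ) :
    ContDiffAt ℝ (i : WithTop ℕ∞) F x :=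
  (h.of_le (by exact_mod_cast le_top)).contDiffAt

theorem Mb.add {r : ℕ} {K A A' : ℝ} {F G : (Fin n → ℝ) → E} (h : Mb r K A F)
    (h' : Mb r K A' G) : Mb r K (A + A') (fun x => F x + G x) := by
  refine ⟨h.1.add h'.1, fun i h1 hi x => ?_⟩
  have h3 : iteratedFDeriv ℝ i (fun x => F x + G x) x =
      iteratedFDeriv ℝ i F x + iteratedFDeriv ℝ i G x :=
    iteratedFDeriv_add_apply (ALin_at h.1 i x) (ALin_at h'.1 i x)
  rw [h3, add_mul]
  exact (norm_add_le _ _).trans (add_le_add (h.2 i h1 hi x) (h'.2 i h1 hi x))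

theorem Mb.neg {r : ℕ} {K A : ℝ} {F : (Fin n → ℝ) → E} (h : Mb r K A F) :
    Mb r K A (fun x => - F x) := by
  refine ⟨h.1.neg, fun i h1 hi x => ?_⟩
  have h3 : iteratedFDeriv ℝ i (fun x => - F x) x = - iteratedFDeriv ℝ i F x :=
    iteratedFDeriv_neg_apply
  rw [h3, norm_neg]
  exact h.2 i h1 hi x

/-- adding a constant does not change the derivatives of order `≥ 1`. -/
theorem Mb.add_const {r : ℕ} {K A : ℝ} {F : (Fin n → ℝ) → E} (h : Mb r K A F) (e : E) :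
    Mb r K A (fun x => F x + e) := by
  refine ⟨h.1.add contDiff_const, fun i h1 hi x => ?_⟩
  have h2 : iteratedFDeriv ℝ i (fun _ : Fin n → ℝ => e) x = 0 := by
    have h4 := congrFun (iteratedFDeriv_const_of_ne (𝕜 := ℝ) (E := Fin n → ℝ)
      (Nat.one_le_iff_ne_zero.1 h1) e) x
    simpa using h4
  have h3 : iteratedFDeriv ℝ i (fun x => F x + e) x =
      iteratedFDeriv ℝ i F x + iteratedFDeriv ℝ i (fun _ : Fin n → ℝ => e) x :=
    iteratedFDeriv_add_apply (ALin_at h.1 i x) contDiffAt_const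
  rw [h3, h2, add_zero]
  exact h.2 i h1 hi x

theorem Mb.smul {r : ℕ} {K A : ℝ} {F : (Fin n → ℝ) → E} (h : Mb r K A F) (c : ℝ) :
    Mb r K (|c| * A) (fun x => c • F x) := by
  refine ⟨h.1.const_smul c, fun i h1 hi x => ?_⟩
  have h3 : iteratedFDeriv ℝ i (fun x => c • F x) x = c • iteratedFDeriv ℝ i F x :=
    iteratedFDeriv_const_smul_apply (ALin_at h.1 i x)
  rw [h3, norm_smul, Real.norm_eq_abs, mul_assoc]
  exact mul_le_mul_of_nonneg_left (h.2 i h1 hi x) (abs_nonneg c)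

private theorem ALin_sum {r : ℕ} {K A : ℝ} {F : ℕ → (Fin n → ℝ) → E} (N : ℕ)
    (h : ∀ k < N, Mb r K A (F k)) :
    Mb r K (N * A) (fun x => ∑ k ∈ Finset.range N, F k x) := by
  induction N with
  | zero =>
    refine ⟨?_, fun i h1 _ x => ?_⟩
    · simpa using (contDiff_const : ContDiff ℝ ((⊤ : ℕ∞) : WithTop ℕ∞) fun _ : Fin n → ℝ => (0 : E))
    · have h3 : (fun x : Fin n → ℝ => ∑ k ∈ Finset.range 0, F k x) = fun _ => (0 : E) := by
        funext y
        simp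
      have h2 : iteratedFDeriv ℝ i (fun _ : Fin n → ℝ => (0 : E)) x = 0 := by
        have h4 := congrFun (iteratedFDeriv_const_of_ne (𝕜 := ℝ) (E := Fin n → ℝ)
          (Nat.one_le_iff_ne_zero.1 h1) (0 : E)) x
        simpa using h4
      rw [h3, h2]
      simp
  | succ N ih =>
    have h1 := (ih fun k hk => h k (hk.trans (Nat.lt_succ_self N))).add (h N (Nat.lt_succ_self N))
    have h2 : (fun x : Fin n → ℝ => ∑ k ∈ Finset.range (N + 1), F k x) =
        fun x => (∑ k ∈ Finset.range N, F k x) + F N x := by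
      funext y
      rw [Finset.sum_range_succ]
    have h3 : ((N + 1 : ℕ) : ℝ) * A = N * A + A := by
      push_cast
      ring
    rw [h2, h3]
    exact h1

/-- averages. -/
theorem Mb.avg {r : ℕ} {K A : ℝ} (hK : 0 ≤ K) {F : ℕ → (Fin n → ℝ) → E} (N : ℕ)
    (hN : 1 ≤ N) (h : ∀ k < N, Mb r K A (F k)) :
    Mb r K A (fun x => (1 / (N : ℝ)) • ∑ k ∈ Finset.range N, F k x) := by
  have _ := hK
  have h1 := (ALin_sum N h).smul (1 / (N : ℝ))
  have hN' : (0 : ℝ) < N := by exact_mod_cast hN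
  have h2 : |1 / (N : ℝ)| * (N * A) = A := by
    rw [abs_of_pos (by positivity)]
    field_simp
  rw [h2] at h1
  exact h1

/-- the identity. -/
theorem Mb.id {r : ℕ} {K : ℝ} (hK : 0 ≤ K) :
    Mb r K 1 (fun x : Fin n → ℝ => x) := by
  refine ⟨contDiff_id, fun i h1 _ x => ?_⟩
  obtain ⟨j, rfl⟩ : ∃ j, i = j + 1 := ⟨i - 1, by omega⟩
  rw [← norm_iteratedFDeriv_fderiv]
  have h3 : (fderiv ℝ fun x : Fin n → ℝ => x) = fun _ => ContinuousLinearMap.id ℝ (Fin n → ℝ) := by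
    funext y
    exact fderiv_fun_id
  rw [h3]
  rcases Nat.eq_zero_or_pos j with rfl | hj
  · rw [norm_iteratedFDeriv_zero, zero_add, Nat.sub_self, pow_zero, mul_one]
    exact ContinuousLinearMap.norm_id_le
  · have h4 := congrFun (iteratedFDeriv_const_of_ne (𝕜 := ℝ) (E := Fin n → ℝ) hj.ne'
      (ContinuousLinearMap.id ℝ (Fin n → ℝ))) x
    rw [h4, Pi.zero_apply, norm_zero]
    positivity

end QPR
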