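import Pool.Agent.Lib.QPR.Interp
import Pool.Agent.Lib.QPA.ALin

set_option autoImplicit false

namespace QPR

private theorem AInt_bdd {n r : ℕ} {E : Type*} [NormedAddCommGroup E] [NormedSpace ℝ E]
    {F : (Fin n → ℝ) → E} {K q w : ℝ} (hK : 0 < K) (hq : 0 ≤ q) (hw : 0 ≤ w)
    (hF : Mb r K q F) (hFw : ∀ x, ‖F x‖ ≤ w) :
    ∃ M : ℝ, ∀ i ≤ r, ∀ x, ‖iteratedFDeriv ℝ i F x‖ ≤ M := by
  refine ⟨w + q * (max 1 K) ^ r, fun i hi x => ?_⟩
  have h1 : (1 : ℝ) ≤ max 1 K := le_max_left _ _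
  have h2 : 0 ≤ q * (max 1 K) ^ r := mul_nonneg hq (pow_nonneg (by linarith) _)
  rcases Nat.eq_zero_or_pos i with h0 | hpos
  · subst h0
    rw [norm_iteratedFDeriv_zero]
    linarith [hFw x]
  · have h3 := hF.2 i hpos hi x
    have h4 : K ^ (i - 1) ≤ (max 1 K) ^ r :=
      (pow_le_pow_left₀ hK.le (le_max_right _ _) _).trans
        (pow_le_pow_right₀ h1 (by omega))
    have h5 := mul_le_mul_of_nonneg_left h4 hq
    linarith

/-- Interpolation: `interp` with `a = w`, `b = q * K ^ (r-1)`, `t = 1 / (Λ K)`: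
`t ^ i ‖D^i F‖ ≤ C (w + q / (K Λ^r)) ≤ 2 C w`. -/
theorem mb_int (n r : ℕ) (hr : 1 ≤ r) (E : Type*) [NormedAddCommGroup E] [NormedSpace ℝ E] :
    ∃ C : ℝ, 1 ≤ C ∧ ∀ (F : (Fin n → ℝ) → E) (K q w Λ : ℝ), 0 < K → 1 ≤ Λ → 0 ≤ q → 0 ≤ w →
      Mb r K q F → (∀ x, ‖F x‖ ≤ w) → q ≤ w * K * Λ ^ r →
      Mb r (Λ * K) (C * (w * K * Λ)) F := by
  obtain ⟨C, hC, hint⟩ := interp n E r
  refine ⟨2 * C, by linarith, ?_⟩
  intro F K q w Λ hK hΛ hq hw hF hFw hqw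
  have hΛ0 : 0 < Λ := by linarith
  have hLK : 0 < Λ * K := mul_pos hΛ0 hK
  refine ⟨hF.1, fun i hi1 hir x => ?_⟩
  have h1 := hint F hF.1 (AInt_bdd hK hq hw hF hFw) w (q * K ^ (r - 1)) (1 / (Λ * K))
    (by positivity) hFw (fun x => hF.2 r hr le_rfl x) i hir x
  have h2 : (1 / (Λ * K)) ^ r * (q * K ^ (r - 1)) ≤ w := by
    obtain ⟨s, rfl⟩ : ∃ s, r = s + 1 := ⟨r - 1, by omega⟩
    have h3 : (1 / (Λ * K)) ^ (s + 1) * (q * K ^ (s + 1 - 1)) = q / (K * Λ ^ (s + 1)) := by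
      rw [Nat.add_sub_cancel, div_pow, one_pow, mul_pow, pow_succ K s]
      field_simp
    rw [h3, div_le_iff₀ (by positivity)]
    calc q ≤ w * K * Λ ^ (s + 1) := hqw
      _ = w * (K * Λ ^ (s + 1)) := by ring
  have h4 : C * (w + (1 / (Λ * K)) ^ r * (q * K ^ (r - 1))) ≤ C * (2 * w) :=
    mul_le_mul_of_nonneg_left (by linarith) (by linarith)
  have h5 : (1 / (Λ * K)) ^ i * ‖iteratedFDeriv ℝ i F x‖ ≤ 2 * C * w := by
    calc (1 / (Λ * K)) ^ i * ‖iteratedFDeriv ℝ i F x‖ ≤ C * (2 * w) := h1.trans h4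
      _ = 2 * C * w := by ring
  have h6 : ‖iteratedFDeriv ℝ i F x‖ ≤ 2 * C * w * (Λ * K) ^ i := by
    have h7 : 0 < (Λ * K) ^ i := pow_pos hLK i
    have h8 := mul_le_mul_of_nonneg_right h5 h7.le
    have h9 : (1 / (Λ * K)) ^ i * ‖iteratedFDeriv ℝ i F x‖ * (Λ * K) ^ i
        = ‖iteratedFDeriv ℝ i F x‖ := by
      rw [div_pow, one_pow]
      field_simp
    rwa [h9] at h8
  refine h6.trans (le_of_eq ?_)
  obtain ⟨j, rfl⟩ : ∃ j, i = j + 1 := ⟨i - 1, by omega⟩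
  rw [Nat.add_sub_cancel, pow_succ]
  ring

/-- Interpolation against one more derivative: `interp` with order `r + 1`, `t = β / K`, `β ≤ 1`:
`‖D^i F‖ ≤ K^(i-1) * C * (η β^(-r) + A β)` for `1 ≤ i ≤ r`; choose first `β`, then `η`. -/
theorem mb_int_top (n r : ℕ) (E : Type*) [NormedAddCommGroup E] [NormedSpace ℝ E] (A ε : ℝ)
    (hA : 0 ≤ A) (hε : 0 < ε) :
    ∃ η : ℝ, 0 < η ∧ ∀ (F : (Fin n → ℝ) → E) (K : ℝ), 0 < K → Mb (r + 1) K A F →
      (∀ x, ‖F x‖ ≤ η / K) → Mb r K ε F := by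
  obtain ⟨C, hC, hint⟩ := interp n E (r + 1)
  have hC0 : 0 < C := by linarith
  set β : ℝ := min 1 (ε / (2 * C * (A + 1))) with hβ
  have hβ0 : 0 < β := lt_min one_pos (by positivity)
  have hβ1 : β ≤ 1 := min_le_left _ _
  have hβ2 : C * A * β ≤ ε / 2 := by
    have h1 : β ≤ ε / (2 * C * (A + 1)) := min_le_right _ _
    rw [le_div_iff₀ (by positivity)] at h1
    have h2 : C * A * β ≤ C * (A + 1) * β := by
      have : 0 ≤ C * β := by positivity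
      nlinarith
    nlinarith
  set η : ℝ := ε * β ^ r / (2 * C) with hη
  have hη0 : 0 < η := by positivity
  refine ⟨η, hη0, ?_⟩
  intro F K hK hF hFw
  refine ⟨hF.1, fun i hi1 hir x => ?_⟩
  have h1 := hint F hF.1 (AInt_bdd hK hA (by positivity) hF hFw) (η / K)
    (A * K ^ r) (β / K) (by positivity) hFw
    (fun x => by simpa using hF.2 (r + 1) (by omega) le_rfl x) i (by omega) x
  obtain ⟨j, rfl⟩ : ∃ j, i = j + 1 := ⟨i - 1, by omega⟩
  obtain ⟨k, hk⟩ : ∃ k, r = j + 1 + k := ⟨r - (j + 1), by omega⟩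
  rw [Nat.add_sub_cancel]
  have h2 : C * (η / K + (β / K) ^ (r + 1) * (A * K ^ r)) = C * (η + A * β ^ (r + 1)) / K := by
    rw [div_pow, pow_succ K r]
    field_simp
  rw [h2] at h1
  -- multiply by `(K / β) ^ (j+1)`
  have h3 : ‖iteratedFDeriv ℝ (j + 1) F x‖ ≤
      C * (η + A * β ^ (r + 1)) / K * (K / β) ^ (j + 1) := by
    have h4 := mul_le_mul_of_nonneg_right h1 (by positivity : (0 : ℝ) ≤ (K / β) ^ (j + 1))
    have h5 : (β / K) ^ (j + 1) * ‖iteratedFDeriv ℝ (j + 1) F x‖ * (K / β) ^ (j + 1)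
        = ‖iteratedFDeriv ℝ (j + 1) F x‖ := by
      rw [div_pow, div_pow]
      field_simp
    rwa [h5] at h4
  have h6 : C * (η + A * β ^ (r + 1)) / K * (K / β) ^ (j + 1)
      = (C * (η + A * β ^ (r + 1)) / β ^ (j + 1)) * K ^ j := by
    rw [div_pow, pow_succ K j]
    field_simp
  have h7 : C * (η + A * β ^ (r + 1)) / β ^ (j + 1) ≤ ε := by
    rw [div_le_iff₀ (by positivity)]
    have h8 : C * η = ε / 2 * β ^ r := by
      rw [hη]
      field_simp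
    have h9 : β ^ r ≤ β ^ (j + 1) := pow_le_pow_of_le_one hβ0.le hβ1 (by omega)
    have h10 : C * A * β ^ (r + 1) ≤ ε / 2 * β ^ r := by
      calc C * A * β ^ (r + 1) = C * A * β * β ^ r := by ring
        _ ≤ ε / 2 * β ^ r := mul_le_mul_of_nonneg_right hβ2 (by positivity)
    calc C * (η + A * β ^ (r + 1)) = C * η + C * A * β ^ (r + 1) := by ring
      _ ≤ ε / 2 * β ^ r + ε / 2 * β ^ r := by linarith
      _ = ε * β ^ r := by ring
      _ ≤ ε * β ^ (j + 1) := mul_le_mul_of_nonneg_left h9 hε.le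
  calc ‖iteratedFDeriv ℝ (j + 1) F x‖ ≤ _ := h3
    _ = _ := h6
    _ ≤ ε * K ^ j := mul_le_mul_of_nonneg_right h7 (by positivity)

end QPR
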