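import Pool.Agent.Lib.QPA.AInvN
import Pool.Agent.Lib.QPA.AInt

set_option autoImplicit false

namespace QPR

private theorem AStep_zero {n : ℕ} (α : Fin n → ℝ) (Φ : (Fin n → ℝ) → (Fin n → ℝ))
    (x : Fin n → ℝ) : Disp α Φ 0 x = 0 := by
  simp [Disp]

private theorem AStep_shift {n : ℕ} (α : Fin n → ℝ) (Φ : (Fin n → ℝ) → (Fin n → ℝ)) (k : ℕ)
    (x : Fin n → ℝ) : Disp α Φ k (Φ x) = Disp α Φ (k + 1) x - Disp α Φ 1 x := by
  simp only [Disp, Function.iterate_succ_apply, Function.iterate_zero_apply]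
  push_cast
  module

private theorem AStep_tel {n : ℕ} (α : Fin n → ℝ) (Φ : (Fin n → ℝ) → (Fin n → ℝ)) (N : ℕ)
    (hN : 1 ≤ N) (x : Fin n → ℝ) :
    (1 / (N : ℝ)) • ∑ k ∈ Finset.range N, Disp α Φ k (Φ x) =
      (1 / (N : ℝ)) • ∑ k ∈ Finset.range N, Disp α Φ k x + (1 / (N : ℝ)) • Disp α Φ N x -
        Disp α Φ 1 x := by
  have hN0 : (N : ℝ) ≠ 0 := by
    have : 0 < N := hN
    exact_mod_cast this.ne'
  have h1 : ∑ k ∈ Finset.range N, Disp α Φ k (Φ x) =
      ∑ k ∈ Finset.range N, Disp α Φ k x + Disp α Φ N x - (N : ℝ) • Disp α Φ 1 x := by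
    have h2 : ∑ k ∈ Finset.range N, Disp α Φ (k + 1) x =
        ∑ k ∈ Finset.range N, Disp α Φ k x + Disp α Φ N x := by
      have h3 := Finset.sum_range_succ (fun k => Disp α Φ k x) N
      have h4 := Finset.sum_range_succ' (fun k => Disp α Φ k x) N
      rw [AStep_zero, add_zero] at h4
      rw [← h4, h3]
    calc ∑ k ∈ Finset.range N, Disp α Φ k (Φ x)
        = ∑ k ∈ Finset.range N, (Disp α Φ (k + 1) x - Disp α Φ 1 x) :=
          Finset.sum_congr rfl (fun k _ => AStep_shift α Φ k x)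
      _ = _ := by
          rw [Finset.sum_sub_distrib, h2, Finset.sum_const, Finset.card_range, ← Nat.cast_smul_eq_nsmul ℝ]
  rw [h1, smul_sub, smul_add, smul_smul, one_div_mul_cancel hN0, one_smul]

private theorem AStep_avg_norm {E : Type*} [NormedAddCommGroup E] [NormedSpace ℝ E] (N : ℕ)
    (hN : 1 ≤ N) (w : ℝ) (f : ℕ → E) (h : ∀ k, ‖f k‖ ≤ w) :
    ‖(1 / (N : ℝ)) • ∑ k ∈ Finset.range N, f k‖ ≤ w := by
  have hN0 : (0 : ℝ) < N := by exact_mod_cast (show 0 < N from hN)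
  rw [norm_smul, Real.norm_eq_abs, abs_of_pos (by positivity)]
  have h1 : ‖∑ k ∈ Finset.range N, f k‖ ≤ N * w := by
    calc ‖∑ k ∈ Finset.range N, f k‖ ≤ ∑ k ∈ Finset.range N, ‖f k‖ := norm_sum_le _ _
      _ ≤ ∑ _k ∈ Finset.range N, w := Finset.sum_le_sum (fun k _ => h k)
      _ = N * w := by rw [Finset.sum_const, Finset.card_range, nsmul_eq_mul]
  calc 1 / (N : ℝ) * ‖∑ k ∈ Finset.range N, f k‖ ≤ 1 / (N : ℝ) * (N * w) := by gcongr
    _ = w := by field_simp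

/-- THE KEY STEP. All displacements `X_k = Disp α Φ k` are bounded by `w`, and `Mb r K c` for
`k ≤ N`; `c ≤ w K Λ^r`, `w K Λ` small. Then they are `Mb r (ΛK) ε` for `k (w K Λ) ≤ c' N`.
Proof. `C` denotes constants depending on `n`, `r`. `m = (1/N) ∑_{k<N} X_k` is `Mb r K c`, bounded by
`w`; so `Mb r (ΛK) (C w K Λ)` (`mb_int`). `M = id + m` has the inverse `id + m'` (`inv_near`, at both
scales: `m'` is `Mb r K (C c)` and `Mb r (ΛK) (C w K Λ)`; the inverse is unique).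
`M (Φ x) = M x + α + (1/N) X_N x` (telescoping, `X_k (Φ x) = X_{k+1} x - X_1 x`), so
`Φ' = M Φ M⁻¹` is `y ↦ y + α + P y`, `P = (1/N) X_N ∘ M⁻¹`: bounded by `w/N`, `Mb r K (C c/N)`
(`mb_comp`), so `Mb r (ΛK) (C w K Λ/N)` (`mb_int` with `w := C w/N`).
`X'_k = Disp α Φ' k` satisfies `X'_{k+1} = X'_k + P ∘ Φ'^k`; by induction (`Φ'^k` is `Mb r (ΛK) 2` as
long as `X'_k` is `Mb r (ΛK) 1`) `X'_k` is `Mb r (ΛK) (k C w K Λ/N)`.
`X_k x = m x + X'_k (M x) + m' (Φ'^k (M x))`. -/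
theorem stepA (n r : ℕ) (hr : 1 ≤ r) :
    ∃ c : ℝ, 0 < c ∧ c ≤ 1 ∧ ∀ ε : ℝ, 0 < ε → ∃ c' : ℝ, 0 < c' ∧ c' ≤ 1 ∧
      ∀ (α : Fin n → ℝ) (K w Λ : ℝ) (N : ℕ) (Φ : (Fin n → ℝ) → (Fin n → ℝ)),
        0 < K → 0 < w → 1 ≤ Λ → 1 ≤ N → Smo Φ → (∀ k x, ‖Disp α Φ k x‖ ≤ w) →
        (∀ k ≤ N, Mb r K c (Disp α Φ k)) → c ≤ w * K * Λ ^ r → w * K * Λ ≤ c' →
        ∀ k : ℕ, (k : ℝ) * (w * K * Λ) ≤ c' * N → Mb r (Λ * K) ε (Disp α Φ k) := by
  obtain ⟨C1, hC1, int⟩ := mb_int n r hr (Fin n → ℝ)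
  obtain ⟨C2, hC2, inv⟩ := inv_near n r hr
  obtain ⟨C3, hC3, comp⟩ := mb_comp n r (Fin n → ℝ) 2 (by norm_num)
  have hC1p : 0 < C1 := by linarith
  have hC2p : 0 < C2 := by linarith
  have hC3p : 0 < C3 := by linarith
  refine ⟨1 / (2 * C2), by positivity, ?_, ?_⟩
  · rw [div_le_one (by positivity)]
    linarith
  intro ε hε
  set C4 : ℝ := C3 * (C1 * C3) with hC4
  have hC4p : 0 < C4 := by positivity
  set S : ℝ := C1 + C3 * C4 + C3 * (C3 * (C2 * C1)) with hS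
  have hSp : 0 < S := by positivity
  refine ⟨min (min (1 / (2 * C1)) (1 / C4)) (min (ε / S) 1), by positivity,
    (min_le_right _ _).trans (min_le_right _ _), ?_⟩
  set c' : ℝ := min (min (1 / (2 * C1)) (1 / C4)) (min (ε / S) 1) with hc'
  have h1 : c' ≤ 1 / (2 * C1) := (min_le_left _ _).trans (min_le_left _ _)
  have h2 : c' ≤ 1 / C4 := (min_le_left _ _).trans (min_le_right _ _)
  have h3 : c' ≤ ε / S := (min_le_right _ _).trans (min_le_left _ _)
  have h1' : C1 * c' ≤ 1 / 2 := by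
    calc C1 * c' ≤ C1 * (1 / (2 * C1)) := by gcongr
      _ = 1 / 2 := by field_simp
  have h2' : C4 * c' ≤ 1 := by
    calc C4 * c' ≤ C4 * (1 / C4) := by gcongr
      _ = 1 := by field_simp
  have h3' : S * c' ≤ ε := by
    calc S * c' ≤ S * (ε / S) := by gcongr
      _ = ε := by field_simp
  have hc2 : C2 * (1 / (2 * C2)) = 1 / 2 := by field_simp
  have hchalf : 1 / (2 * C2) ≤ 1 / 2 := by
    rw [div_le_div_iff₀ (by positivity) (by norm_num)]
    linarith
  have hc0 : (0 : ℝ) < 1 / (2 * C2) := by positivity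
  generalize 1 / (2 * C2) = c at hc2 hchalf hc0
  clear_value c'
  intro α K w Λ N Φ hK hw hΛ hN hΦ hbd hMb hcw hW k hk
  have hN0 : (0 : ℝ) < N := by exact_mod_cast (show 0 < N from hN)
  have hΛ0 : 0 < Λ := by linarith
  have hΛK : 0 < Λ * K := by positivity
  set W : ℝ := w * K * Λ with hWdef
  have hW0 : 0 < W := by positivity
  -- the average
  obtain ⟨m, hm⟩ : ∃ m : (Fin n → ℝ) → (Fin n → ℝ),
      m = fun x => (1 / (N : ℝ)) • ∑ k ∈ Finset.range N, Disp α Φ k x := ⟨_, rfl⟩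
  have hmK : Mb r K c m := by
    rw [hm]
    exact Mb.avg hK.le N hN (fun k hk => hMb k hk.le)
  have hmw : ∀ x, ‖m x‖ ≤ w := by
    intro x
    rw [hm]
    exact AStep_avg_norm N hN w _ (fun k => hbd k x)
  have hmL : Mb r (Λ * K) (C1 * W) m := int m K c w Λ hK hΛ hc0.le hw.le hmK hmw hcw
  have hC1W : C1 * W ≤ 1 / 2 := le_trans (by gcongr) h1'
  obtain ⟨m', hm'K, hl, hrr, -⟩ := inv K c hK hc0.le hchalf m hmK
  obtain ⟨m2, hm2L, hl2, -, -⟩ := inv (Λ * K) (C1 * W) hΛK (by positivity) hC1W m hmL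
  have hmm : m2 = m' := by
    funext y
    have e1 := hrr y
    have e2 := hl2 (y + m' y)
    rw [e1] at e2
    exact add_left_cancel e2
  rw [hmm] at hm2L
  -- the new map
  obtain ⟨P, hP⟩ : ∃ P : (Fin n → ℝ) → (Fin n → ℝ),
      P = fun y => (1 / (N : ℝ)) • Disp α Φ N (y + m' y) := ⟨_, rfl⟩
  have hMi : Mb r K 2 (fun y => y + m' y) := by
    have := (Mb.id (n := n) (r := r) hK.le).add hm'K
    exact this.mono_A hK.le (by rw [hc2]; norm_num)
  have hPK : Mb r K (C3 * c / N) P := by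
    have e1 := comp K c hK hc0.le (Disp α Φ N) (fun y => y + m' y) hMi (hMb N le_rfl)
    have e2 := e1.smul (1 / (N : ℝ))
    rw [abs_of_pos (by positivity)] at e2
    rw [hP]
    refine e2.mono_A hK.le (le_of_eq ?_)
    ring
  have hPw : ∀ y, ‖P y‖ ≤ C3 * w / N := by
    intro y
    rw [hP]
    change ‖(1 / (N : ℝ)) • Disp α Φ N (y + m' y)‖ ≤ _
    rw [norm_smul, Real.norm_eq_abs, abs_of_pos (by positivity)]
    calc 1 / (N : ℝ) * ‖Disp α Φ N (y + m' y)‖ ≤ 1 / (N : ℝ) * w := by gcongr; exact hbd _ _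
      _ = 1 * w / N := by ring
      _ ≤ C3 * w / N := by gcongr
  have hPL : Mb r (Λ * K) (C1 * C3 * W / N) P := by
    have e1 := int P K (C3 * c / N) (C3 * w / N) Λ hK hΛ (by positivity) (by positivity) hPK hPw
      (by
        calc C3 * c / N ≤ C3 * (w * K * Λ ^ r) / N := by gcongr
          _ = C3 * w / N * K * Λ ^ r := by ring)
    refine e1.mono_A hΛK.le (le_of_eq ?_)
    rw [hWdef]
    ring
  obtain ⟨Ψ, hΨ⟩ : ∃ Ψ : (Fin n → ℝ) → (Fin n → ℝ), Ψ = fun y => y + α + P y := ⟨_, rfl⟩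
  have hconj : ∀ x, Φ x + m (Φ x) = Ψ (x + m x) := by
    intro x
    have e1 : m (Φ x) = m x + (1 / (N : ℝ)) • Disp α Φ N x - Disp α Φ 1 x := by
      rw [hm]
      exact AStep_tel α Φ N hN x
    have e2 : P (x + m x) = (1 / (N : ℝ)) • Disp α Φ N x := by
      rw [hP]
      change (1 / (N : ℝ)) • Disp α Φ N (x + m x + m' (x + m x)) = _
      rw [hl]
    rw [hΨ]
    change Φ x + m (Φ x) = x + m x + α + P (x + m x)
    rw [e1, e2]
    have e3 : Disp α Φ 1 x = Φ x - x - α := by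
      simp [Disp]
    rw [e3]
    abel
  have hconjk : ∀ (j : ℕ) (x : Fin n → ℝ), Φ^[j] x + m (Φ^[j] x) = Ψ^[j] (x + m x) := by
    intro j
    induction j with
    | zero => intro x; rfl
    | succ j ih =>
      intro x
      rw [Function.iterate_succ_apply, Function.iterate_succ_apply, ih, hconj]
  have hsucc : ∀ (j : ℕ) (y : Fin n → ℝ),
      Disp α Ψ (j + 1) y = Disp α Ψ j y + P (Ψ^[j] y) := by
    intro j y
    have e1 : Ψ^[j + 1] y = Ψ^[j] y + α + P (Ψ^[j] y) := by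
      rw [Function.iterate_succ_apply']
      exact congrFun hΨ (Ψ^[j] y)
    simp only [Disp]
    rw [e1]
    push_cast
    module
  have hiter : ∀ (j : ℕ) (A : ℝ), A ≤ 1 → Mb r (Λ * K) A (Disp α Ψ j) →
      Mb r (Λ * K) 2 (fun y => Ψ^[j] y) := by
    intro j A hA hj
    have e1 := ((Mb.id (n := n) (r := r) hΛK.le).add hj).add_const ((j : ℝ) • α)
    have e2 : (fun y : Fin n → ℝ => y + Disp α Ψ j y + (j : ℝ) • α) = fun y => Ψ^[j] y := by
      funext y
      simp only [Disp]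
      abel
    rw [e2] at e1
    exact e1.mono_A hΛK.le (by linarith)
  have hmain : ∀ j : ℕ, (j : ℝ) * (C4 * W / N) ≤ 1 →
      Mb r (Λ * K) ((j : ℝ) * (C4 * W / N)) (Disp α Ψ j) := by
    intro j
    induction j with
    | zero =>
      intro _
      have e1 : Disp α Ψ 0 = fun y : Fin n → ℝ => (0 : ℝ) • y := by
        funext y
        rw [AStep_zero, zero_smul]
      rw [e1]
      have e2 := (Mb.id (n := n) (r := r) hΛK.le).smul 0
      refine e2.mono_A hΛK.le (le_of_eq ?_)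
      simp
    | succ j ih =>
      intro hj
      have hq : 0 ≤ C4 * W / N := by positivity
      have hj' : (j : ℝ) * (C4 * W / N) ≤ 1 := by
        push_cast at hj
        linarith
      have e0 := ih hj'
      have e1 := comp (Λ * K) (C1 * C3 * W / N) hΛK (by positivity) P (fun y => Ψ^[j] y)
        (hiter j _ hj' e0) hPL
      have e2 := e0.add e1
      have e3 : Disp α Ψ (j + 1) = fun y => Disp α Ψ j y + P (Ψ^[j] y) := by
        funext y
        exact hsucc j y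
      rw [e3]
      refine e2.mono_A hΛK.le (le_of_eq ?_)
      push_cast
      rw [hC4]
      ring
  -- the conclusion
  have hkW : (k : ℝ) * (C4 * W / N) ≤ C4 * c' := by
    calc (k : ℝ) * (C4 * W / N) = C4 * ((k : ℝ) * W) / N := by ring
      _ ≤ C4 * (c' * N) / N := by gcongr
      _ = C4 * c' := by field_simp
  have hk1 : (k : ℝ) * (C4 * W / N) ≤ 1 := hkW.trans h2'
  have hXk := hmain k hk1
  have hM : Mb r (Λ * K) 2 (fun x => x + m x) := by
    have := (Mb.id (n := n) (r := r) hΛK.le).add hmL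
    exact this.mono_A hΛK.le (by linarith)
  have hk0 : 0 ≤ (k : ℝ) * (C4 * W / N) := by positivity
  have f1 := comp (Λ * K) _ hΛK hk0 (Disp α Ψ k) (fun x => x + m x) hM hXk
  have f2 := comp (Λ * K) (C2 * (C1 * W)) hΛK (by positivity) m' (fun y => Ψ^[k] y)
    (hiter k _ hk1 hXk) hm2L
  have f3 := comp (Λ * K) (C3 * (C2 * (C1 * W))) hΛK (by positivity) (fun y => m' (Ψ^[k] y))
    (fun x => x + m x) hM f2
  have f4 := (hmL.add f1).add f3
  have f5 : Disp α Φ k = fun x => m x + Disp α Ψ k (x + m x) + m' (Ψ^[k] (x + m x)) := by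
    funext x
    have e1 := hconjk k x
    have e2 := hl (Φ^[k] x)
    rw [e1] at e2
    simp only [Disp]
    rw [← e2]
    abel
  rw [f5]
  refine f4.mono_A hΛK.le ?_
  calc C1 * W + C3 * ((k : ℝ) * (C4 * W / N)) + C3 * (C3 * (C2 * (C1 * W)))
      ≤ C1 * c' + C3 * (C4 * c') + C3 * (C3 * (C2 * (C1 * c'))) := by gcongr
    _ = S * c' := by rw [hS]; ring
    _ ≤ ε := h3'

end QPR
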