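import Pool.Agent.Lib.QPA.AFam
import Pool.Agent.Lib.QPA.AStep
import Pool.Agent.Lib.QPA.ARebase

set_option autoImplicit false

namespace QPR

private theorem AIter_conj {X : Type*} (h h' F : X → X) (hl : ∀ x, h' (h x) = x)
    (hr : ∀ y, h (h' y) = y) (k : ℕ) (y : X) :
    (fun y => h (F (h' y)))^[k] y = h (F^[k] (h' y)) := by
  induction k generalizing y with
  | zero => simp [hr]
  | succ k ih =>
    rw [Function.iterate_succ_apply, ih, Function.iterate_succ_apply, hl]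

private theorem AIter_H {n : ℕ} {α : Fin n → ℝ} {F F' H H' : (Fin n → ℝ) → (Fin n → ℝ)}
    (hd : DatA α F F' H H') (k : ℕ) (x : Fin n → ℝ) : H (F^[k] x) = H x + (k : ℝ) • α := by
  induction k generalizing x with
  | zero => simp
  | succ k ih =>
    rw [Function.iterate_succ_apply, ih, hd.conj]
    push_cast
    rw [add_smul, one_smul]
    abel

private theorem AIter_disp {n : ℕ} {α : Fin n → ℝ} {F F' H H' : (Fin n → ℝ) → (Fin n → ℝ)}
    (hd : DatA α F F' H H') {h h' : (Fin n → ℝ) → (Fin n → ℝ)} {w : ℝ}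
    (hl : ∀ x, h' (h x) = x) (hr : ∀ y, h (h' y) = y) (hw : ∀ x, ‖h x - H x‖ ≤ w) (k : ℕ)
    (y : Fin n → ℝ) : ‖Disp α (fun y => h (F (h' y))) k y‖ ≤ 2 * w := by
  have e : Disp α (fun y => h (F (h' y))) k y =
      (h (F^[k] (h' y)) - H (F^[k] (h' y))) - (h (h' y) - H (h' y)) := by
    rw [Disp, AIter_conj h h' F hl hr k y, AIter_H hd, hr]
    abel
  rw [e]
  calc _ ≤ ‖h (F^[k] (h' y)) - H (F^[k] (h' y))‖ + ‖h (h' y) - H (h' y)‖ := norm_sub_le _ _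
    _ ≤ w + w := add_le_add (hw _) (hw _)
    _ = 2 * w := by ring

private theorem AIter_per_comp {n : ℕ} {A B : (Fin n → ℝ) → (Fin n → ℝ)} (hA : PerD A)
    (hB : PerD B) : PerD (fun x => A (B x)) := fun x k => by
  change A (B (x + _)) = _
  rw [hB, hA]

private theorem AIter_per_iter {n : ℕ} {A : (Fin n → ℝ) → (Fin n → ℝ)} (hA : PerD A) (k : ℕ) :
    PerD (A^[k]) := by
  induction k with
  | zero => intro x j; rfl
  | succ k ih =>
    intro x j
    rw [Function.iterate_succ_apply, Function.iterate_succ_apply, hA, ih]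

private theorem AIter_per_disp {n : ℕ} {α : Fin n → ℝ} {A : (Fin n → ℝ) → (Fin n → ℝ)}
    (hA : PerD A) (k : ℕ) (x : Fin n → ℝ) (j : Fin n → ℤ) :
    Disp α A k (x + fun i => (j i : ℝ)) = Disp α A k x := by
  unfold Disp
  rw [AIter_per_iter hA k x j]
  abel

private theorem AIter_disp_succ {n : ℕ} {α : Fin n → ℝ} (A : (Fin n → ℝ) → (Fin n → ℝ))
    (k : ℕ) (x : Fin n → ℝ) : Disp α A k (A x) = Disp α A (k + 1) x - Disp α A 1 x := by
  unfold Disp
  rw [Function.iterate_succ_apply, Function.iterate_one]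
  push_cast
  rw [add_smul, one_smul]
  abel

/-- the average of the displacements -/
private noncomputable def AIter_avg {n : ℕ} (α : Fin n → ℝ) (A : (Fin n → ℝ) → (Fin n → ℝ))
    (N : ℕ) (x : Fin n → ℝ) : Fin n → ℝ :=
  (1 / (N : ℝ)) • ∑ k ∈ Finset.range N, Disp α A k x

private theorem AIter_avg_tel {n : ℕ} {α : Fin n → ℝ} (A : (Fin n → ℝ) → (Fin n → ℝ)) {N : ℕ}
    (hN : 1 ≤ N) (x : Fin n → ℝ) :
    (A x + AIter_avg α A N (A x)) - (x + AIter_avg α A N x) - α = (1 / (N : ℝ)) • Disp α A N x := by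
  have hN0 : (N : ℝ) ≠ 0 := by positivity
  have e1 : ∑ k ∈ Finset.range N, Disp α A k (A x) = ∑ k ∈ Finset.range N, Disp α A k x
      + Disp α A N x - (N : ℝ) • Disp α A 1 x := by
    have h1 := Finset.sum_range_sub (fun k => Disp α A k x) N
    have h2 : Disp α A 0 x = 0 := by simp [Disp]
    have h3 : ∑ k ∈ Finset.range N, Disp α A k (A x) =
        ∑ k ∈ Finset.range N, (Disp α A (k + 1) x - Disp α A k x)
        + ∑ k ∈ Finset.range N, Disp α A k x - (N : ℝ) • Disp α A 1 x := by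
      have h4 : (N : ℝ) • Disp α A 1 x = ∑ _k ∈ Finset.range N, Disp α A 1 x := by
        rw [Finset.sum_const, Finset.card_range, Nat.cast_smul_eq_nsmul]
      rw [h4, ← Finset.sum_add_distrib, ← Finset.sum_sub_distrib]
      refine Finset.sum_congr rfl fun k _ => ?_
      rw [AIter_disp_succ]
      abel
    rw [h3, h1, h2]
    abel
  unfold AIter_avg
  rw [e1, smul_sub, smul_add, smul_smul, one_div, inv_mul_cancel₀ hN0, one_smul]
  unfold Disp
  rw [Function.iterate_one, Nat.cast_one, one_smul]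
  abel

private theorem AIter_avg_norm {n : ℕ} {α : Fin n → ℝ} {A : (Fin n → ℝ) → (Fin n → ℝ)} {N : ℕ}
    (hN : 1 ≤ N) {w : ℝ} (hw : ∀ k x, ‖Disp α A k x‖ ≤ w) (x : Fin n → ℝ) :
    ‖AIter_avg α A N x‖ ≤ w := by
  have hN0 : (0 : ℝ) < N := by exact_mod_cast hN
  unfold AIter_avg
  rw [norm_smul, Real.norm_of_nonneg (by positivity), one_div, inv_mul_le_iff₀ hN0]
  refine (norm_sum_le _ _).trans ?_
  have := Finset.sum_le_card_nsmul (Finset.range N) (fun k => ‖Disp α A k x‖) w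
    fun k _ => hw k x
  rwa [Finset.card_range, nsmul_eq_mul] at this

private theorem AIter_avg_per {n : ℕ} {α : Fin n → ℝ} {A : (Fin n → ℝ) → (Fin n → ℝ)}
    (hA : PerD A) (N : ℕ) (x : Fin n → ℝ) (j : Fin n → ℤ) :
    AIter_avg α A N (x + fun i => (j i : ℝ)) = AIter_avg α A N x := by
  unfold AIter_avg
  congr 1
  exact Finset.sum_congr rfl fun k _ => AIter_per_disp hA k x j

private theorem AIter_zero {n r : ℕ} {K c : ℝ} (hK : 0 ≤ K) (hc : 0 ≤ c) (α : Fin n → ℝ)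
    (Φ : (Fin n → ℝ) → (Fin n → ℝ)) : Mb r K c (Disp α Φ 0) := by
  have e : Disp α Φ 0 = fun _ => (0 : Fin n → ℝ) := by
    funext x
    simp [Disp]
  rw [e]
  refine ⟨contDiff_const, fun i hi _ x => ?_⟩
  rw [iteratedFDeriv_const_of_ne (by omega)]
  simp only [Pi.zero_apply, norm_zero]
  positivity

private theorem AIter_num (c c' : ℝ) (hc : 0 < c) (hc1 : c ≤ 1) (hc' : 0 < c') (hc'1 : c' ≤ 1)
    (r : ℕ) (hr : 3 ≤ r) : ∃ (Λ η : ℝ) (g : ℕ), 1 < Λ ∧ 0 < η ∧ 2 ≤ g ∧ c = 2 * η * Λ ^ r ∧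
      2 * η * Λ ≤ c' ∧ (g : ℝ) * (2 * η * Λ) ≤ c' ∧ Λ ^ r ≤ (g : ℝ) ^ 2 := by
  obtain ⟨t, rfl⟩ : ∃ t, r = t + 3 := ⟨r - 3, by omega⟩
  set Λ : ℝ := 4 / c' ^ 2 with hΛ
  have hc2 : c' ^ 2 ≤ 1 := pow_le_one₀ hc'.le hc'1
  have hc20 : 0 < c' ^ 2 := by positivity
  have hΛ4 : 4 ≤ Λ := by
    rw [hΛ, le_div_iff₀ hc20]
    linarith
  have hΛ0 : 0 < Λ := by linarith
  have hΛ1 : 1 ≤ Λ := by linarith
  have hΛc : c' ^ 2 * Λ = 4 := by
    rw [hΛ]
    field_simp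
  have hcΛ : 4 ≤ c' * Λ := by nlinarith
  set Q : ℝ := c' * Λ ^ (t + 2) / c with hQ
  have hQ1 : c' * Λ ^ (t + 2) ≤ Q := by
    rw [hQ, le_div_iff₀ hc]
    exact mul_le_of_le_one_right (by positivity) hc1
  have hQ4 : 4 ≤ Q := by
    refine le_trans ?_ hQ1
    calc (4 : ℝ) ≤ c' * Λ := hcΛ
      _ = c' * Λ * 1 := by ring
      _ ≤ c' * Λ * Λ ^ (t + 1) := mul_le_mul_of_nonneg_left (one_le_pow₀ hΛ1) (by positivity)
      _ = c' * Λ ^ (t + 2) := by ring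
  have hη : (0 : ℝ) < c / (2 * Λ ^ (t + 3)) := by positivity
  have e1 : 2 * (c / (2 * Λ ^ (t + 3))) * Λ = c' / Q := by
    rw [hQ]
    field_simp
    ring
  have hg1 : (⌊Q⌋₊ : ℝ) ≤ Q := Nat.floor_le (by linarith)
  have hg2 : Q / 2 ≤ (⌊Q⌋₊ : ℝ) := by
    have := Nat.lt_floor_add_one Q
    linarith
  have hgQ : 2 ≤ ⌊Q⌋₊ := by
    rw [Nat.le_floor_iff (by linarith)]
    push_cast
    linarith
  refine ⟨Λ, c / (2 * Λ ^ (t + 3)), ⌊Q⌋₊, by linarith, hη, hgQ, ?_, ?_, ?_, ?_⟩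
  · field_simp
  · rw [e1]
    exact div_le_self hc'.le (by linarith)
  · rw [e1]
    calc (⌊Q⌋₊ : ℝ) * (c' / Q) ≤ Q * (c' / Q) :=
          mul_le_mul_of_nonneg_right hg1 (by positivity)
      _ = c' := by field_simp
  · have h1 : (c' * Λ ^ (t + 2) / 2) ^ 2 ≤ (⌊Q⌋₊ : ℝ) ^ 2 := by
      refine pow_le_pow_left₀ (by positivity) ?_ 2
      linarith
    refine le_trans ?_ h1
    have h2 : (c' * Λ ^ (t + 2) / 2) ^ 2 = (c' ^ 2 * Λ) / 4 * (Λ ^ t * Λ ^ (t + 3)) := by ring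
    rw [h2, hΛc]
    have h3 : Λ ^ (t + 3) ≤ Λ ^ t * Λ ^ (t + 3) :=
      le_mul_of_one_le_left (by positivity) (one_le_pow₀ hΛ1)
    linarith

private theorem AIter_clog {g : ℕ} (hg : 2 ≤ g) :
    Filter.Tendsto (fun N => Nat.clog g N) Filter.atTop Filter.atTop := by
  refine Filter.tendsto_atTop.2 fun k => Filter.eventually_atTop.2 ⟨g ^ k + 1, fun N hN => ?_⟩
  by_contra hlt
  have h1 : Nat.clog g N ≤ k := by omega
  have h2 := (Nat.clog_le_iff_le_pow (by omega : 1 < g)).1 h1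
  omega

private theorem AIter_clog_le {g : ℕ} (hg : 2 ≤ g) {N : ℕ} (hN : 1 ≤ N) :
    g ^ Nat.clog g N ≤ g * N := by
  rcases Nat.eq_or_lt_of_le hN with rfl | h1
  · rw [Nat.clog_one_right, pow_zero]
    omega
  · have h2 := Nat.pow_pred_clog_lt_self (by omega : 1 < g) h1
    have h3 := Nat.clog_pos (by omega : 1 < g) h1
    calc g ^ Nat.clog g N = g * g ^ (Nat.clog g N - 1) := by
          rw [← pow_succ']
          congr 1
          omega
      _ ≤ g * N := Nat.mul_le_mul_left _ h2.le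

/-- Slowly growing conjugacies. Fix `r ≥ max 3 (2 R m)`; `c` from `stepA`, `ε` from `rebase` (for this
`c`), `ε ≤ c`, `c'` from `stepA` for this `ε`; `η` small and `Λ ≥ 1` with `Λ^r = c/(2η)`,
`2 η Λ ≤ c'`, `c/(2η) ≤ (c' / (4 η Λ))^2`, `c'/(4 η Λ) ≥ 2`. Take `family` with `(ε, Λ, η)` and put
`κ_j = Λ^j κ₀`, `F_j = h κ_j ∘ F ∘ h' κ_j`, `w_j = 2η/κ_j`. All displacements of `F_j^k` are bounded by
`w_j` (`F_j^k = h κ_j ∘ H⁻¹ ∘ (translation by kα) ∘ H ∘ h' κ_j`). Claim: `Disp α F_j k` is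
`Mb r κ_j c` for `k ≤ N_j`, `N_0 = 1`, `N_{j+1} = ⌊c' N_j/(2ηΛ)⌋`: `stepA` gives `Mb r κ_{j+1} ε` for
`Disp α F_j k`, and `rebase` with `T = h κ_{j+1} ∘ h' κ_j` gives the claim for `F_{j+1} = T F_j T⁻¹`.
`κ_j^r ≤ κ₀^r N_j^2`. For `N ≥ 1` take the first `j` with `N ≤ N_j` and
`M = (id + (1/N) ∑_{k<N} Disp α F_j k) ∘ h κ_j`, a diffeomorphism (`inv_near`); both `M` and its
inverse are `Mb r κ_j C`, and `κ_j^(R m) ≤ C N`. -/
theorem growthA {n : ℕ} {α : Fin n → ℝ} {F F' H H' : (Fin n → ℝ) → (Fin n → ℝ)}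
    (hd : DatA α F F' H H') (L : ℝ) (hL : 1 ≤ L) (hb : BiL L H) (hf : Flat H) (R m : ℕ) :
    ∃ (D : ℝ) (δ : ℕ → ℝ), Filter.Tendsto δ Filter.atTop (nhds 0) ∧ ∀ N : ℕ, 1 ≤ N →
      ∃ M M' : (Fin n → ℝ) → (Fin n → ℝ), Smo M ∧ Smo M' ∧ PerD M ∧ PerD M' ∧
        (∀ x, M' (M x) = x) ∧ (∀ y, M (M' y) = y) ∧ (∀ x, ‖M x - H x‖ ≤ δ N) ∧
        (∀ x, ‖M (F x) - M x - α‖ ≤ D / N) ∧
        ∀ i, 1 ≤ i → i ≤ R → ∀ x, ‖iteratedFDeriv ℝ i M x‖ ^ m ≤ D * N ∧
          ‖iteratedFDeriv ℝ i M' x‖ ^ m ≤ D * N := by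
  set r : ℕ := 2 * (R * m) + R + 3 with hr
  have hr1 : 1 ≤ r := by omega
  obtain ⟨c, hc, hc1, hstep⟩ := stepA n r hr1
  set c₁ : ℝ := min c (1 / 2) with hc₁
  have hc₁0 : 0 < c₁ := lt_min hc (by norm_num)
  have hc₁c : c₁ ≤ c := min_le_left _ _
  have hc₁h : c₁ ≤ 1 / 2 := min_le_right _ _
  obtain ⟨ε₀, hε₀, hreb⟩ := rebase n r hr1 c₁ hc₁0
  set ε : ℝ := min ε₀ c₁ with hεd
  have hε : 0 < ε := lt_min hε₀ hc₁0
  have hε0 : ε ≤ ε₀ := min_le_left _ _
  have hεc : ε ≤ c₁ := min_le_right _ _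
  obtain ⟨c', hc', hc'1, hst⟩ := hstep ε hε
  obtain ⟨Λ, η, g, hΛ, hη, hg, e1, e2, e3, e4⟩ := AIter_num c c' hc hc1 hc' hc'1 r (by omega)
  obtain ⟨C, hC, hfam⟩ := family hd L hL hb hf r hr1
  obtain ⟨κ₀, hκ₀, h, h', hh⟩ := hfam ε Λ η hε hΛ.le hη
  have hκ₀0 : 0 < κ₀ := by linarith
  set κ : ℕ → ℝ := fun j => Λ ^ j * κ₀ with hκ
  have hκ1 : ∀ j, κ₀ ≤ κ j := fun j => le_mul_of_one_le_left hκ₀0.le (one_le_pow₀ hΛ.le)
  have hκ0 : ∀ j, 0 < κ j := fun j => hκ₀0.trans_le (hκ1 j)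
  have hκs : ∀ j, κ (j + 1) = Λ * κ j := fun j => by
    change Λ ^ (j + 1) * κ₀ = Λ * (Λ ^ j * κ₀)
    ring
  set G : ℕ → (Fin n → ℝ) → (Fin n → ℝ) := fun j y => h (κ j) (F (h' (κ j) y)) with hG
  have hw : ∀ j k y, ‖Disp α (G j) k y‖ ≤ 2 * η / κ j := by
    intro j k y
    obtain ⟨_, _, _, _, h5, h6, h7, _⟩ := hh (κ j) (hκ1 j)
    have h8 := AIter_disp hd h5 h6 h7 k y
    have e : 2 * (η / κ j) = 2 * η / κ j := by ring
    rwa [e] at h8
  have key : ∀ j k, k ≤ g ^ j → Mb r (κ j) c₁ (Disp α (G j) k) := by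
    intro j
    induction j with
    | zero =>
      intro k hk
      rw [pow_zero] at hk
      interval_cases k
      · exact AIter_zero (hκ0 0).le hc₁0.le _ _
      · have h10 := (hh (κ 0) (hκ1 0)).2.2.2.2.2.2.2.2.2
        have e : Disp α (G 0) 1 = fun y => h (κ 0) (F (h' (κ 0) y)) - y - α := by
          funext y
          unfold Disp
          rw [Function.iterate_one, Nat.cast_one, one_smul]
        rw [e]
        exact h10.mono_A (hκ0 0).le hεc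
    | succ j ih =>
      intro k hk
      obtain ⟨p1, p2, p3, p4, p5, p6, p7, p8, p9, p10⟩ := hh (κ j) (hκ1 j)
      obtain ⟨s1, s2, s3, s4, s5, s6, s7, s8, s9, s10⟩ := hh (κ (j + 1)) (hκ1 (j + 1))
      have hκj := hκ0 j
      have hsm : Smo (G j) := p1.1.comp (hd.smF.comp p2.1)
      have hX : Mb r (κ (j + 1)) ε (Disp α (G j) k) := by
        rw [hκs]
        refine hst α (κ j) (2 * η / κ j) Λ (g ^ j) (G j) hκj (by positivity) hΛ.le
          (Nat.one_le_pow _ _ (by omega)) hsm (hw j)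
          (fun k hk => (ih k hk).mono_A hκj.le hc₁c) ?_ ?_ k ?_
        · rw [div_mul_cancel₀ _ hκj.ne']
          exact e1.le
        · rw [div_mul_cancel₀ _ hκj.ne']
          exact e2
        · rw [div_mul_cancel₀ _ hκj.ne']
          have hk' : (k : ℝ) ≤ (g : ℝ) ^ (j + 1) := by exact_mod_cast hk
          calc (k : ℝ) * (2 * η * Λ) ≤ (g : ℝ) ^ (j + 1) * (2 * η * Λ) :=
                mul_le_mul_of_nonneg_right hk' (by positivity)
            _ = (g : ℝ) ^ j * (g * (2 * η * Λ)) := by ring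
            _ ≤ (g : ℝ) ^ j * c' := mul_le_mul_of_nonneg_left e3 (by positivity)
            _ = c' * ((g ^ j : ℕ) : ℝ) := by
              push_cast
              ring
      rw [← hκs] at p8 p9
      have h12 := hreb (κ (j + 1)) ((k : ℝ) • α) (Disp α (G j) k)
        (fun y => h (κ (j + 1)) (h' (κ j) y) - y) (fun y => h (κ j) (h' (κ (j + 1)) y) - y)
        (hκ0 _) (hX.mono_A (hκ0 _).le hε0) (p8.mono_A (hκ0 _).le hε0)
        (p9.mono_A (hκ0 _).le hε0)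
      have e : Disp α (G (j + 1)) k = fun y => (h (κ j) (h' (κ (j + 1)) y) - y) +
          Disp α (G j) k (y + (h (κ j) (h' (κ (j + 1)) y) - y)) +
          (h (κ (j + 1)) (h' (κ j) ((y + (h (κ j) (h' (κ (j + 1)) y) - y)) + (k : ℝ) • α +
            Disp α (G j) k (y + (h (κ j) (h' (κ (j + 1)) y) - y)))) -
            ((y + (h (κ j) (h' (κ (j + 1)) y) - y)) + (k : ℝ) • α +
            Disp α (G j) k (y + (h (κ j) (h' (κ (j + 1)) y) - y)))) := by
        funext y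
        have z1 : y + (h (κ j) (h' (κ (j + 1)) y) - y) = h (κ j) (h' (κ (j + 1)) y) := by abel
        have z2 : (G j)^[k] (h (κ j) (h' (κ (j + 1)) y)) =
            h (κ j) (F^[k] (h' (κ (j + 1)) y)) := by
          have := AIter_conj (h (κ j)) (h' (κ j)) F p5 p6 k (h (κ j) (h' (κ (j + 1)) y))
          rw [p5] at this
          exact this
        have z3 : (G (j + 1))^[k] y = h (κ (j + 1)) (F^[k] (h' (κ (j + 1)) y)) :=
          AIter_conj (h (κ (j + 1))) (h' (κ (j + 1))) F s5 s6 k y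
        rw [z1]
        unfold Disp
        rw [z2, z3]
        have z4 : h (κ j) (h' (κ (j + 1)) y) + (k : ℝ) • α +
            (h (κ j) (F^[k] (h' (κ (j + 1)) y)) - h (κ j) (h' (κ (j + 1)) y) - (k : ℝ) • α) =
            h (κ j) (F^[k] (h' (κ (j + 1)) y)) := by abel
        rw [z4, p5]
        abel
      rw [e]
      exact h12
  obtain ⟨C₁, hC₁, hinv⟩ := inv_near n r hr1
  obtain ⟨C₂, hC₂, hco⟩ := mb_comp n r (Fin n → ℝ) C hC
  have hA₂ : 1 ≤ 1 + C₁ * c₁ := by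
    have : 0 ≤ C₁ * c₁ := by positivity
    linarith
  obtain ⟨C₃, hC₃, hco'⟩ := mb_comp n r (Fin n → ℝ) (1 + C₁ * c₁) hA₂
  set B : ℝ := max (C₂ * (1 + c₁)) (C₃ * C) with hB
  have hB0 : 0 ≤ B := le_trans (by positivity) (le_max_left _ _)
  have hD0 : 0 ≤ B ^ m * (κ₀ ^ r * g) := by positivity
  refine ⟨2 * η + B ^ m * (κ₀ ^ r * g), fun N => 3 * η / κ (Nat.clog g N), ?_, fun N hN => ?_⟩
  · refine Filter.Tendsto.div_atTop tendsto_const_nhds ?_
    exact ((tendsto_pow_atTop_atTop_of_one_lt hΛ).atTop_mul_const hκ₀0).comp (AIter_clog hg)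
  set j := Nat.clog g N with hj
  have hNj : N ≤ g ^ j := Nat.le_pow_clog (by omega) N
  have hjN : g ^ j ≤ g * N := AIter_clog_le hg hN
  have hN0 : (0 : ℝ) < N := by exact_mod_cast hN
  obtain ⟨p1, p2, p3, p4, p5, p6, p7, p8, p9, p10⟩ := hh (κ j) (hκ1 j)
  have hκj := hκ0 j
  have hκj1 : 1 ≤ κ j := hκ₀.trans (hκ1 j)
  have hGp : PerD (G j) := AIter_per_comp p3 (AIter_per_comp hd.perF p4)
  have ha : Mb r (κ j) c₁ (AIter_avg α (G j) N) :=
    Mb.avg hκj.le N hN fun k hk => key j k (by omega)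
  obtain ⟨a', ha', hl, hr', _⟩ := hinv (κ j) c₁ hκj hc₁0.le hc₁h _ ha
  have hM : Mb r (κ j) (C₂ * (1 + c₁))
      (fun x => h (κ j) x + AIter_avg α (G j) N (h (κ j) x)) :=
    hco (κ j) (1 + c₁) hκj (by positivity) (fun y => y + AIter_avg α (G j) N y) (h (κ j)) p1
      ((Mb.id hκj.le).add ha)
  have hM' : Mb r (κ j) (C₃ * C) (fun y => h' (κ j) (y + a' y)) :=
    hco' (κ j) C hκj (by positivity) (h' (κ j)) (fun y => y + a' y)
      ((Mb.id hκj.le).add ha') p2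
  have hMp : PerD (fun x => h (κ j) x + AIter_avg α (G j) N (h (κ j) x)) := by
    intro x k
    change h (κ j) (x + _) + AIter_avg α (G j) N (h (κ j) (x + _)) = _
    rw [p3, AIter_avg_per hGp]
    exact add_right_comm _ _ _
  have hMl : ∀ x, h' (κ j) ((h (κ j) x + AIter_avg α (G j) N (h (κ j) x)) +
      a' (h (κ j) x + AIter_avg α (G j) N (h (κ j) x))) = x := by
    intro x
    rw [hl, p5]
  have hMr : ∀ y, h (κ j) (h' (κ j) (y + a' y)) +
      AIter_avg α (G j) N (h (κ j) (h' (κ j) (y + a' y))) = y := by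
    intro y
    rw [p6]
    exact hr' y
  have hpow : κ j ^ (R * m) ≤ κ₀ ^ r * (g : ℝ) ^ j := by
    have h1 : (κ j ^ (R * m)) ^ 2 ≤ (κ₀ ^ r * (g : ℝ) ^ j) ^ 2 := by
      calc (κ j ^ (R * m)) ^ 2 = κ j ^ (2 * (R * m)) := by
            rw [← pow_mul]
            ring_nf
        _ ≤ κ j ^ r := pow_le_pow_right₀ hκj1 (by omega)
        _ = (Λ ^ r) ^ j * κ₀ ^ r := by
          change (Λ ^ j * κ₀) ^ r = _
          rw [mul_pow, ← pow_mul, ← pow_mul, mul_comm j r]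
        _ ≤ ((g : ℝ) ^ 2) ^ j * κ₀ ^ r := by gcongr
        _ = κ₀ ^ r * 1 * ((g : ℝ) ^ j) ^ 2 := by
          rw [← pow_mul, ← pow_mul, mul_comm 2 j]
          ring
        _ ≤ κ₀ ^ r * κ₀ ^ r * ((g : ℝ) ^ j) ^ 2 := by
          gcongr
          exact one_le_pow₀ hκ₀
        _ = (κ₀ ^ r * (g : ℝ) ^ j) ^ 2 := by ring
    exact le_of_sq_le_sq h1 (by positivity)
  have hfin : ∀ (A : ℝ) (i : ℕ), A ≤ B → 1 ≤ i → i ≤ R → ∀ t : ℝ, 0 ≤ t →
      t ≤ A * κ j ^ (i - 1) → t ^ m ≤ (2 * η + B ^ m * (κ₀ ^ r * g)) * N := by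
    intro A i hA hi hiR t ht0 ht
    calc t ^ m ≤ (B * κ j ^ (i - 1)) ^ m :=
          pow_le_pow_left₀ ht0 (ht.trans (mul_le_mul_of_nonneg_right hA (by positivity))) m
      _ = B ^ m * κ j ^ ((i - 1) * m) := by rw [mul_pow, ← pow_mul]
      _ ≤ B ^ m * κ j ^ (R * m) := by
        refine mul_le_mul_of_nonneg_left (pow_le_pow_right₀ hκj1 ?_) (by positivity)
        exact Nat.mul_le_mul_right _ (by omega)
      _ ≤ B ^ m * (κ₀ ^ r * (g : ℝ) ^ j) := mul_le_mul_of_nonneg_left hpow (by positivity)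
      _ ≤ B ^ m * (κ₀ ^ r * (g * N)) := by
        have h5 : (g : ℝ) ^ j ≤ g * N := by exact_mod_cast hjN
        gcongr
      _ ≤ (2 * η + B ^ m * (κ₀ ^ r * g)) * N := by nlinarith [mul_pos hη hN0]
  refine ⟨fun x => h (κ j) x + AIter_avg α (G j) N (h (κ j) x), fun y => h' (κ j) (y + a' y),
    hM.1, hM'.1, hMp, ?_, hMl, hMr, ?_, ?_, ?_⟩
  · intro y k
    have h1 := hMp (h' (κ j) (y + a' y)) k
    have h2 := hMl (h' (κ j) (y + a' y) + fun i => (k i : ℝ))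
    have h3 : h (κ j) (h' (κ j) (y + a' y) + fun i => (k i : ℝ)) +
        AIter_avg α (G j) N (h (κ j) (h' (κ j) (y + a' y) + fun i => (k i : ℝ))) =
        y + fun i => (k i : ℝ) := by
      refine h1.trans ?_
      change h (κ j) (h' (κ j) (y + a' y)) +
        AIter_avg α (G j) N (h (κ j) (h' (κ j) (y + a' y))) + _ = _
      rw [hMr]
    rw [h3] at h2
    exact h2
  · intro x
    have h1 : h (κ j) x + AIter_avg α (G j) N (h (κ j) x) - H x =
        AIter_avg α (G j) N (h (κ j) x) + (h (κ j) x - H x) := by abel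
    change ‖h (κ j) x + AIter_avg α (G j) N (h (κ j) x) - H x‖ ≤ _
    rw [h1]
    calc _ ≤ ‖AIter_avg α (G j) N (h (κ j) x)‖ + ‖h (κ j) x - H x‖ := norm_add_le _ _
      _ ≤ 2 * η / κ j + η / κ j := add_le_add (AIter_avg_norm hN (hw j) _) (p7 x)
      _ = 3 * η / κ j := by ring
  · intro x
    have h1 : G j (h (κ j) x) = h (κ j) (F x) := by
      change h (κ j) (F (h' (κ j) (h (κ j) x))) = _
      rw [p5]
    have h2 := AIter_avg_tel (α := α) (G j) hN (h (κ j) x)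
    rw [h1] at h2
    change ‖h (κ j) (F x) + AIter_avg α (G j) N (h (κ j) (F x)) -
      (h (κ j) x + AIter_avg α (G j) N (h (κ j) x)) - α‖ ≤ _
    rw [h2, norm_smul, Real.norm_of_nonneg (by positivity), one_div, ← div_eq_inv_mul]
    refine div_le_div_of_nonneg_right ?_ hN0.le
    calc _ ≤ 2 * η / κ j := hw j N _
      _ ≤ 2 * η := div_le_self (by positivity) hκj1
      _ ≤ _ := by linarith
  · intro i hi hiR x
    exact ⟨hfin _ i (le_max_left _ _) hi hiR _ (norm_nonneg _) (hM.2 i hi (by omega) x),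
      hfin _ i (le_max_right _ _) hi hiR _ (norm_nonneg _) (hM'.2 i hi (by omega) x)⟩

end QPR
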