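import Pool.Agent.Lib.QPA.ALim
import Pool.Agent.Lib.QPA.AInvH
import Pool.Agent.Lib.QPA.AIter

set_option autoImplicit false

namespace QPR

/-- part II: flat bi-Lipschitz linearisations are smooth. -/
theorem smooth_of_flat {n : ℕ} {α : Fin n → ℝ} {F F' H H' : (Fin n → ℝ) → (Fin n → ℝ)}
    (hd : DatA α F F' H H') (hα : DioV α) {L : ℝ} (hL : 1 ≤ L) (hb : BiL L H) (hf : Flat H) :
    Smo H ∧ Smo H' := by
  have hH : Smo H := by
    refine smooth_limit (F := F) hα fun R m => ?_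
    obtain ⟨D, δ, hδ, h⟩ := growthA hd L hL hb hf R m
    refine ⟨D, δ, hδ, fun N hN => ?_⟩
    obtain ⟨M, M', h1, h2, h3, h4, h5, h6, h7, h8, h9⟩ := h N hN
    exact ⟨M, M', ⟨h1, h2, h3, h4, h5, h6, h8, fun i hi hi' x => (h9 i hi hi' x).1,
      fun i hi hi' x => (h9 i hi hi' x).2⟩, h7⟩
  exact ⟨hH, inv_smo hH hL hb hd.leftH hd.rightH⟩

end QPR
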