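import Pool.Agent.Lib.QPA.ADiff
import Pool.Agent.Lib.QPA.AInt
import Pool.Agent.Lib.QPR.Approx

set_option autoImplicit false

namespace QPR

/-- lifts of torus maps have bounded derivatives. -/
private theorem AFam_F {n : ℕ} (F : (Fin n → ℝ) → (Fin n → ℝ)) (hF : Smo F) (hp : PerD F)
    (r : ℕ) : ∃ C : ℝ, 1 ≤ C ∧ ∀ κ : ℝ, 1 ≤ κ → Mb r κ C F := by
  have hsm : Smo (fun x => F x - x) := hF.sub contDiff_id
  have hper : Per (fun x => F x - x) := by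
    intro x k
    change F (x + fun i => (k i : ℝ)) - (x + fun i => (k i : ℝ)) = F x - x
    rw [hp x k]
    abel
  obtain ⟨M, hM⟩ := per_bdd _ hsm hper r
  refine ⟨|M| + 1, by linarith [abs_nonneg M], fun κ hκ => ?_⟩
  have h1 : Mb r κ |M| (fun x => F x - x) := by
    refine ⟨hsm, fun i _ hir x => (hM i hir x).trans ((le_abs_self M).trans ?_)⟩
    exact le_mul_of_one_le_right (abs_nonneg M) (one_le_pow₀ hκ)
  have h2 := h1.add (Mb.id (n := n) (r := r) (K := κ) (by linarith))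
  have h3 : (fun x => F x - x + x) = F := by
    funext x
    abel
  rwa [h3] at h2

/-- compositions which are close to the identity (up to a constant). -/
private theorem AFam_comp (n r : ℕ) (A B ε : ℝ) (hA : 1 ≤ A) (hB : 0 ≤ B) (hε : 0 < ε) :
    ∃ η : ℝ, 0 < η ∧ ∀ (K : ℝ), 0 < K → ∀ (Y Φ : (Fin n → ℝ) → (Fin n → ℝ)) (a : Fin n → ℝ),
      Mb (r + 1) K A Φ → Mb (r + 1) K B Y → (∀ y, ‖Y (Φ y) - y - a‖ ≤ η / K) →
      Mb r K ε (fun y => Y (Φ y) - y - a) := by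
  obtain ⟨C, hC, hcomp⟩ := mb_comp n (r + 1) (Fin n → ℝ) A hA
  have hCB : 0 ≤ C * B + 1 := by positivity
  obtain ⟨η, hη, hint⟩ := mb_int_top n r (Fin n → ℝ) (C * B + 1) ε hCB hε
  refine ⟨η, hη, fun K hK Y Φ a hΦ hY hs => ?_⟩
  have h1 := hcomp K B hK hB Y Φ hΦ hY
  have h2 := (h1.add (Mb.id (n := n) (r := r + 1) (K := K) hK.le).neg).add_const (-a)
  have h3 : (fun y => Y (Φ y) + -y + -a) = fun y => Y (Φ y) - y - a := by
    funext y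
    abel
  rw [h3] at h2
  exact hint _ K hK h2 hs

/-- The family of bases. Use `mol_diffeo` with order `r + 1`. The maps
`h (Λκ) ∘ h' κ`, `h κ ∘ h' (Λκ)`, `h κ ∘ F ∘ h' κ` satisfy `Mb (r+1) (Λκ) C'`
(resp. `Mb (r+1) κ C'`) with `C'` independent of `κ` (`mb_comp`; `F` is `Mb (r+1) κ C_F` for `κ ≥ 1`),
and after subtraction of the identity (and of `α`) they are bounded by `C'' η'/κ`
(`H ∘ H' = id`, `H (F x) = H x + α`, `‖h κ - H‖ ≤ η'/κ`), so `mb_int_top` applies if `η'` is small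
enough. -/
theorem family {n : ℕ} {α : Fin n → ℝ} {F F' H H' : (Fin n → ℝ) → (Fin n → ℝ)}
    (hd : DatA α F F' H H') (L : ℝ) (hL : 1 ≤ L) (hb : BiL L H) (hf : Flat H)
    (r : ℕ) (hr : 1 ≤ r) :
    ∃ C : ℝ, 1 ≤ C ∧ ∀ (ε Λ η : ℝ), 0 < ε → 1 ≤ Λ → 0 < η →
      ∃ κ₀ : ℝ, 1 ≤ κ₀ ∧ ∃ h h' : ℝ → (Fin n → ℝ) → (Fin n → ℝ), ∀ κ : ℝ, κ₀ ≤ κ →
        Mb r κ C (h κ) ∧ Mb r κ C (h' κ) ∧ PerD (h κ) ∧ PerD (h' κ) ∧
        (∀ x, h' κ (h κ x) = x) ∧ (∀ y, h κ (h' κ y) = y) ∧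
        (∀ x, ‖h κ x - H x‖ ≤ η / κ) ∧
        Mb r (Λ * κ) ε (fun y => h (Λ * κ) (h' κ y) - y) ∧
        Mb r (Λ * κ) ε (fun y => h κ (h' (Λ * κ) y) - y) ∧
        Mb r κ ε (fun y => h κ (F (h' κ y)) - y - α) := by
  classical
  obtain ⟨C₁, hC₁, hmol⟩ := mol_diffeo (r + 1) H hd.perH L hL hb hf
  obtain ⟨CF, hCF, hF⟩ := AFam_F F hd.smF hd.perF (r + 1)
  obtain ⟨C₂, hC₂, hcomp⟩ := mb_comp n (r + 1) (Fin n → ℝ) C₁ hC₁
  have hC₁0 : 0 ≤ C₁ := by linarith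
  have hCC : 1 ≤ C₂ * CF := by nlinarith
  refine ⟨C₁, hC₁, ?_⟩
  intro ε Λ η hε hΛ hη
  have hΛ0 : 0 < Λ := by linarith
  obtain ⟨ηa, hηa, ha⟩ := AFam_comp n r C₁ C₁ ε hC₁ hC₁0 hε
  obtain ⟨ηb, hηb, hbb⟩ := AFam_comp n r (C₂ * CF) C₁ ε hCC hC₁0 hε
  obtain ⟨η', hη'⟩ : ∃ t : ℝ, t = min η (min (ηa / (2 * Λ)) (ηb / 2)) := ⟨_, rfl⟩
  have hη'0 : 0 < η' := by
    rw [hη']
    exact lt_min hη (lt_min (by positivity) (by positivity))
  have hη'1 : η' ≤ η := by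
    rw [hη']
    exact min_le_left _ _
  have hη'2 : 2 * Λ * η' ≤ ηa := by
    have h1 : η' ≤ ηa / (2 * Λ) := by
      rw [hη']
      exact (min_le_right _ _).trans (min_le_left _ _)
    rw [le_div_iff₀ (by positivity)] at h1
    linarith
  have hη'3 : 2 * η' ≤ ηb := by
    have h1 : η' ≤ ηb / 2 := by
      rw [hη']
      exact (min_le_right _ _).trans (min_le_right _ _)
    linarith
  obtain ⟨κ₀, hκ₀, hk⟩ := hmol η' hη'0
  have hex : ∀ κ : ℝ, ∃ h' : (Fin n → ℝ) → (Fin n → ℝ), κ₀ ≤ κ →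
      Mb (r + 1) κ C₁ h' ∧ PerD h' ∧ (∀ x, h' (mol κ H x) = x) ∧
        (∀ y, mol κ H (h' y) = y) := by
    intro κ
    by_cases h : κ₀ ≤ κ
    · obtain ⟨_, _, _, h', hh⟩ := hk κ h
      exact ⟨h', fun _ => hh⟩
    · exact ⟨fun x => x, fun h1 => absurd h1 h⟩
  choose h' hh' using hex
  refine ⟨κ₀, hκ₀, fun κ => mol κ H, h', ?_⟩
  intro κ hκ
  have hκ1 : 1 ≤ κ := hκ₀.trans hκ
  have hκ0 : 0 < κ := by linarith
  have hκΛ : κ ≤ Λ * κ := le_mul_of_one_le_left hκ0.le hΛ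
  have hΛκ : κ₀ ≤ Λ * κ := hκ.trans hκΛ
  have hΛκ0 : 0 < Λ * κ := by positivity
  obtain ⟨m1, p1, c1, -⟩ := hk κ hκ
  obtain ⟨m2, p2, c2, -⟩ := hk (Λ * κ) hΛκ
  obtain ⟨m1', p1', l1, r1⟩ := hh' κ hκ
  obtain ⟨m2', p2', l2, r2⟩ := hh' (Λ * κ) hΛκ
  have hr1 : r ≤ r + 1 := Nat.le_succ r
  -- closeness of the two scales
  have hc : ∀ z, ‖mol (Λ * κ) H z - mol κ H z‖ ≤ ηa / (Λ * κ) := by
    intro z
    have e1 : mol (Λ * κ) H z - mol κ H z = (mol (Λ * κ) H z - H z) - (mol κ H z - H z) := by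
      abel
    rw [e1]
    refine (norm_sub_le _ _).trans ?_
    have e2 : η' / (Λ * κ) ≤ η' / κ := by
      exact div_le_div_of_nonneg_left hη'0.le hκ0 hκΛ
    have e3 : η' / κ + η' / κ = (2 * Λ * η') / (Λ * κ) := by
      field_simp
      ring
    have e4 : (2 * Λ * η') / (Λ * κ) ≤ ηa / (Λ * κ) :=
      div_le_div_of_nonneg_right hη'2 hΛκ0.le
    have e5 := c2 z
    have e6 := c1 z
    linarith
  refine ⟨m1.mono_r hr1, m1'.mono_r hr1, p1, p1', l1, r1, ?_, ?_, ?_, ?_⟩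
  · intro x
    exact (c1 x).trans (div_le_div_of_nonneg_right hη'1 hκ0.le)
  · have h1 := ha (Λ * κ) hΛκ0 (mol (Λ * κ) H) (h' κ) 0 (m1'.mono_K hκ0.le hC₁0 hκΛ) m2 (by
      intro y
      have h2 := hc (h' κ y)
      rw [r1 y] at h2
      rwa [sub_zero])
    simpa using h1
  · have h1 := ha (Λ * κ) hΛκ0 (mol κ H) (h' (Λ * κ)) 0 m2' (m1.mono_K hκ0.le hC₁0 hκΛ) (by
      intro y
      have h2 := hc (h' (Λ * κ) y)
      rw [r2 y, norm_sub_rev] at h2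
      rwa [sub_zero])
    simpa using h1
  · refine hbb κ hκ0 (mol κ H) (fun y => F (h' κ y)) α (hcomp κ CF hκ0 (by linarith) F (h' κ) m1'
      (hF κ hκ1)) m1 ?_
    intro y
    have e1 : mol κ H (F (h' κ y)) - y - α =
        (mol κ H (F (h' κ y)) - H (F (h' κ y))) - (mol κ H (h' κ y) - H (h' κ y)) := by
      rw [hd.conj, r1 y]
      abel
    rw [e1]
    refine (norm_sub_le _ _).trans ?_
    have e2 := c1 (F (h' κ y))
    have e3 := c1 (h' κ y)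
    have e4 : η' / κ + η' / κ = (2 * η') / κ := by ring
    have e5 : (2 * η') / κ ≤ ηb / κ := div_le_div_of_nonneg_right hη'3 hκ0.le
    linarith

end QPR
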