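import Pool.Agent.Lib.QPA.ADef
import Pool.Agent.Lib.QPR.TDef

set_option autoImplicit false

namespace QPR

/-- one member of the family of `growthA`: `M` conjugates `F` to a map which is `D / N`-close to the
translation by `α`, and the derivatives of `M` and `M⁻¹` of order `1 ≤ i ≤ R` are at most
`(D N) ^ (1 / m)`. -/
structure GoodM {n : ℕ} (α : Fin n → ℝ) (F : (Fin n → ℝ) → (Fin n → ℝ)) (R m : ℕ) (D : ℝ) (N : ℕ)
    (M M' : (Fin n → ℝ) → (Fin n → ℝ)) : Prop where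
  sm : Smo M
  sm' : Smo M'
  per : PerD M
  per' : PerD M'
  left : ∀ x, M' (M x) = x
  right : ∀ y, M (M' y) = y
  near : ∀ x, ‖M (F x) - M x - α‖ ≤ D / N
  slow : ∀ i, 1 ≤ i → i ≤ R → ∀ x, ‖iteratedFDeriv ℝ i M x‖ ^ m ≤ D * N
  slow' : ∀ i, 1 ≤ i → i ≤ R → ∀ x, ‖iteratedFDeriv ℝ i M' x‖ ^ m ≤ D * N

end QPR
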