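import Pool.Agent.Lib.QPA.AInv

set_option autoImplicit false

namespace QPR

open scoped NNReal

private theorem aInvN_fderiv {n r : ℕ} (hr : 1 ≤ r) {K c : ℝ} {m : (Fin n → ℝ) → (Fin n → ℝ)}
    (hm : Mb r K c m) (x : Fin n → ℝ) : ‖fderiv ℝ m x‖ ≤ c := by
  have h := hm.2 1 le_rfl hr x
  rw [norm_iteratedFDeriv_one] at h
  simpa using h

private theorem aInvN_diff {n r : ℕ} {K c : ℝ} {m : (Fin n → ℝ) → (Fin n → ℝ)}
    (hm : Mb r K c m) : Differentiable ℝ m :=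
  hm.1.differentiable (by simp)

private theorem aInvN_lip {n r : ℕ} (hr : 1 ≤ r) {K c : ℝ} (hc : 0 ≤ c)
    {m : (Fin n → ℝ) → (Fin n → ℝ)} (hm : Mb r K c m) (x y : Fin n → ℝ) :
    ‖m x - m y‖ ≤ c * ‖x - y‖ := by
  have h : LipschitzWith (⟨c, hc⟩ : ℝ≥0) m :=
    lipschitzWith_of_nnnorm_fderiv_le (𝕜 := ℝ) (aInvN_diff hm)
      (fun x => by
        have := aInvN_fderiv hr hm x
        exact_mod_cast this)
  have h2 := h.dist_le_mul x y
  rw [dist_eq_norm, dist_eq_norm] at h2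
  exact h2

private theorem aInvN_homeo {n r : ℕ} (hr : 1 ≤ r) {K c : ℝ} (hc : 0 ≤ c) (hc2 : c ≤ 1 / 2)
    {m : (Fin n → ℝ) → (Fin n → ℝ)} (hm : Mb r K c m) :
    ∃ Ψ : (Fin n → ℝ) → (Fin n → ℝ), Smo Ψ ∧ (∀ x, Ψ (x + m x) = x) ∧
      (∀ y, Ψ y + m (Ψ y) = y) := by
  have hA : ApproximatesLinearOn (fun x => x + m x)
      ((ContinuousLinearEquiv.refl ℝ (Fin n → ℝ) : (Fin n → ℝ) ≃L[ℝ] (Fin n → ℝ)) :
        (Fin n → ℝ) →L[ℝ] (Fin n → ℝ)) Set.univ (⟨c, hc⟩ : ℝ≥0) := by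
    intro x _ y _
    have e : (x + m x) - (y + m y) -
        ((ContinuousLinearEquiv.refl ℝ (Fin n → ℝ) : (Fin n → ℝ) ≃L[ℝ] (Fin n → ℝ)) :
        (Fin n → ℝ) →L[ℝ] (Fin n → ℝ)) (x - y) = m x - m y := by
      simp
      abel
    rw [e]
    exact aInvN_lip hr hc hm x y
  have hc' : Subsingleton (Fin n → ℝ) ∨ (⟨c, hc⟩ : ℝ≥0) <
      ‖((ContinuousLinearEquiv.refl ℝ (Fin n → ℝ)).symm :
        (Fin n → ℝ) →L[ℝ] (Fin n → ℝ))‖₊⁻¹ := by
    rcases subsingleton_or_nontrivial (Fin n → ℝ) with h | h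
    · exact Or.inl h
    · right
      have e : ((ContinuousLinearEquiv.refl ℝ (Fin n → ℝ)).symm :
        (Fin n → ℝ) →L[ℝ] (Fin n → ℝ)) = ContinuousLinearMap.id ℝ (Fin n → ℝ) := rfl
      rw [e, ContinuousLinearMap.nnnorm_id, inv_one]
      have h1 : c < 1 := by linarith
      exact h1
  let Φ := hA.toHomeomorph (fun x => x + m x) hc'
  have hΦ : ∀ x, Φ x = x + m x := fun x => rfl
  have hlt : ∀ a, ‖-(fderiv ℝ m a)‖ < 1 := by
    intro a
    rw [norm_neg]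
    have := aInvN_fderiv hr hm a
    linarith
  have hs : Smo (Φ.symm : (Fin n → ℝ) → (Fin n → ℝ)) := by
    refine Φ.contDiff_symm
      (f₀' := fun a => ContinuousLinearEquiv.unitsEquiv ℝ (Fin n → ℝ)
        (Units.oneSub (-(fderiv ℝ m a)) (hlt a))) ?_ ?_
    · intro a
      have h1 : HasFDerivAt (fun x => x + m x)
          (ContinuousLinearMap.id ℝ (Fin n → ℝ) + fderiv ℝ m a) a :=
        (hasFDerivAt_id a).add (aInvN_diff hm a).hasFDerivAt
      have e : ((ContinuousLinearEquiv.unitsEquiv ℝ (Fin n → ℝ)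
        (Units.oneSub (-(fderiv ℝ m a)) (hlt a)) : (Fin n → ℝ) ≃L[ℝ] (Fin n → ℝ)) :
          (Fin n → ℝ) →L[ℝ] (Fin n → ℝ)) =
          ContinuousLinearMap.id ℝ (Fin n → ℝ) + fderiv ℝ m a := by
        ext v i
        simp [Units.oneSub]
      rw [e]
      exact h1
    · exact contDiff_id.add hm.1
  refine ⟨Φ.symm, hs, fun x => ?_, fun y => ?_⟩
  · exact Φ.symm_apply_apply x
  · exact Φ.apply_symm_apply y

/-- Perturbations of the identity. If `m` has Lipschitz constant `≤ 1/2` then `id + m` is a bijection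
of `ℝ^n` (contraction principle; cf. `ApproximatesLinearOn.toHomeomorph`) with smooth inverse
`id + m'` (inverse function theorem), derivative norm of the inverse `≤ 2`; `mb_inv` gives
`Mb r K C` for the inverse, and `m' = - m ∘ (id + m')`, so `mb_comp` gives `Mb r K (C c)` for `m'`. -/
theorem inv_near (n r : ℕ) (hr : 1 ≤ r) :
    ∃ C : ℝ, 1 ≤ C ∧ ∀ (K c : ℝ), 0 < K → 0 ≤ c → c ≤ 1 / 2 →
      ∀ m : (Fin n → ℝ) → (Fin n → ℝ), Mb r K c m →
      ∃ m' : (Fin n → ℝ) → (Fin n → ℝ), Mb r K (C * c) m' ∧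
        (∀ x, (x + m x) + m' (x + m x) = x) ∧ (∀ y, (y + m' y) + m (y + m' y) = y) ∧
        (∀ y, m' y = - m (y + m' y)) := by
  obtain ⟨C1, hC1, h1⟩ := mb_inv n r 2 (by norm_num)
  obtain ⟨C2, hC2, h2⟩ := mb_comp n r (Fin n → ℝ) C1 hC1
  refine ⟨C2, hC2, ?_⟩
  intro K c hK hc hc2 m hm
  obtain ⟨Ψ, hΨ, hl, hr'⟩ := aInvN_homeo hr hc hc2 hm
  have hΦ : Mb r K 2 (fun x => x + m x) :=
    ((Mb.id (n := n) (r := r) hK.le).add hm).mono_A hK.le (by linarith)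
  have hfd : ∀ y, ‖fderiv ℝ Ψ y‖ ≤ 2 := by
    intro y
    have hL : LipschitzWith (2 : ℝ≥0) Ψ := by
      refine LipschitzWith.of_dist_le_mul ?_
      intro y z
      rw [dist_eq_norm, dist_eq_norm]
      have e : Ψ y - Ψ z = (y - z) - (m (Ψ y) - m (Ψ z)) := by
        have a := hr' y
        have b := hr' z
        have a' : Ψ y = y - m (Ψ y) := eq_sub_of_add_eq a
        have b' : Ψ z = z - m (Ψ z) := eq_sub_of_add_eq b
        calc Ψ y - Ψ z = (y - m (Ψ y)) - (z - m (Ψ z)) := by rw [← a', ← b']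
          _ = _ := by abel
      have h3 : ‖Ψ y - Ψ z‖ ≤ ‖y - z‖ + ‖m (Ψ y) - m (Ψ z)‖ := by
        conv_lhs => rw [e]
        exact norm_sub_le _ _
      have h4 := aInvN_lip hr hc hm (Ψ y) (Ψ z)
      have h5 : c * ‖Ψ y - Ψ z‖ ≤ 1 / 2 * ‖Ψ y - Ψ z‖ :=
        mul_le_mul_of_nonneg_right hc2 (norm_nonneg _)
      have h6 : ((2 : ℝ≥0) : ℝ) = 2 := by norm_num
      rw [h6]
      linarith
    have h7 := norm_fderiv_le_of_lipschitz ℝ hL (x₀ := y)
    simpa using h7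
  have hMb : Mb r K C1 Ψ := h1 K hK (fun x => x + m x) Ψ hΦ hΨ hl hr' hfd
  have hcomp := (h2 K c hK hc m Ψ hMb hm).neg
  have key : ∀ y, -m (Ψ y) = Ψ y - y := by
    intro y
    have a := hr' y
    have a' : Ψ y = y - m (Ψ y) := eq_sub_of_add_eq a
    calc -m (Ψ y) = (y - m (Ψ y)) - y := by abel
      _ = Ψ y - y := by rw [← a']
  have key2 : ∀ y, y + -m (Ψ y) = Ψ y := by
    intro y
    rw [key]
    abel
  refine ⟨fun y => - m (Ψ y), hcomp, ?_, ?_, ?_⟩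
  · intro x
    show (x + m x) + -m (Ψ (x + m x)) = x
    rw [key2, hl]
  · intro y
    show (y + -m (Ψ y)) + m (y + -m (Ψ y)) = y
    rw [key2, hr']
  · intro y
    show -m (Ψ y) = -m (y + -m (Ψ y))
    rw [key2]

end QPR
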