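import Pool.Agent.Lib.QPA.AQs

set_option autoImplicit false

namespace QPR

private theorem ALim_cs {n : ℕ} {α : Fin n → ℝ} {F H : (Fin n → ℝ) → (Fin n → ℝ)} (hα : DioV α)
    (hg : ∀ R m : ℕ, ∃ (D : ℝ) (δ : ℕ → ℝ), Filter.Tendsto δ Filter.atTop (nhds 0) ∧
      ∀ N : ℕ, 1 ≤ N → ∃ M M' : (Fin n → ℝ) → (Fin n → ℝ), GoodM α F R m D N M M' ∧
        ∀ x, ‖M x - H x‖ ≤ δ N) (s : ℕ) :
    ContDiff ℝ ((s : ℕ∞) : WithTop ℕ∞) H := by
  obtain ⟨R, m, hR, hm, hQ⟩ := quot_cs hα s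
  obtain ⟨D, δ, hδ, hM⟩ := hg R m
  obtain ⟨D', hD'⟩ := hQ D
  choose M M' hgood hclose using fun N : ℕ => fun hN : 1 ≤ N => hM N hN
  have hN1 : ∀ k : ℕ, 1 ≤ 2 ^ (2 ^ k) := fun k => Nat.one_le_two_pow
  set G : ℕ → (Fin n → ℝ) → (Fin n → ℝ) := fun k => M (2 ^ (2 ^ k)) (hN1 k) with hG
  have hGs : ∀ k, Smo (G k) := fun k => (hgood _ (hN1 k)).sm
  have hGc : ∀ k x, ‖G k x - H x‖ ≤ δ (2 ^ (2 ^ k)) := fun k x => hclose _ (hN1 k) x
  have hsq : ∀ k : ℕ, (2 ^ (2 ^ k)) ^ 2 = 2 ^ (2 ^ (k + 1)) := fun k => by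
    rw [← pow_mul, ← pow_succ]
  have hstep : ∀ k, ∃ c : Fin n → ℝ, ∀ i ≤ s, ∀ x,
      ‖iteratedFDeriv ℝ i (fun x => G (k + 1) x - G k x - c) x‖ ^ 2 *
        ((2 ^ (2 ^ k) : ℕ) : ℝ) ≤ D' := by
    intro k
    refine hD' F (2 ^ (2 ^ k)) (G k) (M' _ (hN1 k)) (G (k + 1)) (M' _ (hN1 (k + 1))) (hN1 k)
      (hgood _ (hN1 k)) ?_
    rw [hsq k]
    exact hgood _ (hN1 (k + 1))
  choose c hc using hstep
  set g : ℕ → (Fin n → ℝ) → (Fin n → ℝ) := fun k x => G (k + 1) x - G k x - c k with hgdef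
  have hgs : ∀ k, Smo (g k) := fun k => ((hGs (k + 1)).sub (hGs k)).sub contDiff_const
  -- the bound
  set r : ℝ := Real.sqrt (1 / 2) with hr
  have hr0 : 0 < r := Real.sqrt_pos.2 (by norm_num)
  have hr2 : r ^ 2 = 1 / 2 := Real.sq_sqrt (by norm_num)
  have hr1 : r < 1 := by nlinarith
  set v : ℕ → ℕ → ℝ := fun _ k => (max D' 0 + 1) * r ^ k with hv
  have hvsum : ∀ i, Summable (v i) := fun i =>
    (summable_geometric_of_lt_one hr0.le hr1).mul_left _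
  have hbound : ∀ (i k : ℕ) (x : Fin n → ℝ), i ≤ s → ‖iteratedFDeriv ℝ i (g k) x‖ ≤ v i k := by
    intro i k x hi
    have h2 := hc k i hi x
    have hk : (2 : ℝ) ^ k ≤ ((2 ^ (2 ^ k) : ℕ) : ℝ) := by
      push_cast
      exact pow_le_pow_right₀ (by norm_num) (Nat.lt_two_pow_self).le
    have hpos : (0 : ℝ) ≤ ‖iteratedFDeriv ℝ i (g k) x‖ ^ 2 := by positivity
    have h3 : ‖iteratedFDeriv ℝ i (g k) x‖ ^ 2 * (2 : ℝ) ^ k ≤ D' :=
      (mul_le_mul_of_nonneg_left hk hpos).trans h2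
    have hM1 : (1 : ℝ) ≤ max D' 0 + 1 := by
      have := le_max_right D' 0
      linarith
    have h4 : ‖iteratedFDeriv ℝ i (g k) x‖ ^ 2 ≤ (v i k) ^ 2 := by
      rw [hv]
      simp only
      rw [mul_pow, ← pow_mul, mul_comm k 2, pow_mul, hr2]
      have h5 : max D' 0 + 1 ≤ (max D' 0 + 1) ^ 2 := le_self_pow₀ hM1 (by norm_num)
      have h6 : ‖iteratedFDeriv ℝ i (g k) x‖ ^ 2 ≤ D' * (1 / 2) ^ k := by
        have h7 : (0 : ℝ) < (2 : ℝ) ^ k := by positivity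
        rw [one_div, inv_pow, ← div_eq_mul_inv, le_div_iff₀ h7]
        exact h3
      refine h6.trans ?_
      apply mul_le_mul_of_nonneg_right _ (by positivity)
      have := le_max_left D' 0
      linarith
    have hv0 : 0 ≤ v i k := by
      rw [hv]
      positivity
    exact le_of_pow_le_pow_left₀ (by norm_num) hv0 h4
  have htsum : ContDiff ℝ ((s : ℕ∞) : WithTop ℕ∞) (fun x => ∑' k, g k x) := by
    refine contDiff_tsum (N := (s : ℕ∞)) (v := v)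
      (fun k => (hgs k).of_le (by exact_mod_cast le_top)) (fun i _ => hvsum i) ?_
    intro i k x hi
    exact hbound i k x (by exact_mod_cast hi)
  have hb0 : ∀ k x, ‖g k x‖ ≤ v 0 k := by
    intro k x
    have := hbound 0 k x (Nat.zero_le s)
    rwa [norm_iteratedFDeriv_zero] at this
  have hsx : ∀ x, Summable (fun k => g k x) := fun x =>
    Summable.of_norm_bounded (hvsum 0) (fun k => hb0 k x)
  have htel : ∀ k x, G k x - G k 0 = G 0 x - G 0 0 + (∑ l ∈ Finset.range k, g l x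
      - ∑ l ∈ Finset.range k, g l 0) := by
    intro k x
    induction k with
    | zero => simp
    | succ k ih =>
      rw [Finset.sum_range_succ, Finset.sum_range_succ]
      have h1 : G (k + 1) x - G (k + 1) 0 = (G k x - G k 0) + (g k x - g k 0) := by
        simp only [hgdef]
        abel
      rw [h1, ih]
      abel
  have hδ' : Filter.Tendsto (fun k : ℕ => δ (2 ^ (2 ^ k))) Filter.atTop (nhds 0) := by
    have h4 : Filter.Tendsto (fun k : ℕ => 2 ^ k) Filter.atTop Filter.atTop :=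
      tendsto_pow_atTop_atTop_of_one_lt (by norm_num)
    exact hδ.comp (h4.comp h4)
  have hlim : ∀ x, Filter.Tendsto (fun k : ℕ => G k x) Filter.atTop (nhds (H x)) := by
    intro x
    rw [tendsto_iff_norm_sub_tendsto_zero]
    exact squeeze_zero (fun k => norm_nonneg _) (fun k => hGc k x) hδ'
  have hfin : H = fun x => H 0 + (G 0 x - G 0 0) + ((∑' k, g k x) - ∑' k, g k 0) := by
    funext x
    have h1 : Filter.Tendsto (fun k : ℕ => G k x - G k 0) Filter.atTop (nhds (H x - H 0)) :=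
      (hlim x).sub (hlim 0)
    have h2 : Filter.Tendsto (fun k : ℕ => G 0 x - G 0 0 + (∑ l ∈ Finset.range k, g l x
      - ∑ l ∈ Finset.range k, g l 0)) Filter.atTop
        (nhds (G 0 x - G 0 0 + ((∑' k, g k x) - ∑' k, g k 0))) :=
      tendsto_const_nhds.add ((hsx x).hasSum.tendsto_sum_nat.sub (hsx 0).hasSum.tendsto_sum_nat)
    have h3 : (fun k : ℕ => G k x - G k 0) = fun k : ℕ => G 0 x - G 0 0 +
        (∑ l ∈ Finset.range k, g l x - ∑ l ∈ Finset.range k, g l 0) := funext fun k => htel k x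
    rw [h3] at h1
    have h4 := tendsto_nhds_unique h1 h2
    rw [add_assoc, ← h4]
    abel
  rw [hfin]
  refine (contDiff_const.add (((hGs 0).of_le (by exact_mod_cast le_top)).sub contDiff_const)).add
    (htsum.sub contDiff_const)

/-- The limit. `contDiff_infty`; fix `s`, take `R m` from `quot_cs`, `D δ` from `hg`, choose
`M_N`. With `N_k = 2 ^ (2 ^ k)` (`N_{k+1} = N_k ^ 2`), `G_k = M_{N_k}`, `g_k = G_{k+1} - G_k - c_k`:
`‖D^i g_k‖ ≤ (D'/N_k)^(1/2)`, summable, `i ≤ s`; `contDiff_tsum`: `S = ∑ g_k` is `C^s`. Since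
`G_k x - G_k 0 = G_0 x - G_0 0 + ∑_{j<k} (g_j x - g_j 0)` and `G_k → H` uniformly,
`H x = H 0 + G_0 x - G_0 0 + S x - S 0`. -/
theorem smooth_limit {n : ℕ} {α : Fin n → ℝ} {F H : (Fin n → ℝ) → (Fin n → ℝ)} (hα : DioV α)
    (hg : ∀ R m : ℕ, ∃ (D : ℝ) (δ : ℕ → ℝ), Filter.Tendsto δ Filter.atTop (nhds 0) ∧
      ∀ N : ℕ, 1 ≤ N → ∃ M M' : (Fin n → ℝ) → (Fin n → ℝ), GoodM α F R m D N M M' ∧
        ∀ x, ‖M x - H x‖ ≤ δ N) :
    Smo H := by
  rw [Smo, contDiff_infty]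
  intro s
  exact_mod_cast ALim_cs hα hg s

end QPR
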