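import Pool.Agent.Lib.QPA.AConv
import Pool.Agent.Lib.QPA.AChi
import Pool.Agent.Lib.QPA.ALin

set_option autoImplicit false

namespace QPR

open MeasureTheory

private theorem amol_cont {n : ℕ} {κ : ℝ} {H : (Fin n → ℝ) → (Fin n → ℝ)} (hH : Continuous H)
    (x : Fin n → ℝ) : Integrable (fun z => chi n z • H (x - (1 / κ) • z)) := by
  obtain ⟨h1, h2, -⟩ := chi_props n
  apply Continuous.integrable_of_hasCompactSupport
  · exact h1.continuous.smul (hH.comp (by fun_prop))
  · exact h2.smul_right

/-- change of variables: `mol κ H x = G (κ • x)`. -/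
private theorem amol_eq {n : ℕ} {κ : ℝ} (hκ : 0 < κ) (H : (Fin n → ℝ) → (Fin n → ℝ)) :
    mol κ H = (fun y => ∫ w, chi n (y - w) • H ((1 / κ) • w)) ∘
      (κ • ContinuousLinearMap.id ℝ (Fin n → ℝ)) := by
  funext x
  simp only [mol, Function.comp_apply, FunLike.coe_smul, Pi.smul_apply,
    ContinuousLinearMap.coe_id', id_eq]
  rw [← integral_sub_left_eq_self (fun z => chi n z • H (x - (1 / κ) • z)) volume (κ • x)]
  congr 1
  funext w
  congr 2
  rw [smul_sub, smul_smul, one_div, inv_mul_cancel₀ hκ.ne', one_smul, sub_sub_cancel]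

private theorem amol_supp (n i : ℕ) (z : Fin n → ℝ) (hz : 1 < ‖z‖) :
    iteratedFDeriv ℝ i (chi n) z = 0 := by
  obtain ⟨h1, h2, -, -, -, h6⟩ := chi_props n
  have hs : tsupport (chi n) ⊆ Metric.closedBall 0 1 := by
    apply closure_minimal _ Metric.isClosed_closedBall
    intro y hy
    rw [Function.mem_support] at hy
    rw [mem_closedBall_zero_iff]
    by_contra hc
    exact hy (h6 y (not_le.mp hc))
  have := tsupport_iteratedFDeriv_subset (𝕜 := ℝ) (f := chi n) i
  by_contra hc
  have h3 : z ∈ tsupport (iteratedFDeriv ℝ i (chi n)) := subset_tsupport _ hc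
  have h4 := hs (this h3)
  rw [mem_closedBall_zero_iff] at h4
  linarith

private noncomputable def amolc (n i : ℕ) : ℝ := ∫ z, ‖iteratedFDeriv ℝ i (chi n) z‖

private theorem amolc_nonneg (n i : ℕ) : 0 ≤ amolc n i :=
  integral_nonneg fun _ => norm_nonneg _

private theorem amol_int (n i : ℕ) : Integrable (fun z => ‖iteratedFDeriv ℝ i (chi n) z‖) := by
  obtain ⟨h1, h2, -⟩ := chi_props n
  apply Continuous.integrable_of_hasCompactSupport
  · exact (h1.continuous_iteratedFDeriv (by exact_mod_cast le_top)).norm
  · exact (h2.iteratedFDeriv i).norm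

/-- the basic bound. -/
private theorem amol_basic {n : ℕ} {κ : ℝ} (hκ : 0 < κ) {H : (Fin n → ℝ) → (Fin n → ℝ)}
    (hH : Continuous H) :
    Smo (mol κ H) ∧ ∀ (i : ℕ) (x : Fin n → ℝ) (M : ℝ), (∀ y, ‖y - x‖ ≤ 1 / κ → ‖H y‖ ≤ M) →
      ‖iteratedFDeriv ℝ i (mol κ H) x‖ ≤ κ ^ i * (amolc n i * M) := by
  obtain ⟨h1, h2, -⟩ := chi_props n
  obtain ⟨hS, hB⟩ := conv_bound (chi n) h1 h2 (fun w => H ((1 / κ) • w)) (hH.comp (by fun_prop))
  set G : (Fin n → ℝ) → (Fin n → ℝ) := fun y => ∫ w, chi n (y - w) • H ((1 / κ) • w) with hG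
  have hm := amol_eq hκ H
  rw [← hG] at hm
  refine ⟨?_, ?_⟩
  · rw [hm]
    exact hS.comp (ContinuousLinearMap.contDiff _)
  · intro i x M hM
    have hM0 : 0 ≤ M := le_trans (norm_nonneg _) (hM x (by simp; positivity))
    rw [hm]
    rw [ContinuousLinearMap.iteratedFDeriv_comp_right (κ • ContinuousLinearMap.id ℝ (Fin n → ℝ)) hS x
      (i := i) (by exact_mod_cast le_top)]
    refine (ContinuousMultilinearMap.norm_compContinuousLinearMap_le _ _).trans ?_
    have hid : ‖κ • ContinuousLinearMap.id ℝ (Fin n → ℝ)‖ ≤ κ := by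
      rw [norm_smul, Real.norm_eq_abs, abs_of_pos hκ]
      calc κ * ‖ContinuousLinearMap.id ℝ (Fin n → ℝ)‖ ≤ κ * 1 :=
            mul_le_mul_of_nonneg_left ContinuousLinearMap.norm_id_le hκ.le
        _ = κ := mul_one _
    have hprod : (∏ _j : Fin i, ‖κ • ContinuousLinearMap.id ℝ (Fin n → ℝ)‖) ≤ κ ^ i := by
      rw [Finset.prod_const, Finset.card_univ, Fintype.card_fin]
      exact pow_le_pow_left₀ (norm_nonneg _) hid i
    have hx : (κ • ContinuousLinearMap.id ℝ (Fin n → ℝ)) x = κ • x := by simp
    rw [hx]
    have hmain : ‖iteratedFDeriv ℝ i G (κ • x)‖ ≤ amolc n i * M := by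
      refine (hB i (κ • x)).trans ?_
      have hi := ((amol_int n i).comp_sub_left (κ • x)).mul_const M
      calc ∫ z, ‖iteratedFDeriv ℝ i (chi n) (κ • x - z)‖ * ‖H ((1 / κ) • z)‖
          ≤ ∫ z, ‖iteratedFDeriv ℝ i (chi n) (κ • x - z)‖ * M := by
            apply integral_mono_of_nonneg
            · exact Filter.Eventually.of_forall fun z => by positivity
            · exact hi
            · refine Filter.Eventually.of_forall fun z => ?_
              show ‖iteratedFDeriv ℝ i (chi n) (κ • x - z)‖ * ‖H ((1 / κ) • z)‖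
                ≤ ‖iteratedFDeriv ℝ i (chi n) (κ • x - z)‖ * M
              by_cases hz : 1 < ‖κ • x - z‖
              · rw [amol_supp n i _ hz]
                simp
              · apply mul_le_mul_of_nonneg_left _ (norm_nonneg _)
                apply hM
                have e : (1 / κ) • z - x = -((1 / κ) • (κ • x - z)) := by
                  rw [smul_sub, smul_smul, one_div, inv_mul_cancel₀ hκ.ne', one_smul]
                  abel
                rw [e, norm_neg, norm_smul, Real.norm_eq_abs, abs_of_pos (by positivity)]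
                calc 1 / κ * ‖κ • x - z‖ ≤ 1 / κ * 1 :=
                      mul_le_mul_of_nonneg_left (not_lt.mp hz) (by positivity)
                  _ = 1 / κ := mul_one _
        _ = (∫ z, ‖iteratedFDeriv ℝ i (chi n) (κ • x - z)‖) * M := by
            rw [integral_mul_const]
        _ = amolc n i * M := by
            rw [integral_sub_left_eq_self (fun z => ‖iteratedFDeriv ℝ i (chi n) z‖) volume (κ • x)]
            rfl
    calc ‖iteratedFDeriv ℝ i G (κ • x)‖ * ∏ _j : Fin i, ‖κ • ContinuousLinearMap.id ℝ (Fin n → ℝ)‖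
        ≤ (amolc n i * M) * κ ^ i := by
          apply mul_le_mul hmain hprod
          · exact Finset.prod_nonneg fun _ _ => norm_nonneg _
          · exact mul_nonneg (amolc_nonneg n i) hM0
      _ = κ ^ i * (amolc n i * M) := mul_comm _ _

private theorem amol_odd {n : ℕ} (T : (Fin n → ℝ) →L[ℝ] (Fin n → ℝ)) :
    (∫ z, chi n z • T z) = 0 := by
  obtain ⟨h1, h2, h3, -⟩ := chi_props n
  have h : (∫ z, chi n z • T z) = ∫ z, -(chi n z • T z) := by
    rw [← integral_neg_eq_self (fun z => chi n z • T z) volume]
    congr 1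
    funext z
    rw [h3 z, map_neg, smul_neg]
  rw [integral_neg] at h
  have h' : (2 : ℝ) • (∫ z, chi n z • T z) = 0 := by
    rw [two_smul]
    nth_rewrite 1 [h]
    simp
  exact (smul_eq_zero.mp h').resolve_left two_ne_zero

/-- mollification of `H` minus an affine map. -/
private theorem amol_aff {n : ℕ} {κ : ℝ} {H : (Fin n → ℝ) → (Fin n → ℝ)}
    (hH : Continuous H) (x b : Fin n → ℝ) (T : (Fin n → ℝ) →L[ℝ] (Fin n → ℝ)) (y : Fin n → ℝ) :
    mol κ (fun y => H y - b - T (y - x)) y = mol κ H y - b - T (y - x) := by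
  obtain ⟨h1, h2, h3, h4, h5, h6⟩ := chi_props n
  have i1 := amol_cont (κ := κ) hH y
  have ic : Integrable (chi n) := h1.continuous.integrable_of_hasCompactSupport h2
  have i2 : Integrable (fun z => chi n z • (b + T (y - x))) := ic.smul_const _
  have i3 : Integrable (fun z => chi n z • T z) := by
    apply Continuous.integrable_of_hasCompactSupport
    · exact h1.continuous.smul T.continuous
    · exact h2.smul_right
  have i4 : Integrable (fun z => (1 / κ) • (chi n z • T z)) := i3.smul (1 / κ)
  have e : ∀ z, chi n z • (H (y - (1 / κ) • z) - b - T (y - (1 / κ) • z - x))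
      = chi n z • H (y - (1 / κ) • z) - chi n z • (b + T (y - x)) + (1 / κ) • (chi n z • T z) := by
    intro z
    have : y - (1 / κ) • z - x = (y - x) - (1 / κ) • z := by abel
    rw [this, map_sub, map_smul, smul_comm (1 / κ) (chi n z), ← smul_sub, ← smul_add]
    congr 1
    abel
  unfold mol
  simp only [e]
  have i12 : Integrable (fun z => chi n z • H (y - (1 / κ) • z) - chi n z • (b + T (y - x))) :=
    i1.sub i2
  rw [integral_add i12 i4, integral_sub i1 i2, integral_smul, amol_odd, smul_zero, add_zero,
    integral_smul_const, h5, one_smul]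
  abel

/-- Mollification: `mol κ H x = ∫ k (x - z) • H z` with `k z = κ^n chi (κ z)`,
`‖D^i k‖ ≤ C κ^(n+i)`, supported in the ball of radius `1/κ`. For `i ≥ 1` a constant can be subtracted
from `H` (near `x`), hence `‖D^i (mol κ H) x‖ ≤ C κ^i * (L/κ)`. If `H` is `η`-close to the affine map
`y ↦ b + T (y - x)` on the ball of radius `1/κ` around `x`, subtract it (its mollification is itself,
`chi` is even). -/
theorem mol_props (n r : ℕ) : ∃ C : ℝ, 1 ≤ C ∧ ∀ (H : (Fin n → ℝ) → (Fin n → ℝ)) (L κ : ℝ),
    1 ≤ L → 0 < κ → (∀ x y, ‖H x - H y‖ ≤ L * ‖x - y‖) →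
    Mb r κ (C * L) (mol κ H) ∧ (PerD H → PerD (mol κ H)) ∧
    ∀ (x b : Fin n → ℝ) (T : (Fin n → ℝ) →L[ℝ] (Fin n → ℝ)) (η : ℝ),
      (∀ y, ‖y - x‖ ≤ 1 / κ → ‖H y - b - T (y - x)‖ ≤ η) →
      ‖mol κ H x - b‖ ≤ η ∧ ‖fderiv ℝ (mol κ H) x - T‖ ≤ C * κ * η := by
  obtain ⟨h1, h2, h3, h4, h5, h6⟩ := chi_props n
  have ic : Integrable (chi n) := h1.continuous.integrable_of_hasCompactSupport h2
  set C : ℝ := 1 + ∑ i ∈ Finset.range (r + 2), amolc n i with hC
  have hCi : ∀ i, i < r + 2 → amolc n i ≤ C := by
    intro i hi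
    have := Finset.single_le_sum (f := fun i => amolc n i) (fun j _ => amolc_nonneg n j)
      (Finset.mem_range.mpr hi)
    linarith
  have hC1 : 1 ≤ C := by
    have : 0 ≤ ∑ i ∈ Finset.range (r + 2), amolc n i :=
      Finset.sum_nonneg fun j _ => amolc_nonneg n j
    linarith
  refine ⟨C, hC1, ?_⟩
  intro H L κ hL hκ hLip
  have hH : Continuous H := by
    have : LipschitzWith (Real.toNNReal L) H := by
      apply LipschitzWith.of_dist_le_mul
      intro x y
      rw [dist_eq_norm, dist_eq_norm, Real.coe_toNNReal L (by linarith)]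
      exact hLip x y
    exact this.continuous
  have hS := (amol_basic hκ hH).1
  -- general statement on subtracting an affine map
  have hsub : ∀ (x b : Fin n → ℝ) (T : (Fin n → ℝ) →L[ℝ] (Fin n → ℝ)),
      mol κ (fun y => H y - b - T (y - x)) = fun y => mol κ H y - b - T (y - x) := by
    intro x b T
    funext y
    exact amol_aff hH x b T y
  have hcontsub : ∀ (x b : Fin n → ℝ) (T : (Fin n → ℝ) →L[ℝ] (Fin n → ℝ)),
      Continuous (fun y => H y - b - T (y - x)) := by
    intro x b T
    fun_prop
  refine ⟨⟨hS, ?_⟩, ?_, ?_⟩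
  · intro i hi1 hir x
    have hb := (amol_basic hκ (hcontsub x (H x) 0)).2 i x (L * (1 / κ)) (by
      intro y hy
      simp only [zero_apply, sub_zero]
      calc ‖H y - H x‖ ≤ L * ‖y - x‖ := hLip y x
        _ ≤ L * (1 / κ) := mul_le_mul_of_nonneg_left hy (by linarith))
    rw [hsub x (H x) 0] at hb
    simp only [zero_apply, sub_zero] at hb
    have e : iteratedFDeriv ℝ i (fun y => mol κ H y - H x) x = iteratedFDeriv ℝ i (mol κ H) x := by
      have e1 : (fun y => mol κ H y - H x) = mol κ H + (fun _ => - H x) := by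
        funext y
        simp [sub_eq_add_neg]
      rw [e1, iteratedFDeriv_add_apply, iteratedFDeriv_const_of_ne (by omega)]
      · simp
      · exact (hS.of_le (by exact_mod_cast le_top)).contDiffAt
      · exact contDiff_const.contDiffAt
    rw [e] at hb
    refine hb.trans ?_
    have hk : κ ^ i = κ ^ (i - 1) * κ := by
      rw [← pow_succ]
      congr 1
      omega
    have hc := hCi i (by omega)
    calc κ ^ i * (amolc n i * (L * (1 / κ))) = amolc n i * L * κ ^ (i - 1) := by
          rw [hk]
          field_simp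
      _ ≤ C * L * κ ^ (i - 1) := by
          apply mul_le_mul_of_nonneg_right _ (by positivity)
          exact mul_le_mul_of_nonneg_right hc (by linarith)
  · intro hP x k
    unfold mol
    have e : ∀ z, chi n z • H (x + (fun i => (k i : ℝ)) - (1 / κ) • z)
        = chi n z • H (x - (1 / κ) • z) + chi n z • (fun i => (k i : ℝ)) := by
      intro z
      have : x + (fun i => (k i : ℝ)) - (1 / κ) • z = (x - (1 / κ) • z) + fun i => (k i : ℝ) := by
        abel
      rw [this, hP, smul_add]
    simp only [e]
    rw [integral_add (amol_cont hH x) (ic.smul_const _), integral_smul_const, h5, one_smul]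
  · intro x b T η hη
    have hη0 : 0 ≤ η := le_trans (norm_nonneg _) (hη x (by simp; positivity))
    obtain ⟨hS2, hB2⟩ := amol_basic hκ (hcontsub x b T)
    constructor
    · have hb := hB2 0 x η hη
      -- direct bound
      have e : mol κ H x - b = mol κ (fun y => H y - b - T (y - x)) x := by
        rw [hsub x b T]
        simp
      rw [e]
      unfold mol
      calc ‖∫ z, chi n z • (H (x - (1 / κ) • z) - b - T (x - (1 / κ) • z - x))‖
          ≤ ∫ z, ‖chi n z • (H (x - (1 / κ) • z) - b - T (x - (1 / κ) • z - x))‖ :=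
            norm_integral_le_integral_norm _
        _ ≤ ∫ z, chi n z * η := by
            apply integral_mono_of_nonneg
            · exact Filter.Eventually.of_forall fun z => norm_nonneg _
            · exact ic.mul_const _
            · refine Filter.Eventually.of_forall fun z => ?_
              show ‖chi n z • (H (x - (1 / κ) • z) - b - T (x - (1 / κ) • z - x))‖ ≤ chi n z * η
              rw [norm_smul, Real.norm_eq_abs, abs_of_nonneg (h4 z)]
              by_cases hz : 1 < ‖z‖
              · rw [h6 z hz]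
                simp
              · apply mul_le_mul_of_nonneg_left _ (h4 z)
                apply hη
                have e2 : x - (1 / κ) • z - x = -((1 / κ) • z) := by abel
                rw [e2, norm_neg, norm_smul, Real.norm_eq_abs, abs_of_pos (by positivity)]
                calc 1 / κ * ‖z‖ ≤ 1 / κ * 1 :=
                      mul_le_mul_of_nonneg_left (not_lt.mp hz) (by positivity)
                  _ = 1 / κ := mul_one _
        _ = η := by rw [integral_mul_const, h5, one_mul]
    · have hb := hB2 1 x η hη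
      rw [hsub x b T] at hb
      have hd : fderiv ℝ (fun y => mol κ H y - b - T (y - x)) x = fderiv ℝ (mol κ H) x - T := by
        have hdf : DifferentiableAt ℝ (mol κ H) x := (hS.differentiable (by simp)) x
        have h7 : HasFDerivAt (fun y => mol κ H y - b - T (y - x)) (fderiv ℝ (mol κ H) x - T) x := by
          have h8 : HasFDerivAt (fun y => T (y - x)) T x := by
            have h9 : (fun y => T (y - x)) = fun y => T y - T x := by
              funext y
              exact map_sub T y x
            rw [h9]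
            exact T.hasFDerivAt.sub_const _
          exact (hdf.hasFDerivAt.sub_const b).sub h8
        exact h7.fderiv
      rw [← hd, ← norm_iteratedFDeriv_one]
      refine hb.trans ?_
      have hc := hCi 1 (by omega)
      calc κ ^ 1 * (amolc n 1 * η) = amolc n 1 * (κ * η) := by ring
        _ ≤ C * (κ * η) := mul_le_mul_of_nonneg_right hc (by positivity)
        _ = C * κ * η := by ring

end QPR
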