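import Pool.Agent.Lib.QPA.AGood

set_option autoImplicit false

namespace QPR

/-- Crude bound for the derivatives of the quotient: `norm_iteratedFDeriv_comp_le` with the bounds
`(D N²) ^ (1/m)` for `M₂` (subtract the constant `M₂ (M' y)`) and `max 1 ((D N) ^ (1/m))` for `M'`:
`‖D^i‖ ≤ i! (D N²)^(1/m) (max 1 (D N)^(1/m))^R ≤ C N ^ ((R+2)/m)`, and `16 (R + 2) ≤ m`. -/
theorem quot_der {n : ℕ} {α : Fin n → ℝ} (R m : ℕ) (hR : 1 ≤ R) (hm : 16 * (R + 2) ≤ m) (D : ℝ) :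
    ∃ D' : ℝ, ∀ (F : (Fin n → ℝ) → (Fin n → ℝ)) (N : ℕ) (M M' M₂ M₂' : (Fin n → ℝ) → (Fin n → ℝ)),
      1 ≤ N → GoodM α F R m D N M M' → GoodM α F R m D (N ^ 2) M₂ M₂' →
      ∀ i, 1 ≤ i → i ≤ R → ∀ y, ‖iteratedFDeriv ℝ i (fun y => M₂ (M' y)) y‖ ^ 16 ≤ D' * N := by
  refine ⟨(R.factorial : ℝ) ^ 16 * max D 1, ?_⟩
  intro F N M M' M₂ M₂' hN hM hM₂ i hi hiR y
  have hm0 : m ≠ 0 := by omega
  have hN1 : (1 : ℝ) ≤ N := by exact_mod_cast hN
  set D₁ : ℝ := max D 1 with hD₁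
  have hD1 : (1 : ℝ) ≤ D₁ := le_max_right _ _
  have hDD : D ≤ D₁ := le_max_left _ _
  have hQ1 : (1 : ℝ) ≤ D₁ * N := by nlinarith
  set P : ℝ := (D₁ * N) ^ ((1 : ℝ) / m) with hP
  have hP1 : 1 ≤ P := by
    rw [hP]
    exact Real.one_le_rpow hQ1 (by positivity)
  have hPm : P ^ m = D₁ * N := by
    rw [hP, one_div]
    exact Real.rpow_inv_natCast_pow (by linarith) hm0
  have hbd1 : ∀ j, 1 ≤ j → j ≤ R → ∀ x, ‖iteratedFDeriv ℝ j M' x‖ ≤ P := by
    intro j hj hjR x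
    have h := hM.slow' j hj hjR x
    refine le_of_pow_le_pow_left₀ hm0 (by linarith) ?_
    rw [hPm]
    refine h.trans ?_
    exact mul_le_mul_of_nonneg_right hDD (by linarith)
  have hbd2 : ∀ j, 1 ≤ j → j ≤ R → ∀ x, ‖iteratedFDeriv ℝ j M₂ x‖ ≤ P ^ 2 := by
    intro j hj hjR x
    have h := hM₂.slow j hj hjR x
    refine le_of_pow_le_pow_left₀ hm0 (by positivity) ?_
    rw [← pow_mul, mul_comm, pow_mul, hPm]
    refine h.trans ?_
    push_cast
    have h1 : D * (N : ℝ) ^ 2 ≤ D₁ * (N : ℝ) ^ 2 := mul_le_mul_of_nonneg_right hDD (by positivity)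
    have h2 : D₁ * (N : ℝ) ^ 2 ≤ D₁ * (D₁ * (N : ℝ) ^ 2) := by
      have : 0 ≤ D₁ * (N : ℝ) ^ 2 := by positivity
      nlinarith
    calc D * (N : ℝ) ^ 2 ≤ D₁ * (D₁ * (N : ℝ) ^ 2) := h1.trans h2
      _ = (D₁ * N) ^ 2 := by ring
  have smM2 : ContDiff ℝ ((i : ℕ) : WithTop ℕ∞) M₂ := hM₂.sm.of_le (by exact_mod_cast le_top)
  have smM' : ContDiff ℝ ((i : ℕ) : WithTop ℕ∞) M' := hM.sm'.of_le (by exact_mod_cast le_top)
  have key := norm_iteratedFDeriv_comp_le (𝕜 := ℝ) (g := fun z => M₂ z - M₂ (M' y)) (f := M')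
    (n := i) (N := (i : ℕ)) (smM2.sub contDiff_const) smM' le_rfl y (C := P ^ 2) (D := P)
    (by
      intro j hj
      rcases Nat.eq_zero_or_pos j with rfl | hj0
      · simp only [norm_iteratedFDeriv_zero, sub_self, norm_zero]
        positivity
      · have : iteratedFDeriv ℝ j (fun z => M₂ z - M₂ (M' y)) (M' y) =
            iteratedFDeriv ℝ j M₂ (M' y) := by
          have h3 := iteratedFDeriv_sub (𝕜 := ℝ) (i := j) (f := M₂)
            (g := fun _ => M₂ (M' y)) (smM2.of_le (by exact_mod_cast hj))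
            (contDiff_const)
          have h4 : iteratedFDeriv ℝ j (fun _ : Fin n → ℝ => M₂ (M' y)) = 0 :=
            iteratedFDeriv_const_of_ne (by omega) _
          have h5 : (fun z => M₂ z - M₂ (M' y)) = M₂ - fun _ => M₂ (M' y) := rfl
          rw [h5, h3, h4, sub_zero]
        rw [this]
        exact hbd2 j hj0 (by omega) _)
    (by
      intro j hj hji
      refine (hbd1 j hj (by omega) y).trans ?_
      exact le_self_pow₀ hP1 (by omega))
  have heq : iteratedFDeriv ℝ i (fun y => M₂ (M' y)) y =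
      iteratedFDeriv ℝ i ((fun z => M₂ z - M₂ (M' y)) ∘ M') y := by
    have smc : ContDiff ℝ ((i : ℕ) : WithTop ℕ∞) (fun z => M₂ (M' z)) := smM2.comp smM'
    have h3 := iteratedFDeriv_sub (𝕜 := ℝ) (i := i) (f := fun z => M₂ (M' z))
            (g := fun _ => M₂ (M' y)) smc (contDiff_const)
    have h4 : iteratedFDeriv ℝ i (fun _ : Fin n → ℝ => M₂ (M' y)) = 0 :=
      iteratedFDeriv_const_of_ne (by omega) _
    have h5 : ((fun z => M₂ z - M₂ (M' y)) ∘ M') = (fun z => M₂ (M' z)) - fun _ => M₂ (M' y) := rfl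
    rw [h5, h3, h4, sub_zero]
  rw [heq]
  have hfac : (i.factorial : ℝ) ≤ R.factorial := by
    exact_mod_cast Nat.factorial_le hiR
  have hPiR : P ^ i ≤ P ^ R := pow_le_pow_right₀ hP1 hiR
  have h6 : ‖iteratedFDeriv ℝ i ((fun z => M₂ z - M₂ (M' y)) ∘ M') y‖ ≤
      R.factorial * P ^ (R + 2) := by
    refine key.trans ?_
    have hP0 : 0 ≤ P := by linarith
    calc (i.factorial : ℝ) * P ^ 2 * P ^ i ≤ R.factorial * P ^ 2 * P ^ R := by gcongr
      _ = R.factorial * P ^ (R + 2) := by ring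
  calc ‖iteratedFDeriv ℝ i ((fun z => M₂ z - M₂ (M' y)) ∘ M') y‖ ^ 16
      ≤ (R.factorial * P ^ (R + 2)) ^ 16 := by
        exact pow_le_pow_left₀ (norm_nonneg _) h6 16
    _ = (R.factorial : ℝ) ^ 16 * P ^ (16 * (R + 2)) := by ring
    _ ≤ (R.factorial : ℝ) ^ 16 * P ^ m := by
        refine mul_le_mul_of_nonneg_left (pow_le_pow_right₀ hP1 hm) (by positivity)
    _ = (R.factorial : ℝ) ^ 16 * D₁ * N := by rw [hPm]; ring

end QPR
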