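import Pool.Agent.Lib.QPA.AQuot
import Pool.Agent.Lib.QPR.Interp

set_option autoImplicit false

namespace QPR

private theorem AQs_id {n : ℕ} (i : ℕ) (hi : 1 ≤ i) (x : Fin n → ℝ) :
    ‖iteratedFDeriv ℝ i (fun y : Fin n → ℝ => y) x‖ ≤ 1 := by
  obtain ⟨j, rfl⟩ := Nat.exists_eq_add_of_le' hi
  rw [← norm_iteratedFDeriv_fderiv]
  have h : fderiv ℝ (fun y : Fin n → ℝ => y) = fun _ => ContinuousLinearMap.id ℝ (Fin n → ℝ) := by
    funext y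
    exact fderiv_fun_id
  rw [h]
  rcases Nat.eq_zero_or_pos j with rfl | hj
  · rw [norm_iteratedFDeriv_zero]
    exact ContinuousLinearMap.norm_id_le
  · rw [iteratedFDeriv_const_of_ne hj.ne']
    simp

private theorem AQs_sub {n : ℕ} (i : ℕ) (hi : 1 ≤ i) (Q : (Fin n → ℝ) → (Fin n → ℝ))
    (hQ : Smo Q) (c x : Fin n → ℝ) :
    ‖iteratedFDeriv ℝ i (fun y => Q y - y - c) x‖ ≤ ‖iteratedFDeriv ℝ i Q x‖ + 1 := by
  have hi' : ((i : ℕ) : WithTop ℕ∞) ≤ ((⊤ : ℕ∞) : WithTop ℕ∞) := by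
    exact_mod_cast le_top
  have hid : ContDiff ℝ ((⊤ : ℕ∞) : WithTop ℕ∞) (fun y : Fin n → ℝ => y) := contDiff_id
  have e : (fun y => Q y - y - c) = (Q - (fun y : Fin n → ℝ => y)) - (fun _ => c) := rfl
  have hs1 : ContDiff ℝ i (Q - (fun y : Fin n → ℝ => y)) := (hQ.sub hid).of_le hi'
  have hs2 : ContDiff ℝ i (fun _ : Fin n → ℝ => c) := contDiff_const
  rw [e, iteratedFDeriv_sub_apply hs1.contDiffAt hs2.contDiffAt,
    iteratedFDeriv_sub_apply ((hQ.of_le hi').contDiffAt) ((hid.of_le hi').contDiffAt),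
    iteratedFDeriv_const_of_ne (by omega)]
  have h1 := AQs_id i hi x
  have h2 := norm_sub_le (iteratedFDeriv ℝ i Q x)
    (iteratedFDeriv ℝ i (fun y : Fin n → ℝ => y) x)
  have h3 : iteratedFDeriv ℝ i Q x - iteratedFDeriv ℝ i (fun y : Fin n → ℝ => y) x
      - (0 : (Fin n → ℝ) → ((Fin n → ℝ) [×i]→L[ℝ] (Fin n → ℝ))) x =
      iteratedFDeriv ℝ i Q x - iteratedFDeriv ℝ i (fun y : Fin n → ℝ => y) x := by
    simp
  rw [h3]
  linarith

/-- all the estimates for one pair of maps. -/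
private theorem AQs_main {n : ℕ} (s R m : ℕ) (hR : 8 * (s + 1) ≤ R) (hm : 16 * (R + 2) ≤ m)
    (C : ℝ) (hC : 1 ≤ C) (D D₁ D₂ : ℝ)
    (hint : ∀ F : (Fin n → ℝ) → (Fin n → ℝ), Smo F →
      (∃ M : ℝ, ∀ i ≤ R, ∀ x, ‖iteratedFDeriv ℝ i F x‖ ≤ M) →
      ∀ a b t : ℝ, 0 < t → (∀ x, ‖F x‖ ≤ a) → (∀ x, ‖iteratedFDeriv ℝ R F x‖ ≤ b) →
        ∀ i ≤ R, ∀ x, t ^ i * ‖iteratedFDeriv ℝ i F x‖ ≤ C * (a + t ^ R * b))
    (N : ℕ) (hN : 1 ≤ N) (M M' M₂ : (Fin n → ℝ) → (Fin n → ℝ)) (hM : Smo M) (hM' : Smo M')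
    (hM₂ : Smo M₂) (hl : ∀ x, M' (M x) = x) (c : Fin n → ℝ)
    (hc : ∀ y, ‖M₂ (M' y) - y - c‖ ^ 4 * (N : ℝ) ^ 3 ≤ D₁)
    (hder : ∀ i, 1 ≤ i → i ≤ R → ∀ y, ‖iteratedFDeriv ℝ i (fun y => M₂ (M' y)) y‖ ^ 16 ≤ D₂ * N)
    (hslow : ∀ i, 1 ≤ i → i ≤ R → ∀ x, ‖iteratedFDeriv ℝ i M x‖ ^ m ≤ D * N) (i : ℕ) (hi : i ≤ s)
    (x : Fin n → ℝ) :
    ‖iteratedFDeriv ℝ i (fun x => M₂ x - M x - c) x‖ ^ 2 * N ≤
      ((s.factorial : ℝ) * (C * (max 1 D₁ + 2 * max 1 D₂)) * max 1 D) ^ 2 := by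
  have hNr : (1 : ℝ) ≤ N := by exact_mod_cast hN
  have hNr0 : (0 : ℝ) ≤ N := by linarith
  set A : ℝ := max 1 D₁ with hA
  set B : ℝ := max 1 D₂ with hB
  set E : ℝ := max 1 D with hE
  have hA1 : 1 ≤ A := le_max_left _ _
  have hB1 : 1 ≤ B := le_max_left _ _
  have hE1 : 1 ≤ E := le_max_left _ _
  have hAD : D₁ ≤ A := le_max_right _ _
  have hBD : D₂ ≤ B := le_max_right _ _
  have hED : D ≤ E := le_max_right _ _
  obtain ⟨w, hw1, hw⟩ : ∃ w : ℝ, 1 ≤ w ∧ w ^ 16 = N := by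
    refine ⟨(N : ℝ) ^ ((1 : ℝ) / 16), Real.one_le_rpow hNr (by norm_num), ?_⟩
    rw [← Real.rpow_natCast, ← Real.rpow_mul hNr0]
    norm_num
  obtain ⟨z, hz1, hz⟩ : ∃ z : ℝ, 1 ≤ z ∧ z ^ (8 * (s + 1)) = N := by
    have h0 : ((8 * (s + 1) : ℕ) : ℝ) ≠ 0 := by positivity
    refine ⟨(N : ℝ) ^ ((1 : ℝ) / ((8 * (s + 1) : ℕ) : ℝ)), Real.one_le_rpow hNr (by positivity), ?_⟩
    rw [← Real.rpow_natCast, ← Real.rpow_mul hNr0, one_div, inv_mul_cancel₀ h0, Real.rpow_one]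
  have hm0 : m ≠ 0 := by omega
  obtain ⟨v, hv1, hv⟩ : ∃ v : ℝ, 1 ≤ v ∧ v ^ m = E * N := by
    have h0 : ((m : ℕ) : ℝ) ≠ 0 := by exact_mod_cast hm0
    have hEN : 1 ≤ E * N := by nlinarith
    refine ⟨(E * N) ^ ((1 : ℝ) / (m : ℝ)), Real.one_le_rpow hEN (by positivity), ?_⟩
    rw [← Real.rpow_natCast, ← Real.rpow_mul (by linarith), one_div, inv_mul_cancel₀ h0,
      Real.rpow_one]
  have hw0 : 0 < w := by linarith
  have hz0 : 0 < z := by linarith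
  have hv0 : 0 < v := by linarith
  set q : (Fin n → ℝ) → (Fin n → ℝ) := fun y => M₂ (M' y) - y - c with hq
  have hQs : Smo (fun y => M₂ (M' y)) := hM₂.comp hM'
  have hid : ContDiff ℝ ((⊤ : ℕ∞) : WithTop ℕ∞) (fun y : Fin n → ℝ => y) := contDiff_id
  have hqs : Smo q := (hQs.sub hid).sub contDiff_const
  have hq0 : ∀ y, ‖q y‖ ≤ A / w ^ 12 := by
    intro y
    have h1 := hc y
    rw [le_div_iff₀ (pow_pos hw0 12)]
    refine le_of_pow_le_pow_left₀ (n := 4) (by norm_num) (by linarith) ?_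
    have h2 : (‖q y‖ * w ^ 12) ^ 4 = ‖q y‖ ^ 4 * (w ^ 16) ^ 3 := by ring
    rw [h2, hw]
    have h3 : A ≤ A ^ 4 := le_self_pow₀ hA1 (by norm_num)
    exact (h1.trans hAD).trans h3
  have hqi : ∀ j, 1 ≤ j → j ≤ R → ∀ y, ‖iteratedFDeriv ℝ j q y‖ ≤ 2 * B * w := by
    intro j hj hjR y
    have h1 := AQs_sub j hj _ hQs c y
    have h2 : ‖iteratedFDeriv ℝ j (fun y => M₂ (M' y)) y‖ ≤ B * w := by
      refine le_of_pow_le_pow_left₀ (n := 16) (by norm_num) (by positivity) ?_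
      refine (hder j hj hjR y).trans ?_
      rw [mul_pow, hw]
      have h3 : B ≤ B ^ 16 := le_self_pow₀ hB1 (by norm_num)
      exact mul_le_mul_of_nonneg_right (hBD.trans h3) hNr0
    have h4 : 1 ≤ B * w := one_le_mul_of_one_le_of_one_le hB1 hw1
    have h5 : ‖iteratedFDeriv ℝ j q y‖ ≤ B * w + 1 := by
      refine h1.trans ?_
      linarith
    linarith
  have hR1 : 1 ≤ R := by omega
  have hbound : ∃ K : ℝ, ∀ j ≤ R, ∀ y, ‖iteratedFDeriv ℝ j q y‖ ≤ K := by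
    refine ⟨A / w ^ 12 + 2 * B * w, fun j hj y => ?_⟩
    have h1 : 0 ≤ A / w ^ 12 := by positivity
    have h2 : 0 ≤ 2 * B * w := by positivity
    rcases Nat.eq_zero_or_pos j with rfl | hj0
    · rw [norm_iteratedFDeriv_zero]
      linarith [hq0 y]
    · linarith [hqi j hj0 hj y]
  have hzR : w ^ 16 ≤ z ^ R := by
    rw [hw, ← hz]
    exact pow_le_pow_right₀ hz1 hR
  have hzs : z ^ (s + 1) ≤ w ^ 2 := by
    refine le_of_pow_le_pow_left₀ (n := 8) (by norm_num) (by positivity) ?_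
    have h1 : (z ^ (s + 1)) ^ 8 = z ^ (8 * (s + 1)) := by
      rw [← pow_mul, mul_comm]
    have h2 : (w ^ 2) ^ 8 = w ^ 16 := by ring
    rw [h1, h2, hz, hw]
  have hvs : v ^ s ≤ E * w ^ 2 := by
    refine le_of_pow_le_pow_left₀ (n := 8) (by norm_num) (by positivity) ?_
    have h1 : (v ^ s) ^ 8 ≤ v ^ m := by
      rw [← pow_mul]
      exact pow_le_pow_right₀ hv1 (by omega)
    have h2 : (E * w ^ 2) ^ 8 = E ^ 8 * w ^ 16 := by ring
    rw [h2, hw]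
    refine h1.trans ?_
    rw [hv]
    have h3 : E ≤ E ^ 8 := le_self_pow₀ hE1 (by norm_num)
    exact mul_le_mul_of_nonneg_right h3 hNr0
  -- interpolation
  have hq2 : ∀ j ≤ s, ∀ y, ‖iteratedFDeriv ℝ j q y‖ ≤ C * (A + 2 * B) / w ^ 10 := by
    intro j hj y
    have hz' : (0 : ℝ) < 1 / z := by positivity
    have h1 := hint q hqs hbound (A / w ^ 12) (2 * B * w) (1 / z) hz' hq0
      (fun y => hqi R hR1 le_rfl y) j (by omega) y
    have h2 : (1 / z) ^ R * (2 * B * w) ≤ 2 * B / w ^ 12 := by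
      rw [one_div, inv_pow, inv_mul_le_iff₀ (pow_pos hz0 R)]
      have h3 : 2 * B * w ≤ w ^ 16 * (2 * B / w ^ 12) := by
        have h4 : w ^ 16 * (2 * B / w ^ 12) = 2 * B * w ^ 4 := by
          field_simp
        rw [h4]
        have h5 : w ≤ w ^ 4 := le_self_pow₀ hw1 (by norm_num)
        exact mul_le_mul_of_nonneg_left h5 (by positivity)
      exact h3.trans (mul_le_mul_of_nonneg_right hzR (by positivity))
    have h6 : C * (A / w ^ 12 + (1 / z) ^ R * (2 * B * w)) ≤ C * (A + 2 * B) / w ^ 12 := by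
      rw [mul_div_assoc, add_div]
      exact mul_le_mul_of_nonneg_left (by linarith) (by linarith)
    have h7 := h1.trans h6
    rw [one_div, inv_pow, inv_mul_le_iff₀ (pow_pos hz0 j)] at h7
    have h8 : z ^ j ≤ w ^ 2 := (pow_le_pow_right₀ hz1 (by omega)).trans hzs
    refine h7.trans ?_
    have h9 : C * (A + 2 * B) / w ^ 10 = w ^ 2 * (C * (A + 2 * B) / w ^ 12) := by
      field_simp
    rw [h9]
    exact mul_le_mul_of_nonneg_right h8 (by positivity)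
  -- composition
  have hcomp : (fun x => M₂ x - M x - c) = q ∘ M := by
    funext x
    simp only [hq, Function.comp_apply, hl x]
  have hi' : ((i : ℕ) : WithTop ℕ∞) ≤ ((⊤ : ℕ∞) : WithTop ℕ∞) := by
    exact_mod_cast le_top
  have hfin : ‖iteratedFDeriv ℝ i (fun x => M₂ x - M x - c) x‖ ≤
      (s.factorial : ℝ) * (C * (A + 2 * B)) * E / w ^ 8 := by
    rw [hcomp]
    have h1 := norm_iteratedFDeriv_comp_le (D := v) hqs hM hi' x
      (fun j hj => hq2 j (hj.trans hi) (M x)) (fun j hj1 hji => by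
        have h2 : ‖iteratedFDeriv ℝ j M x‖ ≤ v := by
          refine le_of_pow_le_pow_left₀ hm0 hv0.le ?_
          refine (hslow j hj1 (by omega) x).trans ?_
          rw [hv]
          exact mul_le_mul_of_nonneg_right hED hNr0
        exact h2.trans (le_self_pow₀ hv1 (by omega)))
    refine h1.trans ?_
    have h3 : (i.factorial : ℝ) ≤ s.factorial := by exact_mod_cast Nat.factorial_le hi
    have h4 : v ^ i ≤ E * w ^ 2 := (pow_le_pow_right₀ hv1 hi).trans hvs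
    have h5 : (s.factorial : ℝ) * (C * (A + 2 * B)) * E / w ^ 8 =
        (s.factorial : ℝ) * (C * (A + 2 * B) / w ^ 10) * (E * w ^ 2) := by
      field_simp
    rw [h5]
    have h6 : 0 ≤ C * (A + 2 * B) / w ^ 10 := by positivity
    exact mul_le_mul (mul_le_mul_of_nonneg_right h3 h6) h4 (by positivity)
      (mul_nonneg (Nat.cast_nonneg _) h6)
  have h0 : 0 ≤ ‖iteratedFDeriv ℝ i (fun x => M₂ x - M x - c) x‖ := norm_nonneg _
  have h1 := pow_le_pow_left₀ h0 hfin 2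
  have h2 := mul_le_mul_of_nonneg_right h1 hNr0
  refine h2.trans (le_of_eq ?_)
  rw [← hw]
  field_simp

/-- The same in `C^s`, and passage from `Q = M₂ ∘ M⁻¹` to `M₂ - M`. `R = max R₀ (8 (s + 1))`,
`m = 16 (R + 2)`. Interpolation (`interp`, order `R`) for `q - c`, `q = Q - id`, with
`t = N ^ (-1/(8 (s+1)))`, `a = C N^(-3/4)`, `b = C N^(1/16)`: `‖D^i (q - c)‖ ≤ C' N^(1/8) N^(-3/4)`
for `i ≤ s`. Then `M₂ x - M x - c = (q - c) (M x)`, and `norm_iteratedFDeriv_comp_le` with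
`‖D^j M‖ ≤ max 1 ((D N)^(1/m))` gives `‖D^i (M₂ - M - c)‖ ≤ C'' N^(-5/8 + s/m) ≤ C'' N^(-1/2)`. -/
theorem quot_cs {n : ℕ} {α : Fin n → ℝ} (hα : DioV α) (s : ℕ) :
    ∃ R m : ℕ, 1 ≤ R ∧ 1 ≤ m ∧ ∀ D : ℝ, ∃ D' : ℝ,
      ∀ (F : (Fin n → ℝ) → (Fin n → ℝ)) (N : ℕ) (M M' M₂ M₂' : (Fin n → ℝ) → (Fin n → ℝ)),
      1 ≤ N → GoodM α F R m D N M M' → GoodM α F R m D (N ^ 2) M₂ M₂' →
      ∃ c : Fin n → ℝ, ∀ i ≤ s, ∀ x,
        ‖iteratedFDeriv ℝ i (fun x => M₂ x - M x - c) x‖ ^ 2 * N ≤ D' := by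
  obtain ⟨R₀, hR₀, h0⟩ := quot_c0 hα
  refine ⟨max R₀ (8 * (s + 1)), 16 * (max R₀ (8 * (s + 1)) + 2), hR₀.trans (le_max_left _ _),
    by omega, fun D => ?_⟩
  obtain ⟨D₁, h1⟩ := h0 (max R₀ (8 * (s + 1))) (16 * (max R₀ (8 * (s + 1)) + 2)) (le_max_left _ _)
    le_rfl D
  obtain ⟨D₂, h2⟩ := quot_der (α := α) (max R₀ (8 * (s + 1))) (16 * (max R₀ (8 * (s + 1)) + 2))
    (hR₀.trans (le_max_left _ _)) le_rfl D
  obtain ⟨C, hC, hint⟩ := interp n (Fin n → ℝ) (max R₀ (8 * (s + 1)))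
  refine ⟨((s.factorial : ℝ) * (C * (max 1 D₁ + 2 * max 1 D₂)) * max 1 D) ^ 2, ?_⟩
  intro F N M M' M₂ M₂' hN hM hM₂
  obtain ⟨c, hc⟩ := h1 F N M M' M₂ M₂' hN hM hM₂
  refine ⟨c, fun i hi x => ?_⟩
  exact AQs_main s _ _ (le_max_right _ _) le_rfl C hC D D₁ D₂ hint N hN M M' M₂ hM.sm hM.sm'
    hM₂.sm hM.left c hc (h2 F N M M' M₂ M₂' hN hM hM₂) hM.slow i hi x

end QPR
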