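import Pool.Agent.Lib.QPA.AQder
import Pool.Agent.Lib.QPA.ADio
import Pool.Agent.Lib.QPR.CohEst

set_option autoImplicit false

namespace QPR

private theorem AQuot_id {n : ℕ} (i : ℕ) (x : Fin n → ℝ) :
    ‖iteratedFDeriv ℝ (i + 2) (fun y : Fin n → ℝ => y) x‖ = 0 := by
  rw [← norm_iteratedFDeriv_fderiv]
  have h : fderiv ℝ (fun y : Fin n → ℝ => y) =
      fun _ => ContinuousLinearMap.id ℝ (Fin n → ℝ) := funext fun y => fderiv_fun_id
  rw [h, iteratedFDeriv_succ_const]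
  simp

/-- The complex valued coordinates of a map. -/
private noncomputable def AQuot_C {n : ℕ} (j : Fin n) : (Fin n → ℝ) →L[ℝ] ℂ :=
  Complex.ofRealCLM.comp (ContinuousLinearMap.proj j)

private theorem AQuot_C_apply {n : ℕ} (j : Fin n) (v : Fin n → ℝ) : AQuot_C j v = (v j : ℂ) := rfl

private theorem AQuot_C_norm {n : ℕ} (j : Fin n) (v : Fin n → ℝ) : ‖AQuot_C j v‖ ≤ ‖v‖ := by
  rw [AQuot_C_apply, Complex.norm_real]
  exact norm_le_pi_norm v j

private theorem AQuot_C_op {n : ℕ} (j : Fin n) : ‖AQuot_C j‖ ≤ 1 :=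
  ContinuousLinearMap.opNorm_le_bound _ zero_le_one fun v => by
    rw [one_mul]
    exact AQuot_C_norm j v

/-- The quotient `Q = M₂ ∘ M'` is a translation up to `O (N ^ (-3/4))`. Put `q = Q - id`
(periodic). With `x = M' y`: `M (F x) = y + α + e₁`, `|e₁| ≤ D/N`, and
`M₂ (F x) = M₂ x + α + e₂`, `|e₂| ≤ D/N²`, so
`q (y + α) - q y = e₂ + Q (y + α) - Q (y + α + e₁)` has norm `≤ D/N² + Lip Q * D/N`,
`Lip Q ≤ sup ‖D M₂‖ sup ‖D M'‖ ≤ C N^(3/m) ≤ C N^(1/8)`. Apply `coh_est` to every coordinate of `q`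
(as a complex valued function, `lam = 1`, `dio_one`) with `κ = C N^(-7/8)`,
`L = N ^ (1 / (8 (τ+n+1)))`, `p = n + 1 + 8 (τ+n+1) =: R₀`, `H = C N^(1/16)` (`quot_der`):
`|q_j - c_j| ≤ C (N^(-7/8+1/8) 2^(τ+n+1) + N^(1/16 - 1)) ≤ C' N^(-3/4)`. (`c_j` real: take real
parts.) -/
theorem quot_c0 {n : ℕ} {α : Fin n → ℝ} (hα : DioV α) :
    ∃ R₀ : ℕ, 1 ≤ R₀ ∧ ∀ R m : ℕ, R₀ ≤ R → 16 * (R + 2) ≤ m → ∀ D : ℝ, ∃ D' : ℝ,
      ∀ (F : (Fin n → ℝ) → (Fin n → ℝ)) (N : ℕ) (M M' M₂ M₂' : (Fin n → ℝ) → (Fin n → ℝ)),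
      1 ≤ N → GoodM α F R m D N M M' → GoodM α F R m D (N ^ 2) M₂ M₂' →
      ∃ c : Fin n → ℝ, ∀ y, ‖M₂ (M' y) - y - c‖ ^ 4 * (N : ℝ) ^ 3 ≤ D' := by
  obtain ⟨c₀, hc₀, τ, hτ⟩ := dio_one hα
  set T : ℕ := τ + n + 1 with hT
  set p : ℕ := n + 1 + 8 * T with hp
  obtain ⟨D₀, hD₀, hest⟩ := coh_est n c₀ hc₀ τ p (by omega)
  refine ⟨p, by omega, fun R m hR hm D => ?_⟩
  obtain ⟨D₁, hder⟩ := quot_der (n := n) (α := α) R m (by omega) hm D
  set D₂ : ℝ := max D₁ 1 with hD₂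
  have hD₂1 : 1 ≤ D₂ := le_max_right _ _
  set D₄ : ℝ := max D 0 with hD₄
  have hD₄0 : 0 ≤ D₄ := le_max_right _ _
  set D₃ : ℝ := D₀ * (2 * D₄ * D₂ * 2 ^ T + D₂) with hD₃
  have hD₃0 : 0 ≤ D₃ := by positivity
  refine ⟨D₃ ^ 4, fun F N M M' M₂ M₂' hN hM hM₂ => ?_⟩
  have hN1 : (1 : ℝ) ≤ N := by exact_mod_cast hN
  have hN0 : (0 : ℝ) < N := by linarith
  -- roots
  obtain ⟨u, hu1, hu⟩ : ∃ u : ℝ, 1 ≤ u ∧ u ^ 16 = N :=
    ⟨(N : ℝ) ^ ((16 : ℕ) : ℝ)⁻¹, Real.one_le_rpow hN1 (by positivity),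
      Real.rpow_inv_natCast_pow hN0.le (by norm_num)⟩
  obtain ⟨L, hL1, hL⟩ : ∃ L : ℝ, 1 ≤ L ∧ L ^ (8 * T) = N :=
    ⟨(N : ℝ) ^ ((8 * T : ℕ) : ℝ)⁻¹, Real.one_le_rpow hN1 (by positivity),
      Real.rpow_inv_natCast_pow hN0.le (by omega)⟩
  have hu0 : 0 < u := by linarith
  have hL0 : 0 < L := by linarith
  have hLT : L ^ T = u ^ 2 := by
    have h1 : (L ^ T) ^ 8 = (u ^ 2) ^ 8 := by
      rw [← pow_mul, ← pow_mul, mul_comm T 8, hL, hu]
    exact (pow_left_inj₀ (by positivity) (by positivity) (by norm_num)).1 h1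
  -- the quotient
  set Q : (Fin n → ℝ) → (Fin n → ℝ) := fun y => M₂ (M' y) with hQ
  have hQs : Smo Q := hM₂.sm.comp hM.sm'
  have hQd : ∀ i, 1 ≤ i → i ≤ R → ∀ y, ‖iteratedFDeriv ℝ i Q y‖ ≤ D₂ * u := by
    intro i h1 h2 y
    have h3 := hder F N M M' M₂ M₂' hN hM hM₂ i h1 h2 y
    have h4 : ‖iteratedFDeriv ℝ i Q y‖ ^ 16 ≤ (D₂ * u) ^ 16 := by
      refine h3.trans ?_
      rw [mul_pow, hu]
      have h5 : D₁ ≤ D₂ ^ 16 := (le_max_left _ _).trans (le_self_pow₀ hD₂1 (by norm_num))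
      exact mul_le_mul_of_nonneg_right h5 hN0.le
    exact le_of_pow_le_pow_left₀ (by norm_num) (by positivity) h4
  have hlip : ∀ x y, ‖Q x - Q y‖ ≤ D₂ * u * ‖x - y‖ := by
    intro x y
    refine Convex.norm_image_sub_le_of_norm_fderiv_le (𝕜 := ℝ) (s := Set.univ)
      (fun z _ => (hQs.differentiable (by simp)) z) (fun z _ => ?_) convex_univ
      (Set.mem_univ y) (Set.mem_univ x)
    have h1 := hQd 1 le_rfl (by omega) z
    rwa [norm_iteratedFDeriv_one] at h1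
  -- the coboundary
  have hκ : ∀ y, ‖(Q (y + α) - (y + α)) - (Q y - y)‖ ≤ 2 * D₄ * D₂ * u / N := by
    intro y
    obtain ⟨e₁, he₁⟩ : ∃ e, e = M (F (M' y)) - M (M' y) - α := ⟨_, rfl⟩
    obtain ⟨e₂, he₂⟩ : ∃ e, e = M₂ (F (M' y)) - M₂ (M' y) - α := ⟨_, rfl⟩
    have hn1 : ‖e₁‖ ≤ D₄ / N := by
      rw [he₁]
      exact (hM.near _).trans (by gcongr; exact le_max_left _ _)
    have hn2 : ‖e₂‖ ≤ D₄ / N := by
      rw [he₂]
      refine (hM₂.near _).trans ?_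
      have h1 : (N : ℝ) ≤ ((N ^ 2 : ℕ) : ℝ) := by
        push_cast
        nlinarith
      calc D / ((N ^ 2 : ℕ) : ℝ) ≤ D₄ / ((N ^ 2 : ℕ) : ℝ) := by
            gcongr
            exact le_max_left _ _
        _ ≤ D₄ / N := by gcongr
    have h1 : Q (y + α + e₁) = Q y + α + e₂ := by
      have h2 : y + α + e₁ = M (F (M' y)) := by
        rw [he₁, hM.right]
        abel
      change M₂ (M' (y + α + e₁)) = M₂ (M' y) + α + e₂
      rw [h2, hM.left, he₂]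
      abel
    have h2 : (Q (y + α) - (y + α)) - (Q y - y) = (Q (y + α) - Q (y + α + e₁)) + e₂ := by
      rw [h1]
      abel
    rw [h2]
    have h3 : ‖Q (y + α) - Q (y + α + e₁)‖ ≤ D₂ * u * (D₄ / N) := by
      refine (hlip _ _).trans ?_
      have h4 : (y + α) - (y + α + e₁) = -e₁ := by abel
      rw [h4, norm_neg]
      gcongr
    have h5 : D₄ / N ≤ D₂ * u * (D₄ / N) := by
      have h6 : 1 ≤ D₂ * u := by nlinarith
      have h7 : 0 ≤ D₄ / N := by positivity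
      nlinarith
    calc ‖(Q (y + α) - Q (y + α + e₁)) + e₂‖ ≤ ‖Q (y + α) - Q (y + α + e₁)‖ + ‖e₂‖ :=
          norm_add_le _ _
      _ ≤ D₂ * u * (D₄ / N) + D₂ * u * (D₄ / N) := add_le_add h3 (hn2.trans h5)
      _ = 2 * D₄ * D₂ * u / N := by ring
  -- the coordinates
  have hqs : Smo (fun y => Q y - y) := hQs.sub contDiff_id
  have hqd : ∀ y, ‖iteratedFDeriv ℝ p (fun y => Q y - y) y‖ ≤ D₂ * u := by
    intro y
    have h1 : iteratedFDeriv ℝ p (fun y => Q y - y) y =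
        iteratedFDeriv ℝ p Q y - iteratedFDeriv ℝ p (fun y : Fin n → ℝ => y) y := by
      exact fun_iteratedFDeriv_sub_apply (hQs.of_le (by exact_mod_cast le_top)).contDiffAt
        contDiff_id.contDiffAt
    have h2 : iteratedFDeriv ℝ p (fun y : Fin n → ℝ => y) y = 0 := by
      obtain ⟨i, hi⟩ : ∃ i, p = i + 2 := ⟨p - 2, by omega⟩
      rw [hi]
      exact norm_eq_zero.1 (AQuot_id i y)
    rw [h1, h2, sub_zero]
    exact hQd p (by omega) hR y
  have hqp : Per (fun y => Q y - y) := by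
    intro y k
    change M₂ (M' (y + _)) - (y + _) = M₂ (M' y) - y
    rw [hM.per' y k, hM₂.per (M' y) k]
    abel
  have hjs : ∀ j : Fin n, Smo (fun y => AQuot_C j (Q y - y)) := fun j =>
    (AQuot_C j).contDiff.comp hqs
  refine ⟨fun j => (coef (fun y => AQuot_C j (Q y - y)) 0).re, fun y => ?_⟩
  have hfin : ‖M₂ (M' y) - y - fun j => (coef (fun y => AQuot_C j (Q y - y)) 0).re‖ * u ^ 13 ≤
      D₃ := by
    rw [← le_div_iff₀ (by positivity)]
    refine (pi_norm_le_iff_of_nonneg (by positivity)).2 fun j => ?_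
    have h1 := hest α 1 (by simp) (fun ξ hξ => by
        rw [one_mul]
        rcases hξ with hξ | hξ
        · exact hτ ξ hξ
        · exact absurd rfl hξ) (fun y => AQuot_C j (Q y - y)) (hjs j)
      (fun y k => by
        change AQuot_C j ((fun y => Q y - y) (y + _)) = AQuot_C j ((fun y => Q y - y) y)
        rw [hqp y k])
      (2 * D₄ * D₂ * u / N) (D₂ * u) L hL1
      (fun y => by
        rw [one_mul, ← map_sub]
        exact (AQuot_C_norm j _).trans (hκ y))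
      (fun y => by
        have h2 := (AQuot_C j).norm_iteratedFDeriv_comp_left (n := p) (x := y)
          (hqs.of_le (by exact_mod_cast le_top)).contDiffAt le_rfl
        refine h2.trans ?_
        calc ‖AQuot_C j‖ * ‖iteratedFDeriv ℝ p (fun y => Q y - y) y‖
            ≤ 1 * (D₂ * u) := mul_le_mul (AQuot_C_op j) (hqd y) (norm_nonneg _) zero_le_one
          _ = D₂ * u := one_mul _) y
    rw [if_pos rfl] at h1
    have h3 : ‖(M₂ (M' y) - y - fun j => (coef (fun y => AQuot_C j (Q y - y)) 0).re) j‖ ≤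
        ‖AQuot_C j (Q y - y) - coef (fun y => AQuot_C j (Q y - y)) 0‖ := by
      have h4 : (M₂ (M' y) - y - fun j => (coef (fun y => AQuot_C j (Q y - y)) 0).re) j =
          (AQuot_C j (Q y - y) - coef (fun y => AQuot_C j (Q y - y)) 0).re := by
        rw [Complex.sub_re, AQuot_C_apply, Complex.ofReal_re]
        rfl
      rw [h4, Real.norm_eq_abs]
      exact Complex.abs_re_le_norm _
    refine h3.trans (h1.trans ?_)
    have h5 : p - n - 1 = 8 * T := by omega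
    have h6 : τ + n + 1 = T := rfl
    rw [h5, hL, h6]
    have h7 : (1 + L) ^ T ≤ 2 ^ T * u ^ 2 := by
      rw [← hLT, ← mul_pow]
      gcongr
      linarith
    rw [le_div_iff₀ (by positivity)]
    have h8 : D₀ * (2 * D₄ * D₂ * u / N * (1 + L) ^ T + D₂ * u / N) * u ^ 13 ≤
        D₀ * (2 * D₄ * D₂ * u / N * (2 ^ T * u ^ 2) + D₂ * u ^ 3 / N) * u ^ 13 := by
      have h9 : u ≤ u ^ 3 := le_self_pow₀ hu1 (by norm_num)
      gcongr
    refine h8.trans (le_of_eq ?_)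
    rw [hD₃, ← hu]
    field_simp
  have h10 : ‖M₂ (M' y) - y - fun j => (coef (fun y => AQuot_C j (Q y - y)) 0).re‖ ^ 4 *
      (N : ℝ) ^ 3 ≤
      (‖M₂ (M' y) - y - fun j => (coef (fun y => AQuot_C j (Q y - y)) 0).re‖ * u ^ 13) ^ 4 := by
    have h11 : (u ^ 16) ^ 3 ≤ (u ^ 13) ^ 4 := by
      rw [← pow_mul, ← pow_mul]
      exact pow_le_pow_right₀ hu1 (by norm_num)
    rw [mul_pow, ← hu]
    exact mul_le_mul_of_nonneg_left h11 (by positivity)
  exact h10.trans (pow_le_pow_left₀ (by positivity) hfin 4)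

end QPR
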