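import Pool.Agent.Lib.QPA.LTr

set_option autoImplicit false

namespace QPR

variable {n : ℕ} {α : Fin n → ℝ} {F F' H H' : (Fin n → ℝ) → (Fin n → ℝ)}

private theorem GChain_prod (E ρ : ℝ) (hE : 0 ≤ E) (hρ : 0 ≤ ρ) (hρ1 : ρ < 1) (i : ℕ) :
    0 ≤ ∏ j ∈ Finset.range i, (1 + E * ρ ^ j) ∧
      ∏ j ∈ Finset.range i, (1 + E * ρ ^ j) ≤ Real.exp (E / (1 - ρ)) := by
  have h0 : ∀ j ∈ Finset.range i, 0 ≤ 1 + E * ρ ^ j := fun j _ =>
    add_nonneg zero_le_one (mul_nonneg hE (pow_nonneg hρ j))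
  refine ⟨Finset.prod_nonneg h0, ?_⟩
  have h1 : ∏ j ∈ Finset.range i, (1 + E * ρ ^ j) ≤ ∏ j ∈ Finset.range i, Real.exp (E * ρ ^ j) := by
    refine Finset.prod_le_prod h0 ?_
    intro j _
    rw [add_comm]
    exact Real.add_one_le_exp _
  refine le_trans h1 ?_
  rw [← Real.exp_sum]
  apply Real.exp_le_exp.2
  rw [← Finset.mul_sum, div_eq_mul_inv]
  refine mul_le_mul_of_nonneg_left ?_ hE
  have h2 : 0 < 1 - ρ := by linarith
  rw [geom_sum_eq (ne_of_lt hρ1)]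
  have h3 : (ρ ^ i - 1) / (ρ - 1) = (1 - ρ ^ i) / (1 - ρ) := by
    rw [← neg_div_neg_eq]
    congr 1 <;> ring
  rw [h3, div_le_iff₀ h2, inv_mul_cancel₀ (ne_of_gt h2)]
  have h4 : 0 ≤ ρ ^ i := pow_nonneg hρ i
  linarith

/-- Chaining. For `‖θ‖ ≤ 1` put `r₀ = θ`, choose `v_i ∈ S i` with `‖v_i - r_i‖ ≤ (1/2)^(i+1)` and
`r_{i+1} = r_i - v_i`: `‖r_i‖ ≤ (1/2)^i`, `‖v_i‖ ≤ 2 (1/2)^i`. `Tr (v_0 + ... + v_{i-1})` is the composition
of the `Tr v_j`, so it is Lipschitz with constant `∏ (1 + E ρ^j) ≤ exp (E / (1 - ρ))`; let `i → ∞`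
(`tr_cont`). General `θ`: `tr_add_int`. -/
theorem chain_lip (hd : DatA α F F' H H') (S : ℕ → Set (Fin n → ℝ)) (E ρ : ℝ) (hE : 0 ≤ E)
    (hρ : 0 ≤ ρ) (hρ1 : ρ < 1)
    (hS : ∀ (i : ℕ) (θ : Fin n → ℝ), ∃ v ∈ S i, ‖v - θ‖ ≤ (1 / 2 : ℝ) ^ (i + 1))
    (hL : ∀ i : ℕ, ∀ v ∈ S i, ‖v‖ ≤ 2 * (1 / 2 : ℝ) ^ i → ∀ x y : Fin n → ℝ,
      ‖Tr H H' v x - Tr H H' v y‖ ≤ (1 + E * ρ ^ i) * ‖x - y‖) :
    ∃ C : ℝ, 0 ≤ C ∧ ∀ θ x y : Fin n → ℝ, ‖Tr H H' θ x - Tr H H' θ y‖ ≤ C * ‖x - y‖ := by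
  choose V hV1 hV2 using hS
  have key : ∀ θ : Fin n → ℝ, ‖θ‖ ≤ 1 → ∀ x y : Fin n → ℝ,
      ‖Tr H H' θ x - Tr H H' θ y‖ ≤ Real.exp (E / (1 - ρ)) * ‖x - y‖ := by
    intro θ hθ x y
    obtain ⟨r, hr⟩ : ∃ r : ℕ → (Fin n → ℝ), r = fun i =>
        Nat.rec (motive := fun _ => (Fin n → ℝ)) θ (fun i w => w - V i w) i := ⟨_, rfl⟩
    have hr0 : r 0 = θ := by subst hr; rfl
    have hr1 : ∀ i, r (i + 1) = r i - V i (r i) := by
      intro i
      subst hr; rfl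
    have hrn : ∀ i, ‖r i‖ ≤ (1 / 2 : ℝ) ^ i := by
      intro i
      cases i with
      | zero => rw [hr0, pow_zero]; exact hθ
      | succ i =>
        rw [hr1, norm_sub_rev]
        exact hV2 i (r i)
    have hvn : ∀ i, ‖V i (r i)‖ ≤ 2 * (1 / 2 : ℝ) ^ i := by
      intro i
      have e : V i (r i) = (V i (r i) - r i) + r i := by abel
      rw [e]
      refine le_trans (norm_add_le _ _) ?_
      have h1 := hV2 i (r i)
      have h2 := hrn i
      rw [pow_succ] at h1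
      have h3 : 0 ≤ (1 / 2 : ℝ) ^ i := by positivity
      linarith
    have hstep : ∀ i, ‖Tr H H' (θ - r i) x - Tr H H' (θ - r i) y‖ ≤
        (∏ j ∈ Finset.range i, (1 + E * ρ ^ j)) * ‖x - y‖ := by
      intro i
      induction i with
      | zero =>
        rw [hr0, sub_self, tr_zero hd, tr_zero hd, Finset.prod_range_zero, one_mul]
      | succ i ih =>
        have e : ∀ z, Tr H H' (θ - r (i + 1)) z = Tr H H' (V i (r i)) (Tr H H' (θ - r i) z) := by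
          intro z
          rw [tr_tr hd, hr1]
          congr 1
          abel
        rw [e, e]
        refine le_trans (hL i _ (hV1 i (r i)) (hvn i) _ _) ?_
        rw [Finset.prod_range_succ, mul_comm (∏ j ∈ Finset.range i, (1 + E * ρ ^ j)), mul_assoc]
        exact mul_le_mul_of_nonneg_left ih (add_nonneg zero_le_one (mul_nonneg hE (pow_nonneg hρ i)))
    have hbd : ∀ i, ‖Tr H H' (θ - r i) x - Tr H H' (θ - r i) y‖ ≤
        Real.exp (E / (1 - ρ)) * ‖x - y‖ := fun i =>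
      le_trans (hstep i) (mul_le_mul_of_nonneg_right (GChain_prod E ρ hE hρ hρ1 i).2 (norm_nonneg _))
    have hlim : Filter.Tendsto r Filter.atTop (nhds 0) := by
      rw [tendsto_zero_iff_norm_tendsto_zero]
      refine squeeze_zero (fun i => norm_nonneg _) hrn ?_
      exact tendsto_pow_atTop_nhds_zero_of_lt_one (by norm_num) (by norm_num)
    have hcx : ∀ z : Fin n → ℝ, Filter.Tendsto (fun i => Tr H H' (θ - r i) z) Filter.atTop
        (nhds (Tr H H' θ z)) := by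
      intro z
      have h1 : Continuous (fun w : Fin n → ℝ => Tr H H' (θ - w) z) :=
        (tr_cont hd).comp ((continuous_const.sub continuous_id).prodMk continuous_const)
      have h2 := (h1.tendsto 0).comp hlim
      simp only [sub_zero] at h2
      exact h2
    exact le_of_tendsto ((hcx x).sub (hcx y)).norm (Filter.Eventually.of_forall hbd)
  refine ⟨Real.exp (E / (1 - ρ)), (Real.exp_pos _).le, ?_⟩
  intro θ x y
  obtain ⟨θ', hθ'⟩ : ∃ y : Fin n → ℝ, y = fun i => Int.fract (θ i) := ⟨_, rfl⟩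
  obtain ⟨k, hk⟩ : ∃ k : Fin n → ℤ, k = fun i => ⌊θ i⌋ := ⟨_, rfl⟩
  have h2 : θ = θ' + fun i => (k i : ℝ) := by
    rw [hθ', hk]
    funext i
    exact (Int.fract_add_floor (θ i)).symm
  have h3 : ‖θ'‖ ≤ 1 := by
    rw [hθ', pi_norm_le_iff_of_nonneg zero_le_one]
    intro i
    rw [Real.norm_eq_abs, abs_of_nonneg (Int.fract_nonneg _)]
    exact (Int.fract_lt_one _).le
  rw [h2, tr_add_int hd, tr_add_int hd, add_sub_add_right_eq_sub]
  exact key θ' h3 x y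

end QPR
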