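import Pool.Agent.Lib.QPR.Int2
import Pool.Agent.Lib.QPA.LTr

set_option autoImplicit false

namespace QPR

variable {n : ℕ} {α : Fin n → ℝ} {F F' H H' : (Fin n → ℝ) → (Fin n → ℝ)}

private theorem GLip_num (a b D : ℝ) (ha : 0 ≤ a) (hb : 0 ≤ b) (hD : 0 ≤ D)
    (h : ∀ t : ℝ, 0 < t → t * D ≤ 2 * a + t ^ 2 * b) : D ≤ 4 * √(a * b) := by
  rcases hD.eq_or_lt with hD0 | hD0
  · rw [← hD0]
    positivity
  rcases hb.eq_or_lt with hb0 | hb0
  · exfalso
    have h1 := h ((2 * a + 1) / D) (by positivity)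
    rw [← hb0, mul_zero, add_zero, div_mul_cancel₀ _ hD0.ne'] at h1
    linarith
  · have h1 := h (D / (2 * b)) (by positivity)
    have h2 : D ^ 2 ≤ 16 * (a * b) := by
      have e1 : D / (2 * b) * D = D ^ 2 / (2 * b) := by ring
      have e2 : (D / (2 * b)) ^ 2 * b = D ^ 2 / (4 * b) := by
        field_simp
        ring
      rw [e1, e2] at h1
      have h3 : D ^ 2 / (2 * b) - D ^ 2 / (4 * b) = D ^ 2 / (4 * b) := by
        field_simp
        ring
      have h4 : D ^ 2 / (4 * b) ≤ 2 * a := by linarith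
      rw [div_le_iff₀ (by positivity)] at h4
      have h5 : 0 ≤ a * b := by positivity
      nlinarith
    have h3 : D ≤ √(16 * (a * b)) := Real.le_sqrt_of_sq_le h2
    rw [Real.sqrt_mul (by norm_num), show (16 : ℝ) = 4 ^ 2 by norm_num,
      Real.sqrt_sq (by norm_num)] at h3
    exact h3

/-- Close returns are nearly translations. `v = k α + l`, `U x = Tr v x - x`, `Tr v x = F^k x + l`:
`‖U x‖ = ‖H' (H x + v) - H' (H x)‖ ≤ a = C₁ ‖v‖^g`, `‖D² U‖ ≤ b`. `second_order` (`i = 0`):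
`t ‖D U‖ ≤ 2 a + t² b` for all `t > 0`, so `‖D U‖ ≤ 4 √(a b)`; mean value inequality. -/
theorem lip_close (hd : DatA α F F' H H') (a b : ℝ) (ha : 0 ≤ a) (hb : 0 ≤ b) (k : ℕ)
    (l : Fin n → ℤ)
    (hH : ∀ z : Fin n → ℝ, ‖H' (z + ((k : ℝ) • α + fun i => (l i : ℝ))) - H' z‖ ≤ a)
    (hD : ∀ x, ‖iteratedFDeriv ℝ 2 (F^[k]) x‖ ≤ b) (x y : Fin n → ℝ) :
    ‖Tr H H' ((k : ℝ) • α + fun i => (l i : ℝ)) x - Tr H H' ((k : ℝ) • α + fun i => (l i : ℝ)) y‖
      ≤ (1 + 4 * √(a * b)) * ‖x - y‖ := by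
  obtain ⟨c, hc⟩ : ∃ c : Fin n → ℝ, c = fun i => (l i : ℝ) := ⟨_, rfl⟩
  have hTr : ∀ x, Tr H H' ((k : ℝ) • α + fun i => (l i : ℝ)) x = F^[k] x + c := by
    intro x
    rw [tr_add_int hd, ← hc]
    congr 1
    have := itz_nat hd k x
    unfold Itz at this
    rw [Int.cast_natCast] at this
    exact this
  have hFk : Smo (F^[k]) := by
    have h1 := itz_smo hd (k : ℤ)
    have e : Itz α H H' (k : ℤ) = F^[k] := by
      funext x
      exact itz_nat hd k x
    rw [e] at h1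
    exact h1
  let U : (Fin n → ℝ) → (Fin n → ℝ) := fun x => F^[k] x + c - x
  have hU : Smo U := (hFk.add contDiff_const).sub contDiff_id
  have hU0 : ∀ x, ‖iteratedFDeriv ℝ 0 U x‖ ≤ a := by
    intro x
    rw [norm_iteratedFDeriv_zero]
    change ‖F^[k] x + c - x‖ ≤ a
    rw [← hTr]
    have h1 := hH (H x)
    rw [hd.leftH] at h1
    exact h1
  have hFd : Differentiable ℝ (F^[k]) := hFk.differentiable (by simp)
  have hfd : fderiv ℝ U = fun x => fderiv ℝ (F^[k]) x - ContinuousLinearMap.id ℝ _ := by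
    funext x
    exact ((hFd x).hasFDerivAt.add_const c |>.sub (hasFDerivAt_id x)).fderiv
  have hU2 : ∀ x, ‖iteratedFDeriv ℝ (0 + 2) U x‖ ≤ b := by
    intro x
    have h1 : ‖iteratedFDeriv ℝ (1 + 1) U x‖ = ‖iteratedFDeriv ℝ (1 + 1) (F^[k]) x‖ := by
      rw [← norm_iteratedFDeriv_fderiv (𝕜 := ℝ) (f := U),
        ← norm_iteratedFDeriv_fderiv (𝕜 := ℝ) (f := F^[k]), norm_iteratedFDeriv_one,
        norm_iteratedFDeriv_one, hfd, fderiv_sub_const]
    have h2 : ‖iteratedFDeriv ℝ (1 + 1) U x‖ ≤ b := by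
      rw [h1]
      exact hD x
    exact h2
  have hDU : ∀ x, ‖fderiv ℝ U x‖ ≤ 4 * √(a * b) := by
    intro x
    refine GLip_num a b _ ha hb (norm_nonneg _) ?_
    intro t ht
    have h1 := second_order U hU 0 a b hU0 hU2 t ht x
    rw [zero_add, norm_iteratedFDeriv_one] at h1
    exact h1
  have hdU : Differentiable ℝ U := hU.differentiable (by simp)
  have h1 : ‖U x - U y‖ ≤ 4 * √(a * b) * ‖x - y‖ :=
    Convex.norm_image_sub_le_of_norm_fderiv_le (𝕜 := ℝ) (s := Set.univ)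
      (fun z _ => hdU z) (fun z _ => hDU z) convex_univ (Set.mem_univ y) (Set.mem_univ x)
  rw [hTr, hTr]
  have h2 : F^[k] x + c - (F^[k] y + c) = (x - y) + (U x - U y) := by
    change _ = (x - y) + ((F^[k] x + c - x) - (F^[k] y + c - y))
    abel
  rw [h2]
  calc ‖(x - y) + (U x - U y)‖ ≤ ‖x - y‖ + ‖U x - U y‖ := norm_add_le _ _
    _ ≤ ‖x - y‖ + 4 * √(a * b) * ‖x - y‖ := by linarith
    _ = (1 + 4 * √(a * b)) * ‖x - y‖ := by ring

end QPR
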