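import Pool.Agent.Lib.QPA.ADef
import Pool.Agent.Lib.QPR.TDef

set_option autoImplicit false

/-!
# Bounded derivatives imply bi-Lipschitz and flat: definitions
-/

namespace QPR

open Matrix

/-- The translations transported to the other side: `H' (H x + θ)`. -/
def Tr {n : ℕ} (H H' : (Fin n → ℝ) → (Fin n → ℝ)) (θ x : Fin n → ℝ) : Fin n → ℝ :=
  H' (H x + θ)

/-- integer iterates of `F`: `F^k x = H' (H x + k α)`, `k ∈ ℤ`. -/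
def Itz {n : ℕ} (α : Fin n → ℝ) (H H' : (Fin n → ℝ) → (Fin n → ℝ)) (k : ℤ) (x : Fin n → ℝ) :
    Fin n → ℝ :=
  Tr H H' ((k : ℝ) • α) x

/-- the quadratic form of a matrix. -/
def QF {n : ℕ} (Q : Matrix (Fin n) (Fin n) ℝ) (v : Fin n → ℝ) : ℝ := v ⬝ᵥ (Q *ᵥ v)

/-- the bilinear form of a matrix. -/
def BF {n : ℕ} (Q : Matrix (Fin n) (Fin n) ℝ) (v w : Fin n → ℝ) : ℝ := v ⬝ᵥ (Q *ᵥ w)

/-- the norm of a positive definite quadratic form. -/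
noncomputable def nrm {n : ℕ} (Q : Matrix (Fin n) (Fin n) ℝ) (v : Fin n → ℝ) : ℝ := √(QF Q v)

/-- `Q` is symmetric and `A⁻¹ ‖v‖² ≤ Q v ≤ A ‖v‖²`. -/
def Ell {n : ℕ} (A : ℝ) (Q : Matrix (Fin n) (Fin n) ℝ) : Prop :=
  Q.IsSymm ∧ ∀ v : Fin n → ℝ, ‖v‖ ^ 2 ≤ A * QF Q v ∧ QF Q v ≤ A * ‖v‖ ^ 2

/-- the symmetric matrices which are comparable, with constant `A`, to all the forms
`v ↦ ‖J k v‖²`. -/
def KKJ {n : ℕ} (A : ℝ) (J : ℤ → Matrix (Fin n) (Fin n) ℝ) : Set (Matrix (Fin n) (Fin n) ℝ) :=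
  {Q | Q.IsSymm ∧ ∀ (k : ℤ) (v : Fin n → ℝ),
    ‖J k *ᵥ v‖ ^ 2 ≤ A * QF Q v ∧ QF Q v ≤ A * ‖J k *ᵥ v‖ ^ 2}

/-- A continuous `F`-invariant Riemannian metric on the torus, `A` the ellipticity constant. -/
structure Met {n : ℕ} (F : (Fin n → ℝ) → (Fin n → ℝ)) (A : ℝ)
    (m : (Fin n → ℝ) → Matrix (Fin n) (Fin n) ℝ) : Prop where
  cont : Continuous m
  ell : ∀ x, Ell A (m x)
  per : ∀ (x : Fin n → ℝ) (k : Fin n → ℤ), m (x + fun i => (k i : ℝ)) = m x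
  inv : ∀ x v, QF (m (F x)) (fderiv ℝ F x v) = QF (m x) v

end QPR
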