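import Pool.Agent.Lib.QPR.TMin
import Pool.Agent.Lib.QPA.LDef

set_option autoImplicit false

namespace QPR

private theorem LDense_pr_add {d : ℕ} (x y : Fin d → ℝ) : pr (x + y) = pr x + pr y := by
  funext i
  simp [pr]

private theorem LDense_pr_int {d : ℕ} (k : Fin d → ℤ) : pr (fun i => (k i : ℝ)) = 0 := by
  funext i
  show ((k i : ℝ) : UnitAddCircle) = 0
  rw [AddCircle.coe_eq_zero_iff]
  exact ⟨k i, by simp⟩

private theorem LDense_pr_zero {d : ℕ} : pr (0 : Fin d → ℝ) = 0 := by
  funext i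
  simp [pr]

private theorem LDense_pr_cont {d : ℕ} :
    Continuous (pr : (Fin d → ℝ) → UnitAddTorus (Fin d)) := by
  refine continuous_pi fun i => ?_
  exact (AddCircle.continuous_mk' (1 : ℝ)).comp (continuous_apply i)

/-- The closure of the multiples of `pr α` is the whole torus. -/
private theorem LDense_zmul {n : ℕ} {α : Fin n → ℝ} (hα : DioV α) (θ : Fin n → ℝ) :
    pr θ ∈ closure (Set.range fun k : ℤ => k • pr α) := by
  set a : UnitAddTorus (Fin n) := pr α with ha
  set R : Set (UnitAddTorus (Fin n)) := Set.range fun k : ℤ => k • a with hR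
  have h0 : (0 : UnitAddTorus (Fin n)) ∈ R := ⟨0, by simp⟩
  have hne : R.Nonempty := ⟨0, h0⟩
  have himg : (fun z => z + a) '' R = R := by
    ext z
    constructor
    · rintro ⟨_, ⟨k, rfl⟩, rfl⟩
      exact ⟨k + 1, by simp [add_zsmul]⟩
    · rintro ⟨k, rfl⟩
      exact ⟨(k - 1) • a, ⟨k - 1, rfl⟩, by simp [sub_zsmul]⟩
  have hinv : ∀ y, Metric.infDist (y + a) R = Metric.infDist y R := by
    intro y
    have hiso : Isometry (fun z : UnitAddTorus (Fin n) => z + a) :=
      Isometry.of_dist_eq fun x y => dist_add_right x y a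
    have h1 := Metric.infDist_image (t := R) (x := y) hiso
    rw [himg] at h1
    exact h1
  have hq := coh_inv α 1 (fun ξ hξ => by
      rw [one_mul]
      rcases hξ with hξ | hξ
      · exact hα.ne ξ hξ
      · exact absurd rfl hξ) (fun x => ((Metric.infDist (pr x) R : ℝ) : ℂ))
    (Complex.continuous_ofReal.comp ((Metric.continuous_infDist_pt R).comp LDense_pr_cont))
    (by
      intro x k
      show ((Metric.infDist (pr (x + fun i => (k i : ℝ))) R : ℝ) : ℂ) = _
      rw [LDense_pr_add, LDense_pr_int, add_zero])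
    (by
      intro x
      show 1 * ((Metric.infDist (pr (x + α)) R : ℝ) : ℂ) = _
      rw [LDense_pr_add, ← ha, hinv, one_mul])
  have h1 := hq θ
  have h2 := hq 0
  rw [← h2] at h1
  have h3 : Metric.infDist (pr θ) R = Metric.infDist (pr (0 : Fin n → ℝ)) R := by
    exact_mod_cast h1
  rw [LDense_pr_zero, Metric.infDist_zero_of_mem h0] at h3
  exact (Metric.mem_closure_iff_infDist_zero hne).mpr h3

/-- `{k α + l : k ∈ ℕ, l ∈ ℤ^n}` is dense in `ℝ^n` for a Diophantine vector `α`. (Let `S` be the closure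
in `UnitAddTorus (Fin n)` of `{k • pr α : k ∈ ℕ}`, a closed subsemigroup of a compact group, hence a
closed subgroup; or: for the continuous function `u = infDist · S` on the torus, `u (y + pr α) ≤ u y`
and `u`, `u ∘ (· + pr α)` have the same integral, so `u (y + pr α) = u y` and `u` is constant by
`coh_inv` (with `lam = 1`, `DioV.ne`), so `u = u 0 = 0`. Any other proof is fine.) -/
theorem dioV_dense {n : ℕ} {α : Fin n → ℝ} (hα : DioV α) (θ : Fin n → ℝ) (ε : ℝ) (hε : 0 < ε) :
    ∃ (k : ℕ) (l : Fin n → ℤ), ‖((k : ℝ) • α + fun i => (l i : ℝ)) - θ‖ ≤ ε := by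
  have h1 := LDense_zmul hα θ
  rw [closure_range_zsmul_eq_nsmul] at h1
  obtain ⟨_, ⟨k, rfl⟩, hk⟩ := Metric.mem_closure_iff.mp h1 ε hε
  refine ⟨k, fun i => -round ((k : ℝ) * α i - θ i), ?_⟩
  rw [pi_norm_le_iff_of_nonneg hε.le]
  intro i
  have h2 : dist (pr θ i) ((k • pr α : UnitAddTorus (Fin n)) i) < ε :=
    (dist_le_pi_dist _ _ i).trans_lt hk
  have h3 : (k • pr α : UnitAddTorus (Fin n)) i - pr θ i
      = (((k : ℝ) * α i - θ i : ℝ) : UnitAddCircle) := by
    simp only [pr, Pi.smul_apply]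
    rw [AddCircle.coe_sub, ← nsmul_eq_mul, AddCircle.coe_nsmul]
  rw [dist_comm, dist_eq_norm, h3, UnitAddCircle.norm_eq] at h2
  rw [Real.norm_eq_abs]
  refine le_of_lt ?_
  refine lt_of_eq_of_lt ?_ h2
  congr 1
  simp only [Pi.sub_apply, Pi.add_apply, Pi.smul_apply, smul_eq_mul]
  push_cast
  ring

end QPR
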