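import Pool.Agent.Lib.QPA.LTr
import Pool.Agent.Lib.QPA.LDense

set_option autoImplicit false

namespace QPR

variable {n : ℕ} {α : Fin n → ℝ} {F F' H H' : (Fin n → ℝ) → (Fin n → ℝ)}

/-- If the derivatives of `F^k`, `k ∈ ℕ`, are bounded by `C` then all `Tr θ` are `C`-Lipschitz:
`Tr (k α + l) x = F^k x + l` is `C`-Lipschitz (mean value inequality, convexity), pass to the limit
(`dioV_dense`, continuity of `θ ↦ Tr θ x`). -/
theorem tr_lip (hd : DatA α F F' H H') (ha : DioV α) (C : ℝ)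
    (hC : ∀ (k : ℕ) (x : Fin n → ℝ), ‖fderiv ℝ (F^[k]) x‖ ≤ C) (θ x y : Fin n → ℝ) :
    ‖Tr H H' θ x - Tr H H' θ y‖ ≤ C * ‖x - y‖ := by
  have hdiff : ∀ k : ℕ, Differentiable ℝ (F^[k]) := by
    intro k
    have h1 : Itz α H H' (k : ℤ) = F^[k] := by
      funext x
      exact itz_nat hd k x
    have h2 : Smo (Itz α H H' (k : ℤ)) := itz_smo hd (k : ℤ)
    rw [h1] at h2
    exact h2.differentiable (by simp)
  have hlip : ∀ (k : ℕ) (x y : Fin n → ℝ), ‖F^[k] x - F^[k] y‖ ≤ C * ‖x - y‖ := by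
    intro k x y
    exact convex_univ.norm_image_sub_le_of_norm_fderiv_le
      (fun z _ => (hdiff k) z) (fun z _ => hC k z) (Set.mem_univ y) (Set.mem_univ x)
  have hpt : ∀ (k : ℕ) (l : Fin n → ℤ) (z : Fin n → ℝ),
      Tr H H' ((k : ℝ) • α + fun i => (l i : ℝ)) z = F^[k] z + fun i => (l i : ℝ) := by
    intro k l z
    rw [tr_add_int hd, ← itz_nat hd k z]
    simp [Itz]
  have hcont : Continuous (fun t : Fin n → ℝ => ‖Tr H H' t x - Tr H H' t y‖) := by
    have h1 := tr_cont hd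
    have hx : Continuous (fun t : Fin n → ℝ => Tr H H' t x) :=
      h1.comp (continuous_id.prodMk continuous_const)
    have hy : Continuous (fun t : Fin n → ℝ => Tr H H' t y) :=
      h1.comp (continuous_id.prodMk continuous_const)
    exact (hx.sub hy).norm
  have hclosed : IsClosed {t : Fin n → ℝ | ‖Tr H H' t x - Tr H H' t y‖ ≤ C * ‖x - y‖} :=
    isClosed_le hcont continuous_const
  have hmem : θ ∈ closure {t : Fin n → ℝ | ‖Tr H H' t x - Tr H H' t y‖ ≤ C * ‖x - y‖} := by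
    rw [Metric.mem_closure_iff]
    intro ε hε
    obtain ⟨k, l, hkl⟩ := dioV_dense ha θ (ε / 2) (by linarith)
    refine ⟨(k : ℝ) • α + fun i => (l i : ℝ), ?_, ?_⟩
    · show ‖_ - _‖ ≤ _
      rw [hpt, hpt]
      have := hlip k x y
      simpa using this
    · rw [dist_comm, dist_eq_norm]
      linarith
  rw [hclosed.closure_eq] at hmem
  exact hmem

/-- all `F^k`, `k ∈ ℤ`, have derivative bounded by `C`. -/
theorem itz_fderiv_le (C : ℝ) (hC0 : 0 ≤ C)
    (hC : ∀ θ x y : Fin n → ℝ, ‖Tr H H' θ x - Tr H H' θ y‖ ≤ C * ‖x - y‖) (k : ℤ)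
    (x : Fin n → ℝ) : ‖fderiv ℝ (Itz α H H' k) x‖ ≤ C := by
  have hl : LipschitzWith ⟨C, hC0⟩ (Itz α H H' k) := by
    refine LipschitzWith.of_dist_le_mul ?_
    intro a b
    rw [dist_eq_norm, dist_eq_norm]
    exact hC _ a b
  exact norm_fderiv_le_of_lipschitz ℝ hl

end QPR
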