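import Pool.Agent.Lib.QPA.GDens
import Pool.Agent.Lib.QPA.GLip
import Pool.Agent.Lib.QPA.GChain
import Pool.Agent.Lib.QPA.LLip

set_option autoImplicit false

namespace QPR

variable {n : ℕ} {α : Fin n → ℝ} {F F' H H' : (Fin n → ℝ) → (Fin n → ℝ)}

/-- The growth criterion. `P = τ + 2 n + 1`. `H'` is also Hoelder for `‖z - w‖ ≤ 2` (midpoint, constant
`2 C₁`). `S i` = the vectors `k α + l` with `k ≤ C ((1/2)^(i+1))^(-P)` (`dens_rate`). For `v ∈ S i`,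
`‖v‖ ≤ 2 (1/2)^i`: `lip_close` with `a = 2 C₁ (2 (1/2)^i)^g`, `b = C₂ (k+1)^κ ≤ C' 2^(i P κ)`: `√(a b) ≤ E ρ^i` with
`ρ = 2^(-(g - P κ)/2) < 1`. `chain_lip` gives the Lipschitz bound for `Tr (k α) = F^[k]`
(`itz_nat`), hence for the derivative. -/
theorem bdd_of_growth (hd : DatA α F F' H H') {γ τ : ℝ} (hα : DioE α γ τ) (g κ C₁ C₂ : ℝ)
    (hg : 0 < g) (hκ : 0 ≤ κ) (hgκ : κ * (τ + 2 * n + 1) < g)
    (hH : ∀ z w : Fin n → ℝ, ‖z - w‖ ≤ 1 → ‖H' z - H' w‖ ≤ C₁ * ‖z - w‖ ^ g)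
    (hD : ∀ (k : ℕ) (x : Fin n → ℝ), ‖iteratedFDeriv ℝ 2 (F^[k]) x‖ ≤ C₂ * ((k : ℝ) + 1) ^ κ) :
    ∃ C : ℝ, ∀ (k : ℕ) (x : Fin n → ℝ), ‖fderiv ℝ (F^[k]) x‖ ≤ C := by
  obtain ⟨C, hC1, hdens⟩ := dens_rate hα
  set P : ℝ := τ + 2 * n + 1 with hP
  have hτ : 0 < τ := hα.2.1
  have hP0 : 0 < P := by
    have : (0 : ℝ) ≤ n := Nat.cast_nonneg n
    rw [hP]; linarith
  set D₁ : ℝ := max C₁ 0 with hD₁
  set D₂ : ℝ := max C₂ 0 with hD₂
  have hD₁0 : 0 ≤ D₁ := le_max_right _ _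
  have hD₂0 : 0 ≤ D₂ := le_max_right _ _
  -- Hoelder at distance two
  have hH2 : ∀ z v : Fin n → ℝ, ‖v‖ ≤ 2 → ‖H' (z + v) - H' z‖ ≤ 2 * D₁ * ‖v‖ ^ g := by
    intro z v hv
    have hv2 : ‖(1 / 2 : ℝ) • v‖ = ‖v‖ / 2 := by
      rw [norm_smul, Real.norm_eq_abs, abs_of_pos (by norm_num : (0 : ℝ) < 1 / 2)]; ring
    have hle : (‖v‖ / 2) ^ g ≤ ‖v‖ ^ g :=
      Real.rpow_le_rpow (by positivity) (by linarith [norm_nonneg v]) hg.le
    have hnn : 0 ≤ (‖v‖ / 2) ^ g := Real.rpow_nonneg (by positivity) _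
    have key : ∀ x y : Fin n → ℝ, x - y = (1 / 2 : ℝ) • v →
        ‖H' x - H' y‖ ≤ D₁ * ‖v‖ ^ g := by
      intro x y hxy
      have h1 := hH x y (by rw [hxy, hv2]; linarith)
      rw [hxy, hv2] at h1
      calc ‖H' x - H' y‖ ≤ C₁ * (‖v‖ / 2) ^ g := h1
        _ ≤ D₁ * (‖v‖ / 2) ^ g := mul_le_mul_of_nonneg_right (le_max_left _ _) hnn
        _ ≤ D₁ * ‖v‖ ^ g := mul_le_mul_of_nonneg_left hle hD₁0
    have h1 := key (z + v) (z + (1 / 2 : ℝ) • v) (by module)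
    have h2 := key (z + (1 / 2 : ℝ) • v) z (by module)
    have h3 : H' (z + v) - H' z = (H' (z + v) - H' (z + (1 / 2 : ℝ) • v))
        + (H' (z + (1 / 2 : ℝ) • v) - H' z) := by abel
    rw [h3]
    refine (norm_add_le _ _).trans ?_
    linarith
  -- the rate
  set q : ℝ := (1 / 2 : ℝ) ^ (g - P * κ) with hq
  have hq0 : 0 < q := Real.rpow_pos_of_pos (by norm_num) _
  have hq1 : q < 1 := Real.rpow_lt_one (by norm_num) (by norm_num) (by
    have : κ * P < g := hgκ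
    linarith [mul_comm κ P])
  set ρ : ℝ := √q with hρ
  have hρ0 : 0 ≤ ρ := Real.sqrt_nonneg _
  have hρ1 : ρ < 1 := by
    rw [hρ, Real.sqrt_lt' one_pos]; linarith
  set K : ℝ := 2 * D₁ * (2 : ℝ) ^ g * (D₂ * (2 * C) ^ κ * (2 : ℝ) ^ (P * κ)) with hK
  have hK0 : 0 ≤ K := by positivity
  set S : ℕ → Set (Fin n → ℝ) := fun i => {v | ∃ (k : ℕ) (l : Fin n → ℤ),
    v = (k : ℝ) • α + (fun i => (l i : ℝ)) ∧
    (k : ℝ) ≤ C * (((1 / 2 : ℝ) ^ (i + 1)) ^ (-P))} with hS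
  obtain ⟨C', hC'0, hC'⟩ := chain_lip hd S (4 * √K) ρ (by positivity) hρ0 hρ1 (by
    intro i θ
    obtain ⟨k, l, hk, hkl⟩ := hdens θ ((1 / 2 : ℝ) ^ (i + 1)) (by positivity)
      (pow_le_one₀ (by norm_num) (by norm_num))
    exact ⟨_, ⟨k, l, rfl, hk⟩, hkl⟩) (by
    rintro i v ⟨k, l, rfl, hk⟩ hv x y
    have hi1 : (1 / 2 : ℝ) ^ i ≤ 1 := pow_le_one₀ (by norm_num) (by norm_num)
    have hi0 : (0 : ℝ) < (1 / 2 : ℝ) ^ i := by positivity
    set a : ℝ := 2 * D₁ * (2 * (1 / 2 : ℝ) ^ i) ^ g with ha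
    set b : ℝ := D₂ * ((k : ℝ) + 1) ^ κ with hb
    have ha0 : 0 ≤ a := by positivity
    have hb0 : 0 ≤ b := by positivity
    have h1 := lip_close hd a b ha0 hb0 k l (by
      intro z
      refine (hH2 z _ (by linarith)).trans ?_
      rw [ha]
      exact mul_le_mul_of_nonneg_left (Real.rpow_le_rpow (norm_nonneg _) hv hg.le)
        (by positivity)) (by
      intro x
      refine (hD k x).trans ?_
      rw [hb]
      exact mul_le_mul_of_nonneg_right (le_max_left _ _) (by positivity)) x y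
    refine h1.trans ?_
    refine mul_le_mul_of_nonneg_right ?_ (norm_nonneg _)
    -- √(a b) ≤ √K ρ^i
    have hab : a * b ≤ K * q ^ i := by
      have e1 : (((1 / 2 : ℝ) ^ (i + 1)) ^ (-P)) = (2 : ℝ) ^ (((i : ℝ) + 1) * P) := by
        rw [← Real.rpow_natCast, ← Real.rpow_mul (by norm_num),
          show (1 / 2 : ℝ) = (2 : ℝ)⁻¹ by norm_num, Real.inv_rpow (by norm_num),
          ← Real.rpow_neg (by norm_num)]
        congr 1
        push_cast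
        ring
      rw [e1] at hk
      have hone : (1 : ℝ) ≤ (2 : ℝ) ^ (((i : ℝ) + 1) * P) :=
        Real.one_le_rpow (by norm_num) (by positivity)
      have h2 : (k : ℝ) + 1 ≤ (2 * C) * (2 : ℝ) ^ (((i : ℝ) + 1) * P) := by
        have : 1 ≤ C * (2 : ℝ) ^ (((i : ℝ) + 1) * P) := by
          calc (1 : ℝ) = 1 * 1 := by ring
            _ ≤ C * (2 : ℝ) ^ (((i : ℝ) + 1) * P) := mul_le_mul hC1 hone zero_le_one (by linarith)
        linarith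
      have h3 : ((k : ℝ) + 1) ^ κ ≤ (2 * C) ^ κ * (2 : ℝ) ^ (((i : ℝ) + 1) * P * κ) := by
        calc ((k : ℝ) + 1) ^ κ ≤ ((2 * C) * (2 : ℝ) ^ (((i : ℝ) + 1) * P)) ^ κ :=
              Real.rpow_le_rpow (by positivity) h2 hκ
          _ = (2 * C) ^ κ * (2 : ℝ) ^ (((i : ℝ) + 1) * P * κ) := by
              rw [Real.mul_rpow (by linarith) (by positivity), ← Real.rpow_mul (by norm_num)]
      have e2 : (2 : ℝ) ^ (((i : ℝ) + 1) * P * κ) = (2 : ℝ) ^ (P * κ) * ((2 : ℝ) ^ (P * κ)) ^ i := by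
        rw [← Real.rpow_natCast ((2 : ℝ) ^ (P * κ)) i, ← Real.rpow_mul (by norm_num),
          ← Real.rpow_add (by norm_num)]
        congr 1
        ring
      have e3 : (2 * (1 / 2 : ℝ) ^ i) ^ g = (2 : ℝ) ^ g * ((1 / 2 : ℝ) ^ g) ^ i := by
        rw [Real.mul_rpow (by norm_num) (by positivity), ← Real.rpow_natCast (1 / 2 : ℝ) i,
          ← Real.rpow_mul (by norm_num), mul_comm (i : ℝ) g, Real.rpow_mul (by norm_num),
          Real.rpow_natCast]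
      have e4 : q = (1 / 2 : ℝ) ^ g * (2 : ℝ) ^ (P * κ) := by
        rw [hq, Real.rpow_sub (by norm_num), div_eq_mul_inv, ← Real.inv_rpow (by norm_num)]
        norm_num
      rw [e2] at h3
      rw [ha, hb, e3, hK, e4, mul_pow]
      have h4 : D₂ * ((k : ℝ) + 1) ^ κ ≤
          D₂ * ((2 * C) ^ κ * ((2 : ℝ) ^ (P * κ) * ((2 : ℝ) ^ (P * κ)) ^ i)) :=
        mul_le_mul_of_nonneg_left h3 hD₂0
      calc 2 * D₁ * ((2 : ℝ) ^ g * ((1 / 2 : ℝ) ^ g) ^ i) * (D₂ * ((k : ℝ) + 1) ^ κ)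
          ≤ 2 * D₁ * ((2 : ℝ) ^ g * ((1 / 2 : ℝ) ^ g) ^ i) *
            (D₂ * ((2 * C) ^ κ * ((2 : ℝ) ^ (P * κ) * ((2 : ℝ) ^ (P * κ)) ^ i))) :=
            mul_le_mul_of_nonneg_left h4 (by positivity)
        _ = _ := by ring
    have h5 : √(a * b) ≤ √K * ρ ^ i := by
      calc √(a * b) ≤ √(K * q ^ i) := Real.sqrt_le_sqrt hab
        _ = √K * √(q ^ i) := Real.sqrt_mul hK0 _
        _ = √K * ρ ^ i := by
            congr 1
            rw [Real.sqrt_eq_iff_mul_self_eq (by positivity) (by positivity), ← mul_pow, hρ,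
              Real.mul_self_sqrt hq0.le]
    linarith)
  refine ⟨C', fun k x => ?_⟩
  have h1 := itz_fderiv_le (α := α) C' hC'0 hC' (k : ℤ) x
  have h2 : Itz α H H' (k : ℤ) = F^[k] := by
    funext x
    exact itz_nat hd k x
  rw [h2] at h1
  exact h1

end QPR
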