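import Pool.Agent.Lib.QPA.GSv
import Pool.Agent.Lib.QPA.GLip
import Pool.Agent.Lib.QPA.GChain
import Pool.Agent.Lib.QPA.LLip

set_option autoImplicit false

namespace QPR

variable {n : ℕ} {α : Fin n → ℝ} {F F' H H' : (Fin n → ℝ) → (Fin n → ℝ)}

/-- The growth criterion without Hoelder hypothesis. `n = 0` is trivial. Otherwise as in `bdd_of_growth`
(GBdd), with `disp_bdd_index` (`g = 1 - 2Pκ`, `κ P < g`) in place of the Hoelder hypothesis: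
`S i` = the vectors `kal α k l` with `k ≤ C ((1/2)^(i+1))^(-P)` (`dens_rate`), `C₃ = C 2^P`, `δ = (1/2)^i`; for
`v ∈ S i`, `‖v‖ ≤ 2 (1/2)^i`: `lip_close` with `a = C₁ ((1/2)^i)^g`, `b = C₂ (k+1)^κ ≤ C' 2^(i P κ)`:
`√(a b) ≤ E ρ^i`, `ρ = 2^(-(g - P κ)/2) < 1`; `chain_lip`. -/
theorem bdd_of_growth2 (hd : DatA α F F' H H') {γ τ : ℝ} (hα : DioE α γ τ) (κ C : ℝ)
    (hκ0 : 0 < κ) (hκ : κ * (200 * (n + 2) * (τ + 2 * n + 1)) ≤ 1)
    (hD : ∀ (k : ℕ) (x : Fin n → ℝ), ‖iteratedFDeriv ℝ 2 (F^[k]) x‖ ≤ C * ((k : ℝ) + 1) ^ κ) :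
    ∃ C' : ℝ, ∀ (k : ℕ) (x : Fin n → ℝ), ‖fderiv ℝ (F^[k]) x‖ ≤ C' := by
  rcases Nat.eq_zero_or_pos n with hn0 | hn
  · subst hn0
    refine ⟨0, fun k x => ?_⟩
    have : fderiv ℝ (F^[k]) x = 0 := Subsingleton.elim _ _
    rw [this, norm_zero]
  obtain ⟨C0, hC1, hdens⟩ := dens_rate hα
  obtain ⟨C2, hC2, hG⟩ := gro_of_second hd κ C hκ0.le hD
  set P : ℝ := τ + 2 * n + 1 with hP
  have hτ : 0 < τ := hα.2.1
  have hn1 : (1 : ℝ) ≤ n := by exact_mod_cast hn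
  have hP3 : 3 ≤ P := by
    rw [hP]; linarith
  have hP0 : 0 < P := by linarith
  have hC₃ : (1 : ℝ) ≤ C0 * (2 : ℝ) ^ P := by
    have h1 : (1 : ℝ) ≤ (2 : ℝ) ^ P := Real.one_le_rpow (by norm_num) hP0.le
    nlinarith
  obtain ⟨C₁, hC₁, hdisp⟩ := disp_bdd_index hn hd hα P hP hκ0 hκ hC2 hG (C0 * (2 : ℝ) ^ P) hC₃
  have hPκ : P * κ ≤ 1 / 600 := by
    have h1 : κ * (200 * (3 * P)) ≤ κ * (200 * (n + 2) * P) := by
      apply mul_le_mul_of_nonneg_left _ hκ0.le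
      nlinarith
    nlinarith
  have hPκ0 : 0 < P * κ := mul_pos hP0 hκ0
  set g : ℝ := 1 - 2 * P * κ with hg'
  have hg : 0 < g := by rw [hg']; nlinarith
  -- the rate
  set q : ℝ := (1 / 2 : ℝ) ^ (g - P * κ) with hq
  have hq0 : 0 < q := Real.rpow_pos_of_pos (by norm_num) _
  have hq1 : q < 1 := Real.rpow_lt_one (by norm_num) (by norm_num) (by
    rw [hg']; nlinarith)
  set ρ : ℝ := √q with hρ
  have hρ0 : 0 ≤ ρ := Real.sqrt_nonneg _
  have hρ1 : ρ < 1 := by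
    rw [hρ, Real.sqrt_lt' one_pos]; linarith
  set K : ℝ := C₁ * (C2 * (2 * C0) ^ κ * (2 : ℝ) ^ (P * κ)) with hK
  have hK0 : 0 ≤ K := by positivity
  set S : ℕ → Set (Fin n → ℝ) := fun i => {v | ∃ (k : ℕ) (l : Fin n → ℤ),
    v = (k : ℝ) • α + (fun i => (l i : ℝ)) ∧
    (k : ℝ) ≤ C0 * (((1 / 2 : ℝ) ^ (i + 1)) ^ (-P))} with hS
  obtain ⟨C', hC'0, hC'⟩ := chain_lip hd S (4 * √K) ρ (by positivity) hρ0 hρ1 (by
    intro i θ
    obtain ⟨k, l, hk, hkl⟩ := hdens θ ((1 / 2 : ℝ) ^ (i + 1)) (by positivity)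
      (pow_le_one₀ (by norm_num) (by norm_num))
    exact ⟨_, ⟨k, l, rfl, hk⟩, hkl⟩) (by
    rintro i v ⟨k, l, rfl, hk⟩ hv x y
    have hi1 : (1 / 2 : ℝ) ^ i ≤ 1 := pow_le_one₀ (by norm_num) (by norm_num)
    have hi0 : (0 : ℝ) < (1 / 2 : ℝ) ^ i := by positivity
    set a : ℝ := C₁ * ((1 / 2 : ℝ) ^ i) ^ g with ha
    set b : ℝ := C2 * ((k : ℝ) + 1) ^ κ with hb
    have ha0 : 0 ≤ a := by positivity
    have hb0 : 0 ≤ b := by positivity
    have hk' : (k : ℝ) ≤ C0 * (2 : ℝ) ^ P * ((1 / 2 : ℝ) ^ i) ^ (-P) := by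
      refine hk.trans (le_of_eq ?_)
      rw [pow_succ, Real.mul_rpow (by positivity) (by norm_num), mul_assoc]
      congr 1
      rw [show (1 / 2 : ℝ) ^ (-P) = (2 : ℝ) ^ P by
        rw [show (1 / 2 : ℝ) = (2 : ℝ)⁻¹ by norm_num, Real.inv_rpow (by norm_num),
          ← Real.rpow_neg (by norm_num), neg_neg]]
      ring
    have h1 := lip_close hd a b ha0 hb0 k l (by
      intro z
      exact hdisp ((1 / 2 : ℝ) ^ i) hi0 hi1 k l hk' hv z) (by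
      intro x
      exact (hG k x).2) x y
    refine h1.trans ?_
    refine mul_le_mul_of_nonneg_right ?_ (norm_nonneg _)
    -- √(a b) ≤ √K ρ^i
    have hab : a * b ≤ K * q ^ i := by
      have e1 : (((1 / 2 : ℝ) ^ (i + 1)) ^ (-P)) = (2 : ℝ) ^ (((i : ℝ) + 1) * P) := by
        rw [← Real.rpow_natCast, ← Real.rpow_mul (by norm_num),
          show (1 / 2 : ℝ) = (2 : ℝ)⁻¹ by norm_num, Real.inv_rpow (by norm_num),
          ← Real.rpow_neg (by norm_num)]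
        congr 1
        push_cast
        ring
      rw [e1] at hk
      have hone : (1 : ℝ) ≤ (2 : ℝ) ^ (((i : ℝ) + 1) * P) :=
        Real.one_le_rpow (by norm_num) (by positivity)
      have h2 : (k : ℝ) + 1 ≤ (2 * C0) * (2 : ℝ) ^ (((i : ℝ) + 1) * P) := by
        have : 1 ≤ C0 * (2 : ℝ) ^ (((i : ℝ) + 1) * P) := by
          calc (1 : ℝ) = 1 * 1 := by ring
            _ ≤ C0 * (2 : ℝ) ^ (((i : ℝ) + 1) * P) := mul_le_mul hC1 hone zero_le_one (by linarith)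
        linarith
      have h3 : ((k : ℝ) + 1) ^ κ ≤ (2 * C0) ^ κ * (2 : ℝ) ^ (((i : ℝ) + 1) * P * κ) := by
        calc ((k : ℝ) + 1) ^ κ ≤ ((2 * C0) * (2 : ℝ) ^ (((i : ℝ) + 1) * P)) ^ κ :=
              Real.rpow_le_rpow (by positivity) h2 hκ0.le
          _ = (2 * C0) ^ κ * (2 : ℝ) ^ (((i : ℝ) + 1) * P * κ) := by
              rw [Real.mul_rpow (by linarith) (by positivity), ← Real.rpow_mul (by norm_num)]
      have e2 : (2 : ℝ) ^ (((i : ℝ) + 1) * P * κ) = (2 : ℝ) ^ (P * κ) * ((2 : ℝ) ^ (P * κ)) ^ i := by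
        rw [← Real.rpow_natCast ((2 : ℝ) ^ (P * κ)) i, ← Real.rpow_mul (by norm_num),
          ← Real.rpow_add (by norm_num)]
        congr 1
        ring
      have e3 : ((1 / 2 : ℝ) ^ i) ^ g = ((1 / 2 : ℝ) ^ g) ^ i := by
        rw [← Real.rpow_natCast (1 / 2 : ℝ) i,
          ← Real.rpow_mul (by norm_num), mul_comm (i : ℝ) g, Real.rpow_mul (by norm_num),
          Real.rpow_natCast]
      have e4 : q = (1 / 2 : ℝ) ^ g * (2 : ℝ) ^ (P * κ) := by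
        rw [hq, Real.rpow_sub (by norm_num), div_eq_mul_inv, ← Real.inv_rpow (by norm_num)]
        norm_num
      rw [e2] at h3
      rw [ha, hb, e3, hK, e4, mul_pow]
      have h4 : C2 * ((k : ℝ) + 1) ^ κ ≤
          C2 * ((2 * C0) ^ κ * ((2 : ℝ) ^ (P * κ) * ((2 : ℝ) ^ (P * κ)) ^ i)) :=
        mul_le_mul_of_nonneg_left h3 (by linarith)
      calc C₁ * ((1 / 2 : ℝ) ^ g) ^ i * (C2 * ((k : ℝ) + 1) ^ κ)
          ≤ C₁ * ((1 / 2 : ℝ) ^ g) ^ i *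
            (C2 * ((2 * C0) ^ κ * ((2 : ℝ) ^ (P * κ) * ((2 : ℝ) ^ (P * κ)) ^ i))) :=
            mul_le_mul_of_nonneg_left h4 (by positivity)
        _ = _ := by ring
    have h5 : √(a * b) ≤ √K * ρ ^ i := by
      calc √(a * b) ≤ √(K * q ^ i) := Real.sqrt_le_sqrt hab
        _ = √K * √(q ^ i) := Real.sqrt_mul hK0 _
        _ = √K * ρ ^ i := by
            congr 1
            rw [Real.sqrt_eq_iff_mul_self_eq (by positivity) (by positivity), ← mul_pow, hρ,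
              Real.mul_self_sqrt hq0.le]
    linarith)
  refine ⟨C', fun k x => ?_⟩
  have h1 := itz_fderiv_le (α := α) C' hC'0 hC' (k : ℤ) x
  have h2 : Itz α H H' (k : ℤ) = F^[k] := by
    funext x
    exact itz_nat hd k x
  rw [h2] at h1
  exact h1

end QPR
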