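import Pool.Agent.Lib.QPA.LDef

set_option autoImplicit false

/-!
# The growth criterion: definitions
-/

namespace QPR

/-- Diophantine vectors with explicit constants (`DioV α` is `∃ γ τ, DioE α γ τ`). -/
def DioE {n : ℕ} (α : Fin n → ℝ) (γ τ : ℝ) : Prop :=
  0 < γ ∧ 0 < τ ∧ ∀ k : Fin n → ℤ, k ≠ 0 → ∀ m : ℤ,
    γ / (∑ i, |(k i : ℝ)|) ^ τ ≤ |∑ i, (k i : ℝ) * α i - (m : ℝ)|

theorem DioE.dioV {n : ℕ} {α : Fin n → ℝ} {γ τ : ℝ} (h : DioE α γ τ) : DioV α :=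
  ⟨γ, h.1, τ, h.2.1, h.2.2⟩

theorem DioV.dioE {n : ℕ} {α : Fin n → ℝ} (h : DioV α) : ∃ γ τ : ℝ, DioE α γ τ := by
  obtain ⟨γ, hγ, τ, hτ, hk⟩ := h
  exact ⟨γ, τ, hγ, hτ, hk⟩

end QPR
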