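import Pool.Agent.Lib.QPR.FDecay
import Pool.Agent.Lib.QPR.FInv
import Pool.Agent.Lib.QPA.GDef

set_option autoImplicit false

namespace QPR

/-- the one variable profile. -/
private noncomputable def GBump_u : ContDiffBump (0 : ℝ) :=
  ⟨1, 2, by norm_num, by norm_num⟩

private noncomputable def GBump_W (n : ℕ) (y : Fin n → ℝ) : ℝ := ∏ i, GBump_u (y i)

private noncomputable def GBump_q (θ δ t : ℝ) : ℝ := Real.sin (Real.pi * (t - θ)) / δ

private noncomputable def GBump_Y {n : ℕ} (θ : Fin n → ℝ) (δ : ℝ) (x : Fin n → ℝ) : Fin n → ℝ :=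
  fun i => GBump_q (θ i) δ (x i)

private theorem GBump_Wsmo (n : ℕ) : Smo (GBump_W n) := by
  unfold GBump_W
  apply contDiff_prod
  intro i _
  exact (GBump_u.contDiff).comp (contDiff_apply ℝ ℝ i)

private theorem GBump_Wcpt (n : ℕ) : HasCompactSupport (GBump_W n) := by
  refine HasCompactSupport.intro (isCompact_closedBall (0 : Fin n → ℝ) 2) ?_
  intro y hy
  rw [mem_closedBall_zero_iff, pi_norm_le_iff_of_nonneg (by norm_num)] at hy
  push Not at hy
  obtain ⟨i, hi⟩ := hy
  unfold GBump_W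
  refine Finset.prod_eq_zero (Finset.mem_univ i) ?_
  apply GBump_u.zero_of_le_dist
  rw [dist_zero_right]
  exact hi.le

private theorem GBump_Wbd (n : ℕ) (p : ℕ) :
    ∃ C : ℝ, 0 ≤ C ∧ ∀ i ≤ p, ∀ y, ‖iteratedFDeriv ℝ i (GBump_W n) y‖ ≤ C := by
  have h1 : ∀ i : ℕ, ∃ C : ℝ, ∀ y, ‖iteratedFDeriv ℝ i (GBump_W n) y‖ ≤ C := by
    intro i
    exact ((GBump_Wcpt n).iteratedFDeriv i).exists_bound_of_continuous
      ((GBump_Wsmo n).continuous_iteratedFDeriv (by exact_mod_cast le_top))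
  choose C hC using h1
  refine ⟨∑ i ∈ Finset.range (p + 1), |C i|, Finset.sum_nonneg fun i _ => abs_nonneg _, ?_⟩
  intro i hi y
  refine (hC i y).trans ((le_abs_self _).trans ?_)
  exact Finset.single_le_sum (f := fun i => |C i|) (fun i _ => abs_nonneg _)
    (Finset.mem_range.2 (Nat.lt_succ_of_le hi))

private theorem GBump_qsmo (θ δ : ℝ) : ContDiff ℝ ((⊤ : ℕ∞) : WithTop ℕ∞) (GBump_q θ δ) := by
  unfold GBump_q
  exact (Real.contDiff_sin.comp (contDiff_const.mul (contDiff_id.sub contDiff_const))).div_const δ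

private theorem GBump_qd (θ δ : ℝ) (hδ : 0 < δ) (j : ℕ) (t : ℝ) :
    ‖iteratedFDeriv ℝ j (GBump_q θ δ) t‖ ≤ Real.pi ^ j / δ := by
  rw [norm_iteratedFDeriv_eq_norm_iteratedDeriv]
  have h1 : GBump_q θ δ = fun t => δ⁻¹ * Real.sin (Real.pi * (t - θ)) := by
    funext t
    simp only [GBump_q]
    ring
  have h1b : iteratedDeriv j (fun t => Real.sin (Real.pi * (t - θ))) t =
      Real.pi ^ j * iteratedDeriv j Real.sin (Real.pi * (t - θ)) := by
    have e1 := congrFun (iteratedDeriv_comp_sub_const j (fun z => Real.sin (Real.pi * z)) θ) t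
    have e2 := congrFun (iteratedDeriv_comp_const_mul (n := j) Real.contDiff_sin Real.pi) (t - θ)
    exact e1.trans e2
  rw [h1, iteratedDeriv_const_mul_field, h1b]
  simp only [norm_mul, norm_inv, norm_pow, Real.norm_eq_abs, abs_of_pos hδ,
    abs_of_pos Real.pi_pos]
  have h2 := Real.abs_iteratedDeriv_sin_le_one j (Real.pi * (t - θ))
  have h3 : 0 < Real.pi ^ j := pow_pos Real.pi_pos j
  calc δ⁻¹ * (Real.pi ^ j * |iteratedDeriv j Real.sin (Real.pi * (t - θ))|)
      ≤ δ⁻¹ * (Real.pi ^ j * 1) :=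
        mul_le_mul_of_nonneg_left (mul_le_mul_of_nonneg_left h2 h3.le) (inv_pos.2 hδ).le
    _ = Real.pi ^ j / δ := by ring

private theorem GBump_Ysmo {n : ℕ} (θ : Fin n → ℝ) (δ : ℝ) : Smo (GBump_Y θ δ) := by
  unfold GBump_Y
  rw [Smo, contDiff_pi]
  intro i
  exact (GBump_qsmo (θ i) δ).comp (contDiff_apply ℝ ℝ i)

private theorem GBump_Yd {n : ℕ} (θ : Fin n → ℝ) (δ : ℝ) (hδ : 0 < δ) (hδ1 : δ ≤ 1) (j : ℕ)
    (hj : 1 ≤ j) (x : Fin n → ℝ) :
    ‖iteratedFDeriv ℝ j (GBump_Y θ δ) x‖ ≤ (Real.pi / δ) ^ j := by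
  have hq : Real.pi ^ j / δ ≤ (Real.pi / δ) ^ j := by
    rw [div_pow]
    refine div_le_div_of_nonneg_left (pow_pos Real.pi_pos j).le (pow_pos hδ j) ?_
    exact pow_le_of_le_one hδ.le hδ1 (by omega)
  have h0 : 0 ≤ (Real.pi / δ) ^ j := pow_nonneg (div_pos Real.pi_pos hδ).le j
  refine ContinuousMultilinearMap.opNorm_le_bound h0 ?_
  intro m
  have hm : 0 ≤ ∏ i, ‖m i‖ := Finset.prod_nonneg fun i _ => norm_nonneg _
  rw [pi_norm_le_iff_of_nonneg (mul_nonneg h0 hm)]
  intro i
  have hsm : ContDiffAt ℝ (j : WithTop ℕ∞) (GBump_Y θ δ) x :=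
    ((GBump_Ysmo θ δ).of_le (by exact_mod_cast le_top)).contDiffAt
  have h1 := (ContinuousLinearMap.proj (R := ℝ) (φ := fun _ : Fin n => ℝ) i).iteratedFDeriv_comp_left
    hsm (i := j) le_rfl
  have h2 : (ContinuousLinearMap.proj (R := ℝ) (φ := fun _ : Fin n => ℝ) i) ∘ (GBump_Y θ δ)
      = (GBump_q (θ i) δ) ∘ (ContinuousLinearMap.proj (R := ℝ) (φ := fun _ : Fin n => ℝ) i) := by
    funext y
    simp [GBump_Y]
  have h3 : (iteratedFDeriv ℝ j (GBump_Y θ δ) x) m i
      = iteratedFDeriv ℝ j ((ContinuousLinearMap.proj (R := ℝ) (φ := fun _ : Fin n => ℝ) i) ∘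
        (GBump_Y θ δ)) x m := by
    rw [h1]
    rfl
  rw [h3, h2]
  refine (ContinuousMultilinearMap.le_opNorm _ m).trans (mul_le_mul_of_nonneg_right ?_ hm)
  rw [ContinuousLinearMap.iteratedFDeriv_comp_right _ ((GBump_qsmo (θ i) δ).of_le
    (m := (j : WithTop ℕ∞)) (by exact_mod_cast le_top)) x le_rfl]
  refine (ContinuousMultilinearMap.norm_compContinuousLinearMap_le _ _).trans ?_
  rw [Finset.prod_const, Finset.card_univ, Fintype.card_fin]
  have h4 : ‖(ContinuousLinearMap.proj (R := ℝ) (φ := fun _ : Fin n => ℝ) i)‖ ≤ 1 := by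
    refine ContinuousLinearMap.opNorm_le_bound _ zero_le_one ?_
    intro y
    rw [one_mul]
    exact norm_le_pi_norm y i
  have h5 := GBump_qd (θ i) δ hδ j (x i)
  calc ‖iteratedFDeriv ℝ j (GBump_q (θ i) δ) (x i)‖ *
        ‖(ContinuousLinearMap.proj (R := ℝ) (φ := fun _ : Fin n => ℝ) i)‖ ^ j
      ≤ ‖iteratedFDeriv ℝ j (GBump_q (θ i) δ) (x i)‖ * 1 :=
        mul_le_mul_of_nonneg_left (pow_le_one₀ (norm_nonneg _) h4) (norm_nonneg _)
    _ ≤ (Real.pi / δ) ^ j := by
        rw [mul_one]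
        exact h5.trans hq

/-- near an integer. -/
private theorem GBump_near (t : ℝ) (δ : ℝ)
    (h : |Real.sin (Real.pi * t)| < 2 * δ) : |t - round t| ≤ δ := by
  have h1 : Real.sin (Real.pi * (t - round t)) = (-1) ^ (- round t) * Real.sin (Real.pi * t) := by
    have h2 := Real.sin_add_int_mul_pi (Real.pi * t) (- round t)
    rw [← h2]
    congr 1
    push_cast
    ring
  have h3 : |Real.sin (Real.pi * (t - round t))| < 2 * δ := by
    rw [h1, abs_mul]
    have h4 : |((-1 : ℝ)) ^ (- round t)| = 1 := by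
      rw [abs_zpow, abs_neg, abs_one, one_zpow]
    rw [h4, one_mul]
    exact h
  have hr : |t - round t| ≤ 1 / 2 := abs_sub_round t
  have h5 : 2 * |t - round t| ≤ |Real.sin (Real.pi * (t - round t))| := by
    have h6 := Real.mul_abs_le_abs_sin (x := Real.pi * (t - round t)) (by
      rw [abs_mul, abs_of_pos Real.pi_pos]
      nlinarith [Real.pi_pos])
    rw [abs_mul, abs_of_pos Real.pi_pos] at h6
    have h7 : 2 / Real.pi * (Real.pi * |t - round t|) = 2 * |t - round t| := by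
      field_simp
    rw [h7] at h6
    exact h6
  linarith

/-- Periodic bump functions: smooth, periodic, nonnegative, vanishing at points at distance more than
`δ` from `θ + ℤ^n`, with mean at least `δ^n / C` and derivatives of order `p` bounded by `C δ^(-p)`.
E.g. the product over the coordinates of `u (sin (π (x_i - θ_i)) / δ)` for a fixed smooth
`u : ℝ → [0, 1]`, `u = 1` on `[-1, 1]`, `u = 0` outside `[-2, 2]` (`|sin (π t)| ≥ 2 |t - round t|`, so the
product is zero unless all `|t_i - round t_i| ≤ δ`, and it is one if all `|t_i| ≤ δ/π`). The function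
of `n` variables is `W (y / δ)` with `W (w) = ∏ u (w_i)` and `y_i = sin (π (x_i - θ_i))`; the derivatives
of order `≤ p` of `x ↦ y / δ` are bounded by `(π / δ)^j`, `norm_iteratedFDeriv_comp_le`. -/
theorem exists_bump (n p : ℕ) : ∃ C : ℝ, 1 ≤ C ∧ ∀ (θ : Fin n → ℝ) (δ : ℝ), 0 < δ → δ ≤ 1 →
    ∃ b : (Fin n → ℝ) → ℝ, Smo b ∧ Per b ∧ (∀ x, 0 ≤ b x ∧ b x ≤ 1) ∧
      (∀ x, b x ≠ 0 → ∃ l : Fin n → ℤ, ‖x - θ - fun i => (l i : ℝ)‖ ≤ δ) ∧
      δ ^ n / C ≤ (∫ x in Set.Icc (0 : Fin n → ℝ) 1, b x) ∧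
      ∀ i ≤ p, ∀ x, ‖iteratedFDeriv ℝ i b x‖ ≤ C / δ ^ i := by
  obtain ⟨C0, hC0, hW⟩ := GBump_Wbd n p
  have hfac : (0 : ℝ) ≤ (Nat.factorial p : ℝ) * C0 * Real.pi ^ p :=
    mul_nonneg (mul_nonneg (Nat.cast_nonneg _) hC0) (pow_pos Real.pi_pos p).le
  have h4n : (1 : ℝ) ≤ 4 ^ n := one_le_pow₀ (by norm_num)
  refine ⟨4 ^ n + (Nat.factorial p : ℝ) * C0 * Real.pi ^ p, by linarith, ?_⟩
  intro θ δ hδ hδ1
  set b : (Fin n → ℝ) → ℝ := (GBump_W n) ∘ (GBump_Y θ δ) with hb
  have hbsm : Smo b := (GBump_Wsmo n).comp (GBump_Ysmo θ δ)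
  have hb01 : ∀ x, 0 ≤ b x ∧ b x ≤ 1 := by
    intro x
    change 0 ≤ (∏ i, GBump_u (GBump_Y θ δ x i)) ∧ (∏ i, GBump_u (GBump_Y θ δ x i)) ≤ 1
    refine ⟨Finset.prod_nonneg fun i _ => GBump_u.nonneg, ?_⟩
    exact Finset.prod_le_one (fun i _ => GBump_u.nonneg) (fun i _ => GBump_u.le_one)
  refine ⟨b, hbsm, ?_, hb01, ?_, ?_, ?_⟩
  · intro x k
    simp only [hb, Function.comp_apply, GBump_W]
    refine Finset.prod_congr rfl fun i _ => ?_
    have h1 : GBump_Y θ δ (x + fun i => (k i : ℝ)) i = GBump_Y θ δ x i ∨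
        GBump_Y θ δ (x + fun i => (k i : ℝ)) i = - GBump_Y θ δ x i := by
      have h2 : Real.sin (Real.pi * ((x i + k i) - θ i)) =
          (-1) ^ (k i) * Real.sin (Real.pi * (x i - θ i)) := by
        rw [← Real.sin_add_int_mul_pi]
        congr 1
        ring
      simp only [GBump_Y, GBump_q, Pi.add_apply]
      rw [h2]
      rcases Int.even_or_odd (k i) with he | ho
      · left
        rw [he.neg_one_zpow, one_mul]
      · right
        rw [ho.neg_one_zpow]
        ring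
    rcases h1 with h1 | h1
    · rw [h1]
    · rw [h1, GBump_u.neg]
  · intro x hx
    refine ⟨fun i => round (x i - θ i), ?_⟩
    rw [pi_norm_le_iff_of_nonneg hδ.le]
    intro i
    have h1 : GBump_u (GBump_Y θ δ x i) ≠ 0 := by
      intro h0
      exact hx (Finset.prod_eq_zero (Finset.mem_univ i) h0)
    have h2 : |GBump_Y θ δ x i| < 2 := by
      by_contra hc
      push Not at hc
      exact h1 (GBump_u.zero_of_le_dist (by rw [dist_zero_right]; exact hc))
    have h3 : |Real.sin (Real.pi * (x i - θ i))| < 2 * δ := by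
      simp only [GBump_Y, GBump_q, abs_div, abs_of_pos hδ] at h2
      rwa [div_lt_iff₀ hδ] at h2
    have h4 := GBump_near (x i - θ i) δ h3
    simpa [Real.norm_eq_abs] using h4
  · -- the box
    set a : Fin n → ℝ := fun i =>
      if Int.fract (θ i) ≤ 1 / 2 then Int.fract (θ i) else Int.fract (θ i) - δ / 4 with ha
    have ha0 : ∀ i, 0 ≤ a i ∧ a i + δ / 4 ≤ 1 := by
      intro i
      have h1 := Int.fract_nonneg (θ i)
      have h2 := (Int.fract_lt_one (θ i)).le
      simp only [ha]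
      split_ifs with h
      · exact ⟨h1, by linarith⟩
      · push Not at h
        exact ⟨by linarith, by linarith⟩
    set S : Set (Fin n → ℝ) := Set.Icc a (fun i => a i + δ / 4) with hS
    have hSs : S ⊆ Set.Icc (0 : Fin n → ℝ) 1 := by
      intro x hx
      exact ⟨fun i => (ha0 i).1.trans (hx.1 i), fun i => (hx.2 i).trans (ha0 i).2⟩
    have hone : ∀ x ∈ S, b x = 1 := by
      intro x hx
      change (∏ i, GBump_u (GBump_Y θ δ x i)) = 1
      refine Finset.prod_eq_one fun i _ => ?_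
      apply GBump_u.one_of_mem_closedBall
      rw [mem_closedBall_zero_iff]
      change ‖Real.sin (Real.pi * (x i - θ i)) / δ‖ ≤ 1
      rw [Real.norm_eq_abs, abs_div, abs_of_pos hδ, div_le_one hδ]
      have h1 : Real.sin (Real.pi * (x i - θ i)) =
          (-1) ^ (- ⌊θ i⌋) * Real.sin (Real.pi * (x i - Int.fract (θ i))) := by
        rw [← Real.sin_add_int_mul_pi]
        congr 1
        have := Int.floor_add_fract (θ i)
        push_cast
        linear_combination Real.pi * this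
      rw [h1, abs_mul, abs_zpow, abs_neg, abs_one, one_zpow, one_mul]
      refine (Real.abs_sin_le_abs.trans ?_)
      rw [abs_mul, abs_of_pos Real.pi_pos]
      have h2 : |x i - Int.fract (θ i)| ≤ δ / 4 := by
        have hx1 := hx.1 i
        have hx2 := hx.2 i
        simp only [ha] at hx1 hx2
        rw [abs_le]
        split_ifs at hx1 hx2 with h
        · constructor <;> linarith
        · constructor <;> linarith
      have h3 := Real.pi_le_four
      have h5 := Real.pi_pos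
      nlinarith [abs_nonneg (x i - Int.fract (θ i))]
    have hint : MeasureTheory.IntegrableOn b (Set.Icc (0 : Fin n → ℝ) 1) :=
      hbsm.continuous.continuousOn.integrableOn_compact isCompact_Icc
    have h1 : (∫ x in S, b x) ≤ ∫ x in Set.Icc (0 : Fin n → ℝ) 1, b x := by
      refine MeasureTheory.setIntegral_mono_set hint ?_ (Filter.Eventually.of_forall hSs)
      exact Filter.Eventually.of_forall fun x => (hb01 x).1
    have h2 : (∫ x in S, b x) = (δ / 4) ^ n := by
      rw [MeasureTheory.setIntegral_congr_fun (g := fun _ => (1 : ℝ)) measurableSet_Icc hone]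
      rw [MeasureTheory.setIntegral_const, smul_eq_mul, mul_one, MeasureTheory.measureReal_def,
        Real.volume_Icc_pi_toReal (fun i => by simp only; linarith)]
      simp [div_pow]
    rw [h2] at h1
    refine le_trans ?_ h1
    rw [div_pow]
    refine div_le_div_of_nonneg_left (pow_pos hδ n).le (by positivity) (by linarith)
  · intro i hi x
    have h1 := norm_iteratedFDeriv_comp_le (𝕜 := ℝ) (g := GBump_W n) (f := GBump_Y θ δ) (n := i)
      (N := ((⊤ : ℕ∞) : WithTop ℕ∞)) (GBump_Wsmo n) (GBump_Ysmo θ δ) (by exact_mod_cast le_top) x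
      (C := C0) (D := Real.pi / δ) (fun j hj => hW j (hj.trans hi) _)
      (fun j hj1 _ => GBump_Yd θ δ hδ hδ1 j hj1 x)
    refine h1.trans ?_
    rw [div_pow, ← mul_div_assoc]
    refine div_le_div_of_nonneg_right ?_ (pow_pos hδ i).le
    have h2 : (Nat.factorial i : ℝ) ≤ Nat.factorial p := by exact_mod_cast Nat.factorial_le hi
    have h3 : Real.pi ^ i ≤ Real.pi ^ p :=
      pow_le_pow_right₀ (by linarith [Real.pi_gt_three]) hi
    calc (Nat.factorial i : ℝ) * C0 * Real.pi ^ i ≤ (Nat.factorial p : ℝ) * C0 * Real.pi ^ p := by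
          gcongr
      _ ≤ 4 ^ n + (Nat.factorial p : ℝ) * C0 * Real.pi ^ p := by linarith

end QPR
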