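import Pool.Agent.Lib.QPA.GGDef
import Pool.Agent.Lib.QPR.Int2

set_option autoImplicit false

namespace QPR

private theorem GComp2_two {n : ℕ} {E : Type*} [NormedAddCommGroup E] [NormedSpace ℝ E]
    (f : (Fin n → ℝ) → E) (z : Fin n → ℝ) :
    ‖iteratedFDeriv ℝ 2 f z‖ = ‖fderiv ℝ (fderiv ℝ f) z‖ := by
  have h1 : ‖iteratedFDeriv ℝ 2 f z‖ = ‖iteratedFDeriv ℝ 1 (fderiv ℝ f) z‖ :=
    (norm_iteratedFDeriv_fderiv (n := 1)).symm
  rw [h1, norm_iteratedFDeriv_one]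

/-- second derivative of a composition:
`D²(u ∘ G)(v, w) = D²u (DG v, DG w) + Du (D²G (v, w))`. -/
theorem comp_two {n : ℕ} {E : Type*} [NormedAddCommGroup E] [NormedSpace ℝ E]
    (u : (Fin n → ℝ) → E) (G : (Fin n → ℝ) → (Fin n → ℝ)) (hu : Smo u)
    (hG : Smo G) (x : Fin n → ℝ) :
    ‖iteratedFDeriv ℝ 2 (fun y => u (G y)) x‖ ≤
      ‖iteratedFDeriv ℝ 2 u (G x)‖ * ‖fderiv ℝ G x‖ ^ 2 +
        ‖fderiv ℝ u (G x)‖ * ‖iteratedFDeriv ℝ 2 G x‖ := by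
  have hne : ((⊤ : ℕ∞) : WithTop ℕ∞) ≠ 0 := by simp
  have hdu : Differentiable ℝ u := hu.differentiable hne
  have hdG : Differentiable ℝ G := hG.differentiable hne
  have hdu2 : Differentiable ℝ (fderiv ℝ u) :=
    (hu.fderiv_right (m := ((⊤ : ℕ∞) : WithTop ℕ∞)) (by simp)).differentiable hne
  have hdG2 : Differentiable ℝ (fderiv ℝ G) :=
    (hG.fderiv_right (m := ((⊤ : ℕ∞) : WithTop ℕ∞)) (by simp)).differentiable hne
  have e1 : fderiv ℝ (fun y => u (G y)) =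
      fun y => (fderiv ℝ u (G y)).comp (fderiv ℝ G y) := by
    funext y
    exact fderiv_comp y (hdu (G y)) (hdG y)
  have h1 : HasFDerivAt (fun y => fderiv ℝ u (G y))
      ((fderiv ℝ (fderiv ℝ u) (G x)).comp (fderiv ℝ G x)) x :=
    (hdu2 (G x)).hasFDerivAt.comp x (hdG x).hasFDerivAt
  have h2 : HasFDerivAt (fderiv ℝ G) (fderiv ℝ (fderiv ℝ G) x) x := (hdG2 x).hasFDerivAt
  have h3 := h1.clm_comp h2
  rw [GComp2_two (fun y => u (G y)), e1, GComp2_two u, GComp2_two G, h3.fderiv]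
  refine ContinuousLinearMap.opNorm_le_bound _ (by positivity) (fun v => ?_)
  refine ContinuousLinearMap.opNorm_le_bound _ (by positivity) (fun w => ?_)
  have e2 : (((ContinuousLinearMap.compL ℝ (Fin n → ℝ) (Fin n → ℝ) E (fderiv ℝ u (G x))).comp
      (fderiv ℝ (fderiv ℝ G) x) +
      ((ContinuousLinearMap.compL ℝ (Fin n → ℝ) (Fin n → ℝ) E).flip (fderiv ℝ G x)).comp
        ((fderiv ℝ (fderiv ℝ u) (G x)).comp (fderiv ℝ G x))) v) w =
      fderiv ℝ u (G x) (fderiv ℝ (fderiv ℝ G) x v w) +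
        fderiv ℝ (fderiv ℝ u) (G x) (fderiv ℝ G x v) (fderiv ℝ G x w) := rfl
  rw [e2]
  have h4 : ‖fderiv ℝ u (G x) (fderiv ℝ (fderiv ℝ G) x v w)‖ ≤
      ‖fderiv ℝ u (G x)‖ * (‖fderiv ℝ (fderiv ℝ G) x‖ * ‖v‖ * ‖w‖) :=
    (ContinuousLinearMap.le_opNorm _ _).trans
      (mul_le_mul_of_nonneg_left (ContinuousLinearMap.le_opNorm₂ _ _ _) (norm_nonneg _))
  have h5 : ‖fderiv ℝ (fderiv ℝ u) (G x) (fderiv ℝ G x v) (fderiv ℝ G x w)‖ ≤
      ‖fderiv ℝ (fderiv ℝ u) (G x)‖ * (‖fderiv ℝ G x‖ * ‖v‖) * (‖fderiv ℝ G x‖ * ‖w‖) := by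
    refine (ContinuousLinearMap.le_opNorm₂ _ _ _).trans ?_
    gcongr
    · exact ContinuousLinearMap.le_opNorm _ _
    · exact ContinuousLinearMap.le_opNorm _ _
  calc ‖fderiv ℝ u (G x) (fderiv ℝ (fderiv ℝ G) x v w) +
        fderiv ℝ (fderiv ℝ u) (G x) (fderiv ℝ G x v) (fderiv ℝ G x w)‖ ≤
      ‖fderiv ℝ u (G x)‖ * (‖fderiv ℝ (fderiv ℝ G) x‖ * ‖v‖ * ‖w‖) +
      ‖fderiv ℝ (fderiv ℝ u) (G x)‖ * (‖fderiv ℝ G x‖ * ‖v‖) * (‖fderiv ℝ G x‖ * ‖w‖) :=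
        (norm_add_le _ _).trans (add_le_add h4 h5)
    _ = (‖fderiv ℝ (fderiv ℝ u) (G x)‖ * ‖fderiv ℝ G x‖ ^ 2 +
        ‖fderiv ℝ u (G x)‖ * ‖fderiv ℝ (fderiv ℝ G) x‖) * ‖v‖ * ‖w‖ := by ring

/-- interpolation: `‖D u‖ ≤ 4 √(a b)` if `‖u‖ ≤ a`, `‖D² u‖ ≤ b` (`second_order` for all `t > 0`). -/
theorem interp_one {n : ℕ} {E : Type*} [NormedAddCommGroup E] [NormedSpace ℝ E]
    (u : (Fin n → ℝ) → E) (hu : Smo u) (a b : ℝ)
    (ha : ∀ x, ‖u x‖ ≤ a) (hb : ∀ x, ‖iteratedFDeriv ℝ 2 u x‖ ≤ b) (x : Fin n → ℝ) :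
    ‖fderiv ℝ u x‖ ≤ 4 * √(a * b) := by
  have ha0 : 0 ≤ a := (norm_nonneg _).trans (ha x)
  have hb0 : 0 ≤ b := (norm_nonneg _).trans (hb x)
  have key : ∀ t : ℝ, 0 < t → t * ‖fderiv ℝ u x‖ ≤ 2 * a + t ^ 2 * b := by
    intro t ht
    have h := second_order u hu 0 a b (fun y => by rw [norm_iteratedFDeriv_zero]; exact ha y)
      hb t ht x
    have e : ‖iteratedFDeriv ℝ (0 + 1) u x‖ = ‖fderiv ℝ u x‖ := norm_iteratedFDeriv_one u
    rw [e] at h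
    exact h
  set d := ‖fderiv ℝ u x‖ with hd
  have hd0 : 0 ≤ d := norm_nonneg _
  have h8 : d ^ 2 ≤ 16 * (a * b) := by
    rcases hd0.eq_or_lt with h0 | h0
    · rw [← h0]
      have := mul_nonneg ha0 hb0
      nlinarith
    · rcases hb0.eq_or_lt with h1 | h1
      · exfalso
        have h2 := key ((2 * a + 1) / d) (by positivity)
        rw [← h1, div_mul_cancel₀ _ h0.ne'] at h2
        linarith
      · have h2 := key (d / (2 * b)) (by positivity)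
        have h3 : d / (2 * b) * d = d ^ 2 / (2 * b) := by ring
        have h4 : (d / (2 * b)) ^ 2 * b = d ^ 2 / (4 * b) := by
          field_simp
          ring
        rw [h3, h4, div_le_iff₀ (by positivity)] at h2
        have h5 : (2 * a + d ^ 2 / (4 * b)) * (2 * b) = 4 * (a * b) + d ^ 2 / 2 := by
          field_simp
          ring
        rw [h5] at h2
        have := mul_nonneg ha0 hb0
        linarith
  have h9 : (4 * √(a * b)) ^ 2 = 16 * (a * b) := by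
    rw [mul_pow, Real.sq_sqrt (mul_nonneg ha0 hb0)]
    ring
  exact le_of_sq_le_sq (by rw [h9]; exact h8) (by positivity)

/-- Transport of the derivative of a nearly invariant function: `u ∘ F^k - u - e` (`e` constant) is
bounded by `k a`, its second derivative by `3 b C² (k+1)^(2κ)`, where `‖Du‖, ‖D²u‖ ≤ b`
(`comp_two`, `Gro`); `interp_one`. -/
theorem near_inv_deriv {n : ℕ} {E : Type*} [NormedAddCommGroup E] [NormedSpace ℝ E]
    {F : (Fin n → ℝ) → (Fin n → ℝ)} (hF : Smo F)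
    {κ C : ℝ} (hκ : 0 ≤ κ) (hC : 1 ≤ C) (hG : Gro F κ C) (u : (Fin n → ℝ) → E) (hu : Smo u)
    (e : E) (a b : ℝ) (ha : ∀ x, ‖u (F x) - u x - e‖ ≤ a) (hb1 : ∀ x, ‖fderiv ℝ u x‖ ≤ b)
    (hb2 : ∀ x, ‖iteratedFDeriv ℝ 2 u x‖ ≤ b) (k : ℕ) (x : Fin n → ℝ) :
    ‖(fderiv ℝ u (F^[k] x)).comp (fderiv ℝ (F^[k]) x) - fderiv ℝ u x‖
      ≤ 4 * √(k * a * (3 * b * C ^ 2 * ((k : ℝ) + 1) ^ (2 * κ))) := by
  have hne : ((⊤ : ℕ∞) : WithTop ℕ∞) ≠ 0 := by simp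
  have hile : ∀ i : ℕ, (i : WithTop ℕ∞) ≤ ((⊤ : ℕ∞) : WithTop ℕ∞) := fun i => by
    exact_mod_cast le_top
  have h2le : ((2 : ℕ) : WithTop ℕ∞) ≤ ((⊤ : ℕ∞) : WithTop ℕ∞) := hile 2
  have hb0 : 0 ≤ b := (norm_nonneg _).trans (hb1 x)
  have hFk : ∀ j : ℕ, Smo (F^[j]) := by
    intro j
    induction j with
    | zero => exact contDiff_id
    | succ j ih => rw [Function.iterate_succ]; exact ih.comp hF
  have hcs : Smo (fun y => u (F^[k] y)) := hu.comp (hFk k)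
  set w : (Fin n → ℝ) → E := fun y => u (F^[k] y) - u y - (k : ℝ) • e with hw
  have hws : Smo w := (hcs.sub hu).sub contDiff_const
  have hwa : ∀ y, ‖w y‖ ≤ k * a := by
    intro y
    have H : ∀ j : ℕ, ‖u (F^[j] y) - u y - (j : ℝ) • e‖ ≤ j * a := by
      intro j
      induction j with
      | zero => simp
      | succ j ih =>
        rw [Function.iterate_succ_apply']
        have h1 : u (F (F^[j] y)) - u y - ((j + 1 : ℕ) : ℝ) • e =
            (u (F (F^[j] y)) - u (F^[j] y) - e) + (u (F^[j] y) - u y - (j : ℝ) • e) := by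
          push_cast
          rw [add_smul, one_smul]
          abel
        rw [h1]
        refine (norm_add_le _ _).trans ?_
        push_cast
        have := ha (F^[j] y)
        linarith
    exact H k
  have hc1 : 1 ≤ C * ((k : ℝ) + 1) ^ κ := by
    have h1 : (1 : ℝ) ≤ ((k : ℝ) + 1) ^ κ :=
      Real.one_le_rpow (by linarith [(Nat.cast_nonneg k : (0 : ℝ) ≤ k)]) hκ
    nlinarith
  have hsq : (C * ((k : ℝ) + 1) ^ κ) ^ 2 = C ^ 2 * ((k : ℝ) + 1) ^ (2 * κ) := by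
    have h1 : (((k : ℝ) + 1) ^ κ) ^ 2 = ((k : ℝ) + 1) ^ (2 * κ) := by
      rw [← Real.rpow_natCast (((k : ℝ) + 1) ^ κ) 2, ← Real.rpow_mul (by positivity)]
      congr 1
      push_cast
      ring
    rw [mul_pow, h1]
  have hwb : ∀ y, ‖iteratedFDeriv ℝ 2 w y‖ ≤ 3 * b * C ^ 2 * ((k : ℝ) + 1) ^ (2 * κ) := by
    intro y
    obtain ⟨g1, g2⟩ := hG k y
    have hA : ContDiffAt ℝ (2 : ℕ) (fun y => u (F^[k] y)) y :=
      (hcs.of_le h2le).contDiffAt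
    have hB : ContDiffAt ℝ (2 : ℕ) u y := (hu.of_le h2le).contDiffAt
    have hc : ContDiffAt ℝ (2 : ℕ) (fun _ : Fin n → ℝ => (k : ℝ) • e) y := contDiffAt_const
    have e1 : iteratedFDeriv ℝ 2 w y = iteratedFDeriv ℝ 2 (fun y => u (F^[k] y)) y -
        iteratedFDeriv ℝ 2 u y := by
      have h1 : iteratedFDeriv ℝ 2 w y = iteratedFDeriv ℝ 2 (fun y => u (F^[k] y) - u y) y -
          iteratedFDeriv ℝ 2 (fun _ : Fin n → ℝ => (k : ℝ) • e) y :=
        iteratedFDeriv_sub_apply (hA.sub hB) hc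
      have h2 : iteratedFDeriv ℝ 2 (fun y => u (F^[k] y) - u y) y =
          iteratedFDeriv ℝ 2 (fun y => u (F^[k] y)) y - iteratedFDeriv ℝ 2 u y :=
        iteratedFDeriv_sub_apply hA hB
      rw [h1, h2, iteratedFDeriv_const_of_ne (by norm_num) _]
      simp
    rw [e1]
    set c := C * ((k : ℝ) + 1) ^ κ with hcdef
    have h3 := comp_two u (F^[k]) hu (hFk k) y
    have h4 : ‖iteratedFDeriv ℝ 2 u (F^[k] y)‖ * ‖fderiv ℝ (F^[k]) y‖ ^ 2 ≤ b * c ^ 2 := by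
      gcongr
      exact hb2 _
    have h5 : ‖fderiv ℝ u (F^[k] y)‖ * ‖iteratedFDeriv ℝ 2 (F^[k]) y‖ ≤ b * c := by
      gcongr
      exact hb1 _
    have h6 := norm_sub_le (iteratedFDeriv ℝ 2 (fun y => u (F^[k] y)) y) (iteratedFDeriv ℝ 2 u y)
    have h7 := hb2 y
    have h8 : b * c ≤ b * c ^ 2 := mul_le_mul_of_nonneg_left (by nlinarith) hb0
    have h9 : b ≤ b * c ^ 2 := le_mul_of_one_le_right hb0 (by nlinarith)
    have h10 : 3 * b * C ^ 2 * ((k : ℝ) + 1) ^ (2 * κ) = 3 * (b * c ^ 2) := by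
      rw [hsq]
      ring
    rw [h10]
    linarith
  have hres := interp_one w hws (k * a) (3 * b * C ^ 2 * ((k : ℝ) + 1) ^ (2 * κ)) hwa hwb x
  have hdu : Differentiable ℝ u := hu.differentiable hne
  have hdF : Differentiable ℝ (F^[k]) := (hFk k).differentiable hne
  have hcomp : HasFDerivAt (fun y => u (F^[k] y))
      ((fderiv ℝ u (F^[k] x)).comp (fderiv ℝ (F^[k]) x)) x :=
    (hdu _).hasFDerivAt.comp x (hdF x).hasFDerivAt
  have hD : HasFDerivAt w ((fderiv ℝ u (F^[k] x)).comp (fderiv ℝ (F^[k]) x) - fderiv ℝ u x) x :=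
    (hcomp.sub (hdu x).hasFDerivAt).sub_const _
  rw [hD.fderiv] at hres
  exact hres

end QPR
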