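import Pool.Agent.Lib.QPA.ADef

set_option autoImplicit false

namespace QPR

open Filter Topology

private lemma gcov_equiv {n : ℕ} (A : (Fin n → ℝ) →L[ℝ] (Fin n → ℝ)) (L : ℝ)
    (h : ∀ v, ‖v‖ ≤ L * ‖A v‖) :
    ∃ e : (Fin n → ℝ) ≃L[ℝ] (Fin n → ℝ), (e : (Fin n → ℝ) →L[ℝ] (Fin n → ℝ)) = A := by
  have hi : Function.Injective (A : (Fin n → ℝ) →ₗ[ℝ] (Fin n → ℝ)) := by
    intro v w hvw
    have hvw' : A v = A w := hvw
    have := h (v - w)
    rw [map_sub, hvw', sub_self, norm_zero, mul_zero] at this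
    exact sub_eq_zero.1 (norm_le_zero_iff.1 this)
  exact ⟨(LinearEquiv.ofInjectiveEndo (A : (Fin n → ℝ) →ₗ[ℝ] (Fin n → ℝ))
    hi).toContinuousLinearEquiv, by ext; rfl⟩

private lemma gcov_loc {n : ℕ} (M : (Fin n → ℝ) → (Fin n → ℝ)) (hM : Smo M) (L : ℝ)
    (hL : ∀ x v : Fin n → ℝ, ‖v‖ ≤ L * ‖fderiv ℝ M x v‖) : IsLocalHomeomorph M := by
  intro x
  obtain ⟨e, he⟩ := gcov_equiv (fderiv ℝ M x) L (hL x)
  have hc : ContDiffAt ℝ ((⊤ : ℕ∞) : WithTop ℕ∞) M x := hM.contDiffAt
  have hd : HasFDerivAt M (e : (Fin n → ℝ) →L[ℝ] (Fin n → ℝ)) x := by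
    rw [he]
    exact (hM.differentiable (by simp) x).hasFDerivAt
  exact ⟨hc.toOpenPartialHomeomorph M hd (by simp), hc.mem_toOpenPartialHomeomorph_source hd _, rfl⟩

private lemma gcov_bdd {n : ℕ} (M : (Fin n → ℝ) → (Fin n → ℝ)) (hM : Continuous M)
    (hp : PerD M) : ∃ C : ℝ, ∀ x, ‖M x - x‖ ≤ C := by
  obtain ⟨C, hC⟩ := (isCompact_Icc (a := (0 : Fin n → ℝ)) (b := 1)).exists_bound_of_continuousOn
    (f := fun x => M x - x) (hM.sub continuous_id).continuousOn
  refine ⟨C, fun x => ?_⟩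
  have h1 := hC (fun i => Int.fract (x i))
    ⟨fun i => Int.fract_nonneg _, fun i => (Int.fract_lt_one _).le⟩
  have h2 := hp (fun i => Int.fract (x i)) (fun i => ⌊x i⌋)
  have h3 : (fun i => Int.fract (x i)) + (fun i => ((⌊x i⌋ : ℤ) : ℝ)) = x := by
    ext i
    exact Int.fract_add_floor (x i)
  rw [h3] at h2
  have h4 : M x - x = M (fun i => Int.fract (x i)) - (fun i => Int.fract (x i)) := by
    rw [h2]
    ext i
    have h5 := Int.fract_add_floor (x i)
    simp only [Pi.sub_apply, Pi.add_apply]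
    linarith
  rw [h4]
  exact h1

private lemma gcov_proper {n : ℕ} (M : (Fin n → ℝ) → (Fin n → ℝ)) (hM : Continuous M)
    (hp : PerD M) : IsProperMap M := by
  rw [isProperMap_iff_tendsto_cocompact]
  refine ⟨hM, ?_⟩
  obtain ⟨C, hC⟩ := gcov_bdd M hM hp
  rw [← Metric.cobounded_eq_cocompact, ← tendsto_norm_atTop_iff_cobounded]
  have h1 : Tendsto (fun x : Fin n → ℝ => ‖x‖ - C) (Bornology.cobounded _) atTop :=
    tendsto_atTop_add_const_right _ (-C) tendsto_norm_cobounded_atTop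
  refine tendsto_atTop_mono (fun x => ?_) h1
  have h2 := norm_sub_norm_le x (x - M x)
  have h3 : ‖x - M x‖ ≤ C := by rw [norm_sub_rev]; exact hC x
  have h4 : x - (x - M x) = M x := by abel
  rw [h4] at h2
  linarith

private lemma gcov_cov {n : ℕ} (M : (Fin n → ℝ) → (Fin n → ℝ)) (hM : Smo M) (hp : PerD M)
    (L : ℝ) (hL : ∀ x v : Fin n → ℝ, ‖v‖ ≤ L * ‖fderiv ℝ M x v‖) : IsCoveringMap M := by
  have hloc := gcov_loc M hM L hL
  have hpr := gcov_proper M hM.continuous hp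
  rw [isCoveringMap_iff_isCoveringMapOn_univ]
  refine IsClosedMap.isCoveringMapOn_of_isLocalHomeomorphOn hpr.isClosedMap (fun x _ => ?_) ?_
  · refine (hpr.isCompact_preimage isCompact_singleton).finite
      (.of_openPartialHomeomorph M subset_rfl fun e _ => ?_)
    obtain ⟨φ, h1, h2⟩ := hloc e
    exact ⟨φ, h1, h2.symm⟩
  · rw [Set.preimage_univ]
    exact isLocalHomeomorph_iff_isLocalHomeomorphOn_univ.1 hloc

/-- Global inversion (Hadamard). `M` is a local homeomorphism (inverse function theorem, the derivative is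
injective, finite dimension) and proper (`M - id` is periodic and continuous, so bounded), hence a
covering map (`IsClosedMap.isCoveringMapOn_of_isLocalHomeomorphOn`, fibres are compact and discrete, so
finite); `ℝ^n` is simply connected: lift the identity through `M` to `s` with `M (s y) = y`
(`IsCoveringMap.existsUnique_continuousMap_lifts`), and `s (M x) = x` by uniqueness of lifts of `M`. So `M`
is bijective with inverse `s`, differentiable with derivative norm `≤ L` (inverse function theorem), and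
`s` is `L`-Lipschitz (mean value inequality on `ℝ^n`). -/
theorem global_inv {n : ℕ} (M : (Fin n → ℝ) → (Fin n → ℝ)) (hM : Smo M) (hp : PerD M) (L : ℝ)
    (hL0 : 0 < L) (hL : ∀ x v : Fin n → ℝ, ‖v‖ ≤ L * ‖fderiv ℝ M x v‖) (x y : Fin n → ℝ) :
    ‖x - y‖ ≤ L * ‖M x - M y‖ := by
  have hcov := gcov_cov M hM hp L hL
  have hMc : Continuous M := hM.continuous
  obtain ⟨s, ⟨hs0, hs⟩, -⟩ := hcov.existsUnique_continuousMap_lifts
    (ContinuousMap.id (Fin n → ℝ)) (M 0) 0 rfl
  have hMs : ∀ z, M (s z) = z := fun z => congrFun hs z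
  -- uniqueness of lifts of `M`
  obtain ⟨t, -, ht⟩ := hcov.existsUnique_continuousMap_lifts
    (⟨M, hMc⟩ : C(Fin n → ℝ, Fin n → ℝ)) 0 0 rfl
  have h1 : ContinuousMap.id (Fin n → ℝ) = t := ht _ ⟨rfl, rfl⟩
  have h2 : s.comp ⟨M, hMc⟩ = t := by
    refine ht _ ⟨hs0, ?_⟩
    funext z
    exact hMs (M z)
  have hsM : ∀ z, s (M z) = z := by
    intro z
    have h3 : s.comp ⟨M, hMc⟩ = ContinuousMap.id (Fin n → ℝ) := by rw [h1, h2]
    exact congrArg (fun f : C(Fin n → ℝ, Fin n → ℝ) => f z) h3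
  have hder : ∀ z, ∃ e : (Fin n → ℝ) →L[ℝ] (Fin n → ℝ), HasFDerivAt s e z ∧ ‖e‖ ≤ L := by
    intro z
    obtain ⟨e, he⟩ := gcov_equiv (fderiv ℝ M (s z)) L (hL (s z))
    have hd : HasFDerivAt M (e : (Fin n → ℝ) →L[ℝ] (Fin n → ℝ)) (s z) := by
      rw [he]
      exact (hM.differentiable (by simp) (s z)).hasFDerivAt
    refine ⟨(e.symm : (Fin n → ℝ) →L[ℝ] (Fin n → ℝ)),
      HasFDerivAt.of_local_left_inverse s.continuous.continuousAt hd
        (Filter.Eventually.of_forall hMs), ?_⟩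
    refine ContinuousLinearMap.opNorm_le_bound _ hL0.le fun v => ?_
    have h4 := hL (s z) (e.symm v)
    rw [← he] at h4
    simpa using h4
  choose e he heL using hder
  have h5 := Convex.norm_image_sub_le_of_norm_hasFDerivWithin_le (𝕜 := ℝ) (f := s) (f' := e)
    (s := Set.univ) (C := L) (x := M y) (y := M x)
    (fun z _ => (he z).hasFDerivWithinAt) (fun z _ => heL z) convex_univ (Set.mem_univ _)
    (Set.mem_univ _)
  rwa [hsM, hsM] at h5

end QPR
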