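import Pool.Agent.Lib.QPA.ADef

set_option autoImplicit false

namespace QPR

open MeasureTheory

private theorem GInt_mem {n : ℕ} (v : Fin n → ℝ)
    (hv : v ∈ Submodule.span ℤ (Set.range (Pi.basisFun ℝ (Fin n)))) :
    ∃ k : Fin n → ℤ, v = fun i => (k i : ℝ) := by
  rw [Module.Basis.mem_span_iff_repr_mem] at hv
  choose k hk using hv
  refine ⟨k, funext fun i => ?_⟩
  have h := hk i
  rw [Pi.basisFun_repr] at h
  rw [← h]
  simp

private theorem GInt_fund {n : ℕ} (G G' : (Fin n → ℝ) → (Fin n → ℝ)) (hG : Continuous G)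
    (hp' : PerD G') (hl : ∀ x, G' (G x) = x) (hr : ∀ x, G (G' x) = x) :
    IsAddFundamentalDomain (Submodule.span ℤ (Set.range (Pi.basisFun ℝ (Fin n))))
      (G '' ZSpan.fundamentalDomain (Pi.basisFun ℝ (Fin n))) volume := by
  have hinj : Function.Injective G := fun x y h => by rw [← hl x, h, hl]
  have hms : MeasurableSet (G '' ZSpan.fundamentalDomain (Pi.basisFun ℝ (Fin n))) :=
    (ZSpan.fundamentalDomain_measurableSet _).image_of_continuousOn_injOn hG.continuousOn
      hinj.injOn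
  refine IsAddFundamentalDomain.mk' hms.nullMeasurableSet fun x => ?_
  have key : ∀ v : Submodule.span ℤ (Set.range (Pi.basisFun ℝ (Fin n))),
      (v +ᵥ x ∈ G '' ZSpan.fundamentalDomain (Pi.basisFun ℝ (Fin n)) ↔
        v +ᵥ G' x ∈ ZSpan.fundamentalDomain (Pi.basisFun ℝ (Fin n))) := by
    intro v
    obtain ⟨k, hk⟩ := GInt_mem (v : Fin n → ℝ) v.2
    have h1 : G' (v +ᵥ x) = v +ᵥ G' x := by
      change G' ((v : Fin n → ℝ) + x) = (v : Fin n → ℝ) + G' x
      rw [hk, add_comm, hp', add_comm]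
    rw [← h1]
    constructor
    · rintro ⟨y, hy, hyx⟩
      rw [← hyx, hl]
      exact hy
    · intro h
      exact ⟨_, h, hr _⟩
  obtain ⟨v, hv, huv⟩ :=
    ZSpan.exist_unique_vadd_mem_fundamentalDomain (Pi.basisFun ℝ (Fin n)) (G' x)
  exact ⟨v, (key v).2 hv, fun w hw => huv w ((key w).1 hw)⟩

private theorem GInt_set {n : ℕ} (f : (Fin n → ℝ) → ℝ) :
    ∫ x in Set.Icc (0 : Fin n → ℝ) 1, f x =
      ∫ x in ZSpan.fundamentalDomain (Pi.basisFun ℝ (Fin n)), f x := by
  rw [ZSpan.fundamentalDomain_pi_basisFun]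
  refine (setIntegral_congr_set ?_).symm
  exact Measure.univ_pi_Ico_ae_eq_Icc

/-- Change of variables on the torus for a diffeomorphism `G` (inverse `G'`) commuting with integer
translations: `s = ∏ [0,1)` is a fundamental domain for `ℤ^n`, so is `G '' s`;
`integral_image_eq_integral_abs_det_fderiv_smul` and `IsAddFundamentalDomain.setIntegral_eq`
(or any other proof, e.g. comparison of `[-L, L]^n` with its image, `L → ∞`). -/
theorem setIntegral_comp_perD {n : ℕ} (G G' : (Fin n → ℝ) → (Fin n → ℝ)) (hG : Smo G)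
    (hG' : Smo G') (hp : PerD G) (hp' : PerD G') (hl : ∀ x, G' (G x) = x) (hr : ∀ x, G (G' x) = x)
    (b : (Fin n → ℝ) → ℝ) (hb : Continuous b) (hbp : Per b) :
    ∫ x in Set.Icc (0 : Fin n → ℝ) 1, b (G x) * |(fderiv ℝ G x).det| =
      ∫ x in Set.Icc (0 : Fin n → ℝ) 1, b x := by
  rw [GInt_set, GInt_set]
  have hinj : Function.Injective G := fun x y h => by rw [← hl x, h, hl]
  have hdiff : Differentiable ℝ G := hG.differentiable (by simp)
  have h1 := integral_image_eq_integral_abs_det_fderiv_smul (volume : Measure (Fin n → ℝ))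
    (ZSpan.fundamentalDomain_measurableSet (Pi.basisFun ℝ (Fin n)))
    (fun x _ => (hdiff x).hasFDerivAt.hasFDerivWithinAt) hinj.injOn b
  have h2 : ∀ x, b (G x) * |(fderiv ℝ G x).det| = |(fderiv ℝ G x).det| • b (G x) := fun x => by
    rw [smul_eq_mul, mul_comm]
  simp only [h2]
  rw [← h1]
  have : VAddInvariantMeasure (Submodule.span ℤ (Set.range (Pi.basisFun ℝ (Fin n))))
      (Fin n → ℝ) volume :=
    inferInstanceAs <| VAddInvariantMeasure
      (Submodule.span ℤ (Set.range (Pi.basisFun ℝ (Fin n)))).toAddSubgroup (Fin n → ℝ) volume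
  refine IsAddFundamentalDomain.setIntegral_eq
    (G := Submodule.span ℤ (Set.range (Pi.basisFun ℝ (Fin n))))
    (GInt_fund G G' hG.continuous hp' hl hr)
    (ZSpan.isAddFundamentalDomain (Pi.basisFun ℝ (Fin n)) volume) ?_
  intro v x
  obtain ⟨k, hk⟩ := GInt_mem (v : Fin n → ℝ) v.2
  change b ((v : Fin n → ℝ) + x) = b x
  rw [hk, add_comm, hbp]

/-- `|det T| ≤ n! ‖T‖^n` for operators on `Fin n → ℝ` (sup norm: the entries are at most `‖T‖`). -/
theorem det_le {n : ℕ} (T : (Fin n → ℝ) →L[ℝ] (Fin n → ℝ)) :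
    |T.det| ≤ (n.factorial : ℝ) * ‖T‖ ^ n := by
  have h1 : T.det = (LinearMap.toMatrix' (T : (Fin n → ℝ) →ₗ[ℝ] (Fin n → ℝ))).det := by
    rw [LinearMap.det_toMatrix']
  have h2 := Matrix.det_le (A := LinearMap.toMatrix' (T : (Fin n → ℝ) →ₗ[ℝ] (Fin n → ℝ)))
    (abv := AbsoluteValue.abs) (x := ‖T‖) (fun i j => by
      rw [LinearMap.toMatrix'_apply]
      change |T _ i| ≤ ‖T‖
      refine (norm_le_pi_norm (T _) i).trans ((T.le_opNorm _).trans ?_)
      refine mul_le_of_le_one_right (norm_nonneg _) ?_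
      refine (pi_norm_le_iff_of_nonneg zero_le_one).2 fun l => ?_
      by_cases h : l = j
      · subst h
        simp
      · simp [h])
  rw [h1]
  rw [Fintype.card_fin, nsmul_eq_mul] at h2
  exact h2

end QPR
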