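import Pool.Agent.Lib.QPA.GPack
import Pool.Agent.Lib.QPA.GInt
import Pool.Agent.Lib.QPA.GBump

set_option autoImplicit false

namespace QPR

open MeasureTheory

variable {n : ℕ} {α : Fin n → ℝ} {F F' H H' : (Fin n → ℝ) → (Fin n → ℝ)}

private theorem GDenX_smo {G : (Fin n → ℝ) → (Fin n → ℝ)} (hF : Smo G) (m : ℕ) :
    Smo (G^[m]) := by
  induction m with
  | zero => exact contDiff_id
  | succ m ih =>
    rw [Function.iterate_succ']
    exact hF.comp ih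

private theorem GDenX_per {G : (Fin n → ℝ) → (Fin n → ℝ)} (hF : PerD G) (m : ℕ) :
    PerD (G^[m]) := by
  induction m with
  | zero => exact fun x k => rfl
  | succ m ih =>
    intro x k
    rw [Function.iterate_succ_apply', Function.iterate_succ_apply', ih x k, hF]

private theorem GDenX_le (i : ℕ) : (i : WithTop ℕ∞) ≤ ((⊤ : ℕ∞) : WithTop ℕ∞) := by
  exact_mod_cast le_top

private theorem GDenX_vol (c : ℝ) : ∫ _ in Set.Icc (0 : Fin n → ℝ) 1, c = c := by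
  rw [setIntegral_const]
  have h : volume.real (Set.Icc (0 : Fin n → ℝ) 1) = 1 := by
    rw [Measure.real, Real.volume_Icc_pi]
    simp
  rw [h, one_smul]

private theorem GDenX_osc (u : (Fin n → ℝ) → ℝ) (hu : Smo u) (hp : Per u) (c : ℝ)
    (hc : ∀ x, ‖fderiv ℝ u x‖ ≤ c) (x x' : Fin n → ℝ) : |u x - u x'| ≤ c := by
  have hc0 : 0 ≤ c := (norm_nonneg _).trans (hc x)
  obtain ⟨l, hl⟩ : ∃ l : Fin n → ℤ, l = fun i => ⌊x i - x' i⌋ := ⟨_, rfl⟩
  rw [← hp x' l]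
  have h1 : ‖x - (x' + fun i => (l i : ℝ))‖ ≤ 1 := by
    rw [pi_norm_le_iff_of_nonneg zero_le_one]
    intro i
    rw [hl]
    have e : (x - (x' + fun i => ((⌊x i - x' i⌋ : ℤ) : ℝ))) i = Int.fract (x i - x' i) := by
      simp only [Pi.sub_apply, Pi.add_apply, Int.fract]
      ring
    rw [e, Real.norm_eq_abs, abs_of_nonneg (Int.fract_nonneg _)]
    exact (Int.fract_lt_one _).le
  have hd : Differentiable ℝ u := hu.differentiable (by simp)
  have h2 := Convex.norm_image_sub_le_of_norm_fderiv_le (𝕜 := ℝ) (s := Set.univ) (f := u)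
    (fun z _ => hd z) (fun z _ => hc z) convex_univ
    (Set.mem_univ (x' + fun i => (l i : ℝ))) (Set.mem_univ x)
  rw [Real.norm_eq_abs] at h2
  refine h2.trans ?_
  calc c * ‖x - (x' + fun i => (l i : ℝ))‖ ≤ c * 1 := mul_le_mul_of_nonneg_left h1 hc0
    _ = c := mul_one c

/-- the average of `b` along the orbits. -/
private noncomputable def GDenX_u (F : (Fin n → ℝ) → (Fin n → ℝ)) (b : (Fin n → ℝ) → ℝ) (N : ℕ)
    (x : Fin n → ℝ) : ℝ := (1 / (N : ℝ)) * ∑ m ∈ Finset.range N, b (F^[m] x)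

private theorem GDenX_u_smo (hF : Smo F) (b : (Fin n → ℝ) → ℝ) (hb : Smo b) (N : ℕ) :
    Smo (GDenX_u F b N) := by
  unfold GDenX_u
  refine contDiff_const.mul ?_
  exact ContDiff.sum fun m _ => hb.comp (GDenX_smo hF m)

private theorem GDenX_u_per (hF : PerD F) (b : (Fin n → ℝ) → ℝ) (hb : Per b) (N : ℕ) :
    Per (GDenX_u F b N) := by
  intro x k
  unfold GDenX_u
  congr 1
  refine Finset.sum_congr rfl fun m _ => ?_
  rw [GDenX_per hF m x k, hb]

private theorem GDenX_u_bd (b : (Fin n → ℝ) → ℝ) (hb : ∀ x, 0 ≤ b x ∧ b x ≤ 1) (N : ℕ)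
    (hN : 1 ≤ N) (x : Fin n → ℝ) : 0 ≤ GDenX_u F b N x ∧ GDenX_u F b N x ≤ 1 := by
  have hN' : (0 : ℝ) < N := by exact_mod_cast hN
  unfold GDenX_u
  refine ⟨mul_nonneg (by positivity) (Finset.sum_nonneg fun m _ => (hb _).1), ?_⟩
  have h1 : ∑ m ∈ Finset.range N, b (F^[m] x) ≤ ∑ _m ∈ Finset.range N, (1 : ℝ) :=
    Finset.sum_le_sum fun m _ => (hb _).2
  rw [Finset.sum_const, Finset.card_range, nsmul_eq_mul, mul_one] at h1
  rw [one_div, inv_mul_le_iff₀ hN', mul_one]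
  exact h1

private theorem GDenX_u_inv (b : (Fin n → ℝ) → ℝ) (hb : ∀ x, 0 ≤ b x ∧ b x ≤ 1) (N : ℕ)
    (hN : 1 ≤ N) (x : Fin n → ℝ) : |GDenX_u F b N (F x) - GDenX_u F b N x| ≤ 1 / N := by
  have hN' : (0 : ℝ) < N := by exact_mod_cast hN
  have h1 : GDenX_u F b N (F x) - GDenX_u F b N x = (1 / (N : ℝ)) * (b (F^[N] x) - b x) := by
    unfold GDenX_u
    rw [← mul_sub]
    congr 1
    have h2 : ∑ m ∈ Finset.range N, b (F^[m] (F x)) = ∑ m ∈ Finset.range N, b (F^[m + 1] x) :=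
      Finset.sum_congr rfl fun m _ => by rw [Function.iterate_succ_apply]
    have h3 := Finset.sum_range_succ (fun m => b (F^[m] x)) N
    have h4 := Finset.sum_range_succ' (fun m => b (F^[m] x)) N
    rw [h2]
    rw [h3] at h4
    rw [Function.iterate_zero_apply] at h4
    linarith
  rw [h1, abs_mul, abs_of_pos (by positivity : (0 : ℝ) < 1 / N)]
  have h2 : |b (F^[N] x) - b x| ≤ 1 := by
    rw [abs_le]
    have := hb (F^[N] x)
    have := hb x
    constructor <;> linarith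
  calc 1 / (N : ℝ) * |b (F^[N] x) - b x| ≤ 1 / (N : ℝ) * 1 :=
        mul_le_mul_of_nonneg_left h2 (by positivity)
    _ = 1 / N := mul_one _

private theorem GDenX_u_two (hF : Smo F) (b : (Fin n → ℝ) → ℝ) (hb : Smo b) (N : ℕ)
    (hN : 1 ≤ N) (B : ℝ)
    (hB : ∀ m < N, ∀ x, ‖iteratedFDeriv ℝ 2 (fun y => b (F^[m] y)) x‖ ≤ B) (x : Fin n → ℝ) :
    ‖iteratedFDeriv ℝ 2 (GDenX_u F b N) x‖ ≤ B := by
  have hN' : (0 : ℝ) < N := by exact_mod_cast hN
  have hs : ∀ m, Smo (fun y => b (F^[m] y)) := fun m => hb.comp (GDenX_smo hF m)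
  have h2 : Smo (fun y => ∑ m ∈ Finset.range N, b (F^[m] y)) := ContDiff.sum fun m _ => hs m
  have hle : ((2 : ℕ) : WithTop ℕ∞) ≤ ((⊤ : ℕ∞) : WithTop ℕ∞) := GDenX_le 2
  have h1 : GDenX_u F b N = (1 / (N : ℝ)) • (fun y => ∑ m ∈ Finset.range N, b (F^[m] y)) := by
    funext y
    rfl
  rw [h1, iteratedFDeriv_const_smul_apply (h2.of_le hle).contDiffAt, norm_smul,
    iteratedFDeriv_sum fun m _ => (hs m).of_le hle, Real.norm_of_nonneg (by positivity),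
    Finset.sum_apply]
  have h3 : ‖∑ m ∈ Finset.range N, iteratedFDeriv ℝ 2 (fun y => b (F^[m] y)) x‖ ≤ N * B := by
    refine (norm_sum_le _ _).trans ?_
    calc ∑ m ∈ Finset.range N, ‖iteratedFDeriv ℝ 2 (fun y => b (F^[m] y)) x‖
        ≤ ∑ _m ∈ Finset.range N, B :=
          Finset.sum_le_sum fun m hm => hB m (Finset.mem_range.1 hm) x
      _ = N * B := by rw [Finset.sum_const, Finset.card_range, nsmul_eq_mul]
  calc 1 / (N : ℝ) * ‖∑ m ∈ Finset.range N, iteratedFDeriv ℝ 2 (fun y => b (F^[m] y)) x‖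
      ≤ 1 / (N : ℝ) * (N * B) := mul_le_mul_of_nonneg_left h3 (by positivity)
    _ = B := by field_simp

/-- lower bound of the integral of the average. -/
private theorem GDenX_int (hd : DatA α F F' H H') (b : (Fin n → ℝ) → ℝ) (hb : Smo b)
    (hbp : Per b) (hb0 : ∀ x, 0 ≤ b x) (N : ℕ) (hN : 1 ≤ N) (D I : ℝ) (hD : 0 < D)
    (hdet : ∀ m < N, ∀ x, |(fderiv ℝ (F^[m]) x).det| ≤ D)
    (hI : I ≤ ∫ x in Set.Icc (0 : Fin n → ℝ) 1, b x) :
    I / D ≤ ∫ x in Set.Icc (0 : Fin n → ℝ) 1, GDenX_u F b N x := by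
  have hN' : (0 : ℝ) < N := by exact_mod_cast hN
  have hcont : ∀ m, Continuous (fun x => b (F^[m] x)) := fun m =>
    hb.continuous.comp (GDenX_smo hd.smF m).continuous
  have hint : ∀ m, Integrable (fun x => b (F^[m] x))
      (volume.restrict (Set.Icc (0 : Fin n → ℝ) 1)) := fun m =>
    (hcont m).continuousOn.integrableOn_compact isCompact_Icc
  have h1 : ∀ m < N, I / D ≤ ∫ x in Set.Icc (0 : Fin n → ℝ) 1, b (F^[m] x) := by
    intro m hm
    have h2 := setIntegral_comp_perD (F^[m]) (F'^[m]) (GDenX_smo hd.smF m) (GDenX_smo hd.smF' m)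
      (GDenX_per hd.perF m) (GDenX_per hd.perF' m)
      (Function.LeftInverse.iterate (g := F') (f := F) hd.leftF m)
      (Function.LeftInverse.iterate (g := F) (f := F') hd.rightF m) b hb.continuous hbp
    rw [← h2] at hI
    have h3 : ∫ x in Set.Icc (0 : Fin n → ℝ) 1, b (F^[m] x) * |(fderiv ℝ (F^[m]) x).det| ≤
        ∫ x in Set.Icc (0 : Fin n → ℝ) 1, b (F^[m] x) * D := by
      refine integral_mono_of_nonneg (Filter.Eventually.of_forall fun x =>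
        mul_nonneg (hb0 _) (abs_nonneg _)) ((hint m).mul_const D)
        (Filter.Eventually.of_forall fun x => ?_)
      exact mul_le_mul_of_nonneg_left (hdet m hm x) (hb0 _)
    rw [integral_mul_const] at h3
    rw [div_le_iff₀ hD]
    linarith
  unfold GDenX_u
  rw [integral_const_mul, integral_finsetSum _ fun m _ => hint m]
  have h2 : ∑ _m ∈ Finset.range N, I / D ≤
      ∑ m ∈ Finset.range N, ∫ x in Set.Icc (0 : Fin n → ℝ) 1, b (F^[m] x) :=
    Finset.sum_le_sum fun m hm => h1 m (Finset.mem_range.1 hm)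
  rw [Finset.sum_const, Finset.card_range, nsmul_eq_mul] at h2
  calc I / D = 1 / (N : ℝ) * (N * (I / D)) := by field_simp
    _ ≤ _ := mul_le_mul_of_nonneg_left h2 (by positivity)

/-- Orbits of length `N` are `N^(-ρ₀)`-dense in `x`-space, `ρ₀ = 1/(20 P (n+2))`. Bump `b` at `y`
(`exists_bump` with `θ = y`, `p = 2`, `δ = N^(-ρ₀)`), `u = (1/N) ∑_{m<N} b ∘ F^[m]`: `0 ≤ u ≤ 1`,
`|u ∘ F - u| ≤ 2/N`, `‖D²u‖ ≤ C δ^(-2) C² N^(2κ) + C δ^(-1) C N^κ ≤ A N^(2ρ₀ + 3κ)` (`comp_two`; `(m+1) ≤ N`),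
`near_inv_flat`: `‖Du‖ ≤ N^(-1/(10P))`, so `|u x - u x'| ≤ N^(-1/(10P))` for all `x, x'` (move `x'` by an
integer vector to distance `≤ 1`). `∫ b ∘ F^[m] * |det D F^[m]| = ∫ b ≥ δ^n / C` (`setIntegral_comp_perD`) and
`|det| ≤ n! (C N^κ)^n` (`det_le`), so `∫ u ≥ δ^n N^(-nκ) / C'` and `u ≥ δ^n N^(-nκ)/C' - N^(-1/(10P)) > 0`
for large `N` (`n ρ₀ + n κ < 1/(10P)`). So some `b (F^[m] x) ≠ 0`, `m < N`. -/
theorem dens_x (hn : 0 < n) (hd : DatA α F F' H H') {γ τ : ℝ} (hα : DioE α γ τ)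
    (P : ℝ) (hP : P = τ + 2 * n + 1) {κ C : ℝ} (hκ0 : 0 < κ) (hκ : κ * (200 * (n + 2) * P) ≤ 1)
    (hC : 1 ≤ C) (hG : Gro F κ C) :
    ∃ N₀ : ℕ, 1 ≤ N₀ ∧ ∀ N : ℕ, N₀ ≤ N → ∀ x y : Fin n → ℝ, ∃ (m : ℕ) (l : Fin n → ℤ), m < N ∧
      ‖(F^[m] x + fun i => (l i : ℝ)) - y‖ ≤ (N : ℝ) ^ (-(1 / (20 * P * (n + 2)))) := by
  obtain ⟨C₀, hC₀, hbump⟩ := exists_bump n 2
  have hP0 : 0 < P := by
    have h1 : (0 : ℝ) ≤ n := Nat.cast_nonneg n
    have h2 := hα.2.1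
    rw [hP]
    linarith
  have hn0 : (0 : ℝ) < n := by exact_mod_cast hn
  set ρ : ℝ := 1 / (20 * P * (n + 2)) with hρ
  have hρ0 : 0 < ρ := by positivity
  set A : ℝ := 2 * C₀ * C ^ 2 with hA
  have hC2 : 1 ≤ C ^ 2 := one_le_pow₀ hC
  have hA1 : 1 ≤ A := by
    rw [hA]
    nlinarith
  obtain ⟨N₁, hN₁, hflat⟩ := near_inv_flat hn hd hα P hP hκ0 hκ hC hG A hA1
  -- the exponent
  set e : ℝ := 1 / (10 * P) - ρ * n - κ * n with he
  have he0 : 0 < e := by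
    have h1 : ρ * n < 1 / (20 * P) := by
      rw [hρ, div_mul_eq_mul_div, one_mul, div_lt_div_iff₀ (by positivity) (by positivity)]
      nlinarith
    have h2 : κ * n ≤ 1 / (200 * P) := by
      rw [le_div_iff₀ (by positivity)]
      have h3 : κ * n * (200 * P) ≤ κ * (200 * (n + 2) * P) := by
        have : 0 ≤ κ * P := by positivity
        nlinarith
      linarith
    have h3 : 1 / (10 * P) = 2 * (1 / (20 * P)) := by
      field_simp
      norm_num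
    have h4 : 1 / (20 * P) = 10 * (1 / (200 * P)) := by
      field_simp
      norm_num
    have h5 : 0 < 1 / (200 * P) := by positivity
    rw [he, h3]
    linarith
  set C₁ : ℝ := C₀ * (n.factorial * C ^ n) with hC₁
  obtain ⟨N₂, hN₂⟩ : ∃ N₂ : ℕ, ∀ N : ℕ, N₂ ≤ N → C₁ < (N : ℝ) ^ e := by
    have h1 := ((tendsto_rpow_atTop he0).comp tendsto_natCast_atTop_atTop).eventually_gt_atTop C₁
    exact Filter.eventually_atTop.1 h1
  refine ⟨max N₁ N₂, hN₁.trans (le_max_left _ _), fun N hN x y => ?_⟩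
  have hNN₁ : N₁ ≤ N := (le_max_left _ _).trans hN
  have hNN₂ : N₂ ≤ N := (le_max_right _ _).trans hN
  have hN1 : 1 ≤ N := hN₁.trans hNN₁
  have hNr : (1 : ℝ) ≤ N := by exact_mod_cast hN1
  have hNp : (0 : ℝ) < N := by linarith
  set δ : ℝ := (N : ℝ) ^ (-ρ) with hδ
  have hδ0 : 0 < δ := Real.rpow_pos_of_pos hNp _
  have hδ1 : δ ≤ 1 := Real.rpow_le_one_of_one_le_of_nonpos hNr (by linarith)
  obtain ⟨b, hb, hbp, hb01, hbl, hbI, hbD⟩ := hbump y δ hδ0 hδ1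
  -- growth
  have hgro : ∀ m < N, ((m : ℝ) + 1) ^ κ ≤ (N : ℝ) ^ κ := by
    intro m hm
    refine Real.rpow_le_rpow (by positivity) ?_ hκ0.le
    exact_mod_cast hm
  have hNκ : 1 ≤ (N : ℝ) ^ κ := Real.one_le_rpow hNr hκ0.le
  have hδi : (1 : ℝ) ≤ 1 / δ := by
    rw [le_div_iff₀ hδ0]
    linarith
  -- second derivative
  have htwo : ∀ m < N, ∀ z, ‖iteratedFDeriv ℝ 2 (fun w => b (F^[m] w)) z‖ ≤
      A * (N : ℝ) ^ (1 / (10 * P * (n + 2)) + 3 * κ) := by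
    intro m hm z
    have h1 := comp_two b (F^[m]) hb (GDenX_smo hd.smF m) z
    have h2 := hbD 2 le_rfl (F^[m] z)
    have h3 := hbD 1 (by norm_num) (F^[m] z)
    rw [norm_iteratedFDeriv_one, pow_one] at h3
    obtain ⟨h4, h5⟩ := hG m z
    have h6 : ‖fderiv ℝ (F^[m]) z‖ ≤ C * (N : ℝ) ^ κ :=
      h4.trans (mul_le_mul_of_nonneg_left (hgro m hm) (by linarith))
    have h7 : ‖iteratedFDeriv ℝ 2 (F^[m]) z‖ ≤ C * (N : ℝ) ^ κ :=
      h5.trans (mul_le_mul_of_nonneg_left (hgro m hm) (by linarith))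
    have h8 : ‖iteratedFDeriv ℝ 2 b (F^[m] z)‖ * ‖fderiv ℝ (F^[m]) z‖ ^ 2 ≤
        C₀ / δ ^ 2 * (C * (N : ℝ) ^ κ) ^ 2 :=
      mul_le_mul h2 (pow_le_pow_left₀ (norm_nonneg _) h6 2) (by positivity) (by positivity)
    have h9 : ‖fderiv ℝ b (F^[m] z)‖ * ‖iteratedFDeriv ℝ 2 (F^[m]) z‖ ≤
        C₀ / δ * (C * (N : ℝ) ^ κ) :=
      mul_le_mul h3 h7 (norm_nonneg _) (by positivity)
    have h10 : C₀ / δ * (C * (N : ℝ) ^ κ) ≤ C₀ / δ ^ 2 * (C * (N : ℝ) ^ κ) ^ 2 := by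
      have e1 : C₀ / δ * (C * (N : ℝ) ^ κ) = C₀ * ((1 / δ) * (C * (N : ℝ) ^ κ)) := by ring
      have e2 : C₀ / δ ^ 2 * (C * (N : ℝ) ^ κ) ^ 2 = C₀ * ((1 / δ) * (C * (N : ℝ) ^ κ)) ^ 2 := by
        ring
      rw [e1, e2]
      refine mul_le_mul_of_nonneg_left ?_ (by linarith)
      have h11 : 1 ≤ (1 / δ) * (C * (N : ℝ) ^ κ) := by
        have h12 : 1 ≤ C * (N : ℝ) ^ κ := by nlinarith
        nlinarith
      nlinarith
    have h11 : ‖iteratedFDeriv ℝ 2 (fun w => b (F^[m] w)) z‖ ≤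
        2 * (C₀ / δ ^ 2 * (C * (N : ℝ) ^ κ) ^ 2) := by linarith
    refine h11.trans ?_
    have e1 : 2 * (C₀ / δ ^ 2 * (C * (N : ℝ) ^ κ) ^ 2) =
        A * (N : ℝ) ^ (2 * ρ + 2 * κ) := by
      rw [hA, mul_pow, hδ, ← Real.rpow_natCast ((N : ℝ) ^ (-ρ)) 2,
        ← Real.rpow_natCast ((N : ℝ) ^ κ) 2, ← Real.rpow_mul hNp.le, ← Real.rpow_mul hNp.le,
        Real.rpow_add hNp, div_eq_mul_inv, ← Real.rpow_neg hNp.le]
      have e3 : -(-ρ * ((2 : ℕ) : ℝ)) = 2 * ρ := by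
        push_cast
        ring
      have e4 : κ * ((2 : ℕ) : ℝ) = 2 * κ := by
        push_cast
        ring
      rw [e3, e4]
      ring
    rw [e1]
    refine mul_le_mul_of_nonneg_left (Real.rpow_le_rpow_of_exponent_le hNr ?_) (by linarith)
    have e5 : 1 / (10 * P * (n + 2)) = 2 * ρ := by
      rw [hρ]
      field_simp
      norm_num
    rw [e5]
    linarith
  -- the average is nearly constant
  have hu := GDenX_u_smo hd.smF b hb N
  have hup := GDenX_u_per hd.perF b hbp N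
  have hflat' := hflat N hNN₁ (GDenX_u F b N) hu hup (fun z => by
      have := GDenX_u_bd (F := F) b hb01 N hN1 z
      rw [abs_of_nonneg this.1]
      linarith) (fun z => by
      refine (GDenX_u_inv (F := F) b hb01 N hN1 z).trans ?_
      exact div_le_div_of_nonneg_right hA1 hNp.le)
    (GDenX_u_two hd.smF b hb N hN1 _ htwo)
  -- the integral
  have hdet : ∀ m < N, ∀ z, |(fderiv ℝ (F^[m]) z).det| ≤
      n.factorial * (C * (N : ℝ) ^ κ) ^ n := by
    intro m hm z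
    refine (det_le _).trans ?_
    refine mul_le_mul_of_nonneg_left (pow_le_pow_left₀ (norm_nonneg _) ?_ n) (by positivity)
    exact (hG m z).1.trans (mul_le_mul_of_nonneg_left (hgro m hm) (by linarith))
  have hDpos : (0 : ℝ) < n.factorial * (C * (N : ℝ) ^ κ) ^ n := by positivity
  have hint := GDenX_int hd b hb hbp (fun z => (hb01 z).1) N hN1 _ _ hDpos hdet hbI
  by_contra hcon
  have hzero : ∀ m < N, b (F^[m] x) = 0 := by
    intro m hm
    by_contra hb0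
    obtain ⟨l, hl⟩ := hbl _ hb0
    apply hcon
    refine ⟨m, fun i => -l i, hm, ?_⟩
    have e1 : (F^[m] x + fun i => ((-l i : ℤ) : ℝ)) - y = F^[m] x - y - fun i => (l i : ℝ) := by
      funext i
      simp only [Pi.sub_apply, Pi.add_apply]
      push_cast
      ring
    rw [e1]
    exact hl
  have hux : GDenX_u F b N x = 0 := by
    unfold GDenX_u
    rw [Finset.sum_eq_zero fun m hm => hzero m (Finset.mem_range.1 hm), mul_zero]
  have hle : ∀ z, GDenX_u F b N z ≤ (N : ℝ) ^ (-(1 / (10 * P))) := by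
    intro z
    have h1 := GDenX_osc _ hu hup _ hflat' z x
    rw [hux, sub_zero] at h1
    exact (le_abs_self _).trans h1
  have hint2 : ∫ z in Set.Icc (0 : Fin n → ℝ) 1, GDenX_u F b N z ≤
      (N : ℝ) ^ (-(1 / (10 * P))) := by
    calc ∫ z in Set.Icc (0 : Fin n → ℝ) 1, GDenX_u F b N z
        ≤ ∫ _z in Set.Icc (0 : Fin n → ℝ) 1, (N : ℝ) ^ (-(1 / (10 * P))) := by
          refine integral_mono_of_nonneg (Filter.Eventually.of_forall fun z =>
            (GDenX_u_bd (F := F) b hb01 N hN1 z).1) ?_ (Filter.Eventually.of_forall hle)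
          exact continuous_const.continuousOn.integrableOn_compact isCompact_Icc
      _ = _ := GDenX_vol _
  have h1 := hint.trans hint2
  rw [div_le_iff₀ hDpos, div_le_iff₀ (by linarith)] at h1
  have e1 : δ ^ n = (N : ℝ) ^ (-ρ * n) := by
    rw [hδ, ← Real.rpow_natCast, ← Real.rpow_mul hNp.le]
  have e2 : (C * (N : ℝ) ^ κ) ^ n = C ^ n * (N : ℝ) ^ (κ * n) := by
    rw [mul_pow, ← Real.rpow_natCast ((N : ℝ) ^ κ) n, ← Real.rpow_mul hNp.le]
  rw [e1, e2] at h1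
  have e3 : (N : ℝ) ^ e * ((N : ℝ) ^ (-(1 / (10 * P))) * (N : ℝ) ^ (κ * n)) =
      (N : ℝ) ^ (-ρ * n) := by
    rw [← Real.rpow_add hNp, ← Real.rpow_add hNp]
    congr 1
    rw [he]
    ring
  have h2 := hN₂ N hNN₂
  have h3 : 0 < (N : ℝ) ^ (-(1 / (10 * P))) * (N : ℝ) ^ (κ * n) := by positivity
  have h4 : C₁ * ((N : ℝ) ^ (-(1 / (10 * P))) * (N : ℝ) ^ (κ * n)) <
      (N : ℝ) ^ e * ((N : ℝ) ^ (-(1 / (10 * P))) * (N : ℝ) ^ (κ * n)) :=
    mul_lt_mul_of_pos_right h2 h3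
  rw [e3] at h4
  have h5 : (N : ℝ) ^ (-(1 / (10 * P))) * (↑n.factorial * (C ^ n * (N : ℝ) ^ (κ * n))) * C₀ =
      C₁ * ((N : ℝ) ^ (-(1 / (10 * P))) * (N : ℝ) ^ (κ * n)) := by
    rw [hC₁]
    ring
  rw [h5] at h1
  linarith

end QPR
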