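import Pool.Agent.Lib.QPA.GBump
import Pool.Agent.Lib.QPR.FBase

set_option autoImplicit false

namespace QPR

open MeasureTheory Finset

private theorem GDens_norm_ex (t : ℝ) : ‖ex t‖ = 1 := by
  have : (2 * Real.pi * Complex.I * t : ℂ) = ((2 * Real.pi * t : ℝ) : ℂ) * Complex.I := by
    push_cast; ring
  rw [ex, this, Complex.norm_exp_ofReal_mul_I]

private theorem GDens_ex_pow (t : ℝ) (k : ℕ) : ex ((k : ℝ) * t) = ex t ^ k := by
  rw [ex, ex, ← Complex.exp_nat_mul]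
  congr 1
  push_cast
  ring

private theorem GDens_ex_lower (t : ℝ) : 4 * |t - round t| ≤ ‖ex t - 1‖ := by
  have h1 : ex t = Complex.exp (Complex.I * ((2 * Real.pi * (t - round t) : ℝ) : ℂ)) := by
    unfold ex
    rw [← Complex.exp_periodic.int_mul (round t) (Complex.I * ((2 * Real.pi * (t - round t) : ℝ) : ℂ))]
    congr 1
    push_cast
    ring
  rw [h1, Complex.norm_exp_I_mul_ofReal_sub_one]
  have h2 : |t - round t| ≤ 1 / 2 := abs_sub_round t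
  have hpi := Real.pi_pos
  have h3 : |Real.pi * (t - round t)| ≤ Real.pi / 2 := by
    rw [abs_mul, abs_of_pos hpi]
    nlinarith
  have h4 := Real.mul_abs_le_abs_sin h3
  have h5 : 2 * Real.pi * (t - round t) / 2 = Real.pi * (t - round t) := by ring
  rw [h5, norm_mul, Real.norm_eq_abs, Real.norm_eq_abs, abs_of_pos (by norm_num : (0:ℝ) < 2)]
  rw [abs_mul, abs_of_pos hpi] at h4
  have h6 : 2 / Real.pi * (Real.pi * |t - round t|) = 2 * |t - round t| := by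
    field_simp
  rw [h6] at h4
  linarith

private theorem GDens_coef_add {n : ℕ} (q q' : (Fin n → ℝ) → ℂ) (hq : Continuous q)
    (hq' : Continuous q') (ξ : Fin n → ℤ) :
    coef (fun x => q x + q' x) ξ = coef q ξ + coef q' ξ := by
  have h1 := coef_sub q (fun x => (-1) * q' x) hq (continuous_const.mul hq') ξ
  rw [coef_mul_left] at h1
  have h2 : (fun x => q x - (-1) * q' x) = fun x => q x + q' x := by
    funext x
    ring
  rw [h2] at h1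
  rw [h1]
  ring

private theorem GDens_dot_smul {n : ℕ} (ξ : Fin n → ℤ) (α : Fin n → ℝ) (c : ℝ) :
    dotZ ξ (c • α) = c * dotZ ξ α := by
  unfold dotZ
  rw [mul_sum]
  refine sum_congr rfl fun i _ => ?_
  rw [Pi.smul_apply, smul_eq_mul]
  ring

private theorem GDens_coef_sum {n : ℕ} (α : Fin n → ℝ) (q : (Fin n → ℝ) → ℂ) (hq : Continuous q)
    (hp : Per q) (ξ : Fin n → ℤ) (N : ℕ) :
    coef (fun x => ∑ k ∈ range N, q (x + (k : ℝ) • α)) ξ =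
      (∑ k ∈ range N, ex (dotZ ξ α) ^ k) * coef q ξ := by
  have hc : ∀ N : ℕ, Continuous fun x : Fin n → ℝ => ∑ k ∈ range N, q (x + (k : ℝ) • α) :=
    fun N => continuous_finsetSum _ fun k _ => hq.comp (continuous_id.add continuous_const)
  induction N with
  | zero =>
    simp only [range_zero, sum_empty, zero_mul]
    rw [coef_const]
    split_ifs <;> rfl
  | succ N ih =>
    have h1 : (fun x => ∑ k ∈ range (N + 1), q (x + (k : ℝ) • α)) =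
        fun x => (∑ k ∈ range N, q (x + (k : ℝ) • α)) + q (x + (N : ℝ) • α) := by
      funext x
      rw [sum_range_succ]
    rw [h1, GDens_coef_add (fun x => ∑ k ∈ range N, q (x + (k : ℝ) • α))
      (fun x => q (x + (N : ℝ) • α)) (hc N) (hq.comp (continuous_id.add continuous_const)), ih,
      coef_translate q hq hp, GDens_dot_smul, GDens_ex_pow, sum_range_succ, add_mul]

private theorem GDens_geom {z : ℂ} (hz : ‖z‖ = 1) (N : ℕ) :
    ‖∑ k ∈ range N, z ^ k‖ * ‖z - 1‖ ≤ 2 := by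
  rw [← norm_mul, geom_sum_mul]
  calc ‖z ^ N - 1‖ ≤ ‖z ^ N‖ + ‖(1 : ℂ)‖ := norm_sub_le _ _
    _ = 2 := by rw [norm_pow, hz, one_pow, norm_one]; norm_num

private theorem GDens_one_le {n : ℕ} (ξ : Fin n → ℤ) (hξ : ξ ≠ 0) : (1 : ℝ) ≤ ‖ξ‖ := by
  obtain ⟨i, hi⟩ := Function.ne_iff.1 hξ
  have h2 : (1 : ℝ) ≤ |(ξ i : ℝ)| := by
    have : (1 : ℤ) ≤ |ξ i| := Int.one_le_abs hi
    exact_mod_cast this
  have h1 : ‖ξ i‖ ≤ ‖ξ‖ := norm_le_pi_norm ξ i
  rw [Int.norm_eq_abs] at h1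
  exact h2.trans h1

private theorem GDens_sum_le {n : ℕ} (ξ : Fin n → ℤ) :
    (∑ i, |(ξ i : ℝ)|) ≤ (n + 1) * (1 + ‖ξ‖) := by
  have h0 : (∑ i, |(ξ i : ℝ)|) ≤ n * ‖ξ‖ := by
    calc (∑ i, |(ξ i : ℝ)|) ≤ ∑ _i : Fin n, ‖ξ‖ := by
          apply Finset.sum_le_sum
          intro i _
          have h1 : ‖ξ i‖ ≤ ‖ξ‖ := norm_le_pi_norm ξ i
          rw [Int.norm_eq_abs] at h1
          exact_mod_cast h1
      _ = n * ‖ξ‖ := by simp
  have hd : (0 : ℝ) ≤ n := Nat.cast_nonneg _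
  have hn : (0 : ℝ) ≤ ‖ξ‖ := norm_nonneg _
  nlinarith

private theorem GDens_sum_pos {n : ℕ} (ξ : Fin n → ℤ) (hξ : ξ ≠ 0) :
    (0 : ℝ) < ∑ i, |(ξ i : ℝ)| := by
  obtain ⟨i, hi⟩ := Function.ne_iff.1 hξ
  have h2 : (1 : ℝ) ≤ |(ξ i : ℝ)| := by
    have : (1 : ℤ) ≤ |ξ i| := Int.one_le_abs hi
    exact_mod_cast this
  have h3 := Finset.single_le_sum (f := fun i => |(ξ i : ℝ)|)
    (fun i _ => abs_nonneg _) (Finset.mem_univ i)
  have h4 : |(ξ i : ℝ)| ≤ ∑ i, |(ξ i : ℝ)| := h3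
  linarith

private theorem GDens_div {n : ℕ} {α : Fin n → ℝ} {γ τ : ℝ} (hα : DioE α γ τ) (ξ : Fin n → ℤ)
    (hξ : ξ ≠ 0) (N : ℕ) :
    ‖∑ k ∈ range N, ex (dotZ ξ α) ^ k‖ ≤
      (n + 1 : ℝ) ^ τ * (1 + ‖ξ‖) ^ τ / (2 * γ) := by
  obtain ⟨hγ, hτ, hd⟩ := hα
  have h1 := GDens_geom (GDens_norm_ex (dotZ ξ α)) N
  have h2 := GDens_ex_lower (dotZ ξ α)
  have h3 := hd ξ hξ (round (dotZ ξ α))
  have h4 : |∑ i, (ξ i : ℝ) * α i - ((round (dotZ ξ α) : ℤ) : ℝ)| =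
    |dotZ ξ α - round (dotZ ξ α)| := rfl
  rw [h4] at h3
  have hs := GDens_sum_pos ξ hξ
  have hA : 0 < (∑ i, |(ξ i : ℝ)|) ^ τ := Real.rpow_pos_of_pos hs τ
  have hn : (0 : ℝ) ≤ ‖ξ‖ := norm_nonneg _
  have h5 : (∑ i, |(ξ i : ℝ)|) ^ τ ≤ (n + 1 : ℝ) ^ τ * (1 + ‖ξ‖) ^ τ := by
    rw [← Real.mul_rpow (by positivity) (by positivity)]
    exact Real.rpow_le_rpow hs.le (GDens_sum_le ξ) hτ.le
  set S : ℝ := ‖∑ k ∈ range N, ex (dotZ ξ α) ^ k‖ with hS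
  have hS0 : 0 ≤ S := norm_nonneg _
  have h6 : S * (4 * (γ / (∑ i, |(ξ i : ℝ)|) ^ τ)) ≤ 2 := by
    refine le_trans (mul_le_mul_of_nonneg_left ?_ hS0) h1
    linarith
  have h7 : S * (2 * γ) ≤ (∑ i, |(ξ i : ℝ)|) ^ τ := by
    have h8 : S * (4 * (γ / (∑ i, |(ξ i : ℝ)|) ^ τ)) = S * (4 * γ) / (∑ i, |(ξ i : ℝ)|) ^ τ := by
      ring
    rw [h8, div_le_iff₀ hA] at h6
    linarith
  rw [le_div_iff₀ (by positivity)]
  exact h7.trans h5

private theorem GDens_dec {c δ x s C₁ : ℝ} {p : ℕ} (hc0 : 0 ≤ c) (hδ : 0 < δ) (hx : 1 ≤ x)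
    (hs : 0 ≤ s) (hsp : s ≤ p) (h0 : c ≤ C₁) (hp : c * x ^ p ≤ C₁ / δ ^ p) :
    c * ((δ / 2) ^ s * (1 + x) ^ s) ≤ C₁ := by
  have hx0 : 0 < x := by linarith
  have hy : 0 < δ * x := by positivity
  have h1 : (δ / 2) ^ s * (1 + x) ^ s ≤ (δ * x) ^ s := by
    rw [← Real.mul_rpow (by positivity) (by positivity)]
    refine Real.rpow_le_rpow (by positivity) ?_ hs
    nlinarith
  refine (mul_le_mul_of_nonneg_left h1 hc0).trans ?_
  rcases le_total (δ * x) 1 with h2 | h2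
  · have h3 : (δ * x) ^ s ≤ 1 := Real.rpow_le_one hy.le h2 hs
    calc c * (δ * x) ^ s ≤ c * 1 := mul_le_mul_of_nonneg_left h3 hc0
      _ ≤ C₁ := by rwa [mul_one]
  · have h3 : (δ * x) ^ s ≤ (δ * x) ^ p := by
      rw [← Real.rpow_natCast]
      exact Real.rpow_le_rpow_of_exponent_le h2 hsp
    calc c * (δ * x) ^ s ≤ c * (δ * x) ^ p := mul_le_mul_of_nonneg_left h3 hc0
      _ = c * x ^ p * δ ^ p := by rw [mul_pow]; ring
      _ ≤ C₁ := by rwa [← le_div_iff₀ (by positivity)]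

/-- Quantitative Kronecker theorem. Take `b` from `exists_bump` (with `p ≥ τ + n + 1`, complex valued
through `Complex.ofReal`), and suppose `b (k α) = 0` for all `k < N`. Fourier series of `b` (absolutely
convergent, `FInv`): `0 = (1/N) ∑_{k<N} b (k α) = coef b 0 + ∑_{ξ ≠ 0} coef b ξ * (1/N) ∑_{k<N} ex (k dotZ ξ α)`
and the geometric sum is at most `2 / ‖ex (dotZ ξ α) - 1‖ ≤ C ‖ξ‖^τ`; `‖coef b ξ‖ ≤ C / (1 + δ ‖ξ‖)^p`
(`coef_decay` for `i = 0` and `i = p`) `≤ C δ^(-(τ+n+1)) (1 + ‖ξ‖)^(-(τ+n+1))`, so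
`δ^n / C ≤ (C / N) δ^(-(τ+n+1)) ∑ (1 + ‖ξ‖)^(-n-1)`, i.e. `N ≤ C δ^(-(τ+2n+1))`. -/
theorem dens_rate {n : ℕ} {α : Fin n → ℝ} {γ τ : ℝ} (hα : DioE α γ τ) :
    ∃ C : ℝ, 1 ≤ C ∧ ∀ (θ : Fin n → ℝ) (δ : ℝ), 0 < δ → δ ≤ 1 →
      ∃ (k : ℕ) (l : Fin n → ℤ), (k : ℝ) ≤ C * δ ^ (-(τ + 2 * n + 1)) ∧
        ‖((k : ℝ) • α + fun i => (l i : ℝ)) - θ‖ ≤ δ := by
  have hγ := hα.1
  have hτ := hα.2.1
  have hn0 : (0 : ℝ) ≤ n := Nat.cast_nonneg _
  set s : ℝ := τ + n + 1 with hs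
  set p : ℕ := ⌈τ⌉₊ + n + 1 with hp
  have hs0 : 0 ≤ s := by linarith
  have hsp : s ≤ p := by
    have := Nat.le_ceil τ
    rw [hp]
    push_cast
    linarith
  obtain ⟨C₁, hC₁, hbump⟩ := exists_bump n p
  have hsum := summable_lattice n
  set Z : ℝ := ∑' ξ : Fin n → ℤ, 1 / (1 + ‖ξ‖) ^ (n + 1) with hZ
  have hZ0 : 0 ≤ Z := tsum_nonneg fun ξ => by positivity
  set C₂ : ℝ := C₁ ^ 2 * (n + 1 : ℝ) ^ τ * Z / (2 * γ) * 2 ^ s with hC₂
  refine ⟨max 1 C₂, le_max_left _ _, fun θ δ hδ hδ1 => ?_⟩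
  obtain ⟨b, hbs, hbp, hb01, hbsup, hbint, hbder⟩ := hbump θ δ hδ hδ1
  obtain ⟨Bd, hBd⟩ : ∃ B, B = max 1 C₂ * δ ^ (-(τ + 2 * n + 1)) := ⟨_, rfl⟩
  by_contra hcon
  push Not at hcon
  rw [← hBd] at hcon
  -- the bump function vanishes along the orbit
  have hzero : ∀ k : ℕ, (k : ℝ) ≤ Bd → b ((k : ℝ) • α) = 0 := by
    intro k hk
    by_contra hne
    obtain ⟨l, hl⟩ := hbsup _ hne
    have h1 := hcon k (-l) hk
    have e : ((k : ℝ) • α + fun i => (((-l) i : ℤ) : ℝ)) - θ =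
        (k : ℝ) • α - θ - fun i => (l i : ℝ) := by
      funext i
      simp only [Pi.sub_apply, Pi.add_apply, Pi.neg_apply, Int.cast_neg]
      ring
    rw [e] at h1
    exact absurd hl (not_le.2 h1)
  obtain ⟨N, hN⟩ : ∃ N : ℕ, N = ⌊Bd⌋₊ + 1 := ⟨_, rfl⟩
  have hδs : 0 < δ ^ (-(τ + 2 * n + 1)) := Real.rpow_pos_of_pos hδ _
  have hBd0 : 0 ≤ Bd := by
    rw [hBd]
    positivity
  have hNB : Bd < N := by
    rw [hN]
    push_cast
    exact Nat.lt_floor_add_one Bd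
  have hN0 : (0 : ℝ) < N := by linarith
  have hzN : ∀ k ∈ range N, b ((k : ℝ) • α) = 0 := by
    intro k hk
    apply hzero
    have h1 : k ≤ ⌊Bd⌋₊ := by
      have := mem_range.1 hk
      omega
    exact (Nat.le_floor_iff hBd0).1 h1
  -- the complex valued function
  set q : (Fin n → ℝ) → ℂ := fun x => (b x : ℂ) with hq
  have hqs : Smo q := Complex.ofRealCLM.contDiff.comp hbs
  have hqc : Continuous q := hqs.continuous
  have hqp : Per q := fun x k => by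
    change ((b (x + _) : ℝ) : ℂ) = (b x : ℂ)
    rw [hbp x k]
  have hqd : ∀ i ≤ p, ∀ x, ‖iteratedFDeriv ℝ i q x‖ ≤ C₁ / δ ^ i := by
    intro i hi x
    have h1 := Complex.ofRealCLM.norm_iteratedFDeriv_comp_left (n := i) (x := x)
      (hbs.of_le (by exact_mod_cast le_top)).contDiffAt le_rfl
    refine h1.trans ?_
    rw [Complex.ofRealCLM_norm, one_mul]
    exact hbder i hi x
  have hq0 : δ ^ n / C₁ ≤ ‖coef q 0‖ := by
    have h1 : coef q 0 = ((∫ x in Set.Icc (0 : Fin n → ℝ) 1, b x : ℝ) : ℂ) := by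
      rw [coef, ← integral_complex_ofReal]
      refine integral_congr_ae (Filter.Eventually.of_forall fun x => ?_)
      have h2 : dotZ (0 : Fin n → ℤ) x = 0 := by simp [dotZ]
      have h3 : ex (-0) = 1 := by simp [ex]
      beta_reduce
      rw [h2, h3, mul_one]
    rw [h1, Complex.norm_real]
    exact hbint.trans (le_abs_self _)
  -- the averages
  set A : ℝ := (n + 1 : ℝ) ^ τ * C₁ / (2 * γ * (δ / 2) ^ s) with hA
  set g : (Fin n → ℝ) → ℂ := fun x =>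
    (N : ℂ)⁻¹ * (∑ k ∈ range N, q (x + (k : ℝ) • α)) - coef q 0 with hg
  have hSc : Continuous fun x : Fin n → ℝ => ∑ k ∈ range N, q (x + (k : ℝ) • α) :=
    continuous_finsetSum _ fun k _ => hqc.comp (continuous_id.add continuous_const)
  have hgc : Continuous g := (continuous_const.mul hSc).sub continuous_const
  have hgp : Per g := by
    intro x k
    have h1 : ∀ j ∈ range N, q (x + (fun i => (k i : ℝ)) + (j : ℝ) • α) =
        q (x + (j : ℝ) • α) := fun j _ => by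
      rw [add_right_comm, hqp]
    change (N : ℂ)⁻¹ * (∑ j ∈ range N, q (x + (fun i => (k i : ℝ)) + (j : ℝ) • α)) - coef q 0 =
      (N : ℂ)⁻¹ * (∑ j ∈ range N, q (x + (j : ℝ) • α)) - coef q 0
    rw [sum_congr rfl h1]
  have hNc : (N : ℂ) ≠ 0 := by
    have : (N : ℝ) ≠ 0 := hN0.ne'
    exact_mod_cast this
  have hgcoef : ∀ ξ, coef g ξ = (N : ℂ)⁻¹ * ((∑ k ∈ range N, ex (dotZ ξ α) ^ k) * coef q ξ) -
      if ξ = 0 then coef q 0 else 0 := by
    intro ξ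
    rw [hg, coef_sub (fun x => (N : ℂ)⁻¹ * (∑ k ∈ range N, q (x + (k : ℝ) • α)))
      (fun _ => coef q 0) (continuous_const.mul hSc) continuous_const,
      coef_mul_left (fun x => ∑ k ∈ range N, q (x + (k : ℝ) • α)) (N : ℂ)⁻¹,
      GDens_coef_sum α q hqc hqp, coef_const]
  have hδ2 : 0 < (δ / 2) ^ s := Real.rpow_pos_of_pos (by positivity) _
  have hA0 : 0 ≤ A := by positivity
  have hgb : ∀ ξ, ‖coef g ξ‖ ≤ A / N * (1 / (1 + ‖ξ‖) ^ (n + 1)) := by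
    intro ξ
    by_cases hξ : ξ = 0
    · subst hξ
      have h1 : ex (dotZ (0 : Fin n → ℤ) α) = 1 := by simp [ex, dotZ]
      rw [hgcoef, if_pos rfl, h1]
      simp only [one_pow, sum_const, card_range, nsmul_eq_mul, mul_one]
      rw [← mul_assoc, inv_mul_cancel₀ hNc, one_mul, sub_self, norm_zero]
      positivity
    · rw [hgcoef, if_neg hξ, sub_zero, norm_mul, norm_mul, norm_inv, Complex.norm_natCast]
      have h1 := GDens_div hα ξ hξ N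
      have h2 := GDens_one_le ξ hξ
      have h3 := coef_decay q hqs hqp p _ (hqd p le_rfl) ξ
      have h4 : ‖coef q ξ‖ ≤ C₁ := coef_norm_le q C₁ (fun x => by
        have h5 := hqd 0 (Nat.zero_le _) x
        rwa [norm_iteratedFDeriv_zero, pow_zero, div_one] at h5) ξ
      have h5 := GDens_dec (norm_nonneg (coef q ξ)) hδ h2 hs0 hsp h4 h3
      have hx0 : 0 < 1 + ‖ξ‖ := by linarith
      have h6 : (1 + ‖ξ‖) ^ s = (1 + ‖ξ‖) ^ τ * (1 + ‖ξ‖) ^ (n + 1) := by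
        rw [← Real.rpow_natCast, ← Real.rpow_add hx0]
        congr 1
        rw [hs]
        push_cast
        ring
      have h7 : ‖coef q ξ‖ ≤ C₁ / ((δ / 2) ^ s * (1 + ‖ξ‖) ^ s) := by
        rwa [le_div_iff₀ (mul_pos hδ2 (Real.rpow_pos_of_pos hx0 _))]
      have hxτ : 0 < (1 + ‖ξ‖) ^ τ := Real.rpow_pos_of_pos hx0 _
      calc (N : ℝ)⁻¹ * (‖∑ k ∈ range N, ex (dotZ ξ α) ^ k‖ * ‖coef q ξ‖)
          ≤ (N : ℝ)⁻¹ * (((n + 1 : ℝ) ^ τ * (1 + ‖ξ‖) ^ τ / (2 * γ)) *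
            (C₁ / ((δ / 2) ^ s * (1 + ‖ξ‖) ^ s))) := by
            gcongr
        _ = A / N * (1 / (1 + ‖ξ‖) ^ (n + 1)) := by
            rw [h6, hA]
            field_simp
  have hinv := coef_inversion g hgc hgp _ (hsum.mul_left (A / N)) hgb 0
  rw [tsum_mul_left, ← hZ] at hinv
  have hg0 : g 0 = -coef q 0 := by
    change (N : ℂ)⁻¹ * (∑ k ∈ range N, q (0 + (k : ℝ) • α)) - coef q 0 = _
    rw [sum_eq_zero fun k hk => ?_, mul_zero, zero_sub]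
    rw [zero_add]
    change ((b ((k : ℝ) • α) : ℝ) : ℂ) = 0
    rw [hzN k hk, Complex.ofReal_zero]
  rw [hg0, norm_neg] at hinv
  have h1 : δ ^ n / C₁ ≤ A / N * Z := hq0.trans hinv
  have hC₁0 : 0 < C₁ := by linarith
  have h2 : δ ^ n * N ≤ C₁ * A * Z := by
    rw [div_le_iff₀ hC₁0] at h1
    have h3 : δ ^ n * N ≤ (A / N * Z * C₁) * N := mul_le_mul_of_nonneg_right h1 hN0.le
    have h4 : (A / N * Z * C₁) * N = C₁ * A * Z := by
      field_simp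
    linarith
  have hδs' : 0 < δ ^ s := Real.rpow_pos_of_pos hδ _
  have h3 : C₁ * A * Z = C₂ * δ ^ (-(τ + 2 * n + 1)) * δ ^ n := by
    have e1 : δ ^ (-(τ + 2 * n + 1)) * δ ^ n = (δ ^ s)⁻¹ := by
      rw [← Real.rpow_natCast, ← Real.rpow_add hδ, ← Real.rpow_neg hδ.le]
      congr 1
      rw [hs]
      ring
    have e2 : (δ / 2) ^ s = δ ^ s / 2 ^ s := Real.div_rpow hδ.le (by norm_num) s
    have h2s : (0 : ℝ) < 2 ^ s := Real.rpow_pos_of_pos (by norm_num) _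
    rw [mul_assoc C₂, e1, hC₂, hA, e2]
    field_simp
  have h4 : C₂ * δ ^ (-(τ + 2 * n + 1)) ≤ Bd := by
    rw [hBd]
    exact mul_le_mul_of_nonneg_right (le_max_right _ _) hδs.le
  have hδn : 0 < δ ^ n := by positivity
  have h5 : δ ^ n * N ≤ Bd * δ ^ n := by
    rw [h3] at h2
    exact h2.trans (mul_le_mul_of_nonneg_right h4 hδn.le)
  have h6 : Bd * δ ^ n < N * δ ^ n := mul_lt_mul_of_pos_right hNB hδn
  linarith

end QPR
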