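import Pool.Agent.Lib.QPA.GDef

set_option autoImplicit false

/-!
# The growth criterion without Hoelder hypothesis: definitions
-/

namespace QPR

/-- slow growth of the first two derivatives of the iterates. -/
def Gro {n : ℕ} (F : (Fin n → ℝ) → (Fin n → ℝ)) (κ C : ℝ) : Prop :=
  ∀ (k : ℕ) (x : Fin n → ℝ), ‖fderiv ℝ (F^[k]) x‖ ≤ C * ((k : ℝ) + 1) ^ κ ∧
    ‖iteratedFDeriv ℝ 2 (F^[k]) x‖ ≤ C * ((k : ℝ) + 1) ^ κ

/-- the vector `k α + l`. -/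
def kal {n : ℕ} (α : Fin n → ℝ) (k : ℕ) (l : Fin n → ℤ) : Fin n → ℝ :=
  (k : ℝ) • α + fun i => (l i : ℝ)

/-- the averages `(1/N) ∑_{k<N} (F^k x - k α)`. -/
noncomputable def avF {n : ℕ} (α : Fin n → ℝ) (F : (Fin n → ℝ) → (Fin n → ℝ)) (N : ℕ)
    (x : Fin n → ℝ) : Fin n → ℝ :=
  (1 / (N : ℝ)) • ∑ k ∈ Finset.range N, (F^[k] x - (k : ℝ) • α)

end QPR
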