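import Pool.Agent.Lib.QPR.Basic

set_option autoImplicit false

namespace QPR

/-- A functional in coordinates. -/
private theorem GGeo_sum {n : ℕ} (L : (Fin n → ℝ) →L[ℝ] ℝ) (v : Fin n → ℝ) :
    L v = ∑ j, v j * L (Pi.single j 1) := by
  conv_lhs => rw [← Finset.univ_sum_single v]
  rw [map_sum]
  refine Finset.sum_congr rfl fun j _ => ?_
  have h1 : (Pi.single j (v j) : Fin n → ℝ) = v j • (Pi.single j 1 : Fin n → ℝ) := by
    rw [← Pi.single_smul, smul_eq_mul, mul_one]
  rw [h1, map_smul, smul_eq_mul]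

/-- The number of the integers `⌊x⌋`, `x` in an interval. -/
private theorem GGeo_Icc {a b : ℝ} (hab : a ≤ b) :
    ((Finset.Icc ⌊a⌋ ⌊b⌋).card : ℝ) ≤ b - a + 2 := by
  rw [Int.card_Icc]
  have h1 : ⌊a⌋ ≤ ⌊b⌋ := Int.floor_mono hab
  have h2 : ((⌊b⌋ + 1 - ⌊a⌋).toNat : ℤ) = ⌊b⌋ + 1 - ⌊a⌋ := Int.toNat_of_nonneg (by omega)
  have h3 : (((⌊b⌋ + 1 - ⌊a⌋).toNat : ℤ) : ℝ) = (⌊b⌋ : ℝ) + 1 - ⌊a⌋ := by
    rw [h2]
    push_cast
    ring
  rw [Int.cast_natCast] at h3
  rw [h3]
  have h4 := Int.floor_le b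
  have h5 := Int.lt_floor_add_one a
  linarith

/-- Few separated points near a level hypersurface. Grid of mesh `q = s / (16 n)` in the coordinates
`j ≠ i`: the points of `S` fall in at most `(2 r / q + 2)^(n-1)` cells (`x ↦ fun j : {j // j ≠ i} => ⌊x j / q⌋`),
and two points `x ≠ y` in the same cell would satisfy, by the mean value theorem for `u` on the segment,
`g |x i - y i| ≤ t + ∑_{j ≠ i} 4 g q ≤ g s / 2`, so `‖x - y‖ < s`. -/
theorem level_pack {n : ℕ} (u : (Fin n → ℝ) → ℝ) (hu : Differentiable ℝ u) (p : Fin n → ℝ)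
    (r s t g : ℝ) (hr : 0 < r) (hs : 0 < s) (hg : 0 < g) (i : Fin n) (σ : ℝ)
    (hσ : σ = 1 ∨ σ = -1)
    (h1 : ∀ x, ‖x - p‖ ≤ r → g ≤ σ * fderiv ℝ u x (Pi.single i 1))
    (h2 : ∀ x, ‖x - p‖ ≤ r → ∀ j, |fderiv ℝ u x (Pi.single j 1)| ≤ 4 * g)
    (S : Finset (Fin n → ℝ)) (hS : ∀ x ∈ S, ‖x - p‖ ≤ r)
    (hsep : ∀ x ∈ S, ∀ y ∈ S, x ≠ y → s ≤ ‖x - y‖)
    (ht : ∀ x ∈ S, ∀ y ∈ S, |u x - u y| ≤ t) (hts : t ≤ g * s / 4) :
    (S.card : ℝ) ≤ (32 * n * r / s + 2) ^ (n - 1) := by
  classical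
  have hn : 0 < n := Nat.lt_of_le_of_lt (Nat.zero_le _) i.isLt
  have hnR : (0 : ℝ) < n := by exact_mod_cast hn
  set q : ℝ := s / (16 * n) with hq
  have hq0 : 0 < q := by positivity
  have hqs : q < s := by
    rw [hq, div_lt_iff₀ (by positivity)]
    have h3 : (1 : ℝ) ≤ n := by exact_mod_cast hn
    nlinarith
  let cell : (Fin n → ℝ) → ({j : Fin n // j ≠ i} → ℤ) := fun x j => ⌊x j / q⌋
  let T : Finset ({j : Fin n // j ≠ i} → ℤ) :=
    Fintype.piFinset fun j => Finset.Icc ⌊(p j - r) / q⌋ ⌊(p j + r) / q⌋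
  have hmaps : ∀ x ∈ S, cell x ∈ T := by
    intro x hx
    rw [Fintype.mem_piFinset]
    intro j
    have h3 : |x j - p j| ≤ r := by
      have h4 := norm_le_pi_norm (x - p) (j : Fin n)
      rw [Pi.sub_apply, Real.norm_eq_abs] at h4
      exact h4.trans (hS x hx)
    rw [abs_le] at h3
    rw [Finset.mem_Icc]
    constructor
    · exact Int.floor_mono (by gcongr; linarith)
    · exact Int.floor_mono (by gcongr; linarith)
  have hinj : Set.InjOn cell S := by
    intro x hx y hy hxy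
    by_contra hne
    have hcl : ∀ j, j ≠ i → |x j - y j| < q := by
      intro j hj
      have h3 : ⌊x j / q⌋ = ⌊y j / q⌋ := congrFun hxy ⟨j, hj⟩
      have h4 := Int.abs_sub_lt_one_of_floor_eq_floor h3
      rw [← sub_div, abs_div, abs_of_pos hq0, div_lt_one hq0] at h4
      exact h4
    obtain ⟨z, hz, hze⟩ := domain_mvt (f := u) (s := Set.univ) (x := y) (y := x)
      (f' := fderiv ℝ u) (fun w _ => (hu w).hasFDerivAt.hasFDerivWithinAt) convex_univ
      (Set.mem_univ _) (Set.mem_univ _)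
    have hzb : ‖z - p‖ ≤ r := by
      have h3 : z ∈ Metric.closedBall p r :=
        (convex_closedBall p r).segment_subset (by
          rw [Metric.mem_closedBall, dist_eq_norm]
          exact hS y hy) (by
          rw [Metric.mem_closedBall, dist_eq_norm]
          exact hS x hx) hz
      rwa [Metric.mem_closedBall, dist_eq_norm] at h3
    rw [GGeo_sum, ← Finset.add_sum_erase _ _ (Finset.mem_univ i)] at hze
    have h3 : |∑ j ∈ Finset.univ.erase i, (x - y) j * fderiv ℝ u z (Pi.single j 1)| ≤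
        g * s / 4 := by
      refine (Finset.abs_sum_le_sum_abs _ _).trans ?_
      have h4 : ∀ j ∈ Finset.univ.erase i,
          |(x - y) j * fderiv ℝ u z (Pi.single j 1)| ≤ q * (4 * g) := by
        intro j hj
        rw [abs_mul]
        have h5 := hcl j (Finset.ne_of_mem_erase hj)
        rw [Pi.sub_apply]
        exact mul_le_mul h5.le (h2 z hzb j) (abs_nonneg _) hq0.le
      refine (Finset.sum_le_card_nsmul _ _ _ h4).trans ?_
      rw [Finset.card_erase_of_mem (Finset.mem_univ i), Finset.card_univ, Fintype.card_fin,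
        nsmul_eq_mul]
      have h5 : ((n - 1 : ℕ) : ℝ) ≤ n := by exact_mod_cast Nat.sub_le n 1
      calc ((n - 1 : ℕ) : ℝ) * (q * (4 * g)) ≤ n * (q * (4 * g)) := by gcongr
        _ = g * s / 4 := by
          rw [hq]
          field_simp
          ring
    have h4 : g ≤ |fderiv ℝ u z (Pi.single i 1)| := by
      have h5 := h1 z hzb
      rcases hσ with rfl | rfl
      · rw [one_mul] at h5
        exact h5.trans (le_abs_self _)
      · rw [neg_one_mul] at h5
        exact h5.trans (neg_le_abs _)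
    have h5 : |x i - y i| * g ≤ g * s / 2 := by
      have h6 : (x - y) i * fderiv ℝ u z (Pi.single i 1) = (u x - u y) -
          ∑ j ∈ Finset.univ.erase i, (x - y) j * fderiv ℝ u z (Pi.single j 1) := by
        rw [hze]
        ring
      have h7 : |x i - y i| * |fderiv ℝ u z (Pi.single i 1)| ≤ t + g * s / 4 := by
        rw [← abs_mul, ← Pi.sub_apply, h6]
        refine (abs_sub _ _).trans ?_
        exact add_le_add (ht x hx y hy) h3
      have h8 : |x i - y i| * g ≤ |x i - y i| * |fderiv ℝ u z (Pi.single i 1)| :=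
        mul_le_mul_of_nonneg_left h4 (abs_nonneg _)
      linarith
    have h6 : |x i - y i| ≤ s / 2 := by
      have h7 : |x i - y i| * g ≤ s / 2 * g := by linarith
      exact le_of_mul_le_mul_right h7 hg
    have h7 : ‖x - y‖ < s := by
      rw [pi_norm_lt_iff hs]
      intro j
      rw [Pi.sub_apply, Real.norm_eq_abs]
      by_cases hj : j = i
      · rw [hj]
        linarith
      · exact (hcl j hj).trans hqs
    exact absurd (hsep x hx y hy hne) (not_le.2 h7)
  have hcard : S.card ≤ T.card := Finset.card_le_card_of_injOn cell hmaps hinj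
  have hT : (T.card : ℝ) ≤ (32 * n * r / s + 2) ^ (n - 1) := by
    have h3 : T.card = ∏ j : {j : Fin n // j ≠ i},
        (Finset.Icc ⌊(p j - r) / q⌋ ⌊(p j + r) / q⌋).card := Fintype.card_piFinset _
    rw [h3, Nat.cast_prod]
    have h4 : ∀ j ∈ (Finset.univ : Finset {j : Fin n // j ≠ i}),
        ((Finset.Icc ⌊(p j - r) / q⌋ ⌊(p j + r) / q⌋).card : ℝ) ≤ 32 * n * r / s + 2 := by
      intro j _
      have h5 : (p j - r) / q ≤ (p j + r) / q := by
        gcongr
        linarith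
      refine (GGeo_Icc h5).trans (le_of_eq ?_)
      rw [hq]
      field_simp
      ring
    refine (Finset.prod_le_prod (fun j _ => Nat.cast_nonneg _) h4).trans (le_of_eq ?_)
    rw [Finset.prod_const, Finset.card_univ]
    congr 1
    simp [Fintype.card_subtype_compl]
  exact le_trans (by exact_mod_cast hcard) hT

/-- The same with the hypotheses: gradient at least `g₀` at the centre, second derivative at most `A`,
`A r ≤ g₀ / (8 n)`. Choose `i` with `|∂_i u (p)|` maximal (at least `g₀ / n`); `σ` its sign,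
`g = (7/8) |∂_i u (p)|`. (The operator norm of a functional on `Fin n → ℝ` with the sup norm is at most
the sum of the `|e (Pi.single j 1)|`.) -/
theorem level_pack' {n : ℕ} (hn : 0 < n) (u : (Fin n → ℝ) → ℝ) (hu : Smo u) (p : Fin n → ℝ)
    (r s t g₀ A : ℝ) (hr : 0 < r) (hs : 0 < s) (hg : 0 < g₀) (hg₀ : g₀ ≤ ‖fderiv ℝ u p‖)
    (hA : ∀ x, ‖iteratedFDeriv ℝ 2 u x‖ ≤ A) (hAr : A * r ≤ g₀ / (8 * n))
    (S : Finset (Fin n → ℝ)) (hS : ∀ x ∈ S, ‖x - p‖ ≤ r)
    (hsep : ∀ x ∈ S, ∀ y ∈ S, x ≠ y → s ≤ ‖x - y‖)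
    (ht : ∀ x ∈ S, ∀ y ∈ S, |u x - u y| ≤ t) (hts : t ≤ g₀ * s / (8 * n)) :
    (S.card : ℝ) ≤ (32 * n * r / s + 2) ^ (n - 1) := by
  have hnR : (0 : ℝ) < n := by exact_mod_cast hn
  have hne : (Finset.univ : Finset (Fin n)).Nonempty := ⟨⟨0, hn⟩, Finset.mem_univ _⟩
  obtain ⟨i, -, hi⟩ := Finset.exists_max_image Finset.univ
    (fun j => |fderiv ℝ u p (Pi.single j 1)|) hne
  set m : ℝ := |fderiv ℝ u p (Pi.single i 1)| with hm
  have hm0 : 0 ≤ m := abs_nonneg _
  have hgm : g₀ ≤ n * m := by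
    refine hg₀.trans (ContinuousLinearMap.opNorm_le_bound _ (by positivity) fun v => ?_)
    rw [GGeo_sum, Real.norm_eq_abs]
    refine (Finset.abs_sum_le_sum_abs _ _).trans ?_
    have h3 : ∀ j ∈ (Finset.univ : Finset (Fin n)),
        |v j * fderiv ℝ u p (Pi.single j 1)| ≤ ‖v‖ * m := by
      intro j _
      rw [abs_mul]
      refine mul_le_mul ?_ (hi j (Finset.mem_univ _)) (abs_nonneg _) (norm_nonneg _)
      rw [← Real.norm_eq_abs]
      exact norm_le_pi_norm v j
    refine (Finset.sum_le_card_nsmul _ _ _ h3).trans (le_of_eq ?_)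
    rw [Finset.card_univ, Fintype.card_fin, nsmul_eq_mul]
    ring
  have hm1 : 0 < m := by
    by_contra h
    have h3 : m = 0 := le_antisymm (not_lt.1 h) hm0
    rw [h3, mul_zero] at hgm
    linarith
  have hgn : g₀ / (8 * n) ≤ m / 8 := by
    rw [div_le_div_iff₀ (by positivity) (by norm_num)]
    nlinarith
  have hdu : Differentiable ℝ u := hu.differentiable (by simp)
  have hdu2 : Differentiable ℝ (fderiv ℝ u) :=
    ((hu.fderiv_right (m := ((⊤ : ℕ∞) : WithTop ℕ∞)) (by norm_cast)).differentiable (by simp))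
  have hclose : ∀ x, ‖x - p‖ ≤ r → ∀ j,
      |fderiv ℝ u x (Pi.single j 1) - fderiv ℝ u p (Pi.single j 1)| ≤ m / 8 := by
    intro x hx j
    have h3 : ‖fderiv ℝ u x - fderiv ℝ u p‖ ≤ A * ‖x - p‖ := by
      refine Convex.norm_image_sub_le_of_norm_fderiv_le (𝕜 := ℝ) (s := Set.univ)
        (fun w _ => hdu2 w) (fun w _ => ?_) convex_univ (Set.mem_univ _) (Set.mem_univ _)
      have h4 : ‖fderiv ℝ (fderiv ℝ u) w‖ = ‖iteratedFDeriv ℝ 2 u w‖ := by
        rw [← norm_iteratedFDeriv_one, norm_iteratedFDeriv_fderiv]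
      rw [h4]
      exact hA w
    have hA0 : 0 ≤ A := (norm_nonneg _).trans (hA p)
    have h4 : ‖fderiv ℝ u x - fderiv ℝ u p‖ ≤ m / 8 := by
      refine h3.trans ((mul_le_mul_of_nonneg_left hx hA0).trans (hAr.trans hgn))
    have h5 : ‖(Pi.single j (1 : ℝ) : Fin n → ℝ)‖ ≤ 1 := by
      rw [pi_norm_le_iff_of_nonneg zero_le_one]
      intro k
      by_cases hk : k = j
      · subst hk
        simp
      · rw [Pi.single_eq_of_ne hk]
        simp
    have h6 := (fderiv ℝ u x - fderiv ℝ u p).le_opNorm (Pi.single j 1)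
    rw [ContinuousLinearMap.sub_apply, Real.norm_eq_abs] at h6
    refine h6.trans ((mul_le_mul h4 h5 (norm_nonneg _) (by positivity)).trans (le_of_eq ?_))
    ring
  obtain ⟨σ, hσ, hσm⟩ : ∃ σ : ℝ, (σ = 1 ∨ σ = -1) ∧
      σ * fderiv ℝ u p (Pi.single i 1) = m := by
    rcases le_total 0 (fderiv ℝ u p (Pi.single i 1)) with h | h
    · exact ⟨1, Or.inl rfl, by rw [hm, abs_of_nonneg h, one_mul]⟩
    · exact ⟨-1, Or.inr rfl, by rw [hm, abs_of_nonpos h, neg_one_mul]⟩
  refine level_pack u hdu p r s t (7 / 8 * m) hr hs (by positivity) i σ hσ ?_ ?_ S hS hsep ht ?_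
  · intro x hx
    have h3 := hclose x hx i
    rw [abs_le] at h3
    rcases hσ with rfl | rfl
    · rw [one_mul] at hσm ⊢
      linarith [h3.1]
    · rw [neg_one_mul] at hσm ⊢
      linarith [h3.2]
  · intro x hx j
    have h3 := hclose x hx j
    have h4 : |fderiv ℝ u p (Pi.single j 1)| ≤ m := hi j (Finset.mem_univ _)
    have h5 : |fderiv ℝ u x (Pi.single j 1)| ≤
        |fderiv ℝ u x (Pi.single j 1) - fderiv ℝ u p (Pi.single j 1)| +
          |fderiv ℝ u p (Pi.single j 1)| := by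
      have h6 := abs_add_le (fderiv ℝ u x (Pi.single j 1) - fderiv ℝ u p (Pi.single j 1))
        (fderiv ℝ u p (Pi.single j 1))
      rwa [sub_add_cancel] at h6
    linarith
  · refine hts.trans ?_
    have h3 : g₀ * s / (8 * n) = g₀ / (8 * n) * s := by ring
    rw [h3]
    nlinarith

end QPR
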