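import Pool.Agent.Lib.QPA.TLift

set_option autoImplicit false

namespace QPR

/-- iterates of a lift commute with integer translations. -/
theorem perD_iter {n : ℕ} {Φ : (Fin n → ℝ) → (Fin n → ℝ)} (h : PerD Φ) (k : ℕ) :
    PerD (Φ^[k]) := by
  induction k with
  | zero => intro x q; rfl
  | succ k ih =>
    intro x q
    rw [Function.iterate_succ_apply, Function.iterate_succ_apply, h x q, ih]

/-- the derivative of a lift is periodic. -/
theorem fderiv_perD {n : ℕ} {Φ : (Fin n → ℝ) → (Fin n → ℝ)} (h : PerD Φ) (x : Fin n → ℝ)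
    (k : Fin n → ℤ) : fderiv ℝ Φ (x + fun i => (k i : ℝ)) = fderiv ℝ Φ x := by
  have h1 : (fun z => Φ (z + fun i => (k i : ℝ))) = fun z => Φ z + fun i => (k i : ℝ) := by
    funext z
    exact h z k
  rw [← fderiv_comp_add_right, h1, fderiv_add_const]

private theorem TBdO_smo {n : ℕ} {F : (Fin n → ℝ) → (Fin n → ℝ)} (hF : Smo F) (k : ℕ) :
    Smo (F^[k]) := by
  induction k with
  | zero => exact contDiff_id
  | succ k ih =>
    rw [Function.iterate_succ]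
    exact ih.comp hF

private theorem TBdO_diff {n : ℕ} {F : (Fin n → ℝ) → (Fin n → ℝ)} (hF : Smo F) (k : ℕ)
    (x : Fin n → ℝ) : DifferentiableAt ℝ (F^[k]) x :=
  ((TBdO_smo hF k).differentiable (by simp)).differentiableAt

private theorem TBdO_cont {n : ℕ} {F : (Fin n → ℝ) → (Fin n → ℝ)} (hF : Smo F) (k : ℕ) :
    Continuous (fderiv ℝ (F^[k])) :=
  (TBdO_smo hF k).continuous_fderiv (by simp)

private theorem TBdO_chain {n : ℕ} {F : (Fin n → ℝ) → (Fin n → ℝ)} (hF : Smo F) (k j : ℕ)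
    (x : Fin n → ℝ) :
    fderiv ℝ (F^[k + j]) x = (fderiv ℝ (F^[k]) (F^[j] x)).comp (fderiv ℝ (F^[j]) x) := by
  rw [Function.iterate_add]
  exact fderiv_comp x (TBdO_diff hF k _) (TBdO_diff hF j x)

private theorem TBdO_one {n : ℕ} {F : (Fin n → ℝ) → (Fin n → ℝ)} (hF : Smo F) (hp : PerD F)
    (k : ℕ) : ∃ C : ℝ, ∀ x, ‖fderiv ℝ (F^[k]) x‖ ≤ C := by
  have hK : IsCompact (Set.Icc (0 : Fin n → ℝ) 1) := isCompact_Icc
  obtain ⟨C, hC⟩ := hK.exists_bound_of_continuousOn (TBdO_cont hF k).continuousOn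
  refine ⟨C, fun x => ?_⟩
  have h1 := fderiv_perD (perD_iter hp k) x (fun i => -⌊x i⌋)
  rw [← h1]
  refine hC _ ⟨fun i => ?_, fun i => ?_⟩
  · simp only [Pi.add_apply, Pi.zero_apply, Int.cast_neg]
    linarith [Int.floor_le (x i)]
  · simp only [Pi.add_apply, Pi.one_apply, Int.cast_neg]
    linarith [Int.lt_floor_add_one (x i)]

/-- for each `k` the derivative of `F^[k]` is bounded (periodicity and compactness of the cube). -/
theorem fderiv_iter_bdd {n : ℕ} {F : (Fin n → ℝ) → (Fin n → ℝ)} (hF : Smo F) (hp : PerD F)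
    (N : ℕ) : ∃ C : ℝ, 0 ≤ C ∧ ∀ k ≤ N, ∀ x, ‖fderiv ℝ (F^[k]) x‖ ≤ C := by
  choose M hM using TBdO_one hF hp
  refine ⟨∑ i ∈ Finset.range (N + 1), |M i|, Finset.sum_nonneg fun i _ => abs_nonneg _,
    fun k hk x => ?_⟩
  refine (hM k x).trans ((le_abs_self _).trans ?_)
  exact Finset.single_le_sum (f := fun i => |M i|) (fun i _ => abs_nonneg _)
    (Finset.mem_range.mpr (by omega))

/-- Uniform bound from an open set visited by all orbits. Proof: let `C` be the bound of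
`fderiv_iter_bdd` for `k ≤ N`. For `k ≤ N` the bound is `C`. For `k > N` and `x`, choose `j ≤ N` and
`q` with `F^[j] x + q ∈ U`; `F^[k] = F^[k - j] ∘ F^[j]`, chain rule, and
`fderiv (F^[k-j]) (F^[j] x) = fderiv (F^[k-j]) (F^[j] x + q)` has norm at most `m`. -/
theorem bdd_of_open {n : ℕ} {F : (Fin n → ℝ) → (Fin n → ℝ)} (hF : Smo F) (hp : PerD F)
    (N : ℕ) (U : Set (Fin n → ℝ))
    (hv : ∀ x, ∃ j ≤ N, ∃ q : Fin n → ℤ, (F^[j] x + fun i => (q i : ℝ)) ∈ U)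
    (m : ℝ) (hm : ∀ x ∈ U, ∀ k : ℕ, ‖fderiv ℝ (F^[k]) x‖ ≤ m) :
    ∃ C : ℝ, ∀ (k : ℕ) (x : Fin n → ℝ), ‖fderiv ℝ (F^[k]) x‖ ≤ C := by
  obtain ⟨C, hC0, hC⟩ := fderiv_iter_bdd hF hp N
  refine ⟨max C (m * C), fun k x => ?_⟩
  rcases Nat.lt_or_ge N k with hk | hk
  · obtain ⟨j, hj, q, hq⟩ := hv x
    obtain ⟨l, rfl⟩ : ∃ l, k = l + j := ⟨k - j, by omega⟩
    rw [TBdO_chain hF]
    have h1 : ‖fderiv ℝ (F^[l]) (F^[j] x)‖ ≤ m := by
      rw [← fderiv_perD (perD_iter hp l) (F^[j] x) q]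
      exact hm _ hq l
    have h2 : ‖fderiv ℝ (F^[j]) x‖ ≤ C := hC j hj x
    calc ‖(fderiv ℝ (F^[l]) (F^[j] x)).comp (fderiv ℝ (F^[j]) x)‖
        ≤ ‖fderiv ℝ (F^[l]) (F^[j] x)‖ * ‖fderiv ℝ (F^[j]) x‖ :=
          ContinuousLinearMap.opNorm_comp_le _ _
      _ ≤ m * C := mul_le_mul h1 h2 (norm_nonneg _) ((norm_nonneg _).trans h1)
      _ ≤ max C (m * C) := le_max_right _ _
  · exact (hC k hk x).trans (le_max_left _ _)

/-- Uniform bound from one orbit along which the derivatives and their inverses are bounded. Proof: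
`fderiv (F^[k]) (F^[j] x₀)` composed with `fderiv (F^[j]) x₀` is `fderiv (F^[k+j]) x₀`; for a vector
`w` write `w = fderiv (F^[j]) x₀ v` (`fderiv (F^[j]) x₀` is injective by `h2`, hence surjective,
finite dimension), so `‖fderiv (F^[k]) (F^[j] x₀) w‖ = ‖fderiv (F^[k+j]) x₀ v‖ ≤ L ‖v‖
≤ L * L * ‖w‖`. The points `F^[j] x₀ + q` are dense and the derivative is continuous and periodic. -/
theorem bdd_of_point {n : ℕ} {F : (Fin n → ℝ) → (Fin n → ℝ)} (hF : Smo F) (hp : PerD F)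
    (x₀ : Fin n → ℝ) (L : ℝ) (h1 : ∀ k : ℕ, ‖fderiv ℝ (F^[k]) x₀‖ ≤ L)
    (h2 : ∀ (k : ℕ) (v : Fin n → ℝ), ‖v‖ ≤ L * ‖fderiv ℝ (F^[k]) x₀ v‖)
    (hdense : ∀ U : Set (Fin n → ℝ), IsOpen U → U.Nonempty →
      ∃ (j : ℕ) (q : Fin n → ℤ), (F^[j] x₀ + fun i => (q i : ℝ)) ∈ U) :
    ∀ (k : ℕ) (x : Fin n → ℝ), ‖fderiv ℝ (F^[k]) x‖ ≤ L * L := by
  have hL : 0 ≤ L := (norm_nonneg _).trans (h1 0)
  intro k x
  by_contra hcon
  have hcon' : L * L < ‖fderiv ℝ (F^[k]) x‖ := not_le.mp hcon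
  have hopen : IsOpen {y : Fin n → ℝ | L * L < ‖fderiv ℝ (F^[k]) y‖} :=
    isOpen_lt continuous_const (TBdO_cont hF k).norm
  obtain ⟨j, q, hq⟩ := hdense _ hopen ⟨x, hcon'⟩
  have hq' : L * L < ‖fderiv ℝ (F^[k]) (F^[j] x₀ + fun i => (q i : ℝ))‖ := hq
  rw [fderiv_perD (perD_iter hp k) (F^[j] x₀) q] at hq'
  refine absurd hq' (not_lt.mpr ?_)
  refine ContinuousLinearMap.opNorm_le_bound _ (mul_nonneg hL hL) fun w => ?_
  have hinj : Function.Injective (fderiv ℝ (F^[j]) x₀ : (Fin n → ℝ) →ₗ[ℝ] (Fin n → ℝ)) := by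
    rw [← LinearMap.ker_eq_bot, LinearMap.ker_eq_bot']
    intro v hv
    have h3 := h2 j v
    have hv' : fderiv ℝ (F^[j]) x₀ v = 0 := hv
    rw [hv', norm_zero, mul_zero] at h3
    exact norm_le_zero_iff.mp h3
  obtain ⟨v, hv⟩ := LinearMap.surjective_of_injective hinj w
  have hv' : fderiv ℝ (F^[j]) x₀ v = w := hv
  have h4 : fderiv ℝ (F^[k]) (F^[j] x₀) w = fderiv ℝ (F^[k + j]) x₀ v := by
    rw [TBdO_chain hF, ← hv']
    rfl
  rw [h4]
  calc ‖fderiv ℝ (F^[k + j]) x₀ v‖ ≤ ‖fderiv ℝ (F^[k + j]) x₀‖ * ‖v‖ :=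
        ContinuousLinearMap.le_opNorm _ _
    _ ≤ L * (L * ‖w‖) := by
        refine mul_le_mul (h1 _) ?_ (norm_nonneg _) hL
        have := h2 j v
        rwa [hv'] at this
    _ = L * L * ‖w‖ := by ring

end QPR
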