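import Pool.Agent.Lib.QPA.GDenX
import Pool.Agent.Lib.QPA.ALin
import Pool.Agent.Lib.QPA.TBdO

set_option autoImplicit false

namespace QPR

variable {n : ℕ} {α : Fin n → ℝ} {F F' H H' : (Fin n → ℝ) → (Fin n → ℝ)}

private theorem GInvM_smo (hF : Smo F) (k : ℕ) : Smo (F^[k]) := by
  induction k with
  | zero => exact contDiff_id
  | succ k ih =>
    rw [Function.iterate_succ]
    exact ih.comp hF

private theorem GInvM_avg (g : ℕ → (Fin n → ℝ)) (x : Fin n → ℝ) (B : ℝ)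
    (hB : ∀ k, ‖g k - x‖ ≤ B) (N k : ℕ) :
    ‖(∑ j ∈ Finset.range N, g (j + k)) - ∑ j ∈ Finset.range N, g j‖ ≤ 2 * B * k := by
  have h1 : (∑ j ∈ Finset.range N, g (j + k)) + ∑ j ∈ Finset.range k, g j =
      (∑ j ∈ Finset.range k, g (j + N)) + ∑ j ∈ Finset.range N, g j := by
    have e1 := Finset.sum_range_add (fun j => g j) k N
    have e2 := Finset.sum_range_add (fun j => g j) N k
    rw [add_comm k N] at e1
    rw [e1] at e2
    have e3 : ∀ a b : ℕ, ∑ j ∈ Finset.range a, g (j + b) = ∑ j ∈ Finset.range a, g (b + j) :=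
      fun a b => Finset.sum_congr rfl fun j _ => by rw [add_comm]
    rw [e3, e3, add_comm, e2, add_comm]
  have h2 : (∑ j ∈ Finset.range N, g (j + k)) - ∑ j ∈ Finset.range N, g j =
      ∑ j ∈ Finset.range k, (g (j + N) - g j) := by
    rw [Finset.sum_sub_distrib, sub_eq_sub_iff_add_eq_add, h1]
  rw [h2]
  refine (norm_sum_le_of_le (f := fun j => g (j + N) - g j) (n := fun _ => 2 * B)
    (Finset.range k) fun j _ => ?_).trans ?_
  · have e : g (j + N) - g j = (g (j + N) - x) - (g j - x) := by abel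
    rw [e]
    refine (norm_sub_le _ _).trans ?_
    linarith [hB (j + N), hB j]
  · rw [Finset.sum_const, Finset.card_range, nsmul_eq_mul]
    linarith

/-- basic properties of the averages: smooth, commute with integer translations,
`‖avF (F^[k] x) - avF x - k α‖ ≤ 2 B k / N` (`B` from `iter_disp`; the sums differ by `k` terms at each
end), first two derivatives at most `C N^κ`. -/
theorem avF_props (hd : DatA α F F' H H') {κ C : ℝ} (hκ : 0 ≤ κ) (hC : 1 ≤ C) (hG : Gro F κ C) :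
    ∃ B : ℝ, 1 ≤ B ∧ ∀ N : ℕ, 1 ≤ N → Smo (avF α F N) ∧ PerD (avF α F N) ∧
      (∀ (k : ℕ) (x : Fin n → ℝ), ‖avF α F N (F^[k] x) - avF α F N x - (k : ℝ) • α‖ ≤ B * k / N) ∧
      (∀ x, ‖fderiv ℝ (avF α F N) x‖ ≤ C * (N : ℝ) ^ κ) ∧
      ∀ x, ‖iteratedFDeriv ℝ 2 (avF α F N) x‖ ≤ C * (N : ℝ) ^ κ := by
  obtain ⟨B, hB1, hB⟩ := iter_disp hd
  refine ⟨2 * B, by linarith, fun N hN => ?_⟩
  have hN0 : (0 : ℝ) < N := by exact_mod_cast hN
  have hMb : Mb 2 1 (C * (N : ℝ) ^ κ) (avF α F N) := by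
    refine Mb.avg (r := 2) (K := 1) zero_le_one N hN fun k hk => ?_
    have h0 : Mb 2 1 (C * (N : ℝ) ^ κ) (F^[k]) := by
      refine ⟨GInvM_smo hd.smF k, fun i h1 h2 x => ?_⟩
      rw [one_pow, mul_one]
      have hk1 : (k : ℝ) + 1 ≤ N := by exact_mod_cast hk
      have h3 : C * ((k : ℝ) + 1) ^ κ ≤ C * (N : ℝ) ^ κ :=
        mul_le_mul_of_nonneg_left (Real.rpow_le_rpow (by positivity) hk1 hκ) (by linarith)
      rcases (show i = 1 ∨ i = 2 by omega) with rfl | rfl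
      · rw [norm_iteratedFDeriv_one]
        exact (hG k x).1.trans h3
      · exact (hG k x).2.trans h3
    have h1 := h0.add_const (-((k : ℝ) • α))
    have h2 : (fun x => F^[k] x + -((k : ℝ) • α)) = fun x => F^[k] x - (k : ℝ) • α := by
      funext x
      rw [sub_eq_add_neg]
    rw [h2] at h1
    exact h1
  refine ⟨hMb.1, ?_, ?_, fun x => ?_, fun x => ?_⟩
  · intro x q
    unfold avF
    have h1 : ∀ k : ℕ, F^[k] (x + fun i => (q i : ℝ)) - (k : ℝ) • α =
        (F^[k] x - (k : ℝ) • α) + fun i => (q i : ℝ) := by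
      intro k
      rw [perD_iter hd.perF k x q]
      abel
    rw [Finset.sum_congr rfl fun k _ => h1 k, Finset.sum_add_distrib, smul_add, Finset.sum_const,
      Finset.card_range, ← Nat.cast_smul_eq_nsmul ℝ, smul_smul, one_div, inv_mul_cancel₀ hN0.ne',
      one_smul]
  · intro k x
    have h1 : avF α F N (F^[k] x) = (1 / (N : ℝ)) •
        (∑ j ∈ Finset.range N, (F^[j + k] x - ((j + k : ℕ) : ℝ) • α)) + (k : ℝ) • α := by
      unfold avF
      have e1 : ∀ j : ℕ, F^[j] (F^[k] x) - (j : ℝ) • α =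
          (F^[j + k] x - ((j + k : ℕ) : ℝ) • α) + (k : ℝ) • α := by
        intro j
        rw [Function.iterate_add_apply, Nat.cast_add, add_smul]
        abel
      rw [Finset.sum_congr rfl fun j _ => e1 j, Finset.sum_add_distrib, smul_add, Finset.sum_const,
        Finset.card_range, ← Nat.cast_smul_eq_nsmul ℝ, smul_smul, one_div, inv_mul_cancel₀ hN0.ne',
        one_smul]
    have h2 : avF α F N (F^[k] x) - avF α F N x - (k : ℝ) • α = (1 / (N : ℝ)) •
        ((∑ j ∈ Finset.range N, (F^[j + k] x - ((j + k : ℕ) : ℝ) • α)) -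
          ∑ j ∈ Finset.range N, (F^[j] x - (j : ℝ) • α)) := by
      rw [h1, smul_sub]
      unfold avF
      abel
    rw [h2, norm_smul, Real.norm_eq_abs, abs_of_pos (by positivity)]
    have h3 := GInvM_avg (fun j => F^[j] x - (j : ℝ) • α) x B (fun j => by
      have := hB j x
      have e : F^[j] x - (j : ℝ) • α - x = F^[j] x - x - (j : ℝ) • α := by abel
      rw [e]
      exact this) N k
    calc 1 / (N : ℝ) * _ ≤ 1 / (N : ℝ) * (2 * B * k) :=
          mul_le_mul_of_nonneg_left h3 (by positivity)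
      _ = 2 * B * k / N := by ring
  · have h1 := hMb.2 1 le_rfl (by norm_num) x
    rw [norm_iteratedFDeriv_one, one_pow, mul_one] at h1
    exact h1
  · have h1 := hMb.2 2 (by norm_num) le_rfl x
    rw [one_pow, mul_one] at h1
    exact h1

/-- lower bounds for all functionals `e ∘ T` give lower bounds for `T` (finite dimension: `T` is
surjective, hence bijective; Hahn-Banach). -/
theorem lower_of_dual {n : ℕ} (T : (Fin n → ℝ) →L[ℝ] (Fin n → ℝ)) (q : ℝ) (hq : 0 < q)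
    (h : ∀ e : (Fin n → ℝ) →L[ℝ] ℝ, q * ‖e‖ ≤ ‖e.comp T‖) (v : Fin n → ℝ) :
    q * ‖v‖ ≤ ‖T v‖ := by
  have hinj : Function.Injective (T.toLinearMap).dualMap := by
    rw [injective_iff_map_eq_zero]
    intro φ hφ
    have h1 : (LinearMap.toContinuousLinearMap φ).comp T = 0 :=
      ContinuousLinearMap.ext fun x => LinearMap.congr_fun hφ x
    have h2 := h (LinearMap.toContinuousLinearMap φ)
    rw [h1, norm_zero] at h2
    have h3 : ‖LinearMap.toContinuousLinearMap φ‖ = 0 := by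
      have := norm_nonneg (LinearMap.toContinuousLinearMap φ)
      nlinarith
    rw [norm_eq_zero] at h3
    exact (LinearMap.toContinuousLinearMap (𝕜 := ℝ)).injective (by rw [h3, map_zero])
  have hsurj : Function.Surjective T.toLinearMap := LinearMap.dualMap_injective_iff.1 hinj
  have hinj' : Function.Injective T.toLinearMap := LinearMap.injective_iff_surjective.2 hsurj
  set S : (Fin n → ℝ) ≃ₗ[ℝ] (Fin n → ℝ) := LinearEquiv.ofBijective T.toLinearMap ⟨hinj', hsurj⟩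
    with hS
  obtain ⟨g, hg1, hg2⟩ := exists_dual_vector'' ℝ v
  set e : (Fin n → ℝ) →L[ℝ] ℝ :=
    g.comp (LinearMap.toContinuousLinearMap S.symm.toLinearMap) with he
  have h1 : ∀ x, S.symm (T x) = x := fun x => S.symm_apply_apply x
  have h2 : e.comp T = g := ContinuousLinearMap.ext fun x => by
    change g (S.symm (T x)) = g x
    rw [h1]
  have h3 := h e
  rw [h2] at h3
  have h4 : g v = e (T v) := by
    rw [← h2]
    rfl
  have h5 : ‖v‖ ≤ ‖e‖ * ‖T v‖ := by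
    have h6 := e.le_opNorm (T v)
    rw [← h4, hg2] at h6
    simpa using h6
  have h7 : q * ‖v‖ ≤ (q * ‖e‖) * ‖T v‖ := by
    rw [mul_assoc]
    exact mul_le_mul_of_nonneg_left h5 hq.le
  refine h7.trans ?_
  calc (q * ‖e‖) * ‖T v‖ ≤ 1 * ‖T v‖ := mul_le_mul_of_nonneg_right (h3.trans hg1) (norm_nonneg _)
    _ = ‖T v‖ := one_mul _

private theorem GInvM_norm_le {n : ℕ} (e : (Fin n → ℝ) →L[ℝ] ℝ) (a : ℝ)
    (h : ∀ i, |e (Pi.single i 1)| ≤ a) : ‖e‖ ≤ n * a := by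
  rcases Nat.eq_zero_or_pos n with rfl | hn
  · have h1 : e = 0 := ContinuousLinearMap.ext fun x => by
      rw [Subsingleton.elim x 0, map_zero, map_zero]
    rw [h1, norm_zero]
    simp
  have ha : 0 ≤ a := (abs_nonneg _).trans (h ⟨0, hn⟩)
  refine e.opNorm_le_bound (by positivity) fun x => ?_
  have h1 : e x = ∑ i, x i * e (Pi.single i 1) := by
    conv_lhs => rw [← Finset.univ_sum_single x, map_sum]
    refine Finset.sum_congr rfl fun i _ => ?_
    have h2 : (Pi.single i (x i) : Fin n → ℝ) = x i • Pi.single i (1 : ℝ) := by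
      rw [← Pi.single_smul, smul_eq_mul, mul_one]
    rw [h2, map_smul, smul_eq_mul]
  rw [h1, Real.norm_eq_abs]
  refine (Finset.abs_sum_le_sum_abs _ _).trans ?_
  have h3 : ∀ i ∈ Finset.univ, |x i * e (Pi.single i 1)| ≤ ‖x‖ * a := fun i _ => by
    rw [abs_mul]
    exact mul_le_mul (norm_le_pi_norm x i) (h i) (abs_nonneg _) (norm_nonneg _)
  refine (Finset.sum_le_sum h3).trans ?_
  rw [Finset.sum_const, Finset.card_univ, Fintype.card_fin, nsmul_eq_mul]
  linarith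

private theorem GInvM_tend (a : ℝ) (ha : 0 < a) (c : ℝ) :
    Filter.Tendsto (fun N : ℕ => c * (N : ℝ) ^ (-a)) Filter.atTop (nhds 0) := by
  have h1 := (tendsto_rpow_neg_atTop ha).comp tendsto_natCast_atTop_atTop
  have h2 := h1.const_mul c
  rw [mul_zero] at h2
  exact h2

/-- The averages have invertible derivative: `N^(-κ) ‖v‖ ≤ ‖D avF_N (x) v‖` for large `N`. Suppose
`‖e ∘ D avF_N (x)‖ < N^(-κ) ‖e‖` for a functional `e`, `‖e‖ = 1`, and a point `x`. Put `N₁ = ⌊N^(1/4)⌋`. For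
every `y` there are `m < N₁`, `l` with `F^[m] y + l` within `N₁^(-ρ₀)` of `x` (`dens_x`,
`ρ₀ = 1/(20P(n+2))`). `‖e ∘ D avF_N (F^[m] y)‖ ≤ N^(-κ) + C N^κ N₁^(-ρ₀)` (second derivative, `D avF_N` periodic),
and by `near_inv_deriv` (`u = avF_N`, constant `α`, `a = B/N`, `b = C N^κ`, `k = m`), `e ∘ D avF_N (y)` differs
from `e ∘ D avF_N (F^[m] y) ∘ D F^[m] (y)` by at most `C' N^(-3/8 + 3κ/4 + ...)`; `‖D F^[m] (y)‖ ≤ C N^(κ/4)`. So
`‖e ∘ D avF_N (y)‖ ≤ C' (N^(-κ + κ/4) + N^(κ + κ/4 - ρ₀/4) + N^(-1/4)) < 1/(2n)` for all `y` and large `N`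
(`5κ/4 < ρ₀/4 = 1/(80P(n+2))`). But `avF_N (y + e_i) - avF_N y = e_i` (`PerD`), so `|e (e_i)| ≤ 1/(2n)` for all
`i`, `‖e‖ ≤ 1/2`. Contradiction; then `lower_of_dual`. -/
theorem avF_lower (hn : 0 < n) (hd : DatA α F F' H H') {γ τ : ℝ} (hα : DioE α γ τ)
    (P : ℝ) (hP : P = τ + 2 * n + 1) {κ C : ℝ} (hκ0 : 0 < κ) (hκ : κ * (200 * (n + 2) * P) ≤ 1)
    (hC : 1 ≤ C) (hG : Gro F κ C) :
    ∃ N₀ : ℕ, 1 ≤ N₀ ∧ ∀ N : ℕ, N₀ ≤ N → ∀ x v : Fin n → ℝ,
      (N : ℝ) ^ (-κ) * ‖v‖ ≤ ‖fderiv ℝ (avF α F N) x v‖ := by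
  obtain ⟨B, hB1, hav⟩ := avF_props hd hκ0.le hC hG
  obtain ⟨N₁', hN₁', hdens⟩ := dens_x hn hd hα P hP hκ0 hκ hC hG
  have hτ : 0 < τ := hα.2.1
  have hn0 : (0 : ℝ) ≤ n := Nat.cast_nonneg n
  have hP1 : 1 ≤ P := by rw [hP]; linarith
  set ρ : ℝ := 1 / (20 * P * (n + 2)) with hρ
  have hρ0 : 0 < ρ := by positivity
  have hκρ : 10 * κ ≤ ρ := by
    rw [hρ, le_div_iff₀ (by positivity)]
    nlinarith
  have hκ2 : κ ≤ 1 / 200 := by
    have h1 : 1 ≤ (n + 2) * P := by nlinarith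
    have h2 : κ * 200 ≤ κ * (200 * (n + 2) * P) :=
      mul_le_mul_of_nonneg_left (by nlinarith) hκ0.le
    linarith
  -- the three error terms
  set E : ℕ → ℝ := fun N => 4 * √(3 * B * C ^ 3) * (N : ℝ) ^ (-(3 / 8 - 3 * κ / 4)) +
    C * (N : ℝ) ^ (-(3 * κ / 4)) + C ^ 2 * (2 : ℝ) ^ ρ * (N : ℝ) ^ (-(ρ / 4 - 5 * κ / 4)) with hE
  have hEt : Filter.Tendsto (fun N => n * E N) Filter.atTop (nhds 0) := by
    have h1 := ((GInvM_tend (3 / 8 - 3 * κ / 4) (by linarith) (4 * √(3 * B * C ^ 3))).add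
      (GInvM_tend (3 * κ / 4) (by linarith) C)).add
      (GInvM_tend (ρ / 4 - 5 * κ / 4) (by linarith) (C ^ 2 * (2 : ℝ) ^ ρ))
    have h2 := h1.const_mul (n : ℝ)
    simpa [hE] using h2
  have hev1 : ∀ᶠ N : ℕ in Filter.atTop, n * E N < 1 := hEt.eventually_lt_const one_pos
  have hev2 : ∀ᶠ N : ℕ in Filter.atTop, N₁' ≤ ⌊(N : ℝ) ^ (1 / 4 : ℝ)⌋₊ :=
    (tendsto_nat_floor_atTop.comp ((tendsto_rpow_atTop (by norm_num : (0 : ℝ) < 1 / 4)).comp
      tendsto_natCast_atTop_atTop)).eventually_ge_atTop N₁'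
  obtain ⟨N₀, hN₀⟩ := Filter.eventually_atTop.1 (hev1.and hev2)
  refine ⟨max N₀ 1, le_max_right _ _, fun N hN x v => ?_⟩
  have hN1 : 1 ≤ N := (le_max_right _ _).trans hN
  obtain ⟨hE1, hfl⟩ := hN₀ N ((le_max_left _ _).trans hN)
  have hX1 : (1 : ℝ) ≤ N := by exact_mod_cast hN1
  have hX0 : (0 : ℝ) < N := by linarith
  obtain ⟨hsm, hper, hinv, hb1, hb2⟩ := hav N hN1
  set M : (Fin n → ℝ) → (Fin n → ℝ) := avF α F N with hM
  refine lower_of_dual _ _ (Real.rpow_pos_of_pos hX0 _) (fun e => ?_) v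
  by_contra hlt
  push Not at hlt
  have he0 : 0 < ‖e‖ := by
    rcases (norm_nonneg e).lt_or_eq with h | h
    · exact h
    · rw [← h, mul_zero] at hlt
      exact absurd hlt (not_lt.2 (norm_nonneg _))
  set N₁ : ℕ := ⌊(N : ℝ) ^ (1 / 4 : ℝ)⌋₊ with hN₁
  set t : ℝ := (N : ℝ) ^ (1 / 4 : ℝ) with ht
  have ht1 : 1 ≤ t := Real.one_le_rpow hX1 (by norm_num)
  have hN₁t : (N₁ : ℝ) ≤ t := Nat.floor_le (by linarith)
  have hN₁2 : t / 2 ≤ N₁ := by
    have h1 : t < N₁ + 1 := Nat.lt_floor_add_one t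
    have h2 : (1 : ℝ) ≤ N₁ := by exact_mod_cast hN₁'.trans hfl
    linarith
  -- the second derivative
  have hsm1 : ContDiff ℝ ((⊤ : ℕ∞) : WithTop ℕ∞) (fderiv ℝ M) := hsm.fderiv_right (by simp)
  have hD2 : ∀ y z : Fin n → ℝ, ‖fderiv ℝ M y - fderiv ℝ M z‖ ≤ C * (N : ℝ) ^ κ * ‖y - z‖ := by
    intro y z
    refine Convex.norm_image_sub_le_of_norm_fderiv_le (𝕜 := ℝ) (s := Set.univ)
      (fun w _ => (hsm1.differentiable (by simp)).differentiableAt) (fun w _ => ?_) convex_univ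
      (Set.mem_univ z) (Set.mem_univ y)
    rw [← norm_iteratedFDeriv_one, norm_iteratedFDeriv_fderiv]
    exact hb2 w
  have key : ∀ y, ‖e.comp (fderiv ℝ M y)‖ ≤ E N * ‖e‖ := by
    intro y
    obtain ⟨m, l, hm, hml⟩ := hdens N₁ hfl y x
    have hm1 : (m : ℝ) + 1 ≤ t := by
      have : (m : ℝ) + 1 ≤ N₁ := by exact_mod_cast hm
      linarith
    have hm0 : (0 : ℝ) ≤ m := Nat.cast_nonneg m
    have hmκ : ((m : ℝ) + 1) ^ κ ≤ (N : ℝ) ^ (κ / 4) := by
      refine (Real.rpow_le_rpow (by positivity) hm1 hκ0.le).trans ?_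
      rw [ht, ← Real.rpow_mul hX0.le]
      refine le_of_eq ?_
      congr 1
      ring
    have hm2κ : ((m : ℝ) + 1) ^ (2 * κ) ≤ (N : ℝ) ^ (κ / 2) := by
      refine (Real.rpow_le_rpow (by positivity) hm1 (by linarith)).trans ?_
      rw [ht, ← Real.rpow_mul hX0.le]
      refine le_of_eq ?_
      congr 1
      ring
    -- the derivative at the visiting point
    have h1 : fderiv ℝ M (F^[m] y) = fderiv ℝ M (F^[m] y + fun i => (l i : ℝ)) :=
      (fderiv_perD hper _ _).symm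
    have h2 : ‖fderiv ℝ M (F^[m] y) - fderiv ℝ M x‖ ≤
        C * (2 : ℝ) ^ ρ * (N : ℝ) ^ (κ - ρ / 4) := by
      rw [h1]
      refine (hD2 _ _).trans ?_
      have h3 : (N₁ : ℝ) ^ (-ρ) ≤ (2 : ℝ) ^ ρ * (N : ℝ) ^ (-(ρ / 4)) := by
        have h4 : (N₁ : ℝ) ^ (-ρ) ≤ (t / 2) ^ (-ρ) :=
          Real.rpow_le_rpow_of_nonpos (by positivity) hN₁2 (by linarith)
        refine h4.trans (le_of_eq ?_)
        rw [Real.div_rpow (by linarith) (by norm_num), Real.rpow_neg (by norm_num : (0 : ℝ) ≤ 2),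
          div_inv_eq_mul, mul_comm, ht, ← Real.rpow_mul hX0.le]
        congr 2
        ring
      calc C * (N : ℝ) ^ κ * ‖F^[m] y + (fun i => (l i : ℝ)) - x‖
          ≤ C * (N : ℝ) ^ κ * ((2 : ℝ) ^ ρ * (N : ℝ) ^ (-(ρ / 4))) :=
            mul_le_mul_of_nonneg_left (hml.trans h3) (by positivity)
        _ = C * (2 : ℝ) ^ ρ * ((N : ℝ) ^ κ * (N : ℝ) ^ (-(ρ / 4))) := by ring
        _ = C * (2 : ℝ) ^ ρ * (N : ℝ) ^ (κ - ρ / 4) := by
            rw [← Real.rpow_add hX0, sub_eq_add_neg]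
    have h3 : ‖e.comp (fderiv ℝ M (F^[m] y))‖ ≤
        ((N : ℝ) ^ (-κ) + C * (2 : ℝ) ^ ρ * (N : ℝ) ^ (κ - ρ / 4)) * ‖e‖ := by
      have h4 : e.comp (fderiv ℝ M (F^[m] y)) =
          e.comp (fderiv ℝ M x) + e.comp (fderiv ℝ M (F^[m] y) - fderiv ℝ M x) := by
        rw [ContinuousLinearMap.comp_sub]
        abel
      rw [h4]
      refine (norm_add_le _ _).trans ?_
      have h5 := (e.opNorm_comp_le (fderiv ℝ M (F^[m] y) - fderiv ℝ M x)).trans
        (mul_le_mul_of_nonneg_left h2 (norm_nonneg e))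
      linarith
    -- transport
    have h4 := near_inv_deriv hd.smF hκ0.le hC hG M hsm α (B / N) (C * (N : ℝ) ^ κ)
      (fun z => by
        have := hinv 1 z
        simpa using this) hb1 hb2 m y
    have h5 : 4 * √(m * (B / N) * (3 * (C * (N : ℝ) ^ κ) * C ^ 2 * ((m : ℝ) + 1) ^ (2 * κ))) ≤
        4 * √(3 * B * C ^ 3) * (N : ℝ) ^ (-(3 / 8 - 3 * κ / 4)) := by
      have h6 : m * (B / N) * (3 * (C * (N : ℝ) ^ κ) * C ^ 2 * ((m : ℝ) + 1) ^ (2 * κ)) ≤
          3 * B * C ^ 3 * ((N : ℝ) ^ (-(3 / 8 - 3 * κ / 4))) ^ 2 := by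
        have h7 : (m : ℝ) ≤ t := by linarith
        calc m * (B / N) * (3 * (C * (N : ℝ) ^ κ) * C ^ 2 * ((m : ℝ) + 1) ^ (2 * κ))
            ≤ t * (B / N) * (3 * (C * (N : ℝ) ^ κ) * C ^ 2 * (N : ℝ) ^ (κ / 2)) := by
              gcongr
          _ = 3 * B * C ^ 3 * (t * (N : ℝ)⁻¹ * ((N : ℝ) ^ κ * (N : ℝ) ^ (κ / 2))) := by
              ring
          _ = 3 * B * C ^ 3 * ((N : ℝ) ^ (-(3 / 8 - 3 * κ / 4))) ^ 2 := by
              congr 1
              rw [ht, ← Real.rpow_natCast, ← Real.rpow_mul hX0.le, ← Real.rpow_neg_one (N : ℝ),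
                ← Real.rpow_add hX0, ← Real.rpow_add hX0, ← Real.rpow_add hX0]
              congr 1
              push_cast
              ring
      calc 4 * √(m * (B / N) * (3 * (C * (N : ℝ) ^ κ) * C ^ 2 * ((m : ℝ) + 1) ^ (2 * κ)))
          ≤ 4 * √(3 * B * C ^ 3 * ((N : ℝ) ^ (-(3 / 8 - 3 * κ / 4))) ^ 2) :=
            mul_le_mul_of_nonneg_left (Real.sqrt_le_sqrt h6) (by norm_num)
        _ = 4 * √(3 * B * C ^ 3) * (N : ℝ) ^ (-(3 / 8 - 3 * κ / 4)) := by
            rw [Real.sqrt_mul (by positivity), Real.sqrt_sq (by positivity)]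
            ring
    have h6 := (hG m y).1
    have h7 : ‖fderiv ℝ (F^[m]) y‖ ≤ C * (N : ℝ) ^ (κ / 4) :=
      h6.trans (mul_le_mul_of_nonneg_left hmκ (by linarith))
    have h8 : e.comp (fderiv ℝ M y) =
        (e.comp (fderiv ℝ M (F^[m] y))).comp (fderiv ℝ (F^[m]) y) -
          e.comp ((fderiv ℝ M (F^[m] y)).comp (fderiv ℝ (F^[m]) y) - fderiv ℝ M y) := by
      rw [ContinuousLinearMap.comp_sub, ContinuousLinearMap.comp_assoc]
      abel
    rw [h8]
    refine (norm_sub_le _ _).trans ?_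
    have h9 := (ContinuousLinearMap.opNorm_comp_le (e.comp (fderiv ℝ M (F^[m] y)))
      (fderiv ℝ (F^[m]) y)).trans
      (mul_le_mul h3 h7 (norm_nonneg _) (by positivity))
    have h10 := (e.opNorm_comp_le ((fderiv ℝ M (F^[m] y)).comp (fderiv ℝ (F^[m]) y) -
      fderiv ℝ M y)).trans (mul_le_mul_of_nonneg_left (h4.trans h5) (norm_nonneg e))
    refine (add_le_add h9 h10).trans (le_of_eq ?_)
    have e1 : (N : ℝ) ^ (-(3 * κ / 4)) = (N : ℝ) ^ (-κ) * (N : ℝ) ^ (κ / 4) := by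
      rw [← Real.rpow_add hX0]
      congr 1
      ring
    have e2 : (N : ℝ) ^ (-(ρ / 4 - 5 * κ / 4)) = (N : ℝ) ^ (κ - ρ / 4) * (N : ℝ) ^ (κ / 4) := by
      rw [← Real.rpow_add hX0]
      congr 1
      ring
    rw [hE]
    simp only
    rw [e1, e2]
    ring
  have hei : ∀ i, |e (Pi.single i 1)| ≤ E N * ‖e‖ := by
    intro i
    have h1 : M (0 + fun j => ((Pi.single i (1 : ℤ) : Fin n → ℤ) j : ℝ)) =
        M 0 + fun j => ((Pi.single i (1 : ℤ) : Fin n → ℤ) j : ℝ) := hper _ _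
    have h2 : (fun j => ((Pi.single i (1 : ℤ) : Fin n → ℤ) j : ℝ)) = (Pi.single i 1 : Fin n → ℝ) := by
      funext j
      rcases eq_or_ne j i with rfl | hj
      · simp
      · simp [hj]
    rw [h2, zero_add] at h1
    have h3 : ‖e (M (Pi.single i 1)) - e (M 0)‖ ≤
        E N * ‖e‖ * ‖(Pi.single i 1 : Fin n → ℝ) - 0‖ := by
      refine Convex.norm_image_sub_le_of_norm_fderiv_le (𝕜 := ℝ) (s := Set.univ)
        (f := fun z => e (M z)) (fun w _ => ?_) (fun w _ => ?_) convex_univ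
        (Set.mem_univ _) (Set.mem_univ _)
      · exact e.differentiableAt.comp w (hsm.differentiable (by simp)).differentiableAt
      · have h4 : fderiv ℝ (fun z => e (M z)) w = e.comp (fderiv ℝ M w) := by
          have h5 := (e.hasFDerivAt (x := M w)).comp w
            ((hsm.differentiable (by simp)).differentiableAt (x := w)).hasFDerivAt
          exact h5.fderiv
        rw [h4]
        exact key w
    rw [h1, map_add, add_sub_cancel_left, sub_zero, Pi.norm_single, norm_one, mul_one,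
      Real.norm_eq_abs] at h3
    exact h3
  have hfin := GInvM_norm_le e _ hei
  rw [← mul_assoc] at hfin
  nlinarith

end QPR
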