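import Pool.Agent.Lib.QPA.GDens
import Pool.Agent.Lib.QPA.GGDef

set_option autoImplicit false

namespace QPR

/-- A net of vectors `k α + l`: `M = ⌊1/(8 ε)⌋`, for `j : Fin n → Fin M` approximate the vector
`8 ε j` up to `ε` (`dens_rate`). -/
theorem exists_net {n : ℕ} {α : Fin n → ℝ} {γ τ : ℝ} (hα : DioE α γ τ) :
    ∃ C : ℝ, 1 ≤ C ∧ ∀ ε : ℝ, 0 < ε → ε ≤ 1 / 16 →
      ∃ (M : ℕ) (kk : (Fin n → Fin M) → ℕ) (ll : (Fin n → Fin M) → (Fin n → ℤ)),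
        1 / (16 * ε) ≤ M ∧ (∀ j, (kk j : ℝ) ≤ C * ε ^ (-(τ + 2 * n + 1))) ∧
        (∀ j, ‖kal α (kk j) (ll j)‖ ≤ 2) ∧
        ∀ j j', j ≠ j' → 6 * ε ≤ ‖kal α (kk j) (ll j) - kal α (kk j') (ll j')‖ := by
  obtain ⟨C, hC, h⟩ := dens_rate hα
  refine ⟨C, hC, fun ε hε hε1 => ?_⟩
  have hε2 : ε ≤ 1 := by linarith
  obtain ⟨M, hM⟩ : ∃ M : ℕ, M = ⌊1 / (8 * ε)⌋₊ := ⟨_, rfl⟩
  let θ : (Fin n → Fin M) → (Fin n → ℝ) := fun j i => 8 * ε * ((j i : ℕ) : ℝ)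
  choose kk ll hk hl using fun j => h (θ j) ε hε hε2
  have hl' : ∀ j, ‖kal α (kk j) (ll j) - θ j‖ ≤ ε := hl
  have hM1 : (M : ℝ) ≤ 1 / (8 * ε) := by
    rw [hM]
    exact Nat.floor_le (by positivity)
  have hM2 : 1 / (8 * ε) < M + 1 := by
    rw [hM]
    exact Nat.lt_floor_add_one _
  have h16 : 1 ≤ 1 / (16 * ε) := by
    rw [le_div_iff₀ (by positivity)]
    linarith
  have h8 : 1 / (8 * ε) = 1 / (16 * ε) + 1 / (16 * ε) := by
    field_simp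
    norm_num
  refine ⟨M, kk, ll, by linarith, hk, fun j => ?_, fun j j' hjj => ?_⟩
  · have hθ : ‖θ j‖ ≤ 1 := by
      rw [pi_norm_le_iff_of_nonneg zero_le_one]
      intro i
      have h1 : (((j i : ℕ) : ℝ)) ≤ M := by exact_mod_cast (j i).2.le
      have h2 : (0 : ℝ) ≤ ((j i : ℕ) : ℝ) := Nat.cast_nonneg _
      have h3 : (M : ℝ) * (8 * ε) ≤ 1 := (le_div_iff₀ (by positivity)).1 hM1
      change ‖8 * ε * ((j i : ℕ) : ℝ)‖ ≤ 1
      rw [Real.norm_eq_abs, abs_of_nonneg (by positivity)]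
      nlinarith
    have h1 := hl' j
    have h2 := norm_add_le (kal α (kk j) (ll j) - θ j) (θ j)
    rw [sub_add_cancel] at h2
    linarith
  · obtain ⟨i, hi⟩ := Function.ne_iff.1 hjj
    have hi' : ((j i : ℕ) : ℤ) ≠ ((j' i : ℕ) : ℤ) := fun hh => hi (Fin.ext (by exact_mod_cast hh))
    have h1 : (1 : ℝ) ≤ |((j i : ℕ) : ℝ) - ((j' i : ℕ) : ℝ)| := by
      have : (1 : ℤ) ≤ |((j i : ℕ) : ℤ) - ((j' i : ℕ) : ℤ)| := Int.one_le_abs (sub_ne_zero.2 hi')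
      exact_mod_cast this
    have h2 : 8 * ε ≤ ‖θ j - θ j'‖ := by
      refine le_trans ?_ (norm_le_pi_norm (θ j - θ j') i)
      rw [Pi.sub_apply, Real.norm_eq_abs]
      change 8 * ε ≤ |8 * ε * ((j i : ℕ) : ℝ) - 8 * ε * ((j' i : ℕ) : ℝ)|
      rw [← mul_sub, abs_mul, abs_of_pos (by positivity : 0 < 8 * ε)]
      nlinarith
    have h3 : θ j - θ j' = (kal α (kk j) (ll j) - kal α (kk j') (ll j')) -
        (kal α (kk j) (ll j) - θ j) + (kal α (kk j') (ll j') - θ j') := by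
      abel
    have h4 := norm_add_le ((kal α (kk j) (ll j) - kal α (kk j') (ll j')) -
        (kal α (kk j) (ll j) - θ j)) (kal α (kk j') (ll j') - θ j')
    have h5 := norm_sub_le (kal α (kk j) (ll j) - kal α (kk j') (ll j'))
        (kal α (kk j) (ll j) - θ j)
    rw [← h3] at h4
    have h6 := hl' j
    have h7 := hl' j'
    linarith

end QPR
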