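import Pool.Agent.Lib.QPR.Int2
import Pool.Agent.Lib.QPA.LTr
import Pool.Agent.Lib.QPA.GGDef

set_option autoImplicit false

namespace QPR

variable {n : ℕ} {α : Fin n → ℝ} {F F' H H' : (Fin n → ℝ) → (Fin n → ℝ)}

/-- `F^k x - x - k α` is bounded by `2 B` (`dat_bdd`: `F^k x = H' (H x + k α)`). -/
theorem iter_disp (hd : DatA α F F' H H') : ∃ B : ℝ, 1 ≤ B ∧ ∀ (k : ℕ) (x : Fin n → ℝ),
    ‖F^[k] x - x - (k : ℝ) • α‖ ≤ B := by
  obtain ⟨B, hB0, hB1, hB2⟩ := dat_bdd hd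
  refine ⟨2 * B + 1, by linarith, ?_⟩
  intro k x
  have h1 : F^[k] x = H' (H x + (k : ℝ) • α) := by
    rw [← itz_nat hd k x]
    unfold Itz Tr
    rw [Int.cast_natCast]
  have h2 : F^[k] x - x - (k : ℝ) • α
      = (H' (H x + (k : ℝ) • α) - (H x + (k : ℝ) • α)) + (H x - x) := by
    rw [h1]
    abel
  rw [h2]
  refine (norm_add_le _ _).trans ?_
  have h3 := hB1 (H x + (k : ℝ) • α)
  have h4 := hB2 x
  linarith

private theorem GOne_smo (hd : DatA α F F' H H') (k : ℕ) : Smo (F^[k]) := by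
  have h := itz_smo hd (k : ℤ)
  have e : Itz α H H' (k : ℤ) = F^[k] := by
    funext x
    exact itz_nat hd k x
  rw [e] at h
  exact h

private theorem GOne_fd (G : (Fin n → ℝ) → (Fin n → ℝ)) (hG : Smo G) (c : Fin n → ℝ)
    (x : Fin n → ℝ) :
    fderiv ℝ (fun y => G y - y - c) x = fderiv ℝ G x - ContinuousLinearMap.id ℝ (Fin n → ℝ) := by
  have h1 : DifferentiableAt ℝ G x := (hG.differentiable (by simp)) x
  have h2 : HasFDerivAt (fun y => G y - y - c)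
      (fderiv ℝ G x - ContinuousLinearMap.id ℝ (Fin n → ℝ)) x :=
    (h1.hasFDerivAt.sub (hasFDerivAt_id x)).sub_const c
  exact h2.fderiv

private theorem GOne_two (G : (Fin n → ℝ) → (Fin n → ℝ)) (hG : Smo G) (c : Fin n → ℝ)
    (x : Fin n → ℝ) :
    ‖iteratedFDeriv ℝ 2 (fun y => G y - y - c) x‖ = ‖iteratedFDeriv ℝ 2 G x‖ := by
  have h1 : fderiv ℝ (fun y => G y - y - c)
      = fun y => fderiv ℝ G y - ContinuousLinearMap.id ℝ (Fin n → ℝ) := by
    funext y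
    exact GOne_fd G hG c y
  have h2 := norm_iteratedFDeriv_fderiv (𝕜 := ℝ) (f := fun y => G y - y - c) (n := 1) (x := x)
  have h3 := norm_iteratedFDeriv_fderiv (𝕜 := ℝ) (f := G) (n := 1) (x := x)
  rw [norm_iteratedFDeriv_one] at h2 h3
  rw [← h2, ← h3, h1, fderiv_sub_const]

/-- growth of the second derivatives gives growth of the first ones: interpolation (`second_order`
with `i = 0`, `t = 1`) for `X x = F^[k] x - x - k α`, which is bounded by `B`, and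
`iteratedFDeriv ℝ 2 X = iteratedFDeriv ℝ 2 F^[k]`. -/
theorem gro_of_second (hd : DatA α F F' H H') (κ C : ℝ) (hκ : 0 ≤ κ)
    (hD : ∀ (k : ℕ) (x : Fin n → ℝ), ‖iteratedFDeriv ℝ 2 (F^[k]) x‖ ≤ C * ((k : ℝ) + 1) ^ κ) :
    ∃ C' : ℝ, 1 ≤ C' ∧ Gro F κ C' := by
  obtain ⟨B, hB1, hB⟩ := iter_disp hd
  have hC0 : 0 ≤ C := by
    have h1 := hD 0 0
    rw [Nat.cast_zero, zero_add, Real.one_rpow, mul_one] at h1
    exact (norm_nonneg _).trans h1
  refine ⟨2 * B + C + 1, by linarith, ?_⟩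
  intro k x
  have hk1 : 1 ≤ ((k : ℝ) + 1) ^ κ := by
    refine Real.one_le_rpow ?_ hκ
    have : (0 : ℝ) ≤ k := Nat.cast_nonneg k
    linarith
  have hsm := GOne_smo hd k
  have hXs : Smo (fun y => (F^[k]) y - y - (k : ℝ) • α) :=
    (hsm.sub contDiff_id).sub contDiff_const
  have h1 := second_order (fun y => (F^[k]) y - y - (k : ℝ) • α) hXs 0 B
    (C * ((k : ℝ) + 1) ^ κ) (fun y => by
      rw [norm_iteratedFDeriv_zero]
      exact hB k y) (fun y => by
      rw [zero_add, GOne_two _ hsm]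
      exact hD k y) 1 one_pos x
  rw [zero_add, norm_iteratedFDeriv_one, GOne_fd _ hsm] at h1
  have h2 : ‖fderiv ℝ (F^[k]) x‖ ≤ ‖fderiv ℝ (F^[k]) x - ContinuousLinearMap.id ℝ (Fin n → ℝ)‖
      + ‖ContinuousLinearMap.id ℝ (Fin n → ℝ)‖ := by
    have h3 := norm_add_le (fderiv ℝ (F^[k]) x - ContinuousLinearMap.id ℝ (Fin n → ℝ))
      (ContinuousLinearMap.id ℝ (Fin n → ℝ))
    rwa [sub_add_cancel] at h3
  have h4 : ‖ContinuousLinearMap.id ℝ (Fin n → ℝ)‖ ≤ 1 := ContinuousLinearMap.norm_id_le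
  constructor
  · nlinarith
  · refine (hD k x).trans ?_
    refine mul_le_mul_of_nonneg_right ?_ (by linarith)
    linarith

end QPR
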