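import Pool.Agent.Lib.QPA.GWalk
import Pool.Agent.Lib.QPA.GNet
import Pool.Agent.Lib.QPA.GGeo
import Pool.Agent.Lib.QPA.GComp2

set_option autoImplicit false

namespace QPR

variable {n : ℕ} {α : Fin n → ℝ} {F F' H H' : (Fin n → ℝ) → (Fin n → ℝ)}

private theorem GPack_Icc {a b : ℝ} (hab : a ≤ b) :
    ((Finset.Icc ⌊a⌋ ⌊b⌋).card : ℝ) ≤ b - a + 2 := by
  rw [Int.card_Icc]
  have h1 : ⌊a⌋ ≤ ⌊b⌋ := Int.floor_mono hab
  have h2 : ((⌊b⌋ + 1 - ⌊a⌋).toNat : ℤ) = ⌊b⌋ + 1 - ⌊a⌋ := Int.toNat_of_nonneg (by omega)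
  have h3 : (((⌊b⌋ + 1 - ⌊a⌋).toNat : ℤ) : ℝ) = (⌊b⌋ : ℝ) + 1 - ⌊a⌋ := by
    rw [h2]
    push_cast
    ring
  rw [Int.cast_natCast] at h3
  rw [h3]
  have h4 := Int.floor_le b
  have h5 := Int.lt_floor_add_one a
  linarith

/-- One base point for many net points. Among the points `x_j = Tr (v_j) x₁`, `v_j = kal α (kk j) (ll j)`,
`j : Fin n → Fin M` (all within distance `R` of `x₁`), at least `M^n / (2 R / r + 2)^n` lie in one cube
of side `r` (pigeonhole for `j ↦ ⌊x_j / r⌋`); let `j₀` be one of them with `kk j₀` minimal,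
`p = x_{j₀}`. For the others `w = v_j - v_{j₀} = kal α (kk j - kk j₀) (ll j - ll j₀)` and `x_j = Tr w p`. -/
theorem many_returns (hd : DatA α F F' H H') (M : ℕ) (hM : 1 ≤ M) (kk : (Fin n → Fin M) → ℕ)
    (ll : (Fin n → Fin M) → (Fin n → ℤ)) (R r : ℝ) (hr : 0 < r) (x₁ : Fin n → ℝ)
    (hR : ∀ j, ‖Tr H H' (kal α (kk j) (ll j)) x₁ - x₁‖ ≤ R) :
    ∃ (J : Finset (Fin n → Fin M)) (j₀ : Fin n → Fin M), j₀ ∈ J ∧ (∀ j ∈ J, kk j₀ ≤ kk j) ∧
      (∀ j ∈ J, ‖Tr H H' (kal α (kk j) (ll j)) x₁ - Tr H H' (kal α (kk j₀) (ll j₀)) x₁‖ ≤ r) ∧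
      (M : ℝ) ^ n ≤ (J.card : ℝ) * (2 * R / r + 2) ^ n := by
  classical
  have hne : Nonempty (Fin n → Fin M) := ⟨fun _ => ⟨0, hM⟩⟩
  obtain ⟨X, hX⟩ : ∃ X : (Fin n → Fin M) → (Fin n → ℝ),
      X = fun j => Tr H H' (kal α (kk j) (ll j)) x₁ := ⟨_, rfl⟩
  have hXj : ∀ j, Tr H H' (kal α (kk j) (ll j)) x₁ = X j := fun j => by rw [hX]
  simp only [hXj] at hR ⊢
  have hR0 : 0 ≤ R := (norm_nonneg _).trans (hR hne.some)
  let cell : (Fin n → Fin M) → (Fin n → ℤ) := fun j i => ⌊X j i / r⌋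
  let T : Finset (Fin n → ℤ) :=
    Fintype.piFinset fun i => Finset.Icc ⌊(x₁ i - R) / r⌋ ⌊(x₁ i + R) / r⌋
  have hmaps : ∀ j ∈ (Finset.univ : Finset (Fin n → Fin M)), cell j ∈ T := by
    intro j _
    rw [Fintype.mem_piFinset]
    intro i
    have h3 : |X j i - x₁ i| ≤ R := by
      have h4 := norm_le_pi_norm (X j - x₁) i
      rw [Pi.sub_apply, Real.norm_eq_abs] at h4
      exact h4.trans (hR j)
    rw [abs_le] at h3
    rw [Finset.mem_Icc]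
    constructor
    · exact Int.floor_mono (by gcongr; linarith)
    · exact Int.floor_mono (by gcongr; linarith)
  have hTne : T.Nonempty := ⟨_, hmaps hne.some (Finset.mem_univ _)⟩
  have hTpos : (0 : ℝ) < T.card := by exact_mod_cast hTne.card_pos
  have hMpos : (0 : ℝ) < (M : ℝ) ^ n := by
    have : (0 : ℝ) < M := by exact_mod_cast hM
    positivity
  obtain ⟨y, -, hyc⟩ := Finset.exists_le_card_fiber_of_nsmul_le_card_of_maps_to hmaps hTne
    (b := (M : ℝ) ^ n / T.card) (by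
      rw [nsmul_eq_mul, mul_div_cancel₀ _ hTpos.ne']
      simp)
  obtain ⟨J, hJ⟩ : ∃ J : Finset (Fin n → Fin M), 
      J = Finset.univ.filter (fun j : Fin n → Fin M => cell j = y) := ⟨_, rfl⟩
  rw [← hJ] at hyc
  have hJpos : (0 : ℝ) < J.card := lt_of_lt_of_le (by positivity) hyc
  have hJne : J.Nonempty := by
    rw [← Finset.card_pos]
    exact_mod_cast hJpos
  obtain ⟨j₀, hj₀, hmin⟩ := Finset.exists_min_image J kk hJne
  have hcell : ∀ j ∈ J, cell j = y := by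
    intro j hj
    rw [hJ, Finset.mem_filter] at hj
    exact hj.2
  refine ⟨J, j₀, hj₀, hmin, fun j hj => ?_, ?_⟩
  · rw [pi_norm_le_iff_of_nonneg hr.le]
    intro i
    rw [Pi.sub_apply, Real.norm_eq_abs]
    have h3 : ⌊X j i / r⌋ = ⌊X j₀ i / r⌋ := by
      have h4 := congrFun ((hcell j hj).trans (hcell j₀ hj₀).symm) i
      exact h4
    have h4 := Int.abs_sub_lt_one_of_floor_eq_floor h3
    rw [← sub_div, abs_div, abs_of_pos hr, div_lt_one hr] at h4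
    exact h4.le
  · have hT : (T.card : ℝ) ≤ (2 * R / r + 2) ^ n := by
      have h3 : T.card = ∏ i : Fin n,
          (Finset.Icc ⌊(x₁ i - R) / r⌋ ⌊(x₁ i + R) / r⌋).card := Fintype.card_piFinset _
      rw [h3, Nat.cast_prod]
      have h4 : ∀ i ∈ (Finset.univ : Finset (Fin n)),
          ((Finset.Icc ⌊(x₁ i - R) / r⌋ ⌊(x₁ i + R) / r⌋).card : ℝ) ≤ 2 * R / r + 2 := by
        intro i _
        have h5 : (x₁ i - R) / r ≤ (x₁ i + R) / r := by
          gcongr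
          linarith
        refine (GPack_Icc h5).trans (le_of_eq ?_)
        ring
      refine (Finset.prod_le_prod (fun j _ => Nat.cast_nonneg _) h4).trans (le_of_eq ?_)
      rw [Finset.prod_const, Finset.card_univ, Fintype.card_fin]
    rw [div_le_iff₀ hTpos] at hyc
    exact hyc.trans (mul_le_mul_of_nonneg_left hT hJpos.le)

private theorem GPack_tr (hd : DatA α F F' H H') (k : ℕ) (l : Fin n → ℤ) (x : Fin n → ℝ) :
    Tr H H' (kal α k l) x = F^[k] x + fun i => (l i : ℝ) := by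
  unfold kal
  rw [tr_add_int hd, ← itz_nat hd]
  unfold Itz
  rw [Int.cast_natCast]

private theorem GPack_sub (k k' : ℕ) (l l' : Fin n → ℤ) (h : k' ≤ k) :
    kal α k l - kal α k' l' = kal α (k - k') (l - l') := by
  unfold kal
  funext i
  simp only [Pi.sub_apply, Pi.add_apply, Pi.smul_apply, smul_eq_mul, Int.cast_sub,
    Nat.cast_sub h]
  ring

private theorem GPack_u {u : (Fin n → ℝ) → ℝ} {a : ℝ} (h : ∀ x, |u (F x) - u x| ≤ a) (k : ℕ)
    (x : Fin n → ℝ) : |u (F^[k] x) - u x| ≤ k * a := by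
  induction k with
  | zero => simp
  | succ k ih =>
    rw [Function.iterate_succ_apply']
    have h1 := h (F^[k] x)
    have h2 : |u (F (F^[k] x)) - u x| ≤ |u (F (F^[k] x)) - u (F^[k] x)| + |u (F^[k] x) - u x| := by
      have h3 := abs_add_le (u (F (F^[k] x)) - u (F^[k] x)) (u (F^[k] x) - u x)
      rwa [sub_add_sub_cancel] at h3
    push_cast
    linarith

private theorem GPack_per {u : (Fin n → ℝ) → ℝ} (hp : Per u) (x : Fin n → ℝ)
    (l : Fin n → ℤ) : fderiv ℝ u (x + fun i => (l i : ℝ)) = fderiv ℝ u x := by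
  have h1 : (fun y => u (y + fun i => (l i : ℝ))) = u := funext fun y => hp y l
  have h2 : fderiv ℝ (fun y => u (y + fun i => (l i : ℝ))) x =
      fderiv ℝ u (x + fun i => (l i : ℝ)) := fderiv_comp_add_right _
  rw [← h2, h1]

private theorem GPack_ev (K θ : ℝ) (hθ : 0 < θ) :
    ∀ᶠ N : ℕ in Filter.atTop, K ≤ (N : ℝ) ^ θ :=
  ((tendsto_rpow_atTop hθ).comp tendsto_natCast_atTop_atTop).eventually_ge_atTop K

/-- THE PACKING ARGUMENT: nearly invariant functions are nearly constant. Parameters: `P = τ + 2n + 1`,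
`e = 1/(5P)`, `ε = N^(-e)`, `c = 1/(10P)`; `a = 1/(10P(n+2)) + 3κ`. `C, C'...` constants independent of
`N, u`. Suppose `‖Du(x₁)‖ > N^(-c)`. Net (`exists_net`) with indices `kk ≤ C ε^(-P) ≤ N^(1/4)` (`N` large).
`‖Du‖ ≤ 4√(A·A N^a)` (`interp_one`). Points `x_j = Tr (v_j) x₁ = F^[kk j] x₁ + ll j`, within `R = 2 + 2B` of `x₁`.
`many_returns` with `r = N^(-c-κ-a)/C'`: `J`, `j₀`, `p = x_{j₀}`. By `near_inv_deriv` (`k = kk j₀ ≤ N^(1/4)`,
`a := A/N`, `b := C N^a`): `‖Du(p)‖ C (kk j₀ + 1)^κ ≥ N^(-c) - C N^(-3/8 + a/2 + κ/4) ≥ N^(-c)/2`, so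
`‖Du(p)‖ ≥ g₀ = N^(-c-κ)/C'`. `|u (x_j) - u (x_{j'})| ≤ 2 A (kk j + kk j') / N ≤ 4 A N^(-3/4) =: t` (compare
both with `u x₁`, `u` periodic). Separation: for `j ≠ j'`, say `kk j' ≤ kk j`, `x_j = Tr w x_{j'}` with
`w = kal α (kk j - kk j') (ll j - ll j')`, `‖w‖ ≥ 6 ε`, `walk`: `‖x_j - x_{j'}‖ ≥ c₀ 6ε (6ε/(N^(1/4)+1))^κ ≥ s`,
`s = N^(-e-κ)/C'`. `level_pack'` for `S = {x_j : j ∈ J}` (`card S = card J`) with `A N^a r ≤ g₀/(8n)` and
`t ≤ g₀ s/(8n)`: `card J ≤ (32 n r/s + 2)^(n-1)`, while `card J ≥ (M r/(2R + 2r))^n ≥ (r/(C' ε))^n`. So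
`(r/ε)^n ≤ C' (r/s)^(n-1)`, `r/ε ≤ C' N^(κ(n-1))`, i.e. `N^(e - c - κ - a) ≤ C' N^(κ(n-1))`, false for
large `N` since `e - c - κ - a - κ(n-1) > 0`: `e - c = 1/(10P)`, `a = 1/(10P(n+2)) + 3κ ≤ 1/(30P) + 3κ`,
`(n+3) κ ≤ (n+3)/(200 (n+2) P) ≤ 1/(150P)`. (Here `r/s ≥ 1` for large `N`.) -/
theorem near_inv_flat (hn : 0 < n) (hd : DatA α F F' H H') {γ τ : ℝ} (hα : DioE α γ τ)
    (P : ℝ) (hP : P = τ + 2 * n + 1) {κ C : ℝ} (hκ0 : 0 < κ) (hκ : κ * (200 * (n + 2) * P) ≤ 1)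
    (hC : 1 ≤ C) (hG : Gro F κ C) (A : ℝ) (hA : 1 ≤ A) :
    ∃ N₀ : ℕ, 1 ≤ N₀ ∧ ∀ N : ℕ, N₀ ≤ N → ∀ u : (Fin n → ℝ) → ℝ, Smo u → Per u →
      (∀ x, |u x| ≤ A) → (∀ x, |u (F x) - u x| ≤ A / N) →
      (∀ x, ‖iteratedFDeriv ℝ 2 u x‖ ≤ A * (N : ℝ) ^ (1 / (10 * P * (n + 2)) + 3 * κ)) →
      ∀ x, ‖fderiv ℝ u x‖ ≤ (N : ℝ) ^ (-(1 / (10 * P))) := by
  classical
  have hnR : (1 : ℝ) ≤ n := by exact_mod_cast hn
  have hτ := hα.2.1
  have hP3 : 3 ≤ P := by rw [hP]; linarith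
  have hP0 : 0 < P := by linarith
  have hA0 : 0 < A := by linarith
  have hC0 : 0 < C := by linarith
  -- the exponents
  obtain ⟨c, hc⟩ : ∃ c : ℝ, c = 1 / (10 * P) := ⟨_, rfl⟩
  obtain ⟨a, ha⟩ : ∃ a : ℝ, a = 1 / (10 * P * (n + 2)) + 3 * κ := ⟨_, rfl⟩
  rw [← hc, ← ha]
  have hc0 : 0 < c := by rw [hc]; positivity
  have hcP : c * P = 1 / 10 := by rw [hc]; field_simp
  have hc1 : c ≤ 1 / 30 := by
    have h1 : c * 3 ≤ c * P := mul_le_mul_of_nonneg_left hP3 hc0.le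
    linarith
  have hκ1 : κ * (20 * (n + 2)) ≤ c := by
    have h1 : κ * (20 * (n + 2)) * P ≤ c * P := by
      have h2 : κ * (20 * (n + 2)) * P = κ * (200 * (n + 2) * P) / 10 := by ring
      rw [hcP, h2]
      linarith
    exact le_of_mul_le_mul_right h1 hP0
  have hκ2 : κ ≤ c / 60 := by
    have h1 : κ * 60 ≤ κ * (20 * (n + 2)) := mul_le_mul_of_nonneg_left (by linarith) hκ0.le
    linarith
  have hκn : κ * n ≤ c / 20 := by
    have h1 : κ * n ≤ κ * (n + 2) := mul_le_mul_of_nonneg_left (by linarith) hκ0.le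
    have h2 : κ * (20 * (n + 2)) = 20 * (κ * (n + 2)) := by ring
    linarith
  have hcn : 1 / (10 * P * (n + 2)) ≤ c / 3 := by
    rw [hc, div_div]
    apply one_div_le_one_div_of_le (by positivity)
    exact mul_le_mul_of_nonneg_left (by linarith) (by positivity)
  have hcn0 : 0 < 1 / (10 * P * ((n : ℝ) + 2)) := by positivity
  have ha0 : 0 < a := by rw [ha]; linarith
  have ha1 : a ≤ c / 3 + c / 20 := by rw [ha]; linarith
  obtain ⟨e, he⟩ : ∃ e : ℝ, e = 2 * c := ⟨_, rfl⟩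
  -- the constants
  obtain ⟨B, hB1, hB⟩ := iter_disp hd
  obtain ⟨Cn, hCn1, hnet⟩ := exists_net hα
  obtain ⟨c₀, hc₀, hc₀1, hwalk⟩ := walk hd hκ0.le (by linarith) hC hG
  obtain ⟨R, hR⟩ : ∃ R : ℝ, R = B + 2 := ⟨_, rfl⟩
  have hR0 : 0 < R := by linarith
  obtain ⟨D₁, hD₁⟩ : ∃ D₁ : ℝ, D₁ = 2 / (C * A * c₀) + 2 := ⟨_, rfl⟩
  obtain ⟨D₂, hD₂⟩ : ∃ D₂ : ℝ, D₂ = 32 * R * n * C * A + 2 := ⟨_, rfl⟩
  have hD₁0 : 0 < D₁ := by rw [hD₁]; positivity
  have hD₂0 : 0 < D₂ := by rw [hD₂]; positivity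
  -- the thresholds
  have hθ3 : 0 < 3 / 4 - a - 2 * κ - 2 * c := by linarith
  have hθ4 : 0 < 3 / 4 - (c + e + 2 * κ) := by linarith
  have hθ5 : 0 < e - c - a - κ * n := by linarith
  obtain ⟨N₀, hN₀⟩ := Filter.eventually_atTop.1 ((((((GPack_ev 16 e (by linarith)).and
    (GPack_ev Cn (1 / 20) (by norm_num))).and (GPack_ev 2 (3 / 4) (by norm_num))).and
    (GPack_ev (768 * A ^ 2 * C ^ 2) _ hθ3)).and (GPack_ev (32 * n * A * C / c₀) _ hθ4)).and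
    (GPack_ev (16 ^ n * D₁ ^ (n - 1) * D₂ ^ n + 1) _ hθ5))
  refine ⟨max N₀ 1, le_max_right _ _, fun N hN u hu hup huA huF hu2 => ?_⟩
  obtain ⟨⟨⟨⟨⟨t1, t2⟩, t3⟩, t4⟩, t5⟩, t6⟩ := hN₀ N ((le_max_left _ _).trans hN)
  obtain ⟨x, hx⟩ : ∃ x : ℝ, x = (N : ℝ) := ⟨_, rfl⟩
  have hx1 : 1 ≤ x := by
    rw [hx]
    exact_mod_cast (le_max_right _ _).trans hN
  rw [← hx] at t1 t2 t3 t4 t5 t6 huF hu2 ⊢
  have hx0 : 0 < x := by linarith
  have hpow : ∀ p : ℝ, 0 < x ^ p := fun p => Real.rpow_pos_of_pos hx0 p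
  have hpow1 : ∀ p : ℝ, 0 ≤ p → 1 ≤ x ^ p := fun p hp => Real.one_le_rpow hx1 hp
  have hneg : ∀ p : ℝ, x ^ (-p) = 1 / x ^ p := fun p => by rw [Real.rpow_neg hx0.le, one_div]
  by_contra hcon
  push Not at hcon
  obtain ⟨x₁, hx₁⟩ := hcon
  -- the powers
  obtain ⟨Xc, hXc⟩ : ∃ y : ℝ, y = x ^ c := ⟨_, rfl⟩
  obtain ⟨Xa, hXa⟩ : ∃ y : ℝ, y = x ^ a := ⟨_, rfl⟩
  obtain ⟨Xk, hXk⟩ : ∃ y : ℝ, y = x ^ κ := ⟨_, rfl⟩
  obtain ⟨q, hq⟩ : ∃ y : ℝ, y = x ^ (e - c - a) := ⟨_, rfl⟩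
  obtain ⟨Xe, hXe⟩ : ∃ y : ℝ, y = x ^ e := ⟨_, rfl⟩
  have hXc1 : 1 ≤ Xc := hXc ▸ hpow1 _ hc0.le
  have hXa1 : 1 ≤ Xa := hXa ▸ hpow1 _ ha0.le
  have hXk1 : 1 ≤ Xk := hXk ▸ hpow1 _ hκ0.le
  have hq1 : 1 ≤ q := hq ▸ hpow1 _ (by linarith)
  have hXe1 : 1 ≤ Xe := hXe ▸ hpow1 _ (by linarith)
  have hXc0 : 0 < Xc := by linarith
  have hXa0 : 0 < Xa := by linarith
  have hXk0 : 0 < Xk := by linarith
  have hq0 : 0 < q := by linarith
  have hXe0 : 0 < Xe := by linarith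
  have hXeq : Xe = Xc * Xa * q := by
    rw [hXe, hXc, hXa, hq, ← Real.rpow_add hx0, ← Real.rpow_add hx0]
    congr 1
    ring
  rw [← hXa] at hu2
  rw [hneg, ← hXc] at hx₁
  rw [← hXe] at t1
  -- the quarter power
  obtain ⟨Y, hY⟩ : ∃ y : ℝ, y = x ^ ((1 : ℝ) / 4) := ⟨_, rfl⟩
  have hY1 : 1 ≤ Y := hY ▸ hpow1 _ (by norm_num)
  have hY2 : 2 * Y ≤ x := by
    have h1 : x = x ^ ((3 : ℝ) / 4) * Y := by
      rw [hY, ← Real.rpow_add hx0]
      norm_num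
    rw [h1]
    exact mul_le_mul_of_nonneg_right t3 (by linarith)
  have hYx : Y * x ^ ((3 : ℝ) / 4) = x := by
    rw [hY, ← Real.rpow_add hx0]
    norm_num
  have hXeY : Xe * Y ≤ x := by
    have h1 : Xe * Y = x ^ (e + 1 / 4) := by
      rw [hXe, hY, ← Real.rpow_add hx0]
    rw [h1]
    calc x ^ (e + 1 / 4) ≤ x ^ (1 : ℝ) := Real.rpow_le_rpow_of_exponent_le hx1 (by linarith)
      _ = x := Real.rpow_one x
  -- the net
  obtain ⟨ε, hε⟩ : ∃ ε : ℝ, ε = 1 / Xe := ⟨_, rfl⟩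
  have hε0 : 0 < ε := by rw [hε]; positivity
  obtain ⟨M, kk, ll, hM, hkk, hv2, hsep⟩ := hnet ε hε0 (by
    rw [hε]
    exact one_div_le_one_div_of_le (by norm_num) t1)
  have hMe : Xe / 16 ≤ M := by
    have h1 : 1 / (16 * ε) = Xe / 16 := by rw [hε]; field_simp
    rwa [h1] at hM
  have hM1 : 1 ≤ M := by
    have h1 : (0 : ℝ) < M := lt_of_lt_of_le (by positivity) hMe
    exact_mod_cast h1
  have hkY : ∀ j, (kk j : ℝ) ≤ Y := by
    intro j
    refine (hkk j).trans ?_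
    have h1 : ε ^ (-(τ + 2 * n + 1)) = x ^ ((1 : ℝ) / 5) := by
      rw [hε, one_div, hXe, ← Real.rpow_neg hx0.le, ← Real.rpow_mul hx0.le, ← hP]
      congr 1
      rw [he]
      linarith
    have h2 : Y = x ^ ((1 : ℝ) / 20) * x ^ ((1 : ℝ) / 5) := by
      rw [hY, ← Real.rpow_add hx0]
      norm_num
    rw [h1, h2]
    exact mul_le_mul_of_nonneg_right t2 (hpow _).le
  -- the points
  obtain ⟨X, hX⟩ : ∃ X : (Fin n → Fin M) → (Fin n → ℝ),
      X = fun j => Tr H H' (kal α (kk j) (ll j)) x₁ := ⟨_, rfl⟩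
  have hXj : ∀ j, Tr H H' (kal α (kk j) (ll j)) x₁ = X j := fun j => by rw [hX]
  have hXF : ∀ j, X j = F^[kk j] x₁ + fun i => (ll j i : ℝ) := fun j => by
    rw [← hXj, GPack_tr hd]
  have hXR : ∀ j, ‖X j - x₁‖ ≤ R := by
    intro j
    have h1 : X j - x₁ = (F^[kk j] x₁ - x₁ - (kk j : ℝ) • α) + kal α (kk j) (ll j) := by
      rw [hXF]
      unfold kal
      abel
    rw [h1, hR]
    exact (norm_add_le _ _).trans (add_le_add (hB _ _) (hv2 j))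
  obtain ⟨r, hr⟩ : ∃ r : ℝ, r = 1 / (16 * n * C * A * Xc * Xa * Xk) := ⟨_, rfl⟩
  have hr0 : 0 < r := by rw [hr]; positivity
  obtain ⟨J, j₀, hj₀, -, hJr, hJM⟩ := many_returns hd M hM1 kk ll R r hr0 x₁
    (fun j => by rw [hXj]; exact hXR j)
  simp only [hXj] at hJr
  -- the derivative at `p = X j₀`
  have huF' : ∀ y, ‖u (F y) - u y - 0‖ ≤ A / x := fun y => by
    rw [sub_zero, Real.norm_eq_abs]
    exact huF y
  have hb1 : ∀ y, ‖fderiv ℝ u y‖ ≤ 4 * A * Xa := by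
    intro y
    refine (interp_one u hu A (A * Xa) (fun y => by rw [Real.norm_eq_abs]; exact huA y) hu2
      y).trans ?_
    have h1 : √(A * (A * Xa)) ≤ A * Xa := by
      rw [Real.sqrt_le_left (by positivity)]
      have h2 : A * (A * Xa) = A ^ 2 * Xa := by ring
      have h3 : (A * Xa) ^ 2 = A ^ 2 * (Xa * Xa) := by ring
      rw [h2, h3]
      exact mul_le_mul_of_nonneg_left (le_mul_of_one_le_left hXa0.le hXa1) (by positivity)
    linarith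
  have hb2 : ∀ y, ‖iteratedFDeriv ℝ 2 u y‖ ≤ 4 * A * Xa := by
    intro y
    refine (hu2 y).trans ?_
    have : 0 < A * Xa := by positivity
    linarith
  have hk0 := hkY j₀
  have hk1 : (kk j₀ : ℝ) + 1 ≤ x := by linarith
  have hkκ : ((kk j₀ : ℝ) + 1) ^ κ ≤ Xk := by
    rw [hXk]
    exact Real.rpow_le_rpow (by positivity) hk1 hκ0.le
  have hkκ2 : ((kk j₀ : ℝ) + 1) ^ (2 * κ) ≤ Xk ^ 2 := by
    have h1 : Xk ^ 2 = x ^ (2 * κ) := by
      rw [hXk, ← Real.rpow_natCast, ← Real.rpow_mul hx0.le]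
      congr 1
      push_cast
      ring
    rw [h1]
    exact Real.rpow_le_rpow (by positivity) hk1 (by positivity)
  have hnid := near_inv_deriv hd.smF hκ0.le hC hG u hu 0 (A / x) (4 * A * Xa) huF' hb1 hb2
    (kk j₀) x₁
  have herr : 4 * √(kk j₀ * (A / x) * (3 * (4 * A * Xa) * C ^ 2 *
      ((kk j₀ : ℝ) + 1) ^ (2 * κ))) ≤ 1 / (2 * Xc) := by
    have h1 : kk j₀ * (A / x) * (3 * (4 * A * Xa) * C ^ 2 * ((kk j₀ : ℝ) + 1) ^ (2 * κ)) ≤
        (1 / (8 * Xc)) ^ 2 := by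
      have h2 : kk j₀ * (A / x) * (3 * (4 * A * Xa) * C ^ 2 * ((kk j₀ : ℝ) + 1) ^ (2 * κ)) ≤
          Y * (A / x) * (3 * (4 * A * Xa) * C ^ 2 * Xk ^ 2) := by
        gcongr
      refine h2.trans ?_
      have h3 : x ^ ((3 : ℝ) / 4) =
          x ^ (3 / 4 - a - 2 * κ - 2 * c) * (Xa * Xk ^ 2 * Xc ^ 2) := by
        have e1 : Xk ^ 2 = x ^ (2 * κ) := by
          rw [hXk, ← Real.rpow_natCast, ← Real.rpow_mul hx0.le]
          congr 1
          push_cast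
          ring
        have e2 : Xc ^ 2 = x ^ (2 * c) := by
          rw [hXc, ← Real.rpow_natCast, ← Real.rpow_mul hx0.le]
          congr 1
          push_cast
          ring
        rw [e1, e2, hXa, ← Real.rpow_add hx0, ← Real.rpow_add hx0, ← Real.rpow_add hx0]
        congr 1
        ring
      have h4 : 768 * A ^ 2 * C ^ 2 * (Xa * Xk ^ 2 * Xc ^ 2) ≤ x ^ ((3 : ℝ) / 4) := by
        rw [h3]
        exact mul_le_mul_of_nonneg_right t4 (by positivity)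
      have h5 : Y * (A / x) * (3 * (4 * A * Xa) * C ^ 2 * Xk ^ 2) =
          12 * A ^ 2 * C ^ 2 * Xa * Xk ^ 2 * Y / x := by
        field_simp
        ring
      rw [h5, div_pow, one_pow, div_le_div_iff₀ hx0 (by positivity), one_mul]
      calc 12 * A ^ 2 * C ^ 2 * Xa * Xk ^ 2 * Y * (8 * Xc) ^ 2
          = Y * (768 * A ^ 2 * C ^ 2 * (Xa * Xk ^ 2 * Xc ^ 2)) := by ring
        _ ≤ Y * x ^ ((3 : ℝ) / 4) := mul_le_mul_of_nonneg_left h4 (by linarith)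
        _ = x := hYx
    have h2 : √(kk j₀ * (A / x) * (3 * (4 * A * Xa) * C ^ 2 *
      ((kk j₀ : ℝ) + 1) ^ (2 * κ))) ≤ 1 / (8 * Xc) := by
      rw [Real.sqrt_le_left (by positivity)]
      exact h1
    have h3 : 4 * (1 / (8 * Xc)) = 1 / (2 * Xc) := by field_simp; norm_num
    linarith
  obtain ⟨g₀, hg₀⟩ : ∃ g : ℝ, g = 1 / (2 * C * Xc * Xk) := ⟨_, rfl⟩
  have hg₀0 : 0 < g₀ := by rw [hg₀]; positivity
  have hgp : g₀ ≤ ‖fderiv ℝ u (X j₀)‖ := by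
    have h1 : fderiv ℝ u (X j₀) = fderiv ℝ u (F^[kk j₀] x₁) := by
      rw [hXF, GPack_per hup]
    rw [h1]
    have h2 : ‖(fderiv ℝ u (F^[kk j₀] x₁)).comp (fderiv ℝ (F^[kk j₀]) x₁)‖ ≤
        ‖fderiv ℝ u (F^[kk j₀] x₁)‖ * (C * Xk) := by
      refine (ContinuousLinearMap.opNorm_comp_le _ _).trans ?_
      refine mul_le_mul_of_nonneg_left ?_ (norm_nonneg _)
      exact (hG (kk j₀) x₁).1.trans (mul_le_mul_of_nonneg_left hkκ hC0.le)
    have h3 : ‖fderiv ℝ u x₁‖ ≤ ‖(fderiv ℝ u (F^[kk j₀] x₁)).comp (fderiv ℝ (F^[kk j₀]) x₁) -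
        fderiv ℝ u x₁‖ + ‖(fderiv ℝ u (F^[kk j₀] x₁)).comp (fderiv ℝ (F^[kk j₀]) x₁)‖ := by
      rw [norm_sub_rev]
      have h4 := norm_add_le (fderiv ℝ u x₁ - (fderiv ℝ u (F^[kk j₀] x₁)).comp
        (fderiv ℝ (F^[kk j₀]) x₁)) ((fderiv ℝ u (F^[kk j₀] x₁)).comp
        (fderiv ℝ (F^[kk j₀]) x₁))
      rwa [sub_add_cancel] at h4
    have h4 : 1 / (2 * Xc) ≤ ‖fderiv ℝ u (F^[kk j₀] x₁)‖ * (C * Xk) := by
      have h5 : 1 / Xc = 1 / (2 * Xc) + 1 / (2 * Xc) := by field_simp; norm_num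
      linarith
    have h5 : g₀ = 1 / (2 * Xc) / (C * Xk) := by rw [hg₀]; field_simp
    rw [h5, div_le_iff₀ (by positivity)]
    exact h4
  -- separation
  obtain ⟨s, hs⟩ : ∃ s : ℝ, s = c₀ / (Xe * Xk) := ⟨_, rfl⟩
  have hs0 : 0 < s := by rw [hs]; positivity
  have hsepX' : ∀ j j', kk j' ≤ kk j → j ≠ j' → s ≤ ‖X j - X j'‖ := by
    intro j j' hjj hne
    have h1 := GPack_sub (α := α) (kk j) (kk j') (ll j) (ll j') hjj
    have h2 : X j = Tr H H' (kal α (kk j - kk j') (ll j - ll j')) (X j') := by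
      rw [← hXj, ← hXj, tr_tr hd, ← h1, sub_add_cancel]
    have h3 := hwalk (kk j - kk j') (ll j - ll j') (by
      rw [← h1]
      refine (norm_sub_le _ _).trans ?_
      have h4 := hv2 j
      have h5 := hv2 j'
      linarith) (X j')
    rw [← h2] at h3
    refine le_trans ?_ h3
    have h4 : 6 * ε ≤ ‖kal α (kk j - kk j') (ll j - ll j')‖ := by
      rw [← h1]
      exact hsep j j' hne
    have h5 : ((kk j - kk j' : ℕ) : ℝ) + 1 ≤ 2 * Y := by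
      have h6 : ((kk j - kk j' : ℕ) : ℝ) ≤ kk j := by exact_mod_cast Nat.sub_le _ _
      have h7 := hkY j
      linarith
    obtain ⟨W, hW⟩ : ∃ W : ℝ, W = ‖kal α (kk j - kk j') (ll j - ll j')‖ := ⟨_, rfl⟩
    rw [← hW] at h4 ⊢
    have h6 : 1 / x ≤ W / (((kk j - kk j' : ℕ) : ℝ) + 1) := by
      rw [div_le_div_iff₀ hx0 (by positivity), one_mul]
      refine h5.trans ?_
      have h7 : 6 * ε * x ≤ W * x := mul_le_mul_of_nonneg_right h4 hx0.le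
      refine le_trans ?_ h7
      rw [hε]
      have h8 : 6 * (1 / Xe) * x = 6 * x / Xe := by ring
      rw [h8, le_div_iff₀ hXe0]
      linarith
    have h7 : 1 / Xk ≤ (W / (((kk j - kk j' : ℕ) : ℝ) + 1)) ^ κ := by
      have h8 : 1 / Xk = (1 / x) ^ κ := by
        rw [hXk, Real.div_rpow zero_le_one hx0.le, Real.one_rpow]
      rw [h8]
      exact Real.rpow_le_rpow (by positivity) h6 hκ0.le
    have h8 : 1 / Xe ≤ W := by
      rw [← hε]
      linarith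
    have h9 : s = c₀ * (1 / Xe) * (1 / Xk) := by rw [hs]; field_simp
    have hW0 : 0 ≤ W := by rw [hW]; exact norm_nonneg _
    rw [h9]
    exact mul_le_mul (mul_le_mul_of_nonneg_left h8 hc₀.le) h7 (by positivity) (by positivity)
  have hsepX : ∀ j j', j ≠ j' → s ≤ ‖X j - X j'‖ := by
    intro j j' hne
    rcases le_total (kk j') (kk j) with h | h
    · exact hsepX' j j' h hne
    · rw [norm_sub_rev]
      exact hsepX' j' j h hne.symm
  have hXinj : Function.Injective X := by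
    intro j j' h
    by_contra hne
    have h1 := hsepX j j' hne
    rw [h, sub_self, norm_zero] at h1
    linarith
  -- the values of `u`
  obtain ⟨t, ht⟩ : ∃ t : ℝ, t = 2 * (Y * (A / x)) := ⟨_, rfl⟩
  have huX : ∀ j, |u (X j) - u x₁| ≤ Y * (A / x) := by
    intro j
    rw [hXF, hup]
    refine (GPack_u huF (kk j) x₁).trans ?_
    have := hkY j
    gcongr
  have huX2 : ∀ j j', |u (X j) - u (X j')| ≤ t := by
    intro j j'
    have h2 : |u (X j) - u (X j')| ≤ |u (X j) - u x₁| + |u (X j') - u x₁| := by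
      have h3 := abs_sub (u (X j) - u x₁) (u (X j') - u x₁)
      rwa [sub_sub_sub_cancel_right] at h3
    have h3 := huX j
    have h4 := huX j'
    rw [ht]
    linarith
  have hts : t ≤ g₀ * s / (8 * n) := by
    have h1 : x ^ ((3 : ℝ) / 4) =
        x ^ (3 / 4 - (c + e + 2 * κ)) * (Xc * Xe * Xk ^ 2) := by
      have e1 : Xk ^ 2 = x ^ (2 * κ) := by
        rw [hXk, ← Real.rpow_natCast, ← Real.rpow_mul hx0.le]
        congr 1
        push_cast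
        ring
      rw [e1, hXc, hXe, ← Real.rpow_add hx0, ← Real.rpow_add hx0, ← Real.rpow_add hx0]
      congr 1
      ring
    have h2 : 32 * n * A * C / c₀ * (Xc * Xe * Xk ^ 2) ≤ x ^ ((3 : ℝ) / 4) := by
      rw [h1]
      exact mul_le_mul_of_nonneg_right t5 (by positivity)
    have h3 : g₀ * s / (8 * n) = c₀ / (16 * n * C * (Xc * Xe * Xk ^ 2)) := by
      rw [hg₀, hs]
      field_simp
      norm_num
    have h4 : t = 2 * A * Y / x := by rw [ht]; ring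
    rw [h3, h4, div_le_div_iff₀ hx0 (by positivity)]
    have h5 : 32 * n * A * C * (Xc * Xe * Xk ^ 2) ≤ c₀ * x ^ ((3 : ℝ) / 4) := by
      rw [div_mul_eq_mul_div, div_le_iff₀ hc₀] at h2
      linarith
    calc 2 * A * Y * (16 * n * C * (Xc * Xe * Xk ^ 2))
        = Y * (32 * n * A * C * (Xc * Xe * Xk ^ 2)) := by ring
      _ ≤ Y * (c₀ * x ^ ((3 : ℝ) / 4)) := mul_le_mul_of_nonneg_left h5 (by linarith)
      _ = c₀ * (Y * x ^ ((3 : ℝ) / 4)) := by ring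
      _ = c₀ * x := by rw [hYx]
  -- packing
  have hpack := level_pack' hn u hu (X j₀) r s t g₀ (A * Xa) hr0 hs0 hg₀0 hgp hu2 (by
    rw [hr, hg₀]
    apply le_of_eq
    field_simp
    norm_num) (J.image X) (by
      intro y hy
      obtain ⟨j, hj, rfl⟩ := Finset.mem_image.1 hy
      exact hJr j hj) (by
      intro y hy z hz hyz
      obtain ⟨j, hj, rfl⟩ := Finset.mem_image.1 hy
      obtain ⟨j', hj', rfl⟩ := Finset.mem_image.1 hz
      exact hsepX j j' (fun h => hyz (by rw [h]))) (by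
      intro y hy z hz
      obtain ⟨j, hj, rfl⟩ := Finset.mem_image.1 hy
      obtain ⟨j', hj', rfl⟩ := Finset.mem_image.1 hz
      exact huX2 j j') hts
  rw [Finset.card_image_of_injective _ hXinj] at hpack
  have hrs : 32 * n * r / s + 2 ≤ D₁ * q := by
    have h1 : 32 * n * r / s = 2 / (C * A * c₀) * q := by
      rw [hr, hs, hXeq]
      field_simp
      norm_num
    rw [h1, hD₁, add_mul]
    linarith
  have hRr : 2 * R / r + 2 ≤ D₂ * (Xc * Xa * Xk) := by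
    have h1 : 2 * R / r = 32 * R * n * C * A * (Xc * Xa * Xk) := by
      rw [hr]
      field_simp
      norm_num
    have h2 : 1 ≤ Xc * Xa * Xk := by
      have h3 : 1 ≤ Xc * Xa := one_le_mul_of_one_le_of_one_le hXc1 hXa1
      exact one_le_mul_of_one_le_of_one_le h3 hXk1
    rw [h1, hD₂, add_mul]
    linarith
  have hfin : (Xe / 16) ^ n ≤ (D₁ * q) ^ (n - 1) * (D₂ * (Xc * Xa * Xk)) ^ n := by
    calc (Xe / 16) ^ n ≤ (M : ℝ) ^ n := pow_le_pow_left₀ (by positivity) hMe n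
      _ ≤ (J.card : ℝ) * (2 * R / r + 2) ^ n := hJM
      _ ≤ (32 * n * r / s + 2) ^ (n - 1) * (2 * R / r + 2) ^ n :=
        mul_le_mul_of_nonneg_right hpack (by positivity)
      _ ≤ _ := by gcongr
  have hqn : q ≤ 16 ^ n * D₁ ^ (n - 1) * D₂ ^ n * Xk ^ n := by
    have h1 : q ^ n = q ^ (n - 1) * q := by
      rw [← pow_succ, Nat.sub_add_cancel hn]
    have h2 : (Xe / 16) ^ n = (q ^ (n - 1) * (Xc * Xa) ^ n / 16 ^ n) * q := by
      rw [hXeq, div_pow, mul_pow, h1]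
      ring
    have h3 : (D₁ * q) ^ (n - 1) * (D₂ * (Xc * Xa * Xk)) ^ n =
        (q ^ (n - 1) * (Xc * Xa) ^ n / 16 ^ n) *
          (16 ^ n * D₁ ^ (n - 1) * D₂ ^ n * Xk ^ n) := by
      rw [mul_pow, mul_pow D₂, mul_pow (Xc * Xa) Xk]
      field_simp
    rw [h2, h3] at hfin
    exact le_of_mul_le_mul_left hfin (by positivity)
  have hlast : x ^ (e - c - a - κ * n) ≤ 16 ^ n * D₁ ^ (n - 1) * D₂ ^ n := by
    have h1 : x ^ (e - c - a - κ * n) = q / Xk ^ n := by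
      have h2 : Xk ^ n = x ^ (κ * n) := by
        rw [hXk, ← Real.rpow_natCast, ← Real.rpow_mul hx0.le]
      rw [h2, hq, ← Real.rpow_sub hx0]
    rw [h1, div_le_iff₀ (by positivity)]
    exact hqn
  linarith

end QPR
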