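import Pool.Agent.Lib.QPA.GInvM
import Pool.Agent.Lib.QPA.GCov

set_option autoImplicit false

namespace QPR

variable {n : ℕ} {α : Fin n → ℝ} {F F' H H' : (Fin n → ℝ) → (Fin n → ℝ)}

/-- Strong Hoelder bound for vectors of bounded index. `z = H x`, `H' (z + v) = Tr v x = F^[k] x + l`. Let
`N = ⌈δ^(-2P)⌉`. If `N ≥ N₀` (`avF_lower`): `global_inv` with `L = N^κ` and `avF_props`:
`‖Tr v x - x‖ ≤ N^κ ‖avF_N (Tr v x) - avF_N x‖ ≤ N^κ (‖v‖ + B k/N) ≤ N^κ (δ + B C₃ δ^P)`, `P ≥ 1`,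
`N^κ ≤ (2 δ^(-2P))^κ`. If `N < N₀` then `δ` is bounded below and `‖H' (z+v) - H' z‖ ≤ ‖v‖ + 2 B'`
(`dat_bdd`) is at most `C₁ δ^(1 - 2Pκ)` for large `C₁`. -/
theorem disp_bdd_index (hn : 0 < n) (hd : DatA α F F' H H') {γ τ : ℝ} (hα : DioE α γ τ)
    (P : ℝ) (hP : P = τ + 2 * n + 1) {κ C : ℝ} (hκ0 : 0 < κ) (hκ : κ * (200 * (n + 2) * P) ≤ 1)
    (hC : 1 ≤ C) (hG : Gro F κ C) (C₃ : ℝ) (hC₃ : 1 ≤ C₃) :
    ∃ C₁ : ℝ, 1 ≤ C₁ ∧ ∀ δ : ℝ, 0 < δ → δ ≤ 1 → ∀ (k : ℕ) (l : Fin n → ℤ),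
      (k : ℝ) ≤ C₃ * δ ^ (-P) → ‖kal α k l‖ ≤ 2 * δ → ∀ z : Fin n → ℝ,
        ‖H' (z + kal α k l) - H' z‖ ≤ C₁ * δ ^ (1 - 2 * P * κ) := by
  obtain ⟨B, hB1, hB⟩ := avF_props hd hκ0.le hC hG
  obtain ⟨N₀, hN₀1, hN₀⟩ := avF_lower hn hd hα P hP hκ0 hκ hC hG
  obtain ⟨B', hB'0, hB', -⟩ := dat_bdd hd
  have hτ : 0 < τ := hα.2.1
  have hn0 : (0 : ℝ) ≤ n := Nat.cast_nonneg n
  have hP1 : 1 ≤ P := by rw [hP]; linarith
  have hP0 : 0 < P := by linarith
  have hκ1 : κ ≤ 1 := by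
    have h1 : (1 : ℝ) ≤ 200 * (n + 2) * P := by nlinarith
    nlinarith
  have hN₀r : (1 : ℝ) ≤ N₀ := by exact_mod_cast hN₀1
  have hA : 0 ≤ (2 + 2 * B') * N₀ := by positivity
  have hBC : 1 ≤ B * C₃ := by nlinarith
  refine ⟨2 * (B * C₃ + 2) + (2 + 2 * B') * N₀, by linarith, ?_⟩
  intro δ hδ hδ1 k l hk hv z
  have hpos : 0 < δ ^ (1 - 2 * P * κ) := Real.rpow_pos_of_pos hδ _
  obtain ⟨N, hN⟩ : ∃ N : ℕ, N = ⌈δ ^ (-(2 * P))⌉₊ := ⟨_, rfl⟩
  have hN1 : δ ^ (-(2 * P)) ≤ N := by rw [hN]; exact Nat.le_ceil _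
  have hone : 1 ≤ δ ^ (-(2 * P)) := Real.one_le_rpow_of_pos_of_le_one_of_nonpos hδ hδ1 (by linarith)
  have hNr : (1 : ℝ) ≤ N := hone.trans hN1
  have hNn : 1 ≤ N := by exact_mod_cast hNr
  have hN2 : (N : ℝ) ≤ 2 * δ ^ (-(2 * P)) := by
    have h1 : (N : ℝ) < δ ^ (-(2 * P)) + 1 := by
      rw [hN]; exact Nat.ceil_lt_add_one (by linarith)
    linarith
  rcases le_or_gt N₀ N with hcase | hcase
  · -- main case
    obtain ⟨hs, hp, hdisp, -, -⟩ := hB N hNn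
    have hNpos : (0 : ℝ) < (N : ℝ) ^ κ := Real.rpow_pos_of_pos (by linarith) _
    have hL : ∀ x v : Fin n → ℝ, ‖v‖ ≤ (N : ℝ) ^ κ * ‖fderiv ℝ (avF α F N) x v‖ := by
      intro x v
      have h1 := hN₀ N hcase x v
      rw [Real.rpow_neg (by linarith)] at h1
      rwa [inv_mul_le_iff₀ hNpos] at h1
    have h2 := global_inv (avF α F N) hs hp ((N : ℝ) ^ κ) hNpos hL (H' (z + kal α k l)) (H' z)
    have hTr : H' (z + kal α k l) = F^[k] (H' z) + fun i => (l i : ℝ) := by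
      have e1 := itz_nat hd k (H' z)
      unfold Itz Tr at e1
      rw [hd.rightH, Int.cast_natCast] at e1
      rw [← e1]
      unfold kal
      rw [← add_assoc, hd.perH']
    have h3 : ‖avF α F N (H' (z + kal α k l)) - avF α F N (H' z)‖ ≤ (B * C₃ + 2) * δ := by
      have e2 : avF α F N (H' (z + kal α k l)) - avF α F N (H' z) =
          (avF α F N (F^[k] (H' z)) - avF α F N (H' z) - (k : ℝ) • α) + kal α k l := by
        rw [hTr, hp]
        unfold kal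
        abel
      rw [e2]
      refine (norm_add_le _ _).trans ?_
      have h4 := hdisp k (H' z)
      have h5 : B * k / N ≤ B * C₃ * δ := by
        rw [div_le_iff₀ (by linarith)]
        have h6 : δ ^ (-P) ≤ δ * N := by
          calc δ ^ (-P) ≤ δ ^ (1 + -(2 * P)) :=
                Real.rpow_le_rpow_of_exponent_ge hδ hδ1 (by linarith)
            _ = δ * δ ^ (-(2 * P)) := by rw [Real.rpow_add hδ, Real.rpow_one]
            _ ≤ δ * N := mul_le_mul_of_nonneg_left hN1 hδ.le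
        calc B * (k : ℝ) ≤ B * (C₃ * δ ^ (-P)) := mul_le_mul_of_nonneg_left hk (by linarith)
          _ ≤ B * (C₃ * (δ * N)) := by
              refine mul_le_mul_of_nonneg_left (mul_le_mul_of_nonneg_left h6 (by linarith))
                (by linarith)
          _ = B * C₃ * δ * N := by ring
      linarith
    have h7 : (N : ℝ) ^ κ ≤ 2 * δ ^ (-(2 * P * κ)) := by
      calc (N : ℝ) ^ κ ≤ (2 * δ ^ (-(2 * P))) ^ κ := Real.rpow_le_rpow (by linarith) hN2 hκ0.le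
        _ = 2 ^ κ * δ ^ (-(2 * P * κ)) := by
            rw [Real.mul_rpow (by norm_num) (by linarith), ← Real.rpow_mul hδ.le]
            congr 2
            ring
        _ ≤ 2 * δ ^ (-(2 * P * κ)) := by
            refine mul_le_mul_of_nonneg_right ?_ (Real.rpow_nonneg hδ.le _)
            calc (2 : ℝ) ^ κ ≤ 2 ^ (1 : ℝ) := Real.rpow_le_rpow_of_exponent_le (by norm_num) hκ1
              _ = 2 := Real.rpow_one _
    have h8 : (N : ℝ) ^ κ * ‖avF α F N (H' (z + kal α k l)) - avF α F N (H' z)‖ ≤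
        2 * (B * C₃ + 2) * δ ^ (1 - 2 * P * κ) := by
      have h9 : δ ^ (1 - 2 * P * κ) = δ * δ ^ (-(2 * P * κ)) := by
        rw [sub_eq_add_neg, Real.rpow_add hδ, Real.rpow_one]
      calc (N : ℝ) ^ κ * ‖avF α F N (H' (z + kal α k l)) - avF α F N (H' z)‖
          ≤ (2 * δ ^ (-(2 * P * κ))) * ((B * C₃ + 2) * δ) :=
            mul_le_mul h7 h3 (norm_nonneg _) (by positivity)
        _ = 2 * (B * C₃ + 2) * δ ^ (1 - 2 * P * κ) := by rw [h9]; ring
    refine h2.trans (h8.trans ?_)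
    refine mul_le_mul_of_nonneg_right ?_ hpos.le
    linarith
  · -- few averages
    have h1 : δ⁻¹ < N₀ := by
      have h2 : δ⁻¹ ≤ δ ^ (-(2 * P)) := by
        rw [← Real.rpow_neg_one]
        exact Real.rpow_le_rpow_of_exponent_ge hδ hδ1 (by linarith)
      have h3 : (N : ℝ) < N₀ := by exact_mod_cast hcase
      linarith
    have h2 : 1 < N₀ * δ := by
      rwa [inv_lt_iff_one_lt_mul₀ hδ] at h1
    have h3 : δ ≤ δ ^ (1 - 2 * P * κ) := by
      calc δ = δ ^ (1 : ℝ) := (Real.rpow_one _).symm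
        _ ≤ δ ^ (1 - 2 * P * κ) := by
            refine Real.rpow_le_rpow_of_exponent_ge hδ hδ1 ?_
            have : 0 < 2 * P * κ := by positivity
            linarith
    have h4 : ‖H' (z + kal α k l) - H' z‖ ≤ 2 + 2 * B' := by
      have e : H' (z + kal α k l) - H' z =
          (H' (z + kal α k l) - (z + kal α k l)) - (H' z - z) + kal α k l := by abel
      rw [e]
      refine (norm_add_le _ _).trans ?_
      have h5 := norm_sub_le (H' (z + kal α k l) - (z + kal α k l)) (H' z - z)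
      have h6 := hB' (z + kal α k l)
      have h7 := hB' z
      linarith
    calc ‖H' (z + kal α k l) - H' z‖ ≤ (2 + 2 * B') * 1 := by linarith
      _ ≤ (2 + 2 * B') * (N₀ * δ) := mul_le_mul_of_nonneg_left h2.le (by linarith)
      _ = (2 + 2 * B') * N₀ * δ := by ring
      _ ≤ (2 + 2 * B') * N₀ * δ ^ (1 - 2 * P * κ) := mul_le_mul_of_nonneg_left h3 hA
      _ ≤ (2 * (B * C₃ + 2) + (2 + 2 * B') * N₀) * δ ^ (1 - 2 * P * κ) := by
          refine mul_le_mul_of_nonneg_right ?_ hpos.le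
          linarith

end QPR
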