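import Pool.Agent.Lib.QPA.GOne

set_option autoImplicit false

namespace QPR

variable {n : ℕ} {α : Fin n → ℝ} {F F' H H' : (Fin n → ℝ) → (Fin n → ℝ)}

private theorem GWalk_smo (hd : DatA α F F' H H') (k : ℕ) : Smo (F^[k]) := by
  have h := itz_smo hd (k : ℤ)
  have e : Itz α H H' (k : ℤ) = F^[k] := by
    funext x
    exact itz_nat hd k x
  rw [e] at h
  exact h

/-- `Tr (i v) x = F^[i k] x + i l`. -/
private theorem GWalk_tr (hd : DatA α F F' H H') (k : ℕ) (l : Fin n → ℤ) (i : ℕ)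
    (x : Fin n → ℝ) :
    Tr H H' ((i : ℝ) • kal α k l) x = F^[i * k] x + fun t => (((i : ℤ) * l t : ℤ) : ℝ) := by
  have e : (i : ℝ) • kal α k l
      = (((i * k : ℕ) : ℤ) : ℝ) • α + fun t => (((i : ℤ) * l t : ℤ) : ℝ) := by
    unfold kal
    funext t
    simp only [Pi.smul_apply, Pi.add_apply, smul_eq_mul]
    push_cast
    ring
  rw [e, tr_add_int hd]
  congr 1
  exact itz_nat hd (i * k) x

private theorem GWalk_lip (hd : DatA α F F' H H') {κ C : ℝ} (hG : Gro F κ C) (m : ℕ)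
    (x y : Fin n → ℝ) : ‖F^[m] y - F^[m] x‖ ≤ C * ((m : ℝ) + 1) ^ κ * ‖y - x‖ := by
  have hs := GWalk_smo hd m
  exact Convex.norm_image_sub_le_of_norm_fderiv_le (𝕜 := ℝ)
    (fun z _ => (hs.differentiable (by simp)) z) (fun z _ => (hG m z).1) convex_univ
    (Set.mem_univ x) (Set.mem_univ y)

/-- Walking. For `v = k α + l`, `‖v‖ ≤ 4`, `v ≠ 0`: `Tr (j v) x = F^[j k] x + j l`, so with `B ≥ 1` as in
`dat_bdd` (`‖H' z - z‖, ‖H z - z‖ ≤ B`)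
`j ‖v‖ - 2 B ≤ ‖Tr (j v) x - x‖ ≤ ∑_{i<j} ‖Tr (i v) (Tr v x) - Tr (i v) x‖ ≤ j C (j k + 1)^κ ‖Tr v x - x‖`
(mean value inequality for `F^[i k]`). Take `j = ⌈4 B / ‖v‖⌉ ≤ (4 B + 4)/‖v‖`:
`j ‖v‖ - 2 B ≥ 2 B`, `j k + 1 ≤ j (k+1)`. -/
theorem walk (hd : DatA α F F' H H') {κ C : ℝ} (hκ : 0 ≤ κ) (hκ1 : κ ≤ 1) (hC : 1 ≤ C)
    (hG : Gro F κ C) :
    ∃ c : ℝ, 0 < c ∧ c ≤ 1 ∧ ∀ (k : ℕ) (l : Fin n → ℤ), ‖kal α k l‖ ≤ 4 → ∀ x : Fin n → ℝ,
      c * ‖kal α k l‖ * (‖kal α k l‖ / ((k : ℝ) + 1)) ^ κ ≤ ‖Tr H H' (kal α k l) x - x‖ := by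
  obtain ⟨B₀, hB0, hB1, hB2⟩ := dat_bdd hd
  obtain ⟨B, hB⟩ : ∃ B : ℝ, B = B₀ + 1 := ⟨_, rfl⟩
  obtain ⟨M, hM⟩ : ∃ M : ℝ, M = 4 * B + 4 := ⟨_, rfl⟩
  have hB' : 1 ≤ B := by linarith
  have hM8 : 8 ≤ M := by linarith
  have hM0 : 0 < M := by linarith
  have hC0 : 0 < C := by linarith
  refine ⟨1 / (C * M ^ 2), by positivity, ?_, ?_⟩
  · rw [div_le_one (by positivity)]
    nlinarith [mul_pos hC0 hM0]
  intro k l hv4 x
  obtain ⟨v, hv⟩ : ∃ v : Fin n → ℝ, v = kal α k l := ⟨_, rfl⟩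
  rw [← hv] at hv4 ⊢
  obtain ⟨w, hw⟩ : ∃ w : ℝ, w = ‖v‖ := ⟨_, rfl⟩
  rw [← hw] at hv4 ⊢
  obtain ⟨D, hD⟩ : ∃ D : ℝ, D = ‖Tr H H' v x - x‖ := ⟨_, rfl⟩
  rw [← hD]
  have hD0 : 0 ≤ D := by rw [hD]; exact norm_nonneg _
  have hw0 : 0 ≤ w := by rw [hw]; exact norm_nonneg _
  rcases hw0.eq_or_lt with h0 | hwp
  · rw [← h0, mul_zero, zero_mul]
    exact hD0
  have hk0 : (0 : ℝ) ≤ k := Nat.cast_nonneg k
  have hk1 : (0 : ℝ) < (k : ℝ) + 1 := by linarith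
  obtain ⟨j, hj⟩ : ∃ j : ℕ, j = ⌈4 * B / w⌉₊ := ⟨_, rfl⟩
  have hj1 : 4 * B ≤ (j : ℝ) * w := by
    have h1 : 4 * B / w ≤ (j : ℝ) := by rw [hj]; exact Nat.le_ceil _
    rwa [div_le_iff₀ hwp] at h1
  have hj2 : (j : ℝ) ≤ M / w := by
    have h1 : (j : ℝ) < 4 * B / w + 1 := by
      rw [hj]
      exact Nat.ceil_lt_add_one (by positivity)
    have h2 : 4 * B / w + 1 ≤ M / w := by
      rw [div_add_one hwp.ne']
      exact div_le_div_of_nonneg_right (by linarith) hwp.le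
    linarith
  have hjpos : 1 ≤ j := by
    by_contra hcon
    have h1 : j = 0 := by omega
    rw [h1, Nat.cast_zero, zero_mul] at hj1
    linarith
  have hjR : (1 : ℝ) ≤ j := by exact_mod_cast hjpos
  -- one step
  have hstep : ∀ i : ℕ, ‖Tr H H' (((i + 1 : ℕ) : ℝ) • v) x - Tr H H' ((i : ℝ) • v) x‖
      ≤ C * (((i * k : ℕ) : ℝ) + 1) ^ κ * D := by
    intro i
    have e1 : Tr H H' (((i + 1 : ℕ) : ℝ) • v) x = Tr H H' ((i : ℝ) • v) (Tr H H' v x) := by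
      rw [tr_tr hd]
      congr 1
      push_cast
      rw [add_smul, one_smul]
    rw [e1, hv, GWalk_tr hd, GWalk_tr hd, add_sub_add_right_eq_sub, hD, hv]
    exact GWalk_lip hd hG (i * k) x (Tr H H' (kal α k l) x)
  -- upper bound
  have hup : ∀ m : ℕ, m ≤ j → ‖Tr H H' ((m : ℝ) • v) x - x‖
      ≤ (m : ℝ) * (C * ((j : ℝ) * ((k : ℝ) + 1)) ^ κ * D) := by
    intro m
    induction m with
    | zero =>
      intro _
      rw [Nat.cast_zero, zero_smul, tr_zero hd, sub_self, norm_zero, zero_mul]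
    | succ m ih =>
      intro hm
      have h1 := ih (by omega)
      have h2 := hstep m
      have h3 : ((m * k : ℕ) : ℝ) + 1 ≤ (j : ℝ) * ((k : ℝ) + 1) := by
        have h4 : (m : ℝ) ≤ j := by exact_mod_cast (by omega : m ≤ j)
        push_cast
        nlinarith
      have h5 : (((m * k : ℕ) : ℝ) + 1) ^ κ ≤ ((j : ℝ) * ((k : ℝ) + 1)) ^ κ :=
        Real.rpow_le_rpow (by positivity) h3 hκ
      have h6 : C * (((m * k : ℕ) : ℝ) + 1) ^ κ * D ≤ C * ((j : ℝ) * ((k : ℝ) + 1)) ^ κ * D :=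
        mul_le_mul_of_nonneg_right (mul_le_mul_of_nonneg_left h5 hC0.le) hD0
      have h7 : Tr H H' (((m + 1 : ℕ) : ℝ) • v) x - x
          = (Tr H H' (((m + 1 : ℕ) : ℝ) • v) x - Tr H H' ((m : ℝ) • v) x)
            + (Tr H H' ((m : ℝ) • v) x - x) := by abel
      rw [h7]
      refine (norm_add_le _ _).trans ?_
      push_cast at h1 h2 h6 ⊢
      nlinarith
  -- lower bound
  have hlow : (j : ℝ) * w - 2 * B ≤ ‖Tr H H' ((j : ℝ) • v) x - x‖ := by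
    have h1 : (j : ℝ) • v = (Tr H H' ((j : ℝ) • v) x - x)
        - ((H' (H x + (j : ℝ) • v) - (H x + (j : ℝ) • v)) + (H x - x)) := by
      unfold Tr
      abel
    have h2 : (j : ℝ) * w = ‖(j : ℝ) • v‖ := by
      rw [norm_smul, hw, Real.norm_of_nonneg (by linarith)]
    have h3 : ‖(j : ℝ) • v‖ ≤ ‖Tr H H' ((j : ℝ) • v) x - x‖
        + ‖(H' (H x + (j : ℝ) • v) - (H x + (j : ℝ) • v)) + (H x - x)‖ := by
      conv_lhs => rw [h1]
      exact norm_sub_le _ _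
    have h4 := norm_add_le (H' (H x + (j : ℝ) • v) - (H x + (j : ℝ) • v)) (H x - x)
    have h5 := hB1 (H x + (j : ℝ) • v)
    have h6 := hB2 x
    linarith
  have hmain : 1 ≤ (j : ℝ) * (C * ((j : ℝ) * ((k : ℝ) + 1)) ^ κ * D) := by
    have h1 := hup j le_rfl
    linarith
  -- conclusion
  have hq : 0 < ((k : ℝ) + 1) / w := by positivity
  have h1 : ((j : ℝ) * ((k : ℝ) + 1)) ^ κ ≤ M * (((k : ℝ) + 1) / w) ^ κ := by
    have h2 : (j : ℝ) * ((k : ℝ) + 1) ≤ M * (((k : ℝ) + 1) / w) := by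
      have h3 : M * (((k : ℝ) + 1) / w) = M / w * ((k : ℝ) + 1) := by ring
      rw [h3]
      exact mul_le_mul_of_nonneg_right hj2 hk1.le
    have h4 : ((j : ℝ) * ((k : ℝ) + 1)) ^ κ ≤ (M * (((k : ℝ) + 1) / w)) ^ κ :=
      Real.rpow_le_rpow (by positivity) h2 hκ
    rw [Real.mul_rpow hM0.le hq.le] at h4
    refine h4.trans ?_
    refine mul_le_mul_of_nonneg_right ?_ (by positivity)
    calc M ^ κ ≤ M ^ (1 : ℝ) := Real.rpow_le_rpow_of_exponent_le (by linarith) hκ1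
      _ = M := Real.rpow_one M
  have h5 : 1 ≤ M / w * (C * (M * (((k : ℝ) + 1) / w) ^ κ) * D) := by
    refine hmain.trans ?_
    refine mul_le_mul hj2 ?_ (by positivity) (by positivity)
    refine mul_le_mul_of_nonneg_right ?_ hD0
    exact mul_le_mul_of_nonneg_left h1 hC0.le
  have h6 : (w / ((k : ℝ) + 1)) ^ κ * (((k : ℝ) + 1) / w) ^ κ = 1 := by
    rw [← Real.mul_rpow (by positivity) hq.le]
    have h7 : w / ((k : ℝ) + 1) * (((k : ℝ) + 1) / w) = 1 := by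
      field_simp
    rw [h7, Real.one_rpow]
  obtain ⟨r, hr⟩ : ∃ r : ℝ, r = (w / ((k : ℝ) + 1)) ^ κ := ⟨_, rfl⟩
  obtain ⟨s, hs⟩ : ∃ s : ℝ, s = (((k : ℝ) + 1) / w) ^ κ := ⟨_, rfl⟩
  rw [← hr, ← hs] at h6
  rw [← hs] at h5
  rw [← hr]
  have hr0 : 0 < r := by rw [hr]; positivity
  have h8 : r * w ≤ C * M ^ 2 * D := by
    have h9 : r * w * 1 ≤ r * w * (M / w * (C * (M * s) * D)) :=
      mul_le_mul_of_nonneg_left h5 (by positivity)
    have h10 : r * w * (M / w * (C * (M * s) * D)) = (r * s) * (C * M ^ 2 * D) := by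
      field_simp
    rw [h10, h6, one_mul, mul_one] at h9
    exact h9
  have h11 : 1 / (C * M ^ 2) * w * r = (r * w) / (C * M ^ 2) := by ring
  rw [h11, div_le_iff₀ (by positivity)]
  linarith

end QPR
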