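import Pool.Agent.Lib.QPA.LNrm
import Pool.Agent.Lib.QPA.LTr
import Pool.Agent.Lib.QPA.LDense

set_option autoImplicit false

namespace QPR

variable {n : ℕ} {α : Fin n → ℝ} {F F' H H' : (Fin n → ℝ) → (Fin n → ℝ)}

private theorem lni_nat (hd : DatA α F F' H H') {A : ℝ} {m : (Fin n → ℝ) → Matrix (Fin n) (Fin n) ℝ}
    (hm : Met F A m) (k : ℕ) (x v : Fin n → ℝ) :
    QF (m (Itz α H H' (k : ℤ) x)) (fderiv ℝ (Itz α H H' (k : ℤ)) x v) = QF (m x) v := by
  induction k with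
  | zero =>
    have h0 : Itz α H H' ((0 : ℕ) : ℤ) = id := by
      funext z
      exact itz_zero hd z
    rw [h0, fderiv_id]
    rfl
  | succ k ih =>
    have e : ((k + 1 : ℕ) : ℤ) = 1 + (k : ℤ) := by push_cast; ring
    have h1 : Itz α H H' 1 = F := by
      funext z
      exact itz_one hd z
    rw [e, itz_add hd, itz_fderiv hd, h1]
    rw [ContinuousLinearMap.comp_apply, hm.inv]
    exact ih

/-- the metric is invariant under all `F^k`, `k ∈ ℤ`. -/
theorem met_itz (hd : DatA α F F' H H') {A : ℝ} {m : (Fin n → ℝ) → Matrix (Fin n) (Fin n) ℝ}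
    (hm : Met F A m) (k : ℤ) (x v : Fin n → ℝ) :
    QF (m (Itz α H H' k x)) (fderiv ℝ (Itz α H H' k) x v) = QF (m x) v := by
  rcases Int.eq_nat_or_neg k with ⟨j, rfl | rfl⟩
  · exact lni_nat hd hm j x v
  · have h1 := lni_nat hd hm j (Itz α H H' (-(j : ℤ)) x) (fderiv ℝ (Itz α H H' (-(j : ℤ))) x v)
    have h2 : Itz α H H' (j : ℤ) (Itz α H H' (-(j : ℤ)) x) = x := by
      rw [← itz_add hd, add_neg_cancel, itz_zero hd]
    have h3 := itz_fderiv hd (j : ℤ) (-(j : ℤ)) x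
    rw [add_neg_cancel] at h3
    have h0 : Itz α H H' 0 = id := by
      funext z
      exact itz_zero hd z
    rw [h0, fderiv_id] at h3
    have h4 : fderiv ℝ (Itz α H H' (j : ℤ)) (Itz α H H' (-(j : ℤ)) x)
        (fderiv ℝ (Itz α H H' (-(j : ℤ))) x v) = v := by
      have := congrArg (fun L : (Fin n → ℝ) →L[ℝ] (Fin n → ℝ) => L v) h3
      simpa using this.symm
    rw [h2, h4] at h1
    exact h1.symm

private theorem lni_nrm (hd : DatA α F F' H H') {A : ℝ} {m : (Fin n → ℝ) → Matrix (Fin n) (Fin n) ℝ}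
    (hm : Met F A m) (k : ℤ) (x v : Fin n → ℝ) :
    nrm (m (Itz α H H' k x)) (fderiv ℝ (Itz α H H' k) x v) = nrm (m x) v := by
  unfold nrm
  rw [met_itz hd hm]

/-- one-sided version for the iterates. -/
private theorem lni_one (hd : DatA α F F' H H') {A C : ℝ} (hA : 1 ≤ A) (hC1 : 1 ≤ C)
    (hC : ∀ θ x y : Fin n → ℝ, ‖Tr H H' θ x - Tr H H' θ y‖ ≤ C * ‖x - y‖)
    {m : (Fin n → ℝ) → Matrix (Fin n) (Fin n) ℝ} (hm : Met F A m) (ε : ℝ) (hε : 0 < ε) :
    ∃ s₀ : ℝ, 0 < s₀ ∧ ∀ (k : ℤ) (x y : Fin n → ℝ), ‖y - x‖ ≤ s₀ →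
      nrm (m (Itz α H H' k x)) (Itz α H H' k y - Itz α H H' k x)
        ≤ nrm (m x) (y - x) + ε * ‖y - x‖ := by
  have hε1 : 0 < ε / (1 + C) := by positivity
  obtain ⟨δ, hδ, hu⟩ := met_unif hm (ε / (1 + C)) hε1
  refine ⟨δ / C, by positivity, ?_⟩
  intro k x y hxy
  set G := Itz α H H' k with hG
  have hGd : Differentiable ℝ G := (itz_smo hd k).differentiable (by simp)
  have hGL : ∀ a b, ‖G a - G b‖ ≤ C * ‖a - b‖ := fun a b => hC _ a b
  have hLip : LipschitzWith (Real.toNNReal C) G := by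
    apply LipschitzWith.of_dist_le_mul
    intro a b
    rw [dist_eq_norm, dist_eq_norm, Real.coe_toNNReal C (by linarith)]
    exact hGL a b
  obtain ⟨t, ht0, ht1, hmv⟩ := nrm_mvt hA (hm.ell (G x)) G hGd x y
  set w := y - x with hw
  set z := x + t • w with hz
  have hxz : ‖x - z‖ ≤ ‖w‖ := by
    have : x - z = -(t • w) := by
      rw [hz]
      abel
    rw [this, norm_neg, norm_smul, Real.norm_eq_abs, abs_of_pos ht0]
    calc t * ‖w‖ ≤ 1 * ‖w‖ := mul_le_mul_of_nonneg_right ht1.le (norm_nonneg _)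
      _ = ‖w‖ := one_mul _
  have hCw : C * ‖w‖ ≤ δ := by
    calc C * ‖w‖ ≤ C * (δ / C) := mul_le_mul_of_nonneg_left hxy (by linarith)
      _ = δ := by field_simp
  have hwδ : ‖w‖ ≤ δ := le_trans (by nlinarith [norm_nonneg w]) hCw
  have hD : ‖fderiv ℝ G z w‖ ≤ C * ‖w‖ := by
    have h1 : ‖fderiv ℝ G z‖ ≤ C := by
      have := norm_fderiv_le_of_lipschitz ℝ hLip (x₀ := z)
      rwa [Real.coe_toNNReal C (by linarith)] at this
    exact (ContinuousLinearMap.le_opNorm _ _).trans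
      (mul_le_mul_of_nonneg_right h1 (norm_nonneg _))
  have h1 := hu (G x) (G z) ((hGL x z).trans ((mul_le_mul_of_nonneg_left hxz (by linarith)).trans hCw))
    (fderiv ℝ G z w)
  have h2 := hu x z (hxz.trans hwδ) w
  have h3 : nrm (m (G z)) (fderiv ℝ G z w) = nrm (m z) w := lni_nrm hd hm k z w
  rw [h3] at h1
  have h1' := (abs_le.mp h1).2
  have h2' := (abs_le.mp h2).1
  have h4 : ε / (1 + C) * ‖fderiv ℝ G z w‖ ≤ ε / (1 + C) * (C * ‖w‖) :=
    mul_le_mul_of_nonneg_left hD hε1.le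
  have h5 : ε / (1 + C) * (C * ‖w‖) + ε / (1 + C) * ‖w‖ = ε * ‖w‖ := by
    field_simp
    ring
  linarith

/-- two-sided version for the iterates. -/
private theorem lni_two (hd : DatA α F F' H H') {A C : ℝ} (hA : 1 ≤ A) (hC1 : 1 ≤ C)
    (hC : ∀ θ x y : Fin n → ℝ, ‖Tr H H' θ x - Tr H H' θ y‖ ≤ C * ‖x - y‖)
    {m : (Fin n → ℝ) → Matrix (Fin n) (Fin n) ℝ} (hm : Met F A m) (ε : ℝ) (hε : 0 < ε) :
    ∃ s₀ : ℝ, 0 < s₀ ∧ ∀ (k : ℤ) (x y : Fin n → ℝ), ‖y - x‖ ≤ s₀ →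
      |nrm (m (Itz α H H' k x)) (Itz α H H' k y - Itz α H H' k x) - nrm (m x) (y - x)|
        ≤ ε * ‖y - x‖ := by
  obtain ⟨s, hs, h⟩ := lni_one hd hA hC1 hC hm (ε / C) (by positivity)
  refine ⟨s / C, by positivity, ?_⟩
  intro k x y hxy
  have hCw : C * ‖y - x‖ ≤ s := by
    calc C * ‖y - x‖ ≤ C * (s / C) := mul_le_mul_of_nonneg_left hxy (by linarith)
      _ = s := by field_simp
  have hwδ : ‖y - x‖ ≤ s := le_trans (by nlinarith [norm_nonneg (y - x)]) hCw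
  have h1 := h k x y hwδ
  have hεC : ε / C * ‖y - x‖ ≤ ε * ‖y - x‖ := by
    apply mul_le_mul_of_nonneg_right _ (norm_nonneg _)
    exact div_le_self hε.le hC1
  have hG : ‖Itz α H H' k y - Itz α H H' k x‖ ≤ C * ‖y - x‖ := hC _ y x
  have h2 := h (-k) (Itz α H H' k x) (Itz α H H' k y) (hG.trans hCw)
  have e : ∀ z, Itz α H H' (-k) (Itz α H H' k z) = z := by
    intro z
    rw [← itz_add hd, neg_add_cancel, itz_zero hd]
  rw [e x, e y] at h2
  have h3 : ε / C * ‖Itz α H H' k y - Itz α H H' k x‖ ≤ ε * ‖y - x‖ := by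
    calc ε / C * ‖Itz α H H' k y - Itz α H H' k x‖ ≤ ε / C * (C * ‖y - x‖) :=
          mul_le_mul_of_nonneg_left hG (by positivity)
      _ = ε * ‖y - x‖ := by field_simp
  rw [abs_le]
  constructor <;> linarith

/-- Near isometry. For `G = F^k`, `k ∈ ℤ`, `w = y - x` small: `nrm (m (G x)) (G y - G x)` is at most
`nrm (m (G x)) (DG(z) w)` for a point `z` of the segment (`nrm_mvt`), at most
`nrm (m (G z)) (DG(z) w) + ε ‖DG(z) w‖ ≤ nrm (m z) w + ε C ‖w‖ ≤ nrm (m x) w + ε (1 + C) ‖w‖`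
(`met_unif`, `‖G z - G x‖ ≤ C ‖z - x‖`). The reverse inequality is the same one for `F^{-k}` at the
points `G x`, `G y`. General `θ`: `Tr (k α + l) x = F^k x + l`, `m` periodic, density of `k α + l`,
continuity in `θ` (`tr_cont`, continuity of `nrm (m ·) ·`). -/
theorem near_iso (hd : DatA α F F' H H') (ha : DioV α) {A C : ℝ} (hA : 1 ≤ A) (hC1 : 1 ≤ C)
    (hC : ∀ θ x y : Fin n → ℝ, ‖Tr H H' θ x - Tr H H' θ y‖ ≤ C * ‖x - y‖)
    {m : (Fin n → ℝ) → Matrix (Fin n) (Fin n) ℝ} (hm : Met F A m) (ε : ℝ) (hε : 0 < ε) :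
    ∃ s₀ : ℝ, 0 < s₀ ∧ ∀ θ x y : Fin n → ℝ, ‖y - x‖ ≤ s₀ →
      |nrm (m (Tr H H' θ x)) (Tr H H' θ y - Tr H H' θ x) - nrm (m x) (y - x)| ≤ ε * ‖y - x‖ := by
  obtain ⟨s₀, hs₀, h⟩ := lni_two hd hA hC1 hC hm ε hε
  refine ⟨s₀, hs₀, ?_⟩
  intro θ x y hxy
  have hc : Continuous (fun θ : Fin n → ℝ =>
      |nrm (m (Tr H H' θ x)) (Tr H H' θ y - Tr H H' θ x) - nrm (m x) (y - x)|) := by
    have hx : Continuous (fun θ : Fin n → ℝ => Tr H H' θ x) :=
      (tr_cont hd).comp (by fun_prop : Continuous fun θ : Fin n → ℝ => (θ, x))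
    have hy : Continuous (fun θ : Fin n → ℝ => Tr H H' θ y) :=
      (tr_cont hd).comp (by fun_prop : Continuous fun θ : Fin n → ℝ => (θ, y))
    have hmx : Continuous (fun θ : Fin n → ℝ => m (Tr H H' θ x)) := hm.cont.comp hx
    unfold nrm QF
    refine (Continuous.sub (Real.continuous_sqrt.comp ?_) continuous_const).abs
    exact (hy.sub hx).dotProduct (hmx.matrix_mulVec (hy.sub hx))
  have hcl : IsClosed {θ : Fin n → ℝ |
      |nrm (m (Tr H H' θ x)) (Tr H H' θ y - Tr H H' θ x) - nrm (m x) (y - x)| ≤ ε * ‖y - x‖} :=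
    isClosed_le hc continuous_const
  have hmem : θ ∈ closure {θ : Fin n → ℝ |
      |nrm (m (Tr H H' θ x)) (Tr H H' θ y - Tr H H' θ x) - nrm (m x) (y - x)| ≤ ε * ‖y - x‖} := by
    rw [Metric.mem_closure_iff]
    intro e he
    obtain ⟨k, l, hkl⟩ := dioV_dense ha θ (e / 2) (by positivity)
    refine ⟨(k : ℝ) • α + fun i => (l i : ℝ), ?_, ?_⟩
    · have e1 : ∀ z, Tr H H' ((k : ℝ) • α + fun i => (l i : ℝ)) z
          = Itz α H H' (k : ℤ) z + fun i => (l i : ℝ) := by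
        intro z
        rw [tr_add_int hd]
        unfold Itz
        rw [Int.cast_natCast]
      show |nrm (m (Tr H H' ((k : ℝ) • α + fun i => (l i : ℝ)) x))
          (Tr H H' ((k : ℝ) • α + fun i => (l i : ℝ)) y
            - Tr H H' ((k : ℝ) • α + fun i => (l i : ℝ)) x) - nrm (m x) (y - x)| ≤ ε * ‖y - x‖
      rw [e1 x, e1 y, hm.per, add_sub_add_right_eq_sub]
      exact h k x y hxy
    · rw [dist_comm, dist_eq_norm]
      linarith
  rw [hcl.closure_eq] at hmem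
  exact hmem

end QPR
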