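import Pool.Agent.Lib.QPA.LKK

set_option autoImplicit false

namespace QPR

open Matrix

variable {n : ℕ}

private theorem LNrm_bf_add (Q : Matrix (Fin n) (Fin n) ℝ) (u v w : Fin n → ℝ) :
    BF Q u (v + w) = BF Q u v + BF Q u w := by
  unfold BF
  rw [Matrix.mulVec_add, dotProduct_add]

private theorem LNrm_bf_smul (Q : Matrix (Fin n) (Fin n) ℝ) (c : ℝ) (u v : Fin n → ℝ) :
    BF Q u (c • v) = c * BF Q u v := by
  unfold BF
  rw [Matrix.mulVec_smul, dotProduct_smul, smul_eq_mul]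

private theorem LNrm_bf_comm {Q : Matrix (Fin n) (Fin n) ℝ} (h : Q.IsSymm) (v w : Fin n → ℝ) :
    BF Q v w = BF Q w v := by
  unfold BF
  rw [dotProduct_comm, ← Matrix.vecMul_transpose, h.eq, ← Matrix.dotProduct_mulVec]

private theorem LNrm_qf_add {Q : Matrix (Fin n) (Fin n) ℝ} (h : Q.IsSymm) (v w : Fin n → ℝ) :
    QF Q (v + w) = QF Q v + 2 * BF Q v w + QF Q w := by
  have e : ∀ z : Fin n → ℝ, QF Q z = BF Q z z := fun _ => rfl
  rw [e, e, e, LNrm_bf_add, LNrm_bf_comm h (v + w) v, LNrm_bf_comm h (v + w) w, LNrm_bf_add,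
    LNrm_bf_add, LNrm_bf_comm h w v]
  ring

private theorem LNrm_qf_smul (Q : Matrix (Fin n) (Fin n) ℝ) (c : ℝ) (v : Fin n → ℝ) :
    QF Q (c • v) = c ^ 2 * QF Q v := by
  unfold QF
  rw [Matrix.mulVec_smul, dotProduct_smul, smul_dotProduct, smul_eq_mul, smul_eq_mul]
  ring

theorem nrm_sq {A : ℝ} (hA : 1 ≤ A) {Q : Matrix (Fin n) (Fin n) ℝ} (h : Ell A Q) (v : Fin n → ℝ) :
    nrm Q v ^ 2 = QF Q v ∧ 0 ≤ QF Q v ∧ 0 ≤ nrm Q v := by
  have h0 : 0 ≤ QF Q v := by
    by_contra hc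
    push Not at hc
    have h1 := (h.2 v).1
    nlinarith [sq_nonneg ‖v‖]
  exact ⟨Real.sq_sqrt h0, h0, Real.sqrt_nonneg _⟩

theorem nrm_le {A : ℝ} (hA : 1 ≤ A) {Q : Matrix (Fin n) (Fin n) ℝ} (h : Ell A Q) (v : Fin n → ℝ) :
    nrm Q v ≤ A * ‖v‖ ∧ ‖v‖ ≤ A * nrm Q v := by
  obtain ⟨h1, h2, h3⟩ := nrm_sq hA h v
  have h4 := h.2 v
  have h5 := norm_nonneg v
  constructor
  · apply abs_le_of_sq_le_sq' _ (by positivity) |>.2
    rw [h1, mul_pow]
    nlinarith [mul_nonneg (sub_nonneg.mpr hA) (sq_nonneg ‖v‖),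
      mul_nonneg (by linarith : (0 : ℝ) ≤ A) (mul_nonneg (sub_nonneg.mpr hA) (sq_nonneg ‖v‖))]
  · apply abs_le_of_sq_le_sq' _ (by positivity) |>.2
    rw [mul_pow, h1]
    nlinarith [mul_nonneg (by linarith : (0 : ℝ) ≤ A) (mul_nonneg (sub_nonneg.mpr hA) h2)]

/-- Cauchy-Schwarz. -/
theorem bf_le {A : ℝ} (hA : 1 ≤ A) {Q : Matrix (Fin n) (Fin n) ℝ} (h : Ell A Q)
    (v w : Fin n → ℝ) : |BF Q v w| ≤ nrm Q v * nrm Q w := by
  obtain ⟨h1, h2, h3⟩ := nrm_sq hA h v
  obtain ⟨k1, k2, k3⟩ := nrm_sq hA h w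
  have h4 : ∀ t : ℝ, 0 ≤ QF Q w * (t * t) + 2 * BF Q v w * t + QF Q v := by
    intro t
    have := (nrm_sq hA h (v + t • w)).2.1
    rw [LNrm_qf_add h.1, LNrm_bf_smul, LNrm_qf_smul] at this
    linarith
  have h5 := discrim_le_zero h4
  unfold discrim at h5
  apply abs_le_of_sq_le_sq _ (by positivity)
  rw [mul_pow, h1, k1]
  nlinarith

theorem nrm_add {A : ℝ} (hA : 1 ≤ A) {Q : Matrix (Fin n) (Fin n) ℝ} (h : Ell A Q)
    (v w : Fin n → ℝ) : nrm Q (v + w) ≤ nrm Q v + nrm Q w ∧ |nrm Q v - nrm Q w| ≤ nrm Q (v - w) := by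
  have key : ∀ v w : Fin n → ℝ, nrm Q (v + w) ≤ nrm Q v + nrm Q w := by
    intro v w
    obtain ⟨h1, h2, h3⟩ := nrm_sq hA h v
    obtain ⟨k1, k2, k3⟩ := nrm_sq hA h w
    obtain ⟨l1, l2, l3⟩ := nrm_sq hA h (v + w)
    apply abs_le_of_sq_le_sq' _ (by positivity) |>.2
    rw [l1, LNrm_qf_add h.1, ← h1, ← k1]
    have := (abs_le.mp (bf_le hA h v w)).2
    nlinarith
  refine ⟨key v w, ?_⟩
  have e1 := key (v - w) w
  have e2 := key (w - v) v
  rw [sub_add_cancel] at e1 e2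
  have e3 : nrm Q (w - v) = nrm Q (v - w) := by
    unfold nrm
    have : w - v = (-1 : ℝ) • (v - w) := by simp
    rw [this, LNrm_qf_smul]
    norm_num
  rw [e3] at e2
  rw [abs_le]
  constructor <;> linarith

theorem nrm_smul {A : ℝ} (hA : 1 ≤ A) {Q : Matrix (Fin n) (Fin n) ℝ} (h : Ell A Q) (c : ℝ)
    (v : Fin n → ℝ) : nrm Q (c • v) = |c| * nrm Q v := by
  unfold nrm
  rw [LNrm_qf_smul, Real.sqrt_mul (sq_nonneg c), Real.sqrt_sq_eq_abs]

/-- polarisation. -/
theorem bf_polar {Q : Matrix (Fin n) (Fin n) ℝ} (h : Q.IsSymm) (v w : Fin n → ℝ) :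
    2 * BF Q v w = QF Q v + QF Q w - QF Q (v - w) := by
  have e : v - w = v + (-1 : ℝ) • w := by simp [sub_eq_add_neg]
  rw [e, LNrm_qf_add h, LNrm_bf_smul, LNrm_qf_smul]
  ring

/-- mean value inequality for the norm `nrm Q` on a segment: for `u = G y - G x` apply the scalar
mean value theorem to `t ↦ BF Q u (G (x + t (y - x)))`. -/
theorem nrm_mvt {A : ℝ} (hA : 1 ≤ A) {Q : Matrix (Fin n) (Fin n) ℝ} (h : Ell A Q)
    (G : (Fin n → ℝ) → (Fin n → ℝ)) (hG : Differentiable ℝ G) (x y : Fin n → ℝ) :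
    ∃ t : ℝ, 0 < t ∧ t < 1 ∧
      nrm Q (G y - G x) ≤ nrm Q (fderiv ℝ G (x + t • (y - x)) (y - x)) := by
  set u : Fin n → ℝ := G y - G x with hu
  let L : (Fin n → ℝ) →ₗ[ℝ] ℝ :=
    { toFun := fun v => BF Q u v
      map_add' := fun v w => LNrm_bf_add Q u v w
      map_smul' := fun c v => by
        simp only [RingHom.id_apply, smul_eq_mul]
        exact LNrm_bf_smul Q c u v }
  let Lc : (Fin n → ℝ) →L[ℝ] ℝ := LinearMap.toContinuousLinearMap L
  have hLc : ∀ v, Lc v = BF Q u v := fun v => rfl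
  have hd : ∀ t : ℝ, HasDerivAt (fun t : ℝ => Lc (G (x + t • (y - x))))
      (Lc (fderiv ℝ G (x + t • (y - x)) (y - x))) t := by
    intro t
    have h1 : HasDerivAt (fun t : ℝ => x + t • (y - x)) (y - x) t := by
      have := ((hasDerivAt_id t).smul_const (y - x)).const_add x
      simpa using this
    have h2 : HasFDerivAt G (fderiv ℝ G (x + t • (y - x))) (x + t • (y - x)) :=
      (hG _).hasFDerivAt
    have h3 := h2.comp_hasDerivAt t h1
    exact Lc.hasFDerivAt.comp_hasDerivAt t h3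
  obtain ⟨t, ht, hte⟩ := exists_hasDerivAt_eq_slope
    (fun t : ℝ => Lc (G (x + t • (y - x))))
    (fun t => Lc (fderiv ℝ G (x + t • (y - x)) (y - x))) zero_lt_one
    (fun t _ => (hd t).continuousAt.continuousWithinAt) (fun t _ => hd t)
  refine ⟨t, ht.1, ht.2, ?_⟩
  have e1 : Lc (fderiv ℝ G (x + t • (y - x)) (y - x)) = QF Q u := by
    rw [hte]
    simp only [one_smul, zero_smul, add_zero, sub_zero, div_one, add_sub_cancel]
    rw [← map_sub]
    rfl
  rw [hLc] at e1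
  obtain ⟨h1, h2, h3⟩ := nrm_sq hA h u
  have h4 := (abs_le.mp (bf_le hA h u (fderiv ℝ G (x + t • (y - x)) (y - x)))).2
  rw [e1, ← h1] at h4
  rcases h3.eq_or_lt with h5 | h5
  · rw [← h5]
    exact (nrm_sq hA h _).2.2
  · nlinarith

/-- uniform continuity of the metric: `|QF (m x) v - QF (m y) v| ≤ ε² ‖v‖²` for `x`, `y` close
(periodicity and compactness of the cube), and `|√a - √b| ≤ √|a - b|`. -/
theorem met_unif {F : (Fin n → ℝ) → (Fin n → ℝ)} {A : ℝ}
    {m : (Fin n → ℝ) → Matrix (Fin n) (Fin n) ℝ} (hm : Met F A m) (ε : ℝ) (hε : 0 < ε) :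
    ∃ δ : ℝ, 0 < δ ∧ ∀ x y : Fin n → ℝ, ‖x - y‖ ≤ δ → ∀ v : Fin n → ℝ,
      |nrm (m x) v - nrm (m y) v| ≤ ε * ‖v‖ := by
  have hA : 1 ≤ A ∨ ∀ (x : Fin n → ℝ) (v : Fin n → ℝ), nrm (m x) v = 0 := by
    by_cases hA : 1 ≤ A
    · exact Or.inl hA
    right
    push Not at hA
    intro x v
    have h1 := (hm.ell x).2 v
    have h2 : QF (m x) v ≤ 0 := by
      by_contra hc
      push Not at hc
      have h3 : 0 ≤ ‖v‖ ^ 2 := sq_nonneg _
      rcases le_or_gt A 0 with hA0 | hA0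
      · nlinarith
      · nlinarith [mul_lt_mul_of_pos_right hA hc]
    exact Real.sqrt_eq_zero_of_nonpos h2
  rcases hA with hA | h0
  swap
  · refine ⟨1, one_pos, fun x y _ v => ?_⟩
    rw [h0, h0, sub_zero, abs_zero]
    positivity
  let Φ : (Fin n → ℝ) → (Fin n → Fin n → ℝ) := fun x i j => m x i j
  have hc : Continuous Φ := by
    refine continuous_pi fun i => continuous_pi fun j => ?_
    exact hm.cont.matrix_elem i j
  have hper : ∀ (x : Fin n → ℝ) (k : Fin n → ℤ), m (x - fun i => (k i : ℝ)) = m x := by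
    intro x k
    have := hm.per (x - fun i => (k i : ℝ)) k
    rw [sub_add_cancel] at this
    exact this.symm
  have hK : IsCompact (Set.Icc (fun _ : Fin n => (-1 : ℝ)) (fun _ => 2)) := isCompact_Icc
  have huc := hK.uniformContinuousOn_of_continuous hc.continuousOn
  set η : ℝ := ε ^ 2 / ((n : ℝ) ^ 2 + 1) with hη
  have hη0 : 0 < η := by positivity
  obtain ⟨δ, hδ, H⟩ := Metric.uniformContinuousOn_iff.mp huc η hη0
  refine ⟨min (δ / 2) 1, by positivity, fun x y hxy v => ?_⟩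
  have hent : ∀ i j, |m x i j - m y i j| ≤ η := by
    intro i j
    set k : Fin n → ℤ := fun i => ⌊x i⌋ with hk
    have hx' : x - (fun i => (k i : ℝ)) ∈ Set.Icc (fun _ : Fin n => (-1 : ℝ)) (fun _ => 2) := by
      constructor <;> intro a
      · have := Int.floor_le (x a)
        simp only [Pi.sub_apply, hk]
        linarith
      · have := Int.lt_floor_add_one (x a)
        simp only [Pi.sub_apply, hk]
        linarith
    have hxa : ∀ a, |x a - y a| ≤ 1 := fun a =>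
      ((norm_le_pi_norm (x - y) a).trans hxy).trans (min_le_right _ _)
    have hy' : y - (fun i => (k i : ℝ)) ∈ Set.Icc (fun _ : Fin n => (-1 : ℝ)) (fun _ => 2) := by
      constructor <;> intro a
      · have := Int.floor_le (x a)
        have h2 := abs_le.mp (hxa a)
        simp only [Pi.sub_apply, hk]
        linarith
      · have := Int.lt_floor_add_one (x a)
        have h2 := abs_le.mp (hxa a)
        simp only [Pi.sub_apply, hk]
        linarith
    have hdist : dist (x - (fun i => (k i : ℝ))) (y - (fun i => (k i : ℝ))) < δ := by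
      rw [dist_sub_right, dist_eq_norm]
      have := hxy.trans (min_le_left _ _)
      linarith
    have h1 := H _ hx' _ hy' hdist
    have h2 : dist (Φ (x - (fun i => (k i : ℝ))) i j) (Φ (y - (fun i => (k i : ℝ))) i j) < η :=
      ((dist_le_pi_dist _ _ j).trans (dist_le_pi_dist _ _ i)).trans_lt h1
    have e1 : Φ (x - (fun i => (k i : ℝ))) i j = m x i j := by
      simp only [Φ, hper x k]
    have e2 : Φ (y - (fun i => (k i : ℝ))) i j = m y i j := by
      simp only [Φ, hper y k]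
    rw [e1, e2, Real.dist_eq] at h2
    exact h2.le
  have hq : |QF (m x) v - QF (m y) v| ≤ (ε * ‖v‖) ^ 2 := by
    have e : QF (m x) v - QF (m y) v = ∑ i, ∑ j, v i * (m x i j - m y i j) * v j := by
      unfold QF dotProduct Matrix.mulVec dotProduct
      rw [← Finset.sum_sub_distrib]
      refine Finset.sum_congr rfl fun i _ => ?_
      rw [Finset.mul_sum, Finset.mul_sum, ← Finset.sum_sub_distrib]
      exact Finset.sum_congr rfl fun j _ => by ring
    have hterm : ∀ i j, |v i * (m x i j - m y i j) * v j| ≤ η * ‖v‖ ^ 2 := by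
      intro i j
      have h1 : |v i| ≤ ‖v‖ := norm_le_pi_norm v i
      have h2 : |v j| ≤ ‖v‖ := norm_le_pi_norm v j
      rw [abs_mul, abs_mul]
      calc |v i| * |m x i j - m y i j| * |v j| ≤ ‖v‖ * η * ‖v‖ := by
            gcongr
            exact hent i j
        _ = η * ‖v‖ ^ 2 := by ring
    rw [e]
    calc |∑ i, ∑ j, v i * (m x i j - m y i j) * v j|
        ≤ ∑ i, |∑ j, v i * (m x i j - m y i j) * v j| := Finset.abs_sum_le_sum_abs _ _
      _ ≤ ∑ i, ∑ j, |v i * (m x i j - m y i j) * v j| :=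
          Finset.sum_le_sum fun i _ => Finset.abs_sum_le_sum_abs _ _
      _ ≤ ∑ _i : Fin n, ∑ _j : Fin n, η * ‖v‖ ^ 2 :=
          Finset.sum_le_sum fun i _ => Finset.sum_le_sum fun j _ => hterm i j
      _ = (n : ℝ) ^ 2 * η * ‖v‖ ^ 2 := by
          simp only [Finset.sum_const, Finset.card_univ, Fintype.card_fin, nsmul_eq_mul]
          ring
      _ ≤ (ε * ‖v‖) ^ 2 := by
          rw [mul_pow]
          apply mul_le_mul_of_nonneg_right _ (sq_nonneg _)
          rw [hη, mul_div_assoc', div_le_iff₀ (by positivity)]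
          nlinarith [sq_nonneg ε]
  obtain ⟨h1, h2, h3⟩ := nrm_sq hA (hm.ell x) v
  obtain ⟨k1, k2, k3⟩ := nrm_sq hA (hm.ell y) v
  apply abs_le_of_sq_le_sq _ (by positivity)
  have hle : (nrm (m x) v - nrm (m y) v) ^ 2 ≤ |QF (m x) v - QF (m y) v| := by
    rw [← h1, ← k1]
    have e : nrm (m x) v ^ 2 - nrm (m y) v ^ 2
        = (nrm (m x) v - nrm (m y) v) * (nrm (m x) v + nrm (m y) v) := by ring
    rw [e, abs_mul, abs_of_nonneg (by positivity : 0 ≤ nrm (m x) v + nrm (m y) v),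
      ← sq_abs, sq]
    apply mul_le_mul_of_nonneg_left _ (abs_nonneg _)
    rw [abs_le]
    constructor <;> linarith
  exact hle.trans hq

end QPR
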