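import Pool.Agent.Lib.QPA.LTr
import Pool.Agent.Lib.QPA.LDense

set_option autoImplicit false

namespace QPR

variable {n : ℕ} {α : Fin n → ℝ} {F F' H H' : (Fin n → ℝ) → (Fin n → ℝ)}

/-- Invariant periodic upper semicontinuous functions are constant: `{z | φ x ≤ φ z}` is closed
(`UpperSemicontinuous.isClosed_preimage`) and contains `Tr (k α + l) x = F^k x + l`, so it contains
`Tr θ x` for every `θ` (`dioV_dense`), hence every `y = Tr (H y - H x) x`. -/
theorem inv_usc_const (hd : DatA α F F' H H') (ha : DioV α) (φ : (Fin n → ℝ) → ℝ)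
    (hφ : UpperSemicontinuous φ) (hinv : ∀ x, φ (F x) = φ x)
    (hper : ∀ (x : Fin n → ℝ) (k : Fin n → ℤ), φ (x + fun i => (k i : ℝ)) = φ x)
    (x y : Fin n → ℝ) : φ x = φ y := by
  have hit : ∀ (x : Fin n → ℝ) (k : ℕ), φ (F^[k] x) = φ x := by
    intro x k
    induction k with
    | zero => rfl
    | succ k ih => rw [Function.iterate_succ_apply', hinv, ih]
  have key : ∀ x y : Fin n → ℝ, φ x ≤ φ y := by
    intro x y
    have hcl : IsClosed {θ : Fin n → ℝ | φ x ≤ φ (Tr H H' θ x)} := by
      have h1 : IsClosed (φ ⁻¹' Set.Ici (φ x)) := hφ.isClosed_preimage (φ x)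
      have h2 : Continuous fun θ : Fin n → ℝ => Tr H H' θ x :=
        (tr_cont hd).comp (continuous_id.prodMk continuous_const)
      exact h1.preimage h2
    have hmem : ∀ θ : Fin n → ℝ, θ ∈ {θ : Fin n → ℝ | φ x ≤ φ (Tr H H' θ x)} := by
      intro θ
      rw [← hcl.closure_eq, Metric.mem_closure_iff]
      intro ε hε
      obtain ⟨k, l, hkl⟩ := dioV_dense ha θ (ε / 2) (by linarith)
      refine ⟨(k : ℝ) • α + fun i => (l i : ℝ), ?_, ?_⟩
      · show φ x ≤ φ (Tr H H' ((k : ℝ) • α + fun i => (l i : ℝ)) x)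
        rw [tr_add_int hd, hper]
        have h3 := itz_nat hd k x
        unfold Itz at h3
        rw [Int.cast_natCast] at h3
        rw [h3, hit]
      · rw [dist_comm, dist_eq_norm]
        linarith
    have h4 : φ x ≤ φ (Tr H H' (H y - H x) x) := hmem (H y - H x)
    rwa [tr_sub hd] at h4
  exact le_antisymm (key x y) (key y x)

end QPR
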