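import Pool.Agent.Lib.QPA.TFd
import Pool.Agent.Lib.QPA.TBdO

set_option autoImplicit false

namespace QPR

open Filter Topology

/-- Baire. If the set of points where the iterates `f^n`, `n ≥ 0`, have bounded pointwise Lipschitz
constants is not meagre, then the derivatives of the iterates of the lift are bounded on an open set.
Proof: for `m : ℕ` let `B m = {y | ∀ x, pr x = y → ∀ k, ‖fderiv ℝ (F^[k]) x‖ ≤ m}`. `B m` is closed:
its complement is `pr '' {x | ∃ k, m < ‖fderiv ℝ (F^[k]) x‖}`, the image of an open set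
(`isOpenMap_pr`; `fderiv ℝ (F^[k])` is continuous). The given set is contained in `⋃ m, B m`
(`fderiv_le_of_dist` for `g = f^[k]`, `G = F^[k]`: for every lift `x` of `y` the bound is `|L|`).
If every `B m` had empty interior the union would be meagre (`isMeagre_iUnion`, closed sets with empty
interior are nowhere dense). Let `U = interior (B m)`. -/
theorem open_of_nonmeagre {d : ℕ} {f : UnitAddTorus (Fin d) → UnitAddTorus (Fin d)}
    {F : (Fin d → ℝ) → (Fin d → ℝ)} (hF : Smo F) (h : ∀ x, pr (F x) = f (pr x))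
    (hm : ¬ IsMeagre {y : UnitAddTorus (Fin d) | ∃ L : ℝ, ∀ n : ℕ, ∀ᶠ z in 𝓝 y,
      dist (f^[n] z) (f^[n] y) ≤ L * dist z y}) :
    ∃ (m : ℝ) (U : Set (UnitAddTorus (Fin d))), IsOpen U ∧ U.Nonempty ∧
      ∀ x, pr x ∈ U → ∀ k : ℕ, ‖fderiv ℝ (F^[k]) x‖ ≤ m := by
  have hsm : ∀ k : ℕ, Smo (F^[k]) := by
    intro k
    induction k with
    | zero => exact contDiff_id
    | succ k ih => rw [Function.iterate_succ]; exact ih.comp hF
  have hcont : ∀ k : ℕ, Continuous fun x => ‖fderiv ℝ (F^[k]) x‖ := fun k =>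
    ((hsm k).continuous_fderiv (by simp)).norm
  let B : ℕ → Set (UnitAddTorus (Fin d)) := fun m =>
    {y | ∀ x, pr x = y → ∀ k : ℕ, ‖fderiv ℝ (F^[k]) x‖ ≤ m}
  have hB : ∀ m, IsClosed (B m) := by
    intro m
    have ho : IsOpen {x : Fin d → ℝ | ∃ k : ℕ, (m : ℝ) < ‖fderiv ℝ (F^[k]) x‖} := by
      have : {x : Fin d → ℝ | ∃ k : ℕ, (m : ℝ) < ‖fderiv ℝ (F^[k]) x‖}
          = ⋃ k : ℕ, {x | (m : ℝ) < ‖fderiv ℝ (F^[k]) x‖} := by
        ext x; simp
      rw [this]
      exact isOpen_iUnion fun k => isOpen_lt continuous_const (hcont k)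
    have hc : (B m)ᶜ = pr '' {x : Fin d → ℝ | ∃ k : ℕ, (m : ℝ) < ‖fderiv ℝ (F^[k]) x‖} := by
      ext y
      simp only [B, Set.mem_compl_iff, Set.mem_setOf_eq, Set.mem_image, not_forall, not_le]
      constructor
      · rintro ⟨x, hx, k, hk⟩
        exact ⟨x, ⟨k, hk⟩, hx⟩
      · rintro ⟨x, ⟨k, hk⟩, hx⟩
        exact ⟨x, hx, k, hk⟩
    rw [← isOpen_compl_iff, hc]
    exact isOpenMap_pr _ ho
  have hsub : {y : UnitAddTorus (Fin d) | ∃ L : ℝ, ∀ n : ℕ, ∀ᶠ z in 𝓝 y,
      dist (f^[n] z) (f^[n] y) ≤ L * dist z y} ⊆ ⋃ m, B m := by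
    rintro y ⟨L, hL⟩
    refine Set.mem_iUnion.mpr ⟨⌈|L|⌉₊, fun x hx k => ?_⟩
    have hs : Function.Semiconj pr F f := h
    have h1 := fderiv_le_of_dist (g := f^[k]) (G := F^[k]) (fun x => (hs.iterate_right k) x) x
      ((hsm k).differentiable (by simp) x) L (by rw [hx]; exact hL k)
    exact h1.trans (Nat.le_ceil _)
  obtain ⟨m, hm'⟩ : ∃ m, (interior (B m)).Nonempty := by
    by_contra hcon
    push Not at hcon
    apply hm
    refine IsMeagre.mono hsub ?_
    refine isMeagre_iUnion fun m => ?_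
    exact ((hB m).isNowhereDense_iff.mpr (hcon m)).isMeagre
  exact ⟨m, interior (B m), isOpen_interior, hm', fun x hx k => interior_subset hx x rfl k⟩

end QPR
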