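import Pool.Agent.Lib.QPA.TLift

set_option autoImplicit false

/-!
# Pointwise Lipschitz constants of a torus map and the derivative of a lift
-/

namespace QPR

open Filter Topology

/-- `pr` is a local isometry: distances below `1/2` are preserved. (sup distance;
`AddCircle.norm_eq_of_zero` / `UnitAddCircle.norm_eq`: `‖(x : UnitAddCircle)‖ = |x - round x|`,
which is `|x|` for `|x| < 1/2`.) -/
theorem dist_pr {d : ℕ} (x y : Fin d → ℝ) (h : dist x y < 1 / 2) :
    dist (pr x) (pr y) = dist x y := by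
  have h1 : ∀ i, dist (pr x i) (pr y i) = dist (x i) (y i) := by
    intro i
    have hi : dist (x i) (y i) < 1 / 2 := (dist_le_pi_dist x y i).trans_lt h
    rw [dist_eq_norm, dist_eq_norm]
    have e : pr x i - pr y i = ((x i - y i : ℝ) : UnitAddCircle) := by
      simp [pr]
    rw [e, UnitAddCircle.norm_eq]
    have hr : round (x i - y i) = 0 := by
      rw [round_eq_zero_iff]
      rw [dist_eq_norm, Real.norm_eq_abs, abs_lt] at hi
      exact ⟨by linarith [hi.1], by linarith [hi.2]⟩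
    rw [hr]
    simp
  apply le_antisymm
  · refine (dist_pi_le_iff dist_nonneg).mpr fun i => ?_
    rw [h1]
    exact dist_le_pi_dist x y i
  · refine (dist_pi_le_iff dist_nonneg).mpr fun i => ?_
    rw [← h1]
    exact dist_le_pi_dist (pr x) (pr y) i

private theorem TFd_loc {d : ℕ} {g : UnitAddTorus (Fin d) → UnitAddTorus (Fin d)}
    {G : (Fin d → ℝ) → (Fin d → ℝ)} (h : ∀ x, pr (G x) = g (pr x)) (x : Fin d → ℝ)
    (hG : DifferentiableAt ℝ G x) :
    ∀ᶠ a in 𝓝 x, dist (g (pr a)) (g (pr x)) = dist (G a) (G x) ∧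
      dist (pr a) (pr x) = dist a x := by
  have h1 : ∀ᶠ a in 𝓝 x, dist (G a) (G x) < 1 / 2 :=
    hG.continuousAt.eventually (Metric.ball_mem_nhds _ (by norm_num))
  have h2 : ∀ᶠ a in 𝓝 x, dist a x < 1 / 2 := Metric.ball_mem_nhds _ (by norm_num)
  filter_upwards [h1, h2] with a ha hb
  exact ⟨by rw [← h, ← h, dist_pr _ _ ha], dist_pr _ _ hb⟩

/-- a pointwise Lipschitz bound for the torus map bounds the derivative of the lift. Proof: for `z`
near `x`, `dist (pr z) (pr x) = dist z x` and `dist (g (pr z)) (g (pr x)) = dist (G z) (G x)`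
(`dist_pr`, continuity of `G` at `x`), so `‖G z - G x‖ ≤ L ‖z - x‖ ≤ |L| ‖z - x‖` near `x`, and
`HasFDerivAt.le_of_lip'` (or `norm_fderiv_le_of_lip'`). -/
theorem fderiv_le_of_dist {d : ℕ} {g : UnitAddTorus (Fin d) → UnitAddTorus (Fin d)}
    {G : (Fin d → ℝ) → (Fin d → ℝ)} (h : ∀ x, pr (G x) = g (pr x)) (x : Fin d → ℝ)
    (hG : DifferentiableAt ℝ G x) (L : ℝ)
    (hL : ∀ᶠ z in 𝓝 (pr x), dist (g z) (g (pr x)) ≤ L * dist z (pr x)) :
    ‖fderiv ℝ G x‖ ≤ |L| := by
  have h1 := continuous_pr.continuousAt.eventually hL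
  refine hG.hasFDerivAt.le_of_lip' (abs_nonneg L) ?_
  filter_upwards [h1, TFd_loc h x hG] with a ha hb
  rw [hb.1, hb.2, dist_eq_norm, dist_eq_norm] at ha
  exact ha.trans (mul_le_mul_of_nonneg_right (le_abs_self L) (norm_nonneg _))

/-- the lower bound. Proof: near `x`, `‖z - x‖ ≤ |L| ‖G z - G x‖`; take `z = x + t v`, divide by
`t > 0` and let `t → 0`. -/
theorem le_fderiv_of_dist {d : ℕ} {g : UnitAddTorus (Fin d) → UnitAddTorus (Fin d)}
    {G : (Fin d → ℝ) → (Fin d → ℝ)} (h : ∀ x, pr (G x) = g (pr x)) (x : Fin d → ℝ)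
    (hG : DifferentiableAt ℝ G x) (L : ℝ)
    (hL : ∀ᶠ z in 𝓝 (pr x), dist z (pr x) ≤ L * dist (g z) (g (pr x))) (v : Fin d → ℝ) :
    ‖v‖ ≤ |L| * ‖fderiv ℝ G x v‖ := by
  have h1 := continuous_pr.continuousAt.eventually hL
  have h2 : ∀ᶠ a in 𝓝 x, ‖a - x‖ ≤ |L| * ‖G a - G x‖ := by
    filter_upwards [h1, TFd_loc h x hG] with a ha hb
    rw [hb.1, hb.2, dist_eq_norm, dist_eq_norm] at ha
    exact ha.trans (mul_le_mul_of_nonneg_right (le_abs_self L) (norm_nonneg _))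
  have hline : HasDerivAt (fun t : ℝ => G (x + t • v)) (fderiv ℝ G x v) 0 := by
    have hl : HasDerivAt (fun t : ℝ => x + t • v) v 0 := by
      simpa using ((hasDerivAt_id (0 : ℝ)).smul_const v).const_add x
    have hG' : HasFDerivAt G (fderiv ℝ G x) (x + (0 : ℝ) • v) := by
      simpa using hG.hasFDerivAt
    exact hG'.comp_hasDerivAt (0 : ℝ) hl
  have hc : ContinuousAt (fun t : ℝ => x + t • v) 0 := by fun_prop
  have h3 : ∀ᶠ t in 𝓝 (0 : ℝ), ‖t • v‖ ≤ |L| * ‖G (x + t • v) - G x‖ := by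
    have h2' : ∀ᶠ a in 𝓝 (x + (0 : ℝ) • v), ‖a - x‖ ≤ |L| * ‖G a - G x‖ := by simpa using h2
    have := hc.eventually h2'
    filter_upwards [this] with t ht
    simpa using ht
  have h4 := hasDerivAt_iff_tendsto_slope.mp hline
  have h5 : Tendsto (fun t : ℝ => |L| * ‖slope (fun t : ℝ => G (x + t • v)) 0 t‖) (𝓝[≠] 0)
      (𝓝 (|L| * ‖fderiv ℝ G x v‖)) := (h4.norm).const_mul _
  refine ge_of_tendsto h5 ?_
  filter_upwards [h3.filter_mono nhdsWithin_le_nhds, self_mem_nhdsWithin] with t ht ht0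
  have ht0' : t ≠ 0 := ht0
  have ht1 : 0 < |t| := abs_pos.mpr ht0'
  rw [norm_smul, Real.norm_eq_abs] at ht
  rw [slope_def_module]
  simp only [sub_zero, zero_smul, add_zero, norm_smul, norm_inv, Real.norm_eq_abs]
  have h6 : ‖v‖ = |t|⁻¹ * (|t| * ‖v‖) := by field_simp
  rw [h6]
  calc |t|⁻¹ * (|t| * ‖v‖) ≤ |t|⁻¹ * (|L| * ‖G (x + t • v) - G x‖) :=
        mul_le_mul_of_nonneg_left ht (by positivity)
    _ = _ := by ring

end QPR
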