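import Pool.Agent.Lib.QPA.TLift
import Pool.Agent.Lib.QPR.TEq
import Pool.Agent.Lib.QPR.TMin

set_option autoImplicit false

namespace QPR

/-- The forward orbit of `0` under the translation is dense. Proof: let `K` be the closure of
`{n • pr α | n : ℕ}`. `K` is a closed additive submonoid of a compact group, hence
`-pr α ∈ K` (take a convergent subsequence `n_j • pr α`; the differences
`(n_{j'} - n_j - 1) • pr α` tend to `-pr α`; or use a Mathlib lemma on compact groups), so
`K + pr α = K`, and `y ↦ Metric.infDist y K` is continuous and invariant under `y ↦ y + pr α`; by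
`inv_const` (with `f` the translation, a homeomorphism, and `h` the identity) it is constant, equal to
its value `0` at `0 ∈ K`. So `K` is everything. -/
theorem dense_mul {d : ℕ} {α : Fin d → ℝ} (hα : DioV α) (U : Set (UnitAddTorus (Fin d)))
    (hU : IsOpen U) (hne : U.Nonempty) : ∃ n : ℕ, n • pr α ∈ U := by
  have hd : DenseRange (fun n : ℤ => n • (pr α)) := by
    set K : AddSubgroup (UnitAddTorus (Fin d)) :=
      (AddSubgroup.zmultiples (pr α)).topologicalClosure with hK
    have hα' : pr α ∈ K :=
      (AddSubgroup.le_topologicalClosure _) (AddSubgroup.mem_zmultiples (pr α))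
    have hKne : (K : Set (UnitAddTorus (Fin d))).Nonempty := ⟨0, K.zero_mem⟩
    have hKc : IsClosed (K : Set (UnitAddTorus (Fin d))) :=
      AddSubgroup.isClosed_topologicalClosure _
    have hle : ∀ (y a : UnitAddTorus (Fin d)), a ∈ K →
        Metric.infDist (y + a) (K : Set (UnitAddTorus (Fin d)))
          ≤ Metric.infDist y (K : Set (UnitAddTorus (Fin d))) := by
      intro y a ha
      rw [Metric.le_infDist hKne]
      intro s hs
      have h1 : s + a ∈ (K : Set (UnitAddTorus (Fin d))) := K.add_mem hs ha
      calc Metric.infDist (y + a) (K : Set (UnitAddTorus (Fin d))) ≤ dist (y + a) (s + a) :=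
            Metric.infDist_le_dist_of_mem h1
        _ = dist y s := dist_add_right _ _ _
    have heq : ∀ y : UnitAddTorus (Fin d),
        Metric.infDist (y + pr α) (K : Set (UnitAddTorus (Fin d)))
          = Metric.infDist y (K : Set (UnitAddTorus (Fin d))) := by
      intro y
      refine le_antisymm (hle y _ hα') ?_
      have h1 := hle (y + pr α) (-(pr α)) (K.neg_mem hα')
      rwa [add_neg_cancel_right] at h1
    have hconst := inv_const (α := α) hα
      (f := Homeomorph.addRight (pr α)) (h := Homeomorph.refl _)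
      (fun x => rfl)
      (fun y => ((Metric.infDist y (K : Set (UnitAddTorus (Fin d))) : ℝ) : ℂ))
      (Complex.continuous_ofReal.comp (Metric.continuous_infDist_pt _))
      (fun x => by
        show ((Metric.infDist (x + pr α) (K : Set (UnitAddTorus (Fin d))) : ℝ) : ℂ) = _
        rw [heq x])
    have hall : ∀ y : UnitAddTorus (Fin d), y ∈ (K : Set (UnitAddTorus (Fin d))) := by
      intro y
      rw [hKc.mem_iff_infDist_zero hKne]
      have h1 := Complex.ofReal_injective (hconst y 0)
      rw [h1]
      exact Metric.infDist_zero_of_mem K.zero_mem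
    intro y
    have h2 := hall y
    rw [hK, AddSubgroup.topologicalClosure_coe] at h2
    have h3 : (Set.range fun n : ℤ => n • (pr α))
        = ((AddSubgroup.zmultiples (pr α) : AddSubgroup (UnitAddTorus (Fin d))) :
          Set (UnitAddTorus (Fin d))) := by
      ext z
      simp [AddSubgroup.mem_zmultiples_iff]
    rw [h3]
    exact h2
  have hn : DenseRange (fun n : ℕ => n • (pr α)) := denseRange_zsmul_iff_nsmul.mp hd
  exact hn.exists_mem_open hU hne

/-- Uniform visiting times. Proof: `h (f^[n] y) = h y + n • pr α` (`conj_iter`), so by `dense_mul`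
(applied to the open set `-h y + h '' U`) every `y` has some `n` with `f^[n] y ∈ U`; the open sets
`(f^[n]) ⁻¹' U` cover the compact torus. -/
theorem visit {d : ℕ} {α : Fin d → ℝ} (hα : DioV α)
    {f h : UnitAddTorus (Fin d) ≃ₜ UnitAddTorus (Fin d)} (hc : Conj α f h)
    (U : Set (UnitAddTorus (Fin d))) (hU : IsOpen U) (hne : U.Nonempty) :
    ∃ N : ℕ, ∀ y, ∃ k ≤ N, (f : UnitAddTorus (Fin d) → UnitAddTorus (Fin d))^[k] y ∈ U := by
  have hone : ∀ y, ∃ n : ℕ,
      (f : UnitAddTorus (Fin d) → UnitAddTorus (Fin d))^[n] y ∈ U := by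
    intro y
    have hcont : Continuous (fun z : UnitAddTorus (Fin d) => h.symm (h y + z)) :=
      h.symm.continuous.comp (continuous_const.add continuous_id)
    obtain ⟨u, hu⟩ := hne
    obtain ⟨n, hn⟩ := dense_mul hα ((fun z : UnitAddTorus (Fin d) => h.symm (h y + z)) ⁻¹' U)
      (hU.preimage hcont) ⟨-(h y) + h u, by
        show h.symm (h y + (-(h y) + h u)) ∈ U
        rw [add_neg_cancel_left, h.symm_apply_apply]
        exact hu⟩
    refine ⟨n, ?_⟩
    have h1 := conj_iter hc n y
    have h2 : (f : UnitAddTorus (Fin d) → UnitAddTorus (Fin d))^[n] y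
        = h.symm (h y + n • pr α) := by
      rw [← natCast_zsmul (pr α) n, ← h1, h.symm_apply_apply]
    rw [h2]
    exact hn
  have hcov : (Set.univ : Set (UnitAddTorus (Fin d)))
      ⊆ ⋃ n : ℕ, ((f : UnitAddTorus (Fin d) → UnitAddTorus (Fin d))^[n]) ⁻¹' U := by
    intro y _
    obtain ⟨n, hn⟩ := hone y
    exact Set.mem_iUnion.mpr ⟨n, hn⟩
  obtain ⟨t, ht⟩ := isCompact_univ.elim_finite_subcover
    (fun n : ℕ => ((f : UnitAddTorus (Fin d) → UnitAddTorus (Fin d))^[n]) ⁻¹' U)
    (fun n => hU.preimage (f.continuous.iterate n)) hcov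
  refine ⟨t.sup id, fun y => ?_⟩
  have hy := ht (Set.mem_univ y)
  simp only [Set.mem_iUnion] at hy
  obtain ⟨n, hn, hy⟩ := hy
  exact ⟨n, Finset.le_sup (f := id) hn, hy⟩

end QPR
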