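import Pool.Agent.Lib.QPA.TData
import Pool.Agent.Lib.QPA.TFd
import Pool.Agent.Lib.QPA.TOrb
import Pool.Agent.Lib.QPA.TBdO

set_option autoImplicit false

namespace QPR

/-- `pr` does not increase distances. -/
private theorem TCen_dist_pr_le {d : ℕ} (a b : Fin d → ℝ) : dist (pr a) (pr b) ≤ dist a b := by
  refine (dist_pi_le_iff dist_nonneg).mpr fun i => ?_
  have h1 : dist (pr a i) (pr b i) = ‖((a i - b i : ℝ) : UnitAddCircle)‖ := by
    rw [dist_eq_norm, AddCircle.coe_sub]
    rfl
  rw [h1, UnitAddCircle.norm_eq]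
  refine (round_le (a i - b i) 0).trans ?_
  rw [Int.cast_zero, sub_zero, ← Real.dist_eq]
  exact dist_le_pi_dist a b i

/-- nearest lifts. -/
private theorem TCen_near {d : ℕ} (x y : UnitAddTorus (Fin d)) :
    ∃ a b : Fin d → ℝ, pr a = x ∧ pr b = y ∧ dist a b ≤ dist x y := by
  obtain ⟨a, ha⟩ := pr_surjective x
  obtain ⟨b, hb⟩ := pr_surjective y
  refine ⟨a, b + fun i => ((round (a i - b i) : ℤ) : ℝ), ha, ?_, ?_⟩
  · rw [pr_add, pr_int, add_zero, hb]
  · refine (dist_pi_le_iff dist_nonneg).mpr fun i => ?_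
    have h1 : dist (x i) (y i) = ‖((a i - b i : ℝ) : UnitAddCircle)‖ := by
      rw [dist_eq_norm, AddCircle.coe_sub, ← ha, ← hb]
      rfl
    have h2 : dist (a i) ((b + fun i => ((round (a i - b i) : ℤ) : ℝ)) i) = dist (x i) (y i) := by
      rw [h1, UnitAddCircle.norm_eq, Real.dist_eq, Pi.add_apply]
      congr 1
      ring
    rw [h2]
    exact dist_le_pi_dist x y i

/-- every iterate of `f` is Lipschitz. Proof: the lift `F` of `exists_data` is smooth with periodic
derivative, so it is Lipschitz; on the torus use `dist_pr` (for points at distance `≥ 1/4` the bound is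
trivial, the torus has finite diameter). -/
theorem iter_lip {d : ℕ} {α : Fin d → ℝ} {f h : UnitAddTorus (Fin d) ≃ₜ UnitAddTorus (Fin d)}
    (hα : DioV α) (hc : Conj α f h) (hf : SmM f) (hf' : SmM f.symm) (N : ℕ) :
    ∃ C : ℝ, 0 ≤ C ∧ ∀ k ≤ N, ∀ x y : UnitAddTorus (Fin d),
      dist ((f : UnitAddTorus (Fin d) → UnitAddTorus (Fin d))^[k] x)
        ((f : UnitAddTorus (Fin d) → UnitAddTorus (Fin d))^[k] y) ≤ C * dist x y := by
  obtain ⟨β, F, F', H, H', A, A', -, hD, hF, -, -⟩ := exists_data hα hc hf hf'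
  obtain ⟨C, hC0, hC⟩ := fderiv_iter_bdd hD.smF hD.perF N
  refine ⟨C, hC0, fun k hk x y => ?_⟩
  have hsm : ∀ k : ℕ, Smo (F^[k]) := by
    intro k
    induction k with
    | zero => exact contDiff_id
    | succ k ih =>
      rw [Function.iterate_succ]
      exact ih.comp hD.smF
  have hit : ∀ (k : ℕ) (z : Fin d → ℝ),
      pr (F^[k] z) = (f : UnitAddTorus (Fin d) → UnitAddTorus (Fin d))^[k] (pr z) := by
    intro k
    induction k with
    | zero => intro z; rfl
    | succ k ih =>
      intro z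
      rw [Function.iterate_succ_apply, Function.iterate_succ_apply, ih, hF]
  obtain ⟨a, b, ha, hb, hab⟩ := TCen_near x y
  have hlip : LipschitzWith (⟨C, hC0⟩ : NNReal) (F^[k]) :=
    lipschitzWith_of_nnnorm_fderiv_le (𝕜 := ℝ) ((hsm k).differentiable (by simp)) (hC k hk)
  rw [← ha, ← hb, ← hit, ← hit]
  calc dist (pr (F^[k] a)) (pr (F^[k] b)) ≤ dist (F^[k] a) (F^[k] b) := TCen_dist_pr_le _ _
    _ ≤ C * dist a b := hlip.dist_le_mul a b
    _ ≤ C * dist (pr a) (pr b) := by
        rw [ha, hb]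
        exact mul_le_mul_of_nonneg_left hab hC0

/-- Centraliser criterion: if `h⁻¹ ∘ (· + θ) ∘ h` is Lipschitz for a non-meagre set of `θ` then the
iterates of `f` are uniformly Lipschitz. Proof: `A m = {θ | ∀ x y, dist (T_θ x) (T_θ y) ≤ m * dist x y}`,
`T_θ x = h.symm (h x + θ)`, is closed (`m : ℕ`), so some `A m` has an interior point; by `dense_mul` and
compactness every `θ` is `u + k • pr α` with `u` in the interior of `A m` and `k ≤ N`, so
`T_θ = f^[k] ∘ T_u` is Lipschitz with constant `C m`; `f^[n] = T_{n α}` (`conj_iter`). -/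
theorem lip_of_centraliser {d : ℕ} {α : Fin d → ℝ}
    {f h : UnitAddTorus (Fin d) ≃ₜ UnitAddTorus (Fin d)}
    (hα : DioV α) (hc : Conj α f h) (hf : SmM f) (hf' : SmM f.symm)
    (hm : ¬ IsMeagre {θ : UnitAddTorus (Fin d) | ∃ L : ℝ, ∀ x y : UnitAddTorus (Fin d),
      dist (h.symm (h x + θ)) (h.symm (h y + θ)) ≤ L * dist x y}) :
    ∃ L : ℝ, ∀ (n : ℕ) (x y : UnitAddTorus (Fin d)),
      dist ((f : UnitAddTorus (Fin d) → UnitAddTorus (Fin d))^[n] x)
        ((f : UnitAddTorus (Fin d) → UnitAddTorus (Fin d))^[n] y) ≤ L * dist x y := by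
  set S : ℕ → Set (UnitAddTorus (Fin d)) := fun m => {θ | ∀ x y : UnitAddTorus (Fin d),
    dist (h.symm (h x + θ)) (h.symm (h y + θ)) ≤ m * dist x y} with hS
  have hclosed : ∀ m, IsClosed (S m) := by
    intro m
    have h1 : S m = ⋂ x : UnitAddTorus (Fin d), ⋂ y : UnitAddTorus (Fin d),
        {θ : UnitAddTorus (Fin d) |
          dist (h.symm (h x + θ)) (h.symm (h y + θ)) ≤ m * dist x y} := by
      ext θ
      simp only [hS, Set.mem_ofPred_eq, Set.mem_iInter]
    rw [h1]
    refine isClosed_iInter fun x => isClosed_iInter fun y => ?_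
    refine isClosed_le ?_ continuous_const
    exact (h.symm.continuous.comp (continuous_const.add continuous_id)).dist
      (h.symm.continuous.comp (continuous_const.add continuous_id))
  obtain ⟨m, u₀, hu₀⟩ : ∃ m, (interior (S m)).Nonempty := by
    by_contra hcon
    push Not at hcon
    apply hm
    have h2 : {θ : UnitAddTorus (Fin d) | ∃ L : ℝ, ∀ x y : UnitAddTorus (Fin d),
        dist (h.symm (h x + θ)) (h.symm (h y + θ)) ≤ L * dist x y} ⊆ ⋃ m, S m := by
      rintro θ ⟨L, hL⟩
      obtain ⟨m, hm'⟩ := exists_nat_ge L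
      refine Set.mem_iUnion.mpr ⟨m, fun x y => (hL x y).trans ?_⟩
      exact mul_le_mul_of_nonneg_right hm' dist_nonneg
    have h4 : IsMeagre (⋃ m, S m) := by
      refine isMeagre_iUnion fun m => ?_
      have h3 : IsNowhereDense (S m) := by
        rw [(hclosed m).isNowhereDense_iff]
        exact hcon m
      exact h3.isMeagre
    exact IsMeagre.mono h2 h4
  -- visiting times
  have hone : ∀ θ : UnitAddTorus (Fin d), ∃ n : ℕ, θ - n • pr α ∈ interior (S m) := by
    intro θ
    have hcont : Continuous (fun z : UnitAddTorus (Fin d) => θ - z) :=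
      continuous_const.sub continuous_id
    obtain ⟨n, hn⟩ := dense_mul hα ((fun z : UnitAddTorus (Fin d) => θ - z) ⁻¹' interior (S m))
      (isOpen_interior.preimage hcont) ⟨θ - u₀, by
        show θ - (θ - u₀) ∈ interior (S m)
        rw [sub_sub_cancel]
        exact hu₀⟩
    exact ⟨n, hn⟩
  have hcov : (Set.univ : Set (UnitAddTorus (Fin d)))
      ⊆ ⋃ n : ℕ, (fun θ : UnitAddTorus (Fin d) => θ - n • pr α) ⁻¹' interior (S m) := by
    intro y _
    obtain ⟨n, hn⟩ := hone y
    exact Set.mem_iUnion.mpr ⟨n, hn⟩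
  obtain ⟨t, ht⟩ := isCompact_univ.elim_finite_subcover
    (fun n : ℕ => (fun θ : UnitAddTorus (Fin d) => θ - n • pr α) ⁻¹' interior (S m))
    (fun n => isOpen_interior.preimage (continuous_id.sub continuous_const)) hcov
  have hN : ∀ θ : UnitAddTorus (Fin d), ∃ k ≤ t.sup id, θ - k • pr α ∈ S m := by
    intro θ
    have hy := ht (Set.mem_univ θ)
    simp only [Set.mem_iUnion] at hy
    obtain ⟨n, hn, hy⟩ := hy
    exact ⟨n, Finset.le_sup (f := id) hn, interior_subset hy⟩
  obtain ⟨C, hC0, hC⟩ := iter_lip hα hc hf hf' (t.sup id)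
  have hfit : ∀ (n : ℕ) (y : UnitAddTorus (Fin d)),
      (f : UnitAddTorus (Fin d) → UnitAddTorus (Fin d))^[n] y = h.symm (h y + n • pr α) := by
    intro n y
    have h1 := conj_iter hc n y
    rw [← natCast_zsmul (pr α) n, ← h1, h.symm_apply_apply]
  refine ⟨C * m, fun n x y => ?_⟩
  obtain ⟨k, hk, hu⟩ := hN (n • pr α)
  have key : ∀ z : UnitAddTorus (Fin d),
      (f : UnitAddTorus (Fin d) → UnitAddTorus (Fin d))^[n] z
        = (f : UnitAddTorus (Fin d) → UnitAddTorus (Fin d))^[k]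
          (h.symm (h z + (n • pr α - k • pr α))) := by
    intro z
    rw [hfit n z, hfit k, h.apply_symm_apply, add_assoc, sub_add_cancel]
  rw [key x, key y]
  refine (hC k hk _ _).trans ?_
  rw [mul_assoc]
  exact mul_le_mul_of_nonneg_left (hu x y) hC0

end QPR
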