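import Pool.Agent.Lib.QPR.TDef

set_option autoImplicit false

namespace QPR

/-- The Diophantine condition is invariant under unimodular integer matrices. Proof: for `k ≠ 0`
put `k' = Matrix.vecMul k M'` (so `∑ i, k i * (M' α) i = ∑ j, k' j * α j`); `k' ≠ 0` because
`Matrix.vecMul k' M = k`; `∑ |k' j| ≤ C * ∑ |k i|` with `C = 1 + ∑ i j, |M' i j|`, so the condition
holds with `γ / C ^ τ` and the same `τ`. -/
theorem dioV_mulVec {d : ℕ} {α : Fin d → ℝ} (hα : DioV α) (M M' : Matrix (Fin d) (Fin d) ℤ)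
    (h : M' * M = 1) :
    DioV ((M'.map (fun z : ℤ => (z : ℝ))).mulVec α) := by
  obtain ⟨γ, hγ, τ, hτ, H⟩ := hα
  set C : ℝ := 1 + ∑ i, ∑ j, |(M' i j : ℝ)| with hC
  have hS0 : 0 ≤ ∑ i, ∑ j, |(M' i j : ℝ)| :=
    Finset.sum_nonneg fun i _ => Finset.sum_nonneg fun j _ => abs_nonneg _
  have hC0 : 0 < C := by linarith
  refine ⟨γ / C ^ τ, div_pos hγ (Real.rpow_pos_of_pos hC0 _), τ, hτ, fun k hk n => ?_⟩
  set k' : Fin d → ℤ := Matrix.vecMul k M' with hk'
  have hk'0 : k' ≠ 0 := by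
    intro h0
    apply hk
    have h1 : Matrix.vecMul k' M = k := by
      rw [hk', Matrix.vecMul_vecMul, h, Matrix.vecMul_one]
    rw [← h1, h0, Matrix.zero_vecMul]
  have e1 : ∑ i, (k i : ℝ) * ((M'.map (fun z : ℤ => (z : ℝ))).mulVec α) i
      = ∑ j, (k' j : ℝ) * α j := by
    have e2 : ∀ j, (k' j : ℝ) = ∑ i, (k i : ℝ) * (M' i j : ℝ) := by
      intro j
      simp only [hk', Matrix.vecMul, dotProduct]
      push_cast
      rfl
    simp only [Matrix.mulVec, dotProduct, Matrix.map_apply, e2, Finset.mul_sum, Finset.sum_mul]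
    rw [Finset.sum_comm]
    exact Finset.sum_congr rfl fun j _ => Finset.sum_congr rfl fun i _ => by ring
  rw [e1]
  refine le_trans ?_ (H k' hk'0 n)
  have hpos' : 0 < ∑ j, |(k' j : ℝ)| := by
    obtain ⟨j, hj⟩ := Function.ne_iff.mp hk'0
    refine Finset.sum_pos' (fun i _ => abs_nonneg _) ⟨j, Finset.mem_univ j, ?_⟩
    rw [abs_pos]
    exact_mod_cast hj
  have hpos : 0 < ∑ i, |(k i : ℝ)| := by
    obtain ⟨j, hj⟩ := Function.ne_iff.mp hk
    refine Finset.sum_pos' (fun i _ => abs_nonneg _) ⟨j, Finset.mem_univ j, ?_⟩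
    rw [abs_pos]
    exact_mod_cast hj
  have hle : ∑ j, |(k' j : ℝ)| ≤ C * ∑ i, |(k i : ℝ)| := by
    have h1 : ∀ j, |(k' j : ℝ)| ≤ ∑ i, |(k i : ℝ)| * |(M' i j : ℝ)| := by
      intro j
      have e2 : (k' j : ℝ) = ∑ i, (k i : ℝ) * (M' i j : ℝ) := by
        simp only [hk', Matrix.vecMul, dotProduct]
        push_cast
        rfl
      rw [e2]
      refine (Finset.abs_sum_le_sum_abs _ _).trans (le_of_eq ?_)
      exact Finset.sum_congr rfl fun i _ => abs_mul _ _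
    calc ∑ j, |(k' j : ℝ)| ≤ ∑ j, ∑ i, |(k i : ℝ)| * |(M' i j : ℝ)| :=
          Finset.sum_le_sum fun j _ => h1 j
      _ = ∑ i, |(k i : ℝ)| * ∑ j, |(M' i j : ℝ)| := by
          rw [Finset.sum_comm]
          exact Finset.sum_congr rfl fun i _ => (Finset.mul_sum _ _ _).symm
      _ ≤ ∑ i, |(k i : ℝ)| * C := by
          refine Finset.sum_le_sum fun i _ => mul_le_mul_of_nonneg_left ?_ (abs_nonneg _)
          have h2 : ∑ j, |(M' i j : ℝ)| ≤ ∑ i, ∑ j, |(M' i j : ℝ)| :=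
            Finset.single_le_sum (f := fun i => ∑ j, |(M' i j : ℝ)|)
              (fun i _ => Finset.sum_nonneg fun j _ => abs_nonneg _) (Finset.mem_univ i)
          linarith
      _ = C * ∑ i, |(k i : ℝ)| := by rw [← Finset.sum_mul, mul_comm]
  rw [div_div, ← Real.mul_rpow hC0.le hpos.le]
  apply div_le_div_of_nonneg_left hγ.le (Real.rpow_pos_of_pos hpos' _)
  exact Real.rpow_le_rpow hpos'.le hle hτ.le

end QPR
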