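import Pool.Agent.Lib.QPA.TLift

set_option autoImplicit false

/-!
# Smooth torus maps and smooth lifts
-/

namespace QPR

private theorem TSmL_div (a b : ℝ) : ex a / ex b = Complex.exp (((2 * Real.pi * (a - b) : ℝ) : ℂ) * Complex.I) := by
  rw [ex, ex, ← Complex.exp_sub]
  congr 1
  push_cast
  ring

private theorem TSmL_log (a b : ℝ) (h : |a - b| < 1 / 2) :
    b + 1 / (2 * Real.pi) * (Complex.log (ex a / ex b)).im = a := by
  rw [TSmL_div, Complex.log_exp]
  · simp
    field_simp
    ring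
  · simp only [Complex.mul_im, Complex.ofReal_re, Complex.I_im, Complex.ofReal_im, Complex.I_re]
    have := (abs_lt.1 h).1
    nlinarith [Real.pi_pos]
  · simp only [Complex.mul_im, Complex.ofReal_re, Complex.I_im, Complex.ofReal_im, Complex.I_re]
    have := (abs_lt.1 h).2
    nlinarith [Real.pi_pos]

/-- A continuous function `g` with `exp (2 π i g)` smooth is smooth. Proof: near `x₀` the function
`t x = g x₀ + (1 / (2 π)) * (Complex.log (ex (g x) / ex (g x₀))).im` is smooth
(`Complex.contDiffAt_log` at `1`, see the proof of `smT_comp` in `QPR/TSm2.lean`), and for `x` near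
`x₀` one has `|g x - g x₀| < 1/2` (continuity), hence
`Complex.log (ex (g x) / ex (g x₀)) = 2 π i (g x - g x₀)` and `t x = g x`
(`ContDiffAt.congr_of_eventuallyEq`). -/
theorem smo_of_ex {d : ℕ} (g : (Fin d → ℝ) → ℝ) (hg : Continuous g)
    (h : Smo (fun x => ex (g x))) : Smo g := by
  rw [Smo, contDiff_iff_contDiffAt]
  intro x₀
  have hne : ex (g x₀) ≠ 0 := Complex.exp_ne_zero _
  have h1 : ContDiffAt ℝ ((⊤ : ℕ∞) : WithTop ℕ∞) (fun x => Complex.log (ex (g x) / ex (g x₀))) x₀ := by
    refine ContDiffAt.comp (g := Complex.log) x₀ ?_ (ContDiff.contDiffAt (ContDiff.div_const h _))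
    have h0 : ContDiffAt ℂ ((⊤ : ℕ∞) : WithTop ℕ∞) Complex.log (ex (g x₀) / ex (g x₀)) :=
      Complex.contDiffAt_log (by
        rw [div_self hne]
        exact Complex.one_mem_slitPlane)
    exact h0.restrict_scalars ℝ
  have h2 : ContDiffAt ℝ ((⊤ : ℕ∞) : WithTop ℕ∞)
      (fun x => g x₀ + 1 / (2 * Real.pi) * (Complex.log (ex (g x) / ex (g x₀))).im) x₀ :=
    contDiffAt_const.add (contDiffAt_const.mul (Complex.imCLM.contDiff.contDiffAt.comp x₀ h1))
  refine h2.congr_of_eventuallyEq ?_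
  have h3 : ∀ᶠ x in nhds x₀, |g x - g x₀| < 1 / 2 := by
    have := Metric.tendsto_nhds.1 (hg.tendsto x₀) (1 / 2) (by norm_num)
    exact this
  filter_upwards [h3] with x hx
  exact (TSmL_log _ _ hx).symm

/-- lifts of smooth torus maps are smooth: `SmM.coord` gives that `ee (f (pr x) i) = ex (F x i)` is
smooth; then `smo_of_ex` and `contDiff_pi`. -/
theorem smo_lift {d : ℕ} {f : UnitAddTorus (Fin d) → UnitAddTorus (Fin d)} (hf : SmM f)
    (F : (Fin d → ℝ) → (Fin d → ℝ)) (hF : Continuous F) (h : ∀ x, pr (F x) = f (pr x)) :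
    Smo F := by
  rw [Smo, contDiff_pi]
  intro i
  refine smo_of_ex (fun x => F x i) ((continuous_apply i).comp hF) ?_
  have h1 : SmT (fun x => ee (f x i)) := hf.coord i
  rw [SmT] at h1
  have h2 : (fun x : Fin d → ℝ => ee (f (pr x) i)) = fun x => ex (F x i) := by
    funext x
    rw [← h x, ← ee_coe]
    rfl
  rw [h2] at h1
  exact h1

/-- a torus map with a smooth lift is smooth. -/
theorem smM_of_lift {d : ℕ} {f : UnitAddTorus (Fin d) → UnitAddTorus (Fin d)}
    (F : (Fin d → ℝ) → (Fin d → ℝ)) (hF : Smo F) (h : ∀ x, pr (F x) = f (pr x)) : SmM f := by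
  intro φ hφ
  rw [SmT]
  have h2 : (fun x : Fin d → ℝ => φ (f (pr x))) = fun x => (fun y => φ (pr y)) (F x) := by
    funext x
    beta_reduce
    rw [h x]
  rw [h2]
  exact ContDiff.comp (g := fun y => φ (pr y)) hφ hF

end QPR
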