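import Pool.Agent.Lib.QPA.TLiftH
import Pool.Agent.Lib.QPA.TSmL
import Pool.Agent.Lib.QPA.TDioM

set_option autoImplicit false

namespace QPR

private theorem TData_cast {d : ℕ} (M : Matrix (Fin d) (Fin d) ℤ) (k : Fin d → ℤ) :
    (M.map (fun z : ℤ => (z : ℝ))).mulVec (fun i => (k i : ℝ)) =
      fun i => ((M.mulVec k i : ℤ) : ℝ) := by
  funext i
  simp [Matrix.mulVec, dotProduct, Matrix.map_apply]

private theorem TData_mul {d : ℕ} (M M' : Matrix (Fin d) (Fin d) ℤ) (h : M * M' = 1)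
    (x : Fin d → ℝ) :
    (M.map (fun z : ℤ => (z : ℝ))).mulVec ((M'.map (fun z : ℤ => (z : ℝ))).mulVec x) = x := by
  rw [Matrix.mulVec_mulVec]
  have h1 : (M.map (fun z : ℤ => (z : ℝ))) * (M'.map (fun z : ℤ => (z : ℝ))) = 1 := by
    have h2 := Matrix.map_mul (L := M) (M := M') (f := Int.castRingHom ℝ)
    rw [h] at h2
    have h3 : (1 : Matrix (Fin d) (Fin d) ℤ).map (Int.castRingHom ℝ) = 1 := by
      ext i j
      by_cases hij : i = j
      · subst hij; simp
      · simp [hij]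
    rw [h3] at h2
    exact h2.symm
  rw [h1, Matrix.one_mulVec]

/-- From a smooth torus homeomorphism conjugate to a Diophantine translation to the data `DatA`.
Proof: take `H₀, H₀', M, M'` from `exists_lift_homeo`, and let `A, A'` be the real matrices of
`M, M'`. Put `H x = A' (H₀ x)`, `H' y = H₀' (A y)`, `β = A' α`,
`F x = H' (H x + β)`, `F' x = H' (H x - β)`. All are `PerD`, `H'` is inverse to `H`, and
`pr (F x) = h.symm (pr (A (H x + β))) = h.symm (pr (H₀ x + α)) = h.symm (h (pr x) + pr α)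
= f (pr x)`, similarly `pr (F' x) = f.symm (pr x)`; `F`, `F'` are continuous, so smooth by
`smo_lift`. `DioV β` is `dioV_mulVec`. -/
theorem exists_data {d : ℕ} {α : Fin d → ℝ} {f h : UnitAddTorus (Fin d) ≃ₜ UnitAddTorus (Fin d)}
    (hα : DioV α) (hc : Conj α f h) (hf : SmM f) (hf' : SmM f.symm) :
    ∃ (β : Fin d → ℝ) (F F' H H' : (Fin d → ℝ) → (Fin d → ℝ)) (A A' : Matrix (Fin d) (Fin d) ℝ),
      DioV β ∧ DatA β F F' H H' ∧ (∀ x, pr (F x) = f (pr x)) ∧
      (∀ x, pr (A.mulVec (H x)) = h (pr x)) ∧ (∀ x, pr (H' (A'.mulVec x)) = h.symm (pr x)) := by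
  obtain ⟨H₀, H₀', M, M', cH, cH', pH, pH', l1, l2, per, per', hMM', hM'M⟩ := exists_lift_homeo h
  set A : Matrix (Fin d) (Fin d) ℝ := M.map (fun z : ℤ => (z : ℝ)) with hA
  set A' : Matrix (Fin d) (Fin d) ℝ := M'.map (fun z : ℤ => (z : ℝ)) with hA'
  have e1 : ∀ x, A.mulVec (A'.mulVec x) = x := TData_mul M M' hMM'
  have e2 : ∀ x, A'.mulVec (A.mulVec x) = x := TData_mul M' M hM'M
  set β : Fin d → ℝ := A'.mulVec α with hβ
  have leftH : ∀ x, H₀' (A.mulVec (A'.mulVec (H₀ x))) = x := fun x => by rw [e1, l1]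
  have rightH : ∀ y, A'.mulVec (H₀ (H₀' (A.mulVec y))) = y := fun y => by rw [l2, e2]
  have hint : ∀ k : Fin d → ℤ, A'.mulVec (fun i => ((M.mulVec k i : ℤ) : ℝ)) =
      fun i => (k i : ℝ) := fun k => by
    rw [← TData_cast M k, ← hA, e2]
  have perH : ∀ (x : Fin d → ℝ) (k : Fin d → ℤ),
      A'.mulVec (H₀ (x + fun i => (k i : ℝ))) = A'.mulVec (H₀ x) + fun i => (k i : ℝ) := by
    intro x k
    rw [per, Matrix.mulVec_add, hint]
  have perH' : ∀ (y : Fin d → ℝ) (k : Fin d → ℤ),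
      H₀' (A.mulVec (y + fun i => (k i : ℝ))) = H₀' (A.mulVec y) + fun i => (k i : ℝ) := by
    intro y k
    rw [Matrix.mulVec_add, hA, TData_cast M k, per']
    congr 1
    funext i
    have h1 : M'.mulVec (M.mulVec k) = k := by
      rw [Matrix.mulVec_mulVec, hM'M, Matrix.one_mulVec]
    rw [h1]
  have contH : Continuous fun x => A'.mulVec (H₀ x) := Continuous.matrix_mulVec continuous_const cH
  have contH' : Continuous fun y => H₀' (A.mulVec y) :=
    cH'.comp (Continuous.matrix_mulVec continuous_const continuous_id)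
  have prF : ∀ x, pr (H₀' (A.mulVec (A'.mulVec (H₀ x) + β))) = f (pr x) := by
    intro x
    rw [hβ, ← Matrix.mulVec_add, e1, pH', pr_add, pH, ← hc, h.symm_apply_apply]
  have prF' : ∀ x, pr (H₀' (A.mulVec (A'.mulVec (H₀ x) - β))) = f.symm (pr x) := by
    intro x
    have h3 : h (f.symm (pr x)) + pr α = h (pr x) := by
      rw [← hc, f.apply_symm_apply]
    have h4 : pr (H₀ x - α) = h (f.symm (pr x)) := by
      have h5 : pr (H₀ x - α) + pr α = h (f.symm (pr x)) + pr α := by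
        rw [← pr_add, sub_add_cancel, pH, h3]
      exact add_right_cancel h5
    rw [hβ, ← Matrix.mulVec_sub, e1, pH', h4, h.symm_apply_apply]
  have contF : Continuous fun x => H₀' (A.mulVec (A'.mulVec (H₀ x) + β)) :=
    contH'.comp (contH.add continuous_const)
  have contF' : Continuous fun x => H₀' (A.mulVec (A'.mulVec (H₀ x) - β)) :=
    contH'.comp (contH.sub continuous_const)
  refine ⟨β, fun x => H₀' (A.mulVec (A'.mulVec (H₀ x) + β)),
    fun x => H₀' (A.mulVec (A'.mulVec (H₀ x) - β)), fun x => A'.mulVec (H₀ x),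
    fun y => H₀' (A.mulVec y), A, A', dioV_mulVec hα M M' hM'M, ?_, prF, ?_, ?_⟩
  · refine ⟨smo_lift hf _ contF prF, smo_lift hf' _ contF' prF', ?_, ?_, ?_, ?_, contH, contH',
      perH, perH', leftH, rightH, fun x => rightH _⟩
    · intro x k
      show H₀' (A.mulVec (A'.mulVec (H₀ (x + fun i => (k i : ℝ))) + β)) = _
      rw [perH, add_right_comm, perH']
    · intro x k
      show H₀' (A.mulVec (A'.mulVec (H₀ (x + fun i => (k i : ℝ))) - β)) = _
      rw [perH, add_sub_right_comm, perH']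
    · intro x
      show H₀' (A.mulVec (A'.mulVec (H₀ (H₀' (A.mulVec (A'.mulVec (H₀ x) + β)))) - β)) = x
      rw [rightH, add_sub_cancel_right, leftH]
    · intro x
      show H₀' (A.mulVec (A'.mulVec (H₀ (H₀' (A.mulVec (A'.mulVec (H₀ x) - β)))) + β)) = x
      rw [rightH, sub_add_cancel, leftH]
  · intro x
    show pr (A.mulVec (A'.mulVec (H₀ x))) = h (pr x)
    rw [e1, pH]
  · intro x
    show pr (H₀' (A.mulVec (A'.mulVec x))) = h.symm (pr x)
    rw [e1, pH']

end QPR
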