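import Pool.Agent.Lib.QPR.TUniq

set_option autoImplicit false

namespace QPR

open MeasureTheory

/-- constant functions are smooth. -/
private theorem tDist_smT_const {d : ℕ} (c : ℝ) : SmT (fun _ : UnitAddTorus (Fin d) => c) := by
  unfold SmT
  exact contDiff_const

private theorem tDist_smT_add {d : ℕ} {φ ψ : UnitAddTorus (Fin d) → ℝ} (hφ : SmT φ) (hψ : SmT ψ) :
    SmT (fun y => φ y + ψ y) := ContDiff.add hφ hψ

/-- translations are smooth. -/
private theorem tDist_smT_translate {d : ℕ} {φ : UnitAddTorus (Fin d) → ℝ} (hφ : SmT φ) (α : Fin d → ℝ) :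
    SmT (fun y => φ (y + pr α)) := by
  have h0 : ContDiff ℝ ((⊤ : ℕ∞) : WithTop ℕ∞) (fun x : Fin d → ℝ => φ (pr x)) := hφ
  have h1 : ContDiff ℝ ((⊤ : ℕ∞) : WithTop ℕ∞) (fun x : Fin d → ℝ => φ (pr (x + α))) :=
    h0.comp (contDiff_id.add contDiff_const)
  have h2 : (fun x : Fin d → ℝ => φ (pr x + pr α)) = fun x : Fin d → ℝ => φ (pr (x + α)) := by
    funext x
    congr 1
  unfold SmT
  rw [h2]
  exact h1

private theorem tDist_pr_surj {d : ℕ} (y : UnitAddTorus (Fin d)) : ∃ x : Fin d → ℝ, pr x = y := by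
  choose g hg using fun i => QuotientAddGroup.mk_surjective (y i)
  exact ⟨g, funext hg⟩

/-- the smooth conjugacy gives smoothness of `f`. -/
private theorem tDist_smT_f {d : ℕ} {α : Fin d → ℝ} {f h : UnitAddTorus (Fin d) ≃ₜ UnitAddTorus (Fin d)}
    (hc : Conj α f h) (hs : SmM h) (hs' : SmM h.symm) {χ : UnitAddTorus (Fin d) → ℝ}
    (hχ : SmT χ) : SmT (fun y => χ (f y)) := by
  have h1 : SmT (fun y => χ (h.symm (y + pr α))) := tDist_smT_translate (hs' χ hχ) α
  have h2 := hs _ h1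
  have h3 : (fun y => χ (h.symm (h y + pr α))) = fun y => χ (f y) := by
    funext y
    rw [← hc y, h.symm_apply_apply]
  rw [h3] at h2
  exact h2

/-- If `h`, `h⁻¹` are smooth then the space of `f`-invariant distributions is one-dimensional.
Proof: `T₀ φ = ∫ z, φ (h.symm z)` (linear, bounded by the sup norm `k = 0`, `C = 1`; invariant since
`f (h.symm z) = h.symm (z + pr α)` and the Haar measure is translation invariant; `T₀ 1 = 1`).
Uniqueness: by `cob_of_smooth`, `φ = T₀ φ + (χ ∘ f - χ)`, so `T φ = T₀ φ * T 1`. -/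
theorem dist_of_smooth {d : ℕ} {α : Fin d → ℝ} (hα : DioV α)
    {f h : UnitAddTorus (Fin d) ≃ₜ UnitAddTorus (Fin d)} (hc : Conj α f h)
    (hf : SmM f) (hh : SmM h) (hh' : SmM h.symm) :
    ∃ T₀ : (UnitAddTorus (Fin d) → ℝ) → ℝ,
      ((∀ φ ψ : UnitAddTorus (Fin d) → ℝ,
          ContDiff ℝ ((⊤ : ℕ∞) : WithTop ℕ∞)
            (fun x : Fin d → ℝ => φ (fun i => ((x i : ℝ) : UnitAddCircle))) →
          ContDiff ℝ ((⊤ : ℕ∞) : WithTop ℕ∞)
            (fun x : Fin d → ℝ => ψ (fun i => ((x i : ℝ) : UnitAddCircle))) →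
          ∀ a b : ℝ, T₀ (a • φ + b • ψ) = a * T₀ φ + b * T₀ ψ) ∧
        (∃ k : ℕ, ∃ C : ℝ, ∀ φ : UnitAddTorus (Fin d) → ℝ,
          ContDiff ℝ ((⊤ : ℕ∞) : WithTop ℕ∞)
            (fun x : Fin d → ℝ => φ (fun i => ((x i : ℝ) : UnitAddCircle))) →
          ∀ M : ℝ, (∀ j : ℕ, j ≤ k → ∀ x : Fin d → ℝ,
            ‖iteratedFDeriv ℝ j
              (fun x : Fin d → ℝ => φ (fun i => ((x i : ℝ) : UnitAddCircle))) x‖ ≤ M) →
          |T₀ φ| ≤ C * M) ∧
        (∀ φ : UnitAddTorus (Fin d) → ℝ,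
          ContDiff ℝ ((⊤ : ℕ∞) : WithTop ℕ∞)
            (fun x : Fin d → ℝ => φ (fun i => ((x i : ℝ) : UnitAddCircle))) →
          T₀ (fun y => φ (f y)) = T₀ φ)) ∧
      (∃ φ : UnitAddTorus (Fin d) → ℝ,
        ContDiff ℝ ((⊤ : ℕ∞) : WithTop ℕ∞)
          (fun x : Fin d → ℝ => φ (fun i => ((x i : ℝ) : UnitAddCircle))) ∧ T₀ φ ≠ 0) ∧
      ∀ T : (UnitAddTorus (Fin d) → ℝ) → ℝ,
        ((∀ φ ψ : UnitAddTorus (Fin d) → ℝ,
            ContDiff ℝ ((⊤ : ℕ∞) : WithTop ℕ∞)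
              (fun x : Fin d → ℝ => φ (fun i => ((x i : ℝ) : UnitAddCircle))) →
            ContDiff ℝ ((⊤ : ℕ∞) : WithTop ℕ∞)
              (fun x : Fin d → ℝ => ψ (fun i => ((x i : ℝ) : UnitAddCircle))) →
            ∀ a b : ℝ, T (a • φ + b • ψ) = a * T φ + b * T ψ) ∧
          (∃ k : ℕ, ∃ C : ℝ, ∀ φ : UnitAddTorus (Fin d) → ℝ,
            ContDiff ℝ ((⊤ : ℕ∞) : WithTop ℕ∞)
              (fun x : Fin d → ℝ => φ (fun i => ((x i : ℝ) : UnitAddCircle))) →
            ∀ M : ℝ, (∀ j : ℕ, j ≤ k → ∀ x : Fin d → ℝ,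
              ‖iteratedFDeriv ℝ j
                (fun x : Fin d → ℝ => φ (fun i => ((x i : ℝ) : UnitAddCircle))) x‖ ≤ M) →
              |T φ| ≤ C * M) ∧
          (∀ φ : UnitAddTorus (Fin d) → ℝ,
            ContDiff ℝ ((⊤ : ℕ∞) : WithTop ℕ∞)
              (fun x : Fin d → ℝ => φ (fun i => ((x i : ℝ) : UnitAddCircle))) →
            T (fun y => φ (f y)) = T φ)) →
        ∃ c : ℝ, ∀ φ : UnitAddTorus (Fin d) → ℝ,
          ContDiff ℝ ((⊤ : ℕ∞) : WithTop ℕ∞)
            (fun x : Fin d → ℝ => φ (fun i => ((x i : ℝ) : UnitAddCircle))) →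
          T φ = c * T₀ φ := by
  have hcont : ∀ φ : UnitAddTorus (Fin d) → ℝ, SmT φ → Continuous φ := fun φ hφ => hφ.continuous
  have hint : ∀ φ : UnitAddTorus (Fin d) → ℝ, SmT φ →
      MeasureTheory.Integrable (fun z => φ (h.symm z)) := by
    intro φ hφ
    exact ((hcont φ hφ).comp h.symm.continuous).integrable_of_hasCompactSupport
      (HasCompactSupport.of_compactSpace _)
  have hprob : MeasureTheory.IsProbabilityMeasure
      (MeasureTheory.volume : MeasureTheory.Measure (UnitAddTorus (Fin d))) := by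
    constructor
    rw [MeasureTheory.volume_pi, ← Set.pi_univ Set.univ, MeasureTheory.Measure.pi_pi]
    simp
  refine ⟨fun φ => ∫ z, φ (h.symm z), ⟨?_, ?_, ?_⟩, ?_, ?_⟩
  · intro φ ψ hφ hψ a b
    simp only [Pi.add_apply, Pi.smul_apply, smul_eq_mul]
    rw [MeasureTheory.integral_add ((hint φ hφ).const_mul a) ((hint ψ hψ).const_mul b),
      MeasureTheory.integral_const_mul, MeasureTheory.integral_const_mul]
  · refine ⟨0, 1, fun φ hφ M hM => ?_⟩
    have hb : ∀ y, ‖φ y‖ ≤ M := by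
      intro y
      obtain ⟨x, hx⟩ := tDist_pr_surj y
      have := hM 0 le_rfl x
      rw [norm_iteratedFDeriv_zero] at this
      rw [← hx]
      exact this
    have h1 : ‖∫ z, φ (h.symm z)‖ ≤ M := by
      have := MeasureTheory.norm_integral_le_of_norm_le_const
        (μ := (MeasureTheory.volume : MeasureTheory.Measure (UnitAddTorus (Fin d))))
        (Filter.Eventually.of_forall fun z => hb (h.symm z))
      simpa using this
    rw [one_mul]
    exact h1
  · intro φ hφ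
    have h1 : ∀ z, φ (f (h.symm z)) = φ (h.symm (z + pr α)) := by
      intro z
      have := hc (h.symm z)
      rw [h.apply_symm_apply] at this
      rw [← this, h.symm_apply_apply]
    simp only [h1]
    exact MeasureTheory.integral_add_right_eq_self (fun z => φ (h.symm z)) (pr α)
  · refine ⟨fun _ => 1, tDist_smT_const 1, ?_⟩
    simp
  · rintro T ⟨hlin, -, hinv⟩
    refine ⟨T (fun _ => 1), fun φ hφ => ?_⟩
    obtain ⟨χ, hχ, hχ2⟩ := cob_of_smooth hα hc hh hh' φ hφ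
    have hχf : SmT (fun y => χ (f y)) := tDist_smT_f hc hh hh' hχ
    set a : ℝ := ∫ z, φ (h.symm z) with ha
    have h1 : T ((1 : ℝ) • (fun y => χ (f y)) + (-1 : ℝ) • χ) = 0 := by
      have h5 := hlin (fun y => χ (f y)) χ hχf hχ 1 (-1)
      rw [h5, hinv χ hχ]
      ring
    have h2 : SmT ((1 : ℝ) • (fun y => χ (f y)) + (-1 : ℝ) • χ) := by
      have h6 : ContDiff ℝ ((⊤ : ℕ∞) : WithTop ℕ∞)
          (fun x : Fin d → ℝ => χ (f (pr x))) := hχf
      have h7 : ContDiff ℝ ((⊤ : ℕ∞) : WithTop ℕ∞) (fun x : Fin d → ℝ => χ (pr x)) := hχ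
      exact (contDiff_const.smul h6).add (contDiff_const.smul h7)
    have h3 : φ = a • (fun _ => (1 : ℝ)) + (1 : ℝ) • ((1 : ℝ) • (fun y => χ (f y))
        + (-1 : ℝ) • χ) := by
      funext y
      have := hχ2 y
      simp only [Pi.add_apply, Pi.smul_apply, smul_eq_mul]
      linarith
    have h4 := hlin (fun _ => (1 : ℝ)) ((1 : ℝ) • (fun y => χ (f y)) + (-1 : ℝ) • χ)
      (tDist_smT_const 1) h2 a 1
    rw [← h3, h1] at h4
    rw [h4]
    ring

end QPR
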