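import Pool.Agent.Lib.QPA.GBdd
import Pool.Agent.Lib.QPA.TData
import Pool.Agent.Lib.QPA.TFd
import Pool.Agent.Lib.QPA.AEnd

set_option autoImplicit false

namespace QPR

/-- `DioE` is invariant, with the same exponent `τ`, under invertible integer matrices. -/
theorem dioE_mulVec {d : ℕ} {α : Fin d → ℝ} {γ τ : ℝ} (h : DioE α γ τ)
    (M M' : Matrix (Fin d) (Fin d) ℤ) (hM : M * M' = 1) :
    ∃ γ' : ℝ, DioE ((M.map (Int.cast : ℤ → ℝ)).mulVec α) γ' τ := by
  obtain ⟨hγ, hτ, H⟩ := h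
  set C : ℝ := 1 + ∑ i, ∑ j, |(M i j : ℝ)| with hC
  have hS0 : 0 ≤ ∑ i, ∑ j, |(M i j : ℝ)| :=
    Finset.sum_nonneg fun i _ => Finset.sum_nonneg fun j _ => abs_nonneg _
  have hC0 : 0 < C := by linarith
  refine ⟨γ / C ^ τ, div_pos hγ (Real.rpow_pos_of_pos hC0 _), hτ, fun k hk n => ?_⟩
  set k' : Fin d → ℤ := Matrix.vecMul k M with hk'
  have hk'0 : k' ≠ 0 := by
    intro h0
    apply hk
    have h1 : Matrix.vecMul k' M' = k := by
      rw [hk', Matrix.vecMul_vecMul, hM, Matrix.vecMul_one]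
    rw [← h1, h0, Matrix.zero_vecMul]
  have e1 : ∑ i, (k i : ℝ) * ((M.map (Int.cast : ℤ → ℝ)).mulVec α) i
      = ∑ j, (k' j : ℝ) * α j := by
    have e2 : ∀ j, (k' j : ℝ) = ∑ i, (k i : ℝ) * (M i j : ℝ) := by
      intro j
      simp only [hk', Matrix.vecMul, dotProduct]
      push_cast
      rfl
    simp only [Matrix.mulVec, dotProduct, Matrix.map_apply, e2, Finset.mul_sum, Finset.sum_mul]
    rw [Finset.sum_comm]
    exact Finset.sum_congr rfl fun j _ => Finset.sum_congr rfl fun i _ => by ring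
  rw [e1]
  refine le_trans ?_ (H k' hk'0 n)
  have hpos' : 0 < ∑ j, |(k' j : ℝ)| := by
    obtain ⟨j, hj⟩ := Function.ne_iff.mp hk'0
    refine Finset.sum_pos' (fun i _ => abs_nonneg _) ⟨j, Finset.mem_univ j, ?_⟩
    rw [abs_pos]
    exact_mod_cast hj
  have hpos : 0 < ∑ i, |(k i : ℝ)| := by
    obtain ⟨j, hj⟩ := Function.ne_iff.mp hk
    refine Finset.sum_pos' (fun i _ => abs_nonneg _) ⟨j, Finset.mem_univ j, ?_⟩
    rw [abs_pos]
    exact_mod_cast hj
  have hle : ∑ j, |(k' j : ℝ)| ≤ C * ∑ i, |(k i : ℝ)| := by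
    have h1 : ∀ j, |(k' j : ℝ)| ≤ ∑ i, |(k i : ℝ)| * |(M i j : ℝ)| := by
      intro j
      have e2 : (k' j : ℝ) = ∑ i, (k i : ℝ) * (M i j : ℝ) := by
        simp only [hk', Matrix.vecMul, dotProduct]
        push_cast
        rfl
      rw [e2]
      refine (Finset.abs_sum_le_sum_abs _ _).trans (le_of_eq ?_)
      exact Finset.sum_congr rfl fun i _ => abs_mul _ _
    calc ∑ j, |(k' j : ℝ)| ≤ ∑ j, ∑ i, |(k i : ℝ)| * |(M i j : ℝ)| :=
          Finset.sum_le_sum fun j _ => h1 j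
      _ = ∑ i, |(k i : ℝ)| * ∑ j, |(M i j : ℝ)| := by
          rw [Finset.sum_comm]
          exact Finset.sum_congr rfl fun i _ => (Finset.mul_sum _ _ _).symm
      _ ≤ ∑ i, |(k i : ℝ)| * C := by
          refine Finset.sum_le_sum fun i _ => mul_le_mul_of_nonneg_left ?_ (abs_nonneg _)
          have h2 : ∑ j, |(M i j : ℝ)| ≤ ∑ i, ∑ j, |(M i j : ℝ)| :=
            Finset.single_le_sum (f := fun i => ∑ j, |(M i j : ℝ)|)
              (fun i _ => Finset.sum_nonneg fun j _ => abs_nonneg _) (Finset.mem_univ i)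
          linarith
      _ = C * ∑ i, |(k i : ℝ)| := by rw [← Finset.sum_mul, mul_comm]
  rw [div_div, ← Real.mul_rpow hC0.le hpos.le]
  apply div_le_div_of_nonneg_left hγ.le (Real.rpow_pos_of_pos hpos' _)
  exact Real.rpow_le_rpow hpos'.le hle hτ.le

private theorem TGrow_cast {d : ℕ} (M : Matrix (Fin d) (Fin d) ℤ) (k : Fin d → ℤ) :
    (M.map (Int.cast : ℤ → ℝ)).mulVec (fun i => (k i : ℝ)) =
      fun i => ((M.mulVec k i : ℤ) : ℝ) := by
  funext i
  simp [Matrix.mulVec, dotProduct, Matrix.map_apply]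

private theorem TGrow_mul {d : ℕ} (M M' : Matrix (Fin d) (Fin d) ℤ) (h : M * M' = 1)
    (x : Fin d → ℝ) :
    (M.map (Int.cast : ℤ → ℝ)).mulVec ((M'.map (Int.cast : ℤ → ℝ)).mulVec x) = x := by
  rw [Matrix.mulVec_mulVec]
  have h1 : (M.map (Int.cast : ℤ → ℝ)) * (M'.map (Int.cast : ℤ → ℝ)) = 1 := by
    have h2 := Matrix.map_mul (L := M) (M := M') (f := Int.castRingHom ℝ)
    rw [h] at h2
    have h3 : (1 : Matrix (Fin d) (Fin d) ℤ).map (Int.castRingHom ℝ) = 1 := by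
      ext i j
      by_cases hij : i = j
      · subst hij; simp
      · simp [hij]
    rw [h3] at h2
    exact h2.symm
  rw [h1, Matrix.one_mulVec]

/-- `exists_data` with the integer matrices (same proof: `A`, `A'` there are the real versions of
`M`, `M'` and `β = A' α`; if `exists_data` was proved through such a statement, cite it). -/
theorem exists_data_int {d : ℕ} {α : Fin d → ℝ} {f h : UnitAddTorus (Fin d) ≃ₜ UnitAddTorus (Fin d)}
    (hα : DioV α) (hc : Conj α f h) (hf : SmM f) (hf' : SmM f.symm) :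
    ∃ (M M' : Matrix (Fin d) (Fin d) ℤ) (F F' H H' : (Fin d → ℝ) → (Fin d → ℝ)),
      M * M' = 1 ∧ M' * M = 1 ∧
      DatA ((M'.map (Int.cast : ℤ → ℝ)).mulVec α) F F' H H' ∧ (∀ x, pr (F x) = f (pr x)) ∧
      (∀ x, pr ((M.map (Int.cast : ℤ → ℝ)).mulVec (H x)) = h (pr x)) ∧
      (∀ x, pr (H' ((M'.map (Int.cast : ℤ → ℝ)).mulVec x)) = h.symm (pr x)) := by
  obtain ⟨H₀, H₀', M, M', cH, cH', pH, pH', l1, l2, per, per', hMM', hM'M⟩ := exists_lift_homeo h
  set A : Matrix (Fin d) (Fin d) ℝ := M.map (Int.cast : ℤ → ℝ) with hA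
  set A' : Matrix (Fin d) (Fin d) ℝ := M'.map (Int.cast : ℤ → ℝ) with hA'
  have e1 : ∀ x, A.mulVec (A'.mulVec x) = x := TGrow_mul M M' hMM'
  have e2 : ∀ x, A'.mulVec (A.mulVec x) = x := TGrow_mul M' M hM'M
  set β : Fin d → ℝ := A'.mulVec α with hβ
  have leftH : ∀ x, H₀' (A.mulVec (A'.mulVec (H₀ x))) = x := fun x => by rw [e1, l1]
  have rightH : ∀ y, A'.mulVec (H₀ (H₀' (A.mulVec y))) = y := fun y => by rw [l2, e2]
  have hint : ∀ k : Fin d → ℤ, A'.mulVec (fun i => ((M.mulVec k i : ℤ) : ℝ)) =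
      fun i => (k i : ℝ) := fun k => by
    rw [← TGrow_cast M k, ← hA, e2]
  have perH : ∀ (x : Fin d → ℝ) (k : Fin d → ℤ),
      A'.mulVec (H₀ (x + fun i => (k i : ℝ))) = A'.mulVec (H₀ x) + fun i => (k i : ℝ) := by
    intro x k
    rw [per, Matrix.mulVec_add, hint]
  have perH' : ∀ (y : Fin d → ℝ) (k : Fin d → ℤ),
      H₀' (A.mulVec (y + fun i => (k i : ℝ))) = H₀' (A.mulVec y) + fun i => (k i : ℝ) := by
    intro y k
    rw [Matrix.mulVec_add, hA, TGrow_cast M k, per']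
    congr 1
    funext i
    have h1 : M'.mulVec (M.mulVec k) = k := by
      rw [Matrix.mulVec_mulVec, hM'M, Matrix.one_mulVec]
    rw [h1]
  have contH : Continuous fun x => A'.mulVec (H₀ x) := Continuous.matrix_mulVec continuous_const cH
  have contH' : Continuous fun y => H₀' (A.mulVec y) :=
    cH'.comp (Continuous.matrix_mulVec continuous_const continuous_id)
  have prF : ∀ x, pr (H₀' (A.mulVec (A'.mulVec (H₀ x) + β))) = f (pr x) := by
    intro x
    rw [hβ, ← Matrix.mulVec_add, e1, pH', pr_add, pH, ← hc, h.symm_apply_apply]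
  have prF' : ∀ x, pr (H₀' (A.mulVec (A'.mulVec (H₀ x) - β))) = f.symm (pr x) := by
    intro x
    have h3 : h (f.symm (pr x)) + pr α = h (pr x) := by
      rw [← hc, f.apply_symm_apply]
    have h4 : pr (H₀ x - α) = h (f.symm (pr x)) := by
      have h5 : pr (H₀ x - α) + pr α = h (f.symm (pr x)) + pr α := by
        rw [← pr_add, sub_add_cancel, pH, h3]
      exact add_right_cancel h5
    rw [hβ, ← Matrix.mulVec_sub, e1, pH', h4, h.symm_apply_apply]
  have contF : Continuous fun x => H₀' (A.mulVec (A'.mulVec (H₀ x) + β)) :=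
    contH'.comp (contH.add continuous_const)
  have contF' : Continuous fun x => H₀' (A.mulVec (A'.mulVec (H₀ x) - β)) :=
    contH'.comp (contH.sub continuous_const)
  refine ⟨M, M', fun x => H₀' (A.mulVec (A'.mulVec (H₀ x) + β)),
    fun x => H₀' (A.mulVec (A'.mulVec (H₀ x) - β)), fun x => A'.mulVec (H₀ x),
    fun y => H₀' (A.mulVec y), hMM', hM'M, ?_, prF, ?_, ?_⟩
  · refine ⟨smo_lift hf _ contF prF, smo_lift hf' _ contF' prF', ?_, ?_, ?_, ?_, contH, contH',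
      perH, perH', leftH, rightH, fun x => rightH _⟩
    · intro x k
      show H₀' (A.mulVec (A'.mulVec (H₀ (x + fun i => (k i : ℝ))) + β)) = _
      rw [perH, add_right_comm, perH']
    · intro x k
      show H₀' (A.mulVec (A'.mulVec (H₀ (x + fun i => (k i : ℝ))) - β)) = _
      rw [perH, add_sub_right_comm, perH']
    · intro x
      show H₀' (A.mulVec (A'.mulVec (H₀ (H₀' (A.mulVec (A'.mulVec (H₀ x) + β)))) - β)) = x
      rw [rightH, add_sub_cancel_right, leftH]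
    · intro x
      show H₀' (A.mulVec (A'.mulVec (H₀ (H₀' (A.mulVec (A'.mulVec (H₀ x) - β)))) + β)) = x
      rw [rightH, sub_add_cancel, leftH]
  · intro x
    show pr (A.mulVec (A'.mulVec (H₀ x))) = h (pr x)
    rw [e1, pH]
  · intro x
    show pr (H₀' (A.mulVec (A'.mulVec x))) = h.symm (pr x)
    rw [e1, pH']

private theorem TGrow_uc {n : ℕ} (G : (Fin n → ℝ) → (Fin n → ℝ)) (hc : Continuous G)
    (hp : PerD G) {s : ℝ} (hs : 0 < s) :
    ∃ ρ : ℝ, 0 < ρ ∧ ∀ z w : Fin n → ℝ, ‖z - w‖ ≤ ρ → ‖G z - G w‖ ≤ s := by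
  have hK : IsCompact (Set.Icc (fun _ : Fin n => (-1 : ℝ)) (fun _ => 2)) := isCompact_Icc
  obtain ⟨δ, hδ, h⟩ := Metric.uniformContinuousOn_iff.mp
    (hK.uniformContinuousOn_of_continuous hc.continuousOn) s hs
  refine ⟨min (δ / 2) 1, by positivity, fun z w hzw => ?_⟩
  set k : Fin n → ℤ := fun i => ⌊z i⌋ with hk
  have hG : ∀ y : Fin n → ℝ, G y = G (y - fun i => (k i : ℝ)) + fun i => (k i : ℝ) := by
    intro y
    have := hp (y - fun i => (k i : ℝ)) k
    rwa [sub_add_cancel] at this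
  have hxa : ∀ a, |z a - w a| ≤ 1 := fun a =>
    ((norm_le_pi_norm (z - w) a).trans hzw).trans (min_le_right _ _)
  have hz' : z - (fun i => (k i : ℝ)) ∈ Set.Icc (fun _ : Fin n => (-1 : ℝ)) (fun _ => 2) := by
    constructor <;> intro a
    · have := Int.floor_le (z a)
      simp only [Pi.sub_apply, hk]
      linarith
    · have := Int.lt_floor_add_one (z a)
      simp only [Pi.sub_apply, hk]
      linarith
  have hw' : w - (fun i => (k i : ℝ)) ∈ Set.Icc (fun _ : Fin n => (-1 : ℝ)) (fun _ => 2) := by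
    constructor <;> intro a
    · have := Int.floor_le (z a)
      have h2 := abs_le.mp (hxa a)
      simp only [Pi.sub_apply, hk]
      linarith
    · have := Int.lt_floor_add_one (z a)
      have h2 := abs_le.mp (hxa a)
      simp only [Pi.sub_apply, hk]
      linarith
  have hdist : dist (z - (fun i => (k i : ℝ))) (w - (fun i => (k i : ℝ))) < δ := by
    rw [dist_sub_right, dist_eq_norm]
    have := hzw.trans (min_le_left _ _)
    linarith
  have h1 := h _ hz' _ hw' hdist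
  rw [hG z, hG w, add_sub_add_right_eq_sub, ← dist_eq_norm]
  exact h1.le

private theorem TGrow_iter {n : ℕ} {F F₁ : (Fin n → ℝ) → (Fin n → ℝ)} (hp : PerD F₁)
    (q : Fin n → ℤ) (hq : ∀ x, F₁ x = F x + fun i => (q i : ℝ)) (k : ℕ) :
    ∃ r : Fin n → ℤ, ∀ x, F₁^[k] x = F^[k] x + fun i => (r i : ℝ) := by
  have hpF : PerD F := by
    intro x j
    have h1 := hp x j
    rw [hq, hq, add_right_comm] at h1
    exact add_right_cancel h1
  induction k with
  | zero => exact ⟨0, fun x => by simp [Pi.zero_def]⟩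
  | succ k ih =>
    obtain ⟨r, hr⟩ := ih
    refine ⟨r + q, fun x => ?_⟩
    rw [Function.iterate_succ_apply', hr, hq, hpF, Function.iterate_succ_apply', add_assoc]
    congr 1
    funext i
    simp

private theorem TGrow_hol {d : ℕ} {β : Fin d → ℝ} {F F' H H' : (Fin d → ℝ) → (Fin d → ℝ)}
    (hd : DatA β F F' H H') (A : Matrix (Fin d) (Fin d) ℝ)
    (u : UnitAddTorus (Fin d) → UnitAddTorus (Fin d)) (hu : ∀ y, pr (H' y) = u (pr (A.mulVec y)))
    (g C : ℝ) (hg : 0 < g)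
    (hH : ∀ y z : UnitAddTorus (Fin d), dist (u y) (u z) ≤ C * dist y z ^ g) :
    ∃ C₁ : ℝ, ∀ z w : Fin d → ℝ, ‖z - w‖ ≤ 1 → ‖H' z - H' w‖ ≤ C₁ * ‖z - w‖ ^ g := by
  obtain ⟨B, hB0, hB, -⟩ := dat_bdd hd
  obtain ⟨Λ, hΛ1, hΛ⟩ : ∃ Λ : ℝ, 1 ≤ Λ ∧ ∀ v : Fin d → ℝ, ‖A.mulVec v‖ ≤ Λ * ‖v‖ := by
    let L : (Fin d → ℝ) →L[ℝ] (Fin d → ℝ) := LinearMap.toContinuousLinearMap (Matrix.toLin' A)
    refine ⟨max 1 ‖L‖, le_max_left _ _, fun v => ?_⟩
    have h1 : A.mulVec v = L v := rfl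
    rw [h1]
    exact (L.le_opNorm v).trans (mul_le_mul_of_nonneg_right (le_max_right _ _) (norm_nonneg _))
  have hΛ0 : 0 < Λ := by linarith
  obtain ⟨ρ₁, hρ₁, huc⟩ := TGrow_uc H' hd.contH' hd.perH' (s := 1 / 4) (by norm_num)
  set ρ : ℝ := min ρ₁ (1 / (4 * Λ)) with hρ
  have hρ0 : 0 < ρ := lt_min hρ₁ (by positivity)
  refine ⟨|C| * Λ ^ g + (2 * B + 1) / ρ ^ g, fun z w hzw => ?_⟩
  have hpow0 : 0 ≤ ‖z - w‖ ^ g := Real.rpow_nonneg (norm_nonneg _) _
  have hρg : 0 < ρ ^ g := Real.rpow_pos_of_pos hρ0 _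
  have hΛg : 0 < Λ ^ g := Real.rpow_pos_of_pos hΛ0 _
  rcases le_or_gt ‖z - w‖ ρ with hs | hs
  · have h1 : ‖H' z - H' w‖ ≤ 1 / 4 := huc z w (hs.trans (min_le_left _ _))
    have h2 : dist (H' z) (H' w) < 1 / 2 := by
      rw [dist_eq_norm]
      linarith
    have h3 : dist (A.mulVec z) (A.mulVec w) ≤ Λ * ‖z - w‖ := by
      rw [dist_eq_norm, ← Matrix.mulVec_sub]
      exact hΛ _
    have h4 : Λ * ‖z - w‖ ≤ 1 / 4 := by
      have h5 : ‖z - w‖ ≤ 1 / (4 * Λ) := hs.trans (min_le_right _ _)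
      calc Λ * ‖z - w‖ ≤ Λ * (1 / (4 * Λ)) := mul_le_mul_of_nonneg_left h5 hΛ0.le
        _ = 1 / 4 := by field_simp
    have h6 : dist (A.mulVec z) (A.mulVec w) < 1 / 2 := by linarith
    have h7 : ‖H' z - H' w‖ ≤ C * dist (A.mulVec z) (A.mulVec w) ^ g := by
      rw [← dist_eq_norm, ← dist_pr _ _ h2, hu, hu, ← dist_pr _ _ h6]
      exact hH _ _
    calc ‖H' z - H' w‖ ≤ C * dist (A.mulVec z) (A.mulVec w) ^ g := h7
      _ ≤ |C| * dist (A.mulVec z) (A.mulVec w) ^ g :=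
          mul_le_mul_of_nonneg_right (le_abs_self C) (Real.rpow_nonneg dist_nonneg _)
      _ ≤ |C| * (Λ * ‖z - w‖) ^ g :=
          mul_le_mul_of_nonneg_left (Real.rpow_le_rpow dist_nonneg h3 hg.le) (abs_nonneg _)
      _ = |C| * Λ ^ g * ‖z - w‖ ^ g := by
          rw [Real.mul_rpow hΛ0.le (norm_nonneg _)]
          ring
      _ ≤ (|C| * Λ ^ g + (2 * B + 1) / ρ ^ g) * ‖z - w‖ ^ g := by
          apply mul_le_mul_of_nonneg_right _ hpow0
          have : 0 ≤ (2 * B + 1) / ρ ^ g := by positivity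
          linarith
  · have h1 : ‖H' z - H' w‖ ≤ 2 * B + 1 := by
      have e : H' z - H' w = (H' z - z) - (H' w - w) + (z - w) := by abel
      rw [e]
      calc _ ≤ ‖(H' z - z) - (H' w - w)‖ + ‖z - w‖ := norm_add_le _ _
        _ ≤ (‖H' z - z‖ + ‖H' w - w‖) + ‖z - w‖ := by gcongr; exact norm_sub_le _ _
        _ ≤ (B + B) + 1 := by gcongr <;> exact hB _
        _ = 2 * B + 1 := by ring
    have h2 : ρ ^ g ≤ ‖z - w‖ ^ g := Real.rpow_le_rpow hρ0.le hs.le hg.le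
    calc ‖H' z - H' w‖ ≤ 2 * B + 1 := h1
      _ = (2 * B + 1) / ρ ^ g * ρ ^ g := by field_simp
      _ ≤ (2 * B + 1) / ρ ^ g * ‖z - w‖ ^ g :=
          mul_le_mul_of_nonneg_left h2 (by positivity)
      _ ≤ (|C| * Λ ^ g + (2 * B + 1) / ρ ^ g) * ‖z - w‖ ^ g := by
          apply mul_le_mul_of_nonneg_right _ hpow0
          have : 0 ≤ |C| * Λ ^ g := by positivity
          linarith

private theorem TGrow_der {d : ℕ} (G G₁ : (Fin d → ℝ) → (Fin d → ℝ)) (r : Fin d → ℝ)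
    (h : ∀ x, G₁ x = G x + r) (x : Fin d → ℝ) :
    iteratedFDeriv ℝ 2 G₁ x = iteratedFDeriv ℝ 2 G x := by
  have e : fderiv ℝ G₁ = fderiv ℝ G := by
    have e1 : G₁ = fun x => G x + r := funext h
    rw [e1]
    funext y
    exact fderiv_add_const _
  ext1 m
  rw [iteratedFDeriv_two_apply, iteratedFDeriv_two_apply, e]

/-- Growth criterion on the torus: `h⁻¹` is `g`-Hoelder and the second derivatives of the iterates of a
lift grow more slowly than `k^κ`, `κ (τ + 2 d + 1) < g`. Proof: in `exists_data_int`, `H' x` is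
a lift of `h.symm ∘ (linear automorphism)`: Hoelder for `‖z - w‖ ≤ 1` (for small distances `dist_pr`, the
linear map changes distances by a bounded factor; for `ρ ≤ ‖z - w‖ ≤ 1`, `‖H' z - H' w‖` is bounded).
The lift in `exists_data_int` differs from `F` by an integer constant `q` (`lift_unique`), its iterates from
`F^[k]` by `k q`. `bdd_of_growth`, `smooth_of_bounded`, `smM_of_lift`. -/
theorem smooth_growth {d : ℕ} {α : Fin d → ℝ} {γ τ : ℝ} (hα : DioE α γ τ)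
    {f h : UnitAddTorus (Fin d) ≃ₜ UnitAddTorus (Fin d)}
    (hc : Conj α f h) (hf : SmM f) (hf' : SmM f.symm) (g κ C : ℝ)
    (hg : 0 < g) (hκ : 0 ≤ κ) (hgκ : κ * (τ + 2 * d + 1) < g)
    (hH : ∀ y z : UnitAddTorus (Fin d), dist (h.symm y) (h.symm z) ≤ C * dist y z ^ g)
    (F : (Fin d → ℝ) → (Fin d → ℝ)) (hF : Continuous F) (hl : ∀ x, pr (F x) = f (pr x))
    (hD : ∀ (k : ℕ) (x : Fin d → ℝ), ‖iteratedFDeriv ℝ 2 (F^[k]) x‖ ≤ C * ((k : ℝ) + 1) ^ κ) :
    SmM h ∧ SmM h.symm := by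
  obtain ⟨M, M', F₁, F₁', H, H', hMM', hM'M, hd, hl₁, hH1, hH2⟩ := exists_data_int hα.dioV hc hf hf'
  obtain ⟨γ', hα'⟩ := dioE_mulVec hα M' M hM'M
  -- the lift differs by an integer constant
  obtain ⟨q, hq⟩ := lift_unique F F₁ hF hd.smF.continuous fun x => by rw [hl, hl₁]
  have hD' : ∀ (k : ℕ) (x : Fin d → ℝ),
      ‖iteratedFDeriv ℝ 2 (F₁^[k]) x‖ ≤ C * ((k : ℝ) + 1) ^ κ := by
    intro k x
    obtain ⟨r, hr⟩ := TGrow_iter hd.perF q hq k
    rw [TGrow_der _ _ _ hr x]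
    exact hD k x
  have hu : ∀ y, pr (H' y) = h.symm (pr ((M.map (Int.cast : ℤ → ℝ)).mulVec y)) := by
    intro y
    have h1 := hH2 ((M.map (Int.cast : ℤ → ℝ)).mulVec y)
    rw [TGrow_mul M' M hM'M] at h1
    exact h1
  obtain ⟨C₁, hC₁⟩ := TGrow_hol hd (M.map (Int.cast : ℤ → ℝ)) h.symm hu g C hg hH
  obtain ⟨C₂, hC₂⟩ := bdd_of_growth hd hα' g κ C₁ C hg hκ hgκ hC₁ hD'
  obtain ⟨s1, s2⟩ := smooth_of_bounded hd hα'.dioV C₂ hC₂
  have hlin : ∀ N : Matrix (Fin d) (Fin d) ℝ, Smo (fun x : Fin d → ℝ => N.mulVec x) := by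
    intro N
    let L : (Fin d → ℝ) →L[ℝ] (Fin d → ℝ) := LinearMap.toContinuousLinearMap (Matrix.toLin' N)
    exact L.contDiff
  refine ⟨smM_of_lift (fun x => (M.map (Int.cast : ℤ → ℝ)).mulVec (H x)) ?_ hH1,
    smM_of_lift (fun x => H' ((M'.map (Int.cast : ℤ → ℝ)).mulVec x)) ?_ hH2⟩
  · exact ContDiff.comp (hlin _) s1
  · exact ContDiff.comp s2 (hlin _)

end QPR
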