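import Pool.Agent.Lib.QPA.GBdd2
import Pool.Agent.Lib.QPA.TGrow

set_option autoImplicit false

namespace QPR

private theorem TGrow2_mul {d : ℕ} (M M' : Matrix (Fin d) (Fin d) ℤ) (h : M * M' = 1)
    (x : Fin d → ℝ) :
    (M.map (Int.cast : ℤ → ℝ)).mulVec ((M'.map (Int.cast : ℤ → ℝ)).mulVec x) = x := by
  rw [Matrix.mulVec_mulVec]
  have h1 : (M.map (Int.cast : ℤ → ℝ)) * (M'.map (Int.cast : ℤ → ℝ)) = 1 := by
    have h2 := Matrix.map_mul (L := M) (M := M') (f := Int.castRingHom ℝ)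
    rw [h] at h2
    have h3 : (1 : Matrix (Fin d) (Fin d) ℤ).map (Int.castRingHom ℝ) = 1 := by
      ext i j
      by_cases hij : i = j
      · subst hij; simp
      · simp [hij]
    rw [h3] at h2
    exact h2.symm
  rw [h1, Matrix.one_mulVec]

private theorem TGrow2_iter {n : ℕ} {F F₁ : (Fin n → ℝ) → (Fin n → ℝ)} (hp : PerD F₁)
    (q : Fin n → ℤ) (hq : ∀ x, F₁ x = F x + fun i => (q i : ℝ)) (k : ℕ) :
    ∃ r : Fin n → ℤ, ∀ x, F₁^[k] x = F^[k] x + fun i => (r i : ℝ) := by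
  have hpF : PerD F := by
    intro x j
    have h1 := hp x j
    rw [hq, hq, add_right_comm] at h1
    exact add_right_cancel h1
  induction k with
  | zero => exact ⟨0, fun x => by simp [Pi.zero_def]⟩
  | succ k ih =>
    obtain ⟨r, hr⟩ := ih
    refine ⟨r + q, fun x => ?_⟩
    rw [Function.iterate_succ_apply', hr, hq, hpF, Function.iterate_succ_apply', add_assoc]
    congr 1
    funext i
    simp

private theorem TGrow2_der {d : ℕ} (G G₁ : (Fin d → ℝ) → (Fin d → ℝ)) (r : Fin d → ℝ)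
    (h : ∀ x, G₁ x = G x + r) (x : Fin d → ℝ) :
    iteratedFDeriv ℝ 2 G₁ x = iteratedFDeriv ℝ 2 G x := by
  have e : fderiv ℝ G₁ = fderiv ℝ G := by
    have e1 : G₁ = fun x => G x + r := funext h
    rw [e1]
    funext y
    exact fderiv_add_const _
  ext1 m
  rw [iteratedFDeriv_two_apply, iteratedFDeriv_two_apply, e]

/-- Growth criterion on the torus, without Hoelder hypothesis. Proof: as for `smooth_growth` (TGrow):
`exists_data_int`, `dioE_mulVec`, `bdd_of_growth2`, `smooth_of_bounded`, `smM_of_lift`. -/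
theorem smooth_growth2 {d : ℕ} {α : Fin d → ℝ} {γ τ : ℝ} (hα : DioE α γ τ)
    {f h : UnitAddTorus (Fin d) ≃ₜ UnitAddTorus (Fin d)}
    (hc : Conj α f h) (hf : SmM f) (hf' : SmM f.symm) (κ C : ℝ)
    (hκ0 : 0 < κ) (hκ : κ * (200 * (d + 2) * (τ + 2 * d + 1)) ≤ 1)
    (F : (Fin d → ℝ) → (Fin d → ℝ)) (hF : Continuous F) (hl : ∀ x, pr (F x) = f (pr x))
    (hD : ∀ (k : ℕ) (x : Fin d → ℝ), ‖iteratedFDeriv ℝ 2 (F^[k]) x‖ ≤ C * ((k : ℝ) + 1) ^ κ) :
    SmM h ∧ SmM h.symm := by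
  obtain ⟨M, M', F₁, F₁', H, H', hMM', hM'M, hd, hl₁, hH1, hH2⟩ := exists_data_int hα.dioV hc hf hf'
  obtain ⟨γ', hα'⟩ := dioE_mulVec hα M' M hM'M
  -- the lift differs by an integer constant
  obtain ⟨q, hq⟩ := lift_unique F F₁ hF hd.smF.continuous fun x => by rw [hl, hl₁]
  have hD' : ∀ (k : ℕ) (x : Fin d → ℝ),
      ‖iteratedFDeriv ℝ 2 (F₁^[k]) x‖ ≤ C * ((k : ℝ) + 1) ^ κ := by
    intro k x
    obtain ⟨r, hr⟩ := TGrow2_iter hd.perF q hq k
    rw [TGrow2_der _ _ _ hr x]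
    exact hD k x
  obtain ⟨C₂, hC₂⟩ := bdd_of_growth2 hd hα' κ C hκ0 hκ hD'
  obtain ⟨s1, s2⟩ := smooth_of_bounded hd hα'.dioV C₂ hC₂
  have hlin : ∀ N : Matrix (Fin d) (Fin d) ℝ, Smo (fun x : Fin d → ℝ => N.mulVec x) := by
    intro N
    let L : (Fin d → ℝ) →L[ℝ] (Fin d → ℝ) := LinearMap.toContinuousLinearMap (Matrix.toLin' N)
    exact L.contDiff
  refine ⟨smM_of_lift (fun x => (M.map (Int.cast : ℤ → ℝ)).mulVec (H x)) ?_ hH1,
    smM_of_lift (fun x => H' ((M'.map (Int.cast : ℤ → ℝ)).mulVec x)) ?_ hH2⟩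
  · exact ContDiff.comp (hlin _) s1
  · exact ContDiff.comp s2 (hlin _)

end QPR
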