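import Pool.Agent.Lib.QPA.TData
import Pool.Agent.Lib.QPA.TOrb
import Pool.Agent.Lib.QPA.TBair

set_option autoImplicit false

namespace QPR

open Filter Topology

/-- the sets on which `h` is bi-Lipschitz with a fixed constant at a fixed scale. -/
private def HB {d : ℕ} (h : UnitAddTorus (Fin d) → UnitAddTorus (Fin d)) (m : ℕ) :
    Set (UnitAddTorus (Fin d)) :=
  {y | ∀ z, dist z y < 1 / ((m : ℝ) + 1) →
    dist (h z) (h y) ≤ ((m : ℝ) + 1) * dist z y ∧ dist z y ≤ ((m : ℝ) + 1) * dist (h z) (h y)}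

private theorem HB_closed {d : ℕ} (h : UnitAddTorus (Fin d) → UnitAddTorus (Fin d))
    (hh : Continuous h) (m : ℕ) : IsClosed (HB h m) := by
  have e : HB h m = ⋂ z, ({y | 1 / ((m : ℝ) + 1) ≤ dist z y} ∪
      ({y | dist (h z) (h y) ≤ ((m : ℝ) + 1) * dist z y} ∩
        {y | dist z y ≤ ((m : ℝ) + 1) * dist (h z) (h y)})) := by
    ext y
    simp only [HB, Set.mem_ofPred_eq, Set.mem_iInter, Set.mem_union, Set.mem_inter_iff]
    refine forall_congr' fun z => ?_
    constructor
    · intro H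
      by_cases hz : dist z y < 1 / ((m : ℝ) + 1)
      · exact Or.inr (H hz)
      · exact Or.inl (not_lt.mp hz)
    · rintro (H | H) hz
      · exact absurd hz (not_lt.mpr H)
      · exact H
  rw [e]
  refine isClosed_iInter fun z => ?_
  refine IsClosed.union (isClosed_le continuous_const (by fun_prop)) (IsClosed.inter ?_ ?_)
  · exact isClosed_le (by fun_prop) (by fun_prop)
  · exact isClosed_le (by fun_prop) (by fun_prop)

private theorem HB_cover {d : ℕ} (h : UnitAddTorus (Fin d) → UnitAddTorus (Fin d)) :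
    {y : UnitAddTorus (Fin d) | ∃ L : ℝ, ∀ᶠ z in 𝓝 y,
        dist (h z) (h y) ≤ L * dist z y ∧ dist z y ≤ L * dist (h z) (h y)} ⊆ ⋃ m, HB h m := by
  rintro y ⟨L, hL⟩
  obtain ⟨ε, hε, H⟩ := Metric.eventually_nhds_iff.mp hL
  obtain ⟨m, hm⟩ := exists_nat_gt (max L (1 / ε))
  refine Set.mem_iUnion.mpr ⟨m, fun z hz => ?_⟩
  have h1 : L ≤ (m : ℝ) + 1 := by
    have := (le_max_left L (1 / ε)).trans hm.le
    linarith
  have h2 : 1 / ((m : ℝ) + 1) < ε := by
    have h3 : 1 / ε < (m : ℝ) + 1 := by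
      have := (le_max_right L (1 / ε)).trans_lt hm
      linarith
    rw [div_lt_iff₀ (by positivity)]
    rw [div_lt_iff₀ hε] at h3
    linarith
  obtain ⟨h4, h5⟩ := H (hz.trans h2)
  exact ⟨h4.trans (mul_le_mul_of_nonneg_right h1 dist_nonneg),
    h5.trans (mul_le_mul_of_nonneg_right h1 dist_nonneg)⟩

private theorem HB_loc {d : ℕ} {g : UnitAddTorus (Fin d) → UnitAddTorus (Fin d)}
    {G : (Fin d → ℝ) → (Fin d → ℝ)} (h : ∀ x, pr (G x) = g (pr x)) (x : Fin d → ℝ)
    (hG : ContinuousAt G x) :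
    ∀ᶠ a in 𝓝 x, dist (g (pr a)) (g (pr x)) = dist (G a) (G x) := by
  have h1 : ∀ᶠ a in 𝓝 x, dist (G a) (G x) < 1 / 2 :=
    hG.eventually (Metric.ball_mem_nhds _ (by norm_num))
  filter_upwards [h1] with a ha
  rw [← h, ← h, dist_pr _ _ ha]

private theorem HB_lift_iter {d : ℕ} {g : UnitAddTorus (Fin d) → UnitAddTorus (Fin d)}
    {G : (Fin d → ℝ) → (Fin d → ℝ)} (h : ∀ x, pr (G x) = g (pr x)) (k : ℕ) (x : Fin d → ℝ) :
    pr (G^[k] x) = g^[k] (pr x) := by
  induction k generalizing x with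
  | zero => rfl
  | succ k ih => rw [Function.iterate_succ_apply, Function.iterate_succ_apply, ih, h]

private theorem HB_lip {d : ℕ} {F : (Fin d → ℝ) → (Fin d → ℝ)} (hF : Smo F) (k : ℕ) (C : ℝ)
    (hC : ∀ x, ‖fderiv ℝ (F^[k]) x‖ ≤ C) (a b : Fin d → ℝ) :
    dist (F^[k] a) (F^[k] b) ≤ C * dist a b := by
  have hd : Differentiable ℝ (F^[k]) := by
    induction k with
    | zero => exact differentiable_id
    | succ k ih =>
      have h1 : Smo (F^[k + 1]) := by
        clear ih hC
        induction k + 1 with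
        | zero => exact contDiff_id
        | succ k ih => exact ih.comp hF
      exact h1.differentiable (by simp)
  rw [dist_eq_norm, dist_eq_norm]
  exact Convex.norm_image_sub_le_of_norm_fderiv_le (𝕜 := ℝ) (s := Set.univ)
    (fun z _ => hd z) (fun z _ => hC z) convex_univ (Set.mem_univ b) (Set.mem_univ a)

/-- If `h` is pointwise bi-Lipschitz on a non-meagre set then the iterates have (uniformly) bounded
pointwise Lipschitz constants everywhere. -/
theorem nonmeagre_of_h {d : ℕ} {α : Fin d → ℝ} {f h : UnitAddTorus (Fin d) ≃ₜ UnitAddTorus (Fin d)}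
    (hα : DioV α) (hc : Conj α f h) (hf : SmM f) (hf' : SmM f.symm)
    (hm : ¬ IsMeagre {y : UnitAddTorus (Fin d) | ∃ L : ℝ, ∀ᶠ z in 𝓝 y,
        dist (h z) (h y) ≤ L * dist z y ∧ dist z y ≤ L * dist (h z) (h y)}) :
    ¬ IsMeagre {y : UnitAddTorus (Fin d) | ∃ L : ℝ, ∀ n : ℕ, ∀ᶠ z in 𝓝 y,
        dist ((f : UnitAddTorus (Fin d) → UnitAddTorus (Fin d))^[n] z)
          ((f : UnitAddTorus (Fin d) → UnitAddTorus (Fin d))^[n] y) ≤ L * dist z y} := by
  obtain ⟨β, F, F', H, H', A, A', -, hd, hFf, -, -⟩ := exists_data hα hc hf hf'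
  -- some `HB h m` has interior
  obtain ⟨m, hmi⟩ : ∃ m, (interior (HB (h : UnitAddTorus (Fin d) → UnitAddTorus (Fin d)) m)).Nonempty := by
    by_contra hcon
    push Not at hcon
    apply hm
    refine IsMeagre.mono (HB_cover h) ?_
    refine isMeagre_iUnion fun m => ?_
    refine IsNowhereDense.isMeagre ?_
    rw [(HB_closed h h.continuous m).isNowhereDense_iff]
    exact hcon m
  set U := interior (HB (h : UnitAddTorus (Fin d) → UnitAddTorus (Fin d)) m) with hU
  obtain ⟨N, hN⟩ := visit hα hc U isOpen_interior hmi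
  obtain ⟨C1, hC1, hb1⟩ := fderiv_iter_bdd hd.smF hd.perF N
  obtain ⟨C2, hC2, hb2⟩ := fderiv_iter_bdd hd.smF' hd.perF' N
  set K : ℝ := ((m : ℝ) + 1) * (C1 + C2) with hK
  have hm1 : (0 : ℝ) ≤ (m : ℝ) + 1 := by positivity
  have hiso : ∀ (k : ℕ) (a b : UnitAddTorus (Fin d)),
      dist (h ((f : UnitAddTorus (Fin d) → UnitAddTorus (Fin d))^[k] a))
        (h ((f : UnitAddTorus (Fin d) → UnitAddTorus (Fin d))^[k] b)) = dist (h a) (h b) := by
    intro k a b
    rw [conj_iter hc, conj_iter hc, dist_add_right]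
  -- uniform pointwise bi-Lipschitz bound for `h`
  have key : ∀ y : UnitAddTorus (Fin d), ∀ᶠ w in 𝓝 y,
      dist (h w) (h y) ≤ K * dist w y ∧ dist w y ≤ K * dist (h w) (h y) := by
    intro y
    obtain ⟨x, rfl⟩ := pr_surjective y
    obtain ⟨k, hk, hkU⟩ := hN (pr x)
    have hFk : Smo (F^[k]) := by
      clear hk hkU
      induction k with
      | zero => exact contDiff_id
      | succ k ih => exact ih.comp hd.smF
    have hmem := interior_subset hkU
    have hcont : ContinuousAt ((f : UnitAddTorus (Fin d) → UnitAddTorus (Fin d))^[k]) (pr x) :=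
      (f.continuous.iterate k).continuousAt
    have e1 : ∀ᶠ w in 𝓝 (pr x), dist ((f : UnitAddTorus (Fin d) → UnitAddTorus (Fin d))^[k] w)
        ((f : UnitAddTorus (Fin d) → UnitAddTorus (Fin d))^[k] (pr x)) < 1 / ((m : ℝ) + 1) :=
      hcont.eventually (Metric.ball_mem_nhds _ (by positivity))
    rw [← (isOpenMap_pr (d := d)).map_nhds_eq continuous_pr.continuousAt] at e1 ⊢
    rw [eventually_map] at e1 ⊢
    have e2 : ∀ᶠ a in 𝓝 x, dist a x < 1 / 2 :=
      Metric.ball_mem_nhds _ (by norm_num)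
    have e3 := HB_loc (g := (f : UnitAddTorus (Fin d) → UnitAddTorus (Fin d))^[k])
      (G := F^[k]) (fun z => HB_lift_iter hFf k z) x hFk.continuous.continuousAt
    filter_upwards [e1, e2, e3] with a ha1 ha2 ha3
    have hda : dist (pr a) (pr x) = dist a x := dist_pr _ _ ha2
    obtain ⟨p1, p2⟩ := hmem _ ha1
    rw [hiso] at p1 p2
    rw [ha3] at p1 p2
    have q1 : dist (F^[k] a) (F^[k] x) ≤ C1 * dist a x := HB_lip hd.smF k C1 (hb1 k hk) a x
    have q2 : dist a x ≤ C2 * dist (F^[k] a) (F^[k] x) := by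
      have := HB_lip hd.smF' k C2 (hb2 k hk) (F^[k] a) (F^[k] x)
      have hl : Function.LeftInverse (F'^[k]) (F^[k]) :=
        Function.LeftInverse.iterate hd.leftF k
      rwa [hl a, hl x] at this
    rw [hda]
    constructor
    · calc dist (h (pr a)) (h (pr x)) ≤ ((m : ℝ) + 1) * dist (F^[k] a) (F^[k] x) := p1
        _ ≤ ((m : ℝ) + 1) * (C1 * dist a x) := mul_le_mul_of_nonneg_left q1 hm1
        _ = ((m : ℝ) + 1) * C1 * dist a x := by ring
        _ ≤ K * dist a x := by
            refine mul_le_mul_of_nonneg_right ?_ dist_nonneg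
            rw [hK]
            exact mul_le_mul_of_nonneg_left (by linarith) hm1
    · calc dist a x ≤ C2 * dist (F^[k] a) (F^[k] x) := q2
        _ ≤ C2 * (((m : ℝ) + 1) * dist (h (pr a)) (h (pr x))) :=
            mul_le_mul_of_nonneg_left p2 hC2
        _ = ((m : ℝ) + 1) * C2 * dist (h (pr a)) (h (pr x)) := by ring
        _ ≤ K * dist (h (pr a)) (h (pr x)) := by
            refine mul_le_mul_of_nonneg_right ?_ dist_nonneg
            rw [hK]
            exact mul_le_mul_of_nonneg_left (by linarith) hm1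
  have hK0 : 0 ≤ K := by positivity
  have huniv : {y : UnitAddTorus (Fin d) | ∃ L : ℝ, ∀ n : ℕ, ∀ᶠ z in 𝓝 y,
        dist ((f : UnitAddTorus (Fin d) → UnitAddTorus (Fin d))^[n] z)
          ((f : UnitAddTorus (Fin d) → UnitAddTorus (Fin d))^[n] y) ≤ L * dist z y} = Set.univ := by
    refine Set.eq_univ_of_forall fun y => ⟨K * K, fun n => ?_⟩
    have hcont : ContinuousAt ((f : UnitAddTorus (Fin d) → UnitAddTorus (Fin d))^[n]) y :=
      (f.continuous.iterate n).continuousAt
    filter_upwards [hcont.eventually (key _), key y] with z h1 h2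
    calc dist ((f : UnitAddTorus (Fin d) → UnitAddTorus (Fin d))^[n] z)
          ((f : UnitAddTorus (Fin d) → UnitAddTorus (Fin d))^[n] y)
        ≤ K * dist (h ((f : UnitAddTorus (Fin d) → UnitAddTorus (Fin d))^[n] z))
          (h ((f : UnitAddTorus (Fin d) → UnitAddTorus (Fin d))^[n] y)) := h1.2
      _ = K * dist (h z) (h y) := by rw [hiso]
      _ ≤ K * (K * dist z y) := mul_le_mul_of_nonneg_left h2.1 hK0
      _ = K * K * dist z y := by ring
  rw [huniv]
  exact not_isMeagre_of_isOpen isOpen_univ ⟨0, trivial⟩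

end QPR
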