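import Pool.Agent.Lib.QPR.TSm2
import Pool.Agent.Lib.QPA.ADef

set_option autoImplicit false

/-!
# Lifts of continuous torus maps
-/

namespace QPR

theorem pr_add {d : ℕ} (x y : Fin d → ℝ) : pr (x + y) = pr x + pr y := by
  funext i
  simp [pr]

theorem pr_int {d : ℕ} (k : Fin d → ℤ) : pr (fun i => (k i : ℝ)) = 0 := by
  funext i
  show ((k i : ℝ) : UnitAddCircle) = 0
  rw [AddCircle.coe_eq_zero_iff]
  exact ⟨k i, by simp⟩

theorem pr_surjective {d : ℕ} : Function.Surjective (pr (d := d)) := fun y => by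
  have h : ∀ i, ∃ t : ℝ, ((t : ℝ) : UnitAddCircle) = y i := fun i =>
    QuotientAddGroup.mk_surjective (y i)
  choose x hx using h
  exact ⟨x, funext hx⟩

theorem continuous_pr {d : ℕ} : Continuous (pr (d := d)) := by
  refine continuous_pi fun i => ?_
  exact (AddCircle.continuous_mk' (1 : ℝ)).comp (continuous_apply i)

theorem pr_eq_iff {d : ℕ} (x y : Fin d → ℝ) :
    pr x = pr y ↔ ∃ k : Fin d → ℤ, y = x + fun i => (k i : ℝ) := by
  constructor
  · intro h
    have h1 : ∀ i, ∃ n : ℤ, (n : ℝ) = y i - x i := by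
      intro i
      have h2 : ((y i - x i : ℝ) : UnitAddCircle) = 0 := by
        rw [AddCircle.coe_sub]
        have := congrFun h i
        simp only [pr] at this
        rw [this, sub_self]
      obtain ⟨n, hn⟩ := (AddCircle.coe_eq_zero_iff (1 : ℝ)).mp h2
      exact ⟨n, by rw [← hn]; simp⟩
    choose k hk using h1
    exact ⟨k, by funext i; simp [hk i]⟩
  · rintro ⟨k, rfl⟩
    rw [pr_add, pr_int, add_zero]

/-- `pr` is an open map. -/
theorem isOpenMap_pr {d : ℕ} : IsOpenMap (pr (d := d)) := by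
  have h : IsOpenQuotientMap (Pi.map fun (_ : Fin d) (x : ℝ) => ((x : ℝ) : UnitAddCircle)) :=
    IsOpenQuotientMap.piMap fun _ => QuotientAddGroup.isOpenQuotientMap_mk
  exact h.isOpenMap

/-- Every continuous map from `ℝ^d` to the torus lifts to `ℝ^d`. Proof: coordinate by coordinate;
`ℝ → UnitAddCircle` is a covering map (`AddCircle.isCoveringMap_coe`) and `Fin d → ℝ` is simply
connected and locally path connected: `IsCoveringMap.existsUnique_continuousMap_lifts`. -/
theorem exists_lift {d : ℕ} (g : (Fin d → ℝ) → UnitAddTorus (Fin d)) (hg : Continuous g) :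
    ∃ G : (Fin d → ℝ) → (Fin d → ℝ), Continuous G ∧ ∀ x, pr (G x) = g x := by
  have h : ∀ i, ∃ F : C(Fin d → ℝ, ℝ), ∀ x, ((F x : ℝ) : UnitAddCircle) = g x i := by
    intro i
    obtain ⟨t, ht⟩ : ∃ t : ℝ, ((t : ℝ) : UnitAddCircle) = g 0 i :=
      QuotientAddGroup.mk_surjective (g 0 i)
    obtain ⟨F, ⟨-, hF⟩, -⟩ :=
      (AddCircle.isCoveringMap_coe (1 : ℝ)).existsUnique_continuousMap_lifts
        (⟨fun x => g x i, (continuous_apply i).comp hg⟩ : C(Fin d → ℝ, UnitAddCircle))
        (0 : Fin d → ℝ) t ht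
    exact ⟨F, fun x => congrFun hF x⟩
  choose F hF using h
  exact ⟨fun x i => F i x, continuous_pi fun i => (F i).continuous, fun x => funext fun i => hF i x⟩

/-- Two lifts of the same map differ by an integer constant. Proof: `G' x - G x` is a continuous
function with integer coordinates (`pr_eq_iff`), and `Fin d → ℝ` is connected, so it is constant
(each coordinate is a continuous function `ℝ^d → ℝ` with values in `range (Int.cast)`; e.g.
`IsPreconnected.constant` for the continuous map to `ℤ`, or `IsPreconnected` of the image and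
`round`). -/
theorem lift_unique {d : ℕ} (G G' : (Fin d → ℝ) → (Fin d → ℝ)) (hG : Continuous G)
    (hG' : Continuous G') (h : ∀ x, pr (G x) = pr (G' x)) :
    ∃ k : Fin d → ℤ, ∀ x, G' x = G x + fun i => (k i : ℝ) := by
  obtain ⟨k, hk⟩ := (pr_eq_iff (G 0) (G' 0)).mp (h 0)
  refine ⟨k, fun x => funext fun i => ?_⟩
  have h1 : (fun x => G' x i) = fun x => G x i + (k i : ℝ) := by
    refine (AddCircle.isCoveringMap_coe (1 : ℝ)).eq_of_comp_eq ((continuous_apply i).comp hG')
      (((continuous_apply i).comp hG).add continuous_const) ?_ (0 : Fin d → ℝ) ?_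
    · funext y
      have h2 : ((G y i : ℝ) : UnitAddCircle) = ((G' y i : ℝ) : UnitAddCircle) :=
        congrFun (h y) i
      have h3 : (((k i : ℤ) : ℝ) : UnitAddCircle) = 0 := by
        rw [AddCircle.coe_eq_zero_iff]
        exact ⟨k i, by simp⟩
      change ((G' y i : ℝ) : UnitAddCircle) = ((G y i + (k i : ℝ) : ℝ) : UnitAddCircle)
      rw [AddCircle.coe_add, h3, add_zero, h2]
    · exact congrFun hk i
  exact congrFun h1 x

end QPR
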