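import Pool.Agent.Lib.QPA.TLift

set_option autoImplicit false

namespace QPR

private def TLiftH_io {d : ℕ} (k : Fin d → ℤ) : Fin d → ℝ := fun i => (k i : ℝ)

private theorem TLiftH_inj {d : ℕ} {k l : Fin d → ℤ} (h : TLiftH_io k = TLiftH_io l) : k = l := by
  funext i
  have h1 : (k i : ℝ) = (l i : ℝ) := congrFun h i
  exact_mod_cast h1

private theorem TLiftH_add {d : ℕ} (k l : Fin d → ℤ) :
    TLiftH_io (k + l) = TLiftH_io k + TLiftH_io l := by
  funext i
  change (((k + l) i : ℤ) : ℝ) = (k i : ℝ) + (l i : ℝ)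
  rw [Pi.add_apply, Int.cast_add]

private theorem TLiftH_pr {d : ℕ} (x : Fin d → ℝ) (k : Fin d → ℤ) :
    pr (x + TLiftH_io k) = pr x := by
  have : pr (TLiftH_io k) = 0 := pr_int k
  rw [pr_add, this, add_zero]

/-- A continuous lift of a torus map is equivariant for an integer matrix. -/
private theorem TLiftH_mat {d : ℕ} (g : UnitAddTorus (Fin d) → UnitAddTorus (Fin d))
    (H : (Fin d → ℝ) → (Fin d → ℝ)) (hc : Continuous H) (hp : ∀ x, pr (H x) = g (pr x)) :
    ∃ M : Matrix (Fin d) (Fin d) ℤ, ∀ (x : Fin d → ℝ) (k : Fin d → ℤ),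
      H (x + TLiftH_io k) = H x + TLiftH_io (M.mulVec k) := by
  have h1 : ∀ k : Fin d → ℤ, ∃ l : Fin d → ℤ, ∀ x, H (x + TLiftH_io k) = H x + TLiftH_io l := by
    intro k
    refine lift_unique H (fun x => H (x + TLiftH_io k)) hc
      (hc.comp (continuous_id.add continuous_const)) fun x => ?_
    rw [hp, hp, TLiftH_pr]
  choose m hm using h1
  have hadd : ∀ k l, m (k + l) = m k + m l := by
    intro k l
    apply TLiftH_inj
    have e1 := hm (k + l) 0
    rw [TLiftH_add, ← add_assoc, hm l, hm k, add_assoc] at e1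
    have e2 := add_left_cancel e1
    rw [TLiftH_add, ← e2]
  refine ⟨LinearMap.toMatrix' (AddMonoidHom.mk' m hadd).toIntLinearMap, fun x k => ?_⟩
  rw [LinearMap.toMatrix'_mulVec]
  exact hm k x

/-- Lift of a homeomorphism of the torus: `H (x + k) = H x + M k` for an integer matrix `M`,
invertible over `ℤ`. Proof: let `H`, `H₁` be lifts of `h ∘ pr` and `h.symm ∘ pr` (`exists_lift`).
(1) `H₁ ∘ H` is a lift of `pr`, so `H₁ (H x) = x + c` with `c` integer (`lift_unique` with `G = id`);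
put `H' y = H₁ y - c`, again a lift of `h.symm ∘ pr`, with `H' (H x) = x`.
(2) `H ∘ H'` is also a lift of `pr`: `H (H' y) = y + c'`; apply `H'`: `H' (y + c') = H' y` for all
`y`, hence `H' (y + 2 c') = H' y`, so `y + 2 c' + c' = H (H' (y + 2 c')) = H (H' y) = y + c'`,
`c' = 0`.
(3) For integer `k` the map `x ↦ H (x + k)` is a lift of `h ∘ pr`, so `H (x + k) = H x + m k` with
`m k` integer, `m (k + l) = m k + m l`; `M` is the matrix of the additive map `m`
(`M i j = m (Pi.single j 1) i`). Same for `H'`, with `M'`.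
(4) `x + k = H' (H (x + k)) = H' (H x + M k) = x + M' M k`, so `M' M = 1`, then `M M' = 1`
(`Matrix.mul_eq_one_comm`). -/
theorem exists_lift_homeo {d : ℕ} (h : UnitAddTorus (Fin d) ≃ₜ UnitAddTorus (Fin d)) :
    ∃ (H H' : (Fin d → ℝ) → (Fin d → ℝ)) (M M' : Matrix (Fin d) (Fin d) ℤ),
      Continuous H ∧ Continuous H' ∧
      (∀ x, pr (H x) = h (pr x)) ∧ (∀ x, pr (H' x) = h.symm (pr x)) ∧
      (∀ x, H' (H x) = x) ∧ (∀ x, H (H' x) = x) ∧
      (∀ (x : Fin d → ℝ) (k : Fin d → ℤ),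
        H (x + fun i => (k i : ℝ)) = H x + fun i => ((M.mulVec k i : ℤ) : ℝ)) ∧
      (∀ (x : Fin d → ℝ) (k : Fin d → ℤ),
        H' (x + fun i => (k i : ℝ)) = H' x + fun i => ((M'.mulVec k i : ℤ) : ℝ)) ∧
      M * M' = 1 ∧ M' * M = 1 := by
  obtain ⟨H, hH, hHp⟩ := exists_lift (fun x => h (pr x)) (h.continuous.comp continuous_pr)
  obtain ⟨H₁, hH₁, hH₁p⟩ := exists_lift (fun x => h.symm (pr x))
    (h.symm.continuous.comp continuous_pr)
  obtain ⟨c, hc⟩ := lift_unique (fun x => H₁ (H x)) (fun x => x) (hH₁.comp hH) continuous_id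
    fun x => by rw [hH₁p, hHp, h.symm_apply_apply]
  have hc0 : ∀ x, x = H₁ (H x) + TLiftH_io c := hc
  -- the inverse lift
  let H' : (Fin d → ℝ) → (Fin d → ℝ) := fun y => H₁ y + TLiftH_io c
  have hH' : Continuous H' := hH₁.add continuous_const
  have hH'p : ∀ x, pr (H' x) = h.symm (pr x) := fun x => by
    change pr (H₁ x + TLiftH_io c) = _
    rw [TLiftH_pr, hH₁p]
  have hL : ∀ x, H' (H x) = x := fun x => (hc0 x).symm
  obtain ⟨c', hc'⟩ := lift_unique (fun x => x) (fun y => H (H' y)) continuous_id (hH.comp hH')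
    fun x => by rw [hHp, hH'p, h.apply_symm_apply]
  have hc1 : ∀ y, H (H' y) = y + TLiftH_io c' := hc'
  have hR : ∀ y, H (H' y) = y := by
    intro y
    have e1 : H' (y + TLiftH_io c') = H' y := by rw [← hc1 y, hL]
    have e2 := hc1 (y + TLiftH_io c')
    rw [e1, hc1 y] at e2
    have e3 : TLiftH_io c' = 0 := by
      have := add_left_cancel (a := y + TLiftH_io c') (b := 0) (c := TLiftH_io c')
        (by rw [add_zero]; exact e2)
      exact this.symm
    rw [hc1 y, e3, add_zero]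
  obtain ⟨M, hM⟩ := TLiftH_mat h H hH hHp
  obtain ⟨M', hM'⟩ := TLiftH_mat h.symm H' hH' hH'p
  have hMM : M' * M = 1 := by
    apply Matrix.ext_of_mulVec_single
    intro i
    rw [Matrix.one_mulVec, ← Matrix.mulVec_mulVec]
    apply TLiftH_inj
    have e1 : H' (H (0 + TLiftH_io (Pi.single i 1))) = 0 + TLiftH_io (Pi.single i 1) := hL _
    rw [hM, hM', hL] at e1
    exact add_left_cancel e1
  exact ⟨H, H', M, M', hH, hH', hHp, hH'p, hL, hR, hM, hM', mul_eq_one_comm.1 hMM, hMM⟩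

end QPR
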