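import Pool.Agent.Lib.QPA.TData
import Pool.Agent.Lib.QPA.TOrb
import Pool.Agent.Lib.QPA.TBair
import Pool.Agent.Lib.QPA.AEnd

set_option autoImplicit false

namespace QPR

open Filter Topology

private theorem TMain_smo {d : ℕ} {F : (Fin d → ℝ) → (Fin d → ℝ)} (hF : Smo F) (k : ℕ) :
    Smo (F^[k]) := by
  induction k with
  | zero => exact contDiff_id
  | succ k ih =>
    rw [Function.iterate_succ]
    exact ih.comp hF

private theorem TMain_lin {d : ℕ} (A : Matrix (Fin d) (Fin d) ℝ) :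
    Smo (fun x : Fin d → ℝ => A.mulVec x) := by
  have h := (LinearMap.toContinuousLinearMap A.mulVecLin).contDiff
    (n := ((⊤ : ℕ∞) : WithTop ℕ∞))
  exact h

/-- Theorem A on the torus. Proof: `exists_data` gives `β, F, F', H, H', A, A'`.
(a) `¬ IsMeagre`: `open_of_nonmeagre` gives `m, U`; `visit` gives `N`; for every `x` there are `j ≤ N`
with `f^[j] (pr x) = pr (F^[j] x) ∈ U`; `bdd_of_open` with the open set `pr ⁻¹' U` (`q = 0`).
(b) one point `y₀ = pr x₀`: `fderiv_le_of_dist`, `le_fderiv_of_dist` for `g = f^[n]`, `G = F^[n]`,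
`bdd_of_point` (density from `visit`, applied to `pr '' U`, and `pr_eq_iff`).
Then `smooth_of_bounded` gives that `H, H'` are smooth; `x ↦ A (H x)` and `x ↦ H' (A' x)` are smooth
lifts of `h`, `h.symm`: `smM_of_lift`. -/
theorem smooth_torus {d : ℕ} {α : Fin d → ℝ} {f h : UnitAddTorus (Fin d) ≃ₜ UnitAddTorus (Fin d)}
    (hα : DioV α) (hc : Conj α f h) (hf : SmM f) (hf' : SmM f.symm)
    (hb : (¬ IsMeagre {y : UnitAddTorus (Fin d) | ∃ L : ℝ, ∀ n : ℕ, ∀ᶠ z in 𝓝 y,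
        dist ((f : UnitAddTorus (Fin d) → UnitAddTorus (Fin d))^[n] z)
          ((f : UnitAddTorus (Fin d) → UnitAddTorus (Fin d))^[n] y) ≤ L * dist z y}) ∨
      ∃ (y : UnitAddTorus (Fin d)) (L : ℝ), ∀ n : ℕ, ∀ᶠ z in 𝓝 y,
        dist ((f : UnitAddTorus (Fin d) → UnitAddTorus (Fin d))^[n] z)
          ((f : UnitAddTorus (Fin d) → UnitAddTorus (Fin d))^[n] y) ≤ L * dist z y ∧
        dist z y ≤ L * dist ((f : UnitAddTorus (Fin d) → UnitAddTorus (Fin d))^[n] z)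
          ((f : UnitAddTorus (Fin d) → UnitAddTorus (Fin d))^[n] y)) :
    SmM h ∧ SmM h.symm := by
  obtain ⟨β, F, F', H, H', A, A', hβ, hd, hF, hH, hH'⟩ := exists_data hα hc hf hf'
  have hit : ∀ (k : ℕ) (x : Fin d → ℝ),
      pr (F^[k] x) = (f : UnitAddTorus (Fin d) → UnitAddTorus (Fin d))^[k] (pr x) := by
    intro k x
    have hs : Function.Semiconj pr F f := hF
    exact (hs.iterate_right k) x
  have hdiff : ∀ (k : ℕ) (x : Fin d → ℝ), DifferentiableAt ℝ (F^[k]) x := fun k x =>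
    ((TMain_smo hd.smF k).differentiable (by simp)).differentiableAt
  have hbd : ∃ C : ℝ, ∀ (k : ℕ) (x : Fin d → ℝ), ‖fderiv ℝ (F^[k]) x‖ ≤ C := by
    rcases hb with hb | ⟨y, L, hL⟩
    · obtain ⟨m, U, hU, hne, hm⟩ := open_of_nonmeagre hd.smF hF hb
      obtain ⟨N, hN⟩ := visit hα hc U hU hne
      refine bdd_of_open hd.smF hd.perF N (pr ⁻¹' U) (fun x => ?_) m (fun x hx k => hm x hx k)
      obtain ⟨j, hj, hj'⟩ := hN (pr x)
      refine ⟨j, hj, 0, ?_⟩
      show pr (F^[j] x + fun i => (((0 : Fin d → ℤ) i : ℤ) : ℝ)) ∈ U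
      rw [pr_add, pr_int, add_zero, hit]
      exact hj'
    · obtain ⟨x₀, rfl⟩ := pr_surjective y
      refine ⟨|L| * |L|, bdd_of_point hd.smF hd.perF x₀ |L| (fun k => ?_) (fun k v => ?_) ?_⟩
      · exact fderiv_le_of_dist (hit k) x₀ (hdiff k x₀) L ((hL k).mono fun z hz => hz.1)
      · exact le_fderiv_of_dist (hit k) x₀ (hdiff k x₀) L ((hL k).mono fun z hz => hz.2) v
      · intro U hU hne
        obtain ⟨N, hN⟩ := visit hα hc (pr '' U) (isOpenMap_pr U hU) (hne.image _)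
        obtain ⟨j, -, u, hu, hju⟩ := hN (pr x₀)
        rw [← hit] at hju
        obtain ⟨q, hq⟩ := (pr_eq_iff _ _).mp hju.symm
        exact ⟨j, q, hq ▸ hu⟩
  obtain ⟨C, hC⟩ := hbd
  obtain ⟨sH, sH'⟩ := smooth_of_bounded hd hβ C hC
  exact ⟨smM_of_lift (fun x => A.mulVec (H x)) ((TMain_lin A).comp sH) hH,
    smM_of_lift (fun x => H' (A'.mulVec x)) (sH'.comp (TMain_lin A')) hH'⟩

end QPR
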